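import Pool.Agent.STZ.Basic

/-!
# STZ/Proj: the projections `P l` on bounded measurable functions

`g`, `h` are measurable and bounded. PROOFS.
* `P_continuous`: `x ↦ ∫ k l x z * g z` is continuous (`continuous_of_dominated`, the kernel is
  bounded by `D l`, `norm_le`).
* `inner_P`: `∫_x P_l g(x) conj (P_l h (x)) = ∫_x P_l g(x) conj (h x)`:
  `∫_x P_l g(x) conj(∫_y k l x y h y) = ∫_y conj(h y) ∫_x k l y x (P_l g)(x)` (Fubini, `herm`) and
  `∫_x k l y x ∫_z k l x z g z = ∫_z (∫_x k l y x k l x z) g z = P_l g (y)` by `comp`.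
* `inner_P_ne`: the same with `l ≠ l'` gives `0`.
* `bessel`: with `u = ∑_{l ∈ F} P_l g`, `0 ≤ ∫ ‖g - u‖^2 = ∫‖g‖^2 - 2 Re ∫ u conj g + ∫ ‖u‖^2`,
  `∫ u conj g = ∑ ∫‖P_l g‖^2 = ∫‖u‖^2` by `inner_P`, `inner_P_ne`.
* `inner_kernel`: `∫ P_l g conj(P_l h) = ∫_x ∫_y k l x y g(y) conj(h x)`, immediate from `inner_P`.
-/

open MeasureTheory Complex
open scoped ComplexConjugate

namespace STZ

variable {X Λ : Type*} [TopologicalSpace X] [CompactSpace X] [T2Space X]
  [SecondCountableTopology X] [MeasureSpace X] [BorelSpace X]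
  [IsProbabilityMeasure (volume : Measure X)] [DecidableEq Λ]

namespace RK

theorem P_continuous (R : RK X Λ) (l : Λ) {g : X → ℂ} {M : ℝ} (hg : Measurable g)
    (hM : ∀ x, ‖g x‖ ≤ M) : Continuous (R.P l g) := by
  have hk : ∀ x, Continuous fun z => R.k l x z := fun x =>
    (R.cont l).comp (continuous_const.prodMk continuous_id)
  have hk' : ∀ z, Continuous fun x => R.k l x z := fun z =>
    (R.cont l).comp (continuous_id.prodMk continuous_const)
  unfold RK.P
  refine continuous_of_dominated (bound := fun _ => R.D l * M) ?_ ?_ ?_ ?_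
  · intro x
    exact ((hk x).measurable.mul hg).aestronglyMeasurable
  · intro x
    refine Filter.Eventually.of_forall fun z => ?_
    rw [norm_mul]
    exact mul_le_mul (R.norm_le l x z) (hM z) (norm_nonneg _) (R.D_nonneg l)
  · exact integrable_const _
  · exact Filter.Eventually.of_forall fun z => (hk' z).mul continuous_const

/-- A pointwise bound of `P l g`. -/
theorem P_bound (R : RK X Λ) (l : Λ) {g : X → ℂ} {M : ℝ}
    (hM : ∀ x, ‖g x‖ ≤ M) (x : X) : ‖R.P l g x‖ ≤ R.D l * M := by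
  unfold RK.P
  have h1 := norm_integral_le_of_norm_le_const (μ := (volume : Measure X))
    (f := fun z => R.k l x z * g z) (C := R.D l * M)
    (Filter.Eventually.of_forall fun z => by
      rw [norm_mul]
      exact mul_le_mul (R.norm_le l x z) (hM z) (norm_nonneg _) (R.D_nonneg l))
  simpa using h1

/-- Bounded measurable functions are integrable. -/
theorem integrable_bdd {f : X → ℂ} {C : ℝ} (hf : Measurable f) (hC : ∀ x, ‖f x‖ ≤ C) :
    Integrable f := Integrable.of_bound hf.aestronglyMeasurable C (Filter.Eventually.of_forall hC)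

/-- Swapping two integrals of a bounded measurable function. -/
theorem swap_bdd {f : X → X → ℂ} {C : ℝ} (hf : Measurable (Function.uncurry f))
    (hC : ∀ x y, ‖f x y‖ ≤ C) : ∫ x, ∫ y, f x y = ∫ y, ∫ x, f x y := by
  refine integral_integral_swap ?_
  exact Integrable.of_bound hf.aestronglyMeasurable C
    (Filter.Eventually.of_forall fun p => hC p.1 p.2)

/-- `P l` is self-adjoint. -/
theorem P_selfadj (R : RK X Λ) (l : Λ) {g h : X → ℂ} {M M' : ℝ} (hg : Measurable g)
    (hgM : ∀ x, ‖g x‖ ≤ M) (hh : Measurable h) (hhM : ∀ x, ‖h x‖ ≤ M') :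
    ∫ x, R.P l g x * conj (h x) = ∫ x, g x * conj (R.P l h x) := by
  have h0 : 0 ≤ M := by
    obtain ⟨x⟩ := nonempty_of_isProbabilityMeasure (volume : Measure X)
    exact (norm_nonneg _).trans (hgM x)
  have hconj : Measurable fun x => conj (h x) := Complex.continuous_conj.measurable.comp hh
  have h1 : ∀ x, R.P l g x * conj (h x) = ∫ y, R.k l x y * g y * conj (h x) := by
    intro x
    unfold RK.P
    rw [← integral_mul_const]
  have h2 : ∀ y, g y * conj (R.P l h y) = ∫ x, R.k l x y * g y * conj (h x) := by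
    intro y
    unfold RK.P
    rw [← integral_conj, ← integral_const_mul]
    refine integral_congr_ae (Filter.Eventually.of_forall fun x => ?_)
    simp only [map_mul]
    rw [R.herm l y x]
    ring
  simp only [h1, h2]
  refine swap_bdd (C := R.D l * M * M') ?_ ?_
  · exact (((R.cont l).measurable).mul (hg.comp measurable_snd)).mul (hconj.comp measurable_fst)
  · intro x y
    rw [norm_mul, norm_mul, RCLike.norm_conj]
    exact mul_le_mul (mul_le_mul (R.norm_le l x y) (hgM y) (norm_nonneg _) (R.D_nonneg l))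
      (hhM x) (norm_nonneg _) (mul_nonneg (R.D_nonneg l) h0)

/-- Composition of two projections. -/
theorem P_P (R : RK X Λ) (l l' : Λ) {g : X → ℂ} {M : ℝ} (hg : Measurable g)
    (hgM : ∀ x, ‖g x‖ ≤ M) (x : X) :
    R.P l' (R.P l g) x = if l' = l then R.P l' g x else 0 := by
  have h1 : ∀ z, R.k l' x z * R.P l g z = ∫ w, R.k l' x z * R.k l z w * g w := by
    intro z
    unfold RK.P
    rw [← integral_const_mul]
    refine integral_congr_ae (Filter.Eventually.of_forall fun w => ?_)
    simp only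
    ring
  have h2 : ∫ z, ∫ w, R.k l' x z * R.k l z w * g w = ∫ w, ∫ z, R.k l' x z * R.k l z w * g w := by
    refine swap_bdd (C := R.D l' * R.D l * M) ?_ ?_
    · refine Measurable.mul (Measurable.mul ?_ ((R.cont l).measurable)) (hg.comp measurable_snd)
      exact ((R.cont l').comp (continuous_const.prodMk continuous_fst)).measurable
    · intro z w
      rw [norm_mul, norm_mul]
      exact mul_le_mul (mul_le_mul (R.norm_le l' x z) (R.norm_le l z w) (norm_nonneg _)
        (R.D_nonneg l')) (hgM w) (norm_nonneg _) (mul_nonneg (R.D_nonneg l') (R.D_nonneg l))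
  have h3 : ∀ w, ∫ z, R.k l' x z * R.k l z w * g w
      = (if l' = l then R.k l' x w else 0) * g w := by
    intro w
    rw [integral_mul_const, R.comp]
  calc R.P l' (R.P l g) x = ∫ z, R.k l' x z * R.P l g z := rfl
    _ = ∫ z, ∫ w, R.k l' x z * R.k l z w * g w := by simp only [h1]
    _ = ∫ w, (if l' = l then R.k l' x w else 0) * g w := by rw [h2]; simp only [h3]
    _ = _ := by
      by_cases h : l' = l
      · simp only [if_pos h]; rfl
      · simp only [if_neg h, zero_mul, integral_zero]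

theorem inner_P_gen (R : RK X Λ) (l l' : Λ) {g h : X → ℂ} {M : ℝ} (hg : Measurable g)
    (hgM : ∀ x, ‖g x‖ ≤ M) (hh : Measurable h) (hhM : ∀ x, ‖h x‖ ≤ M) :
    ∫ x, R.P l g x * conj (R.P l' h x)
      = ∫ x, (if l' = l then R.P l' g x else 0) * conj (h x) := by
  have h1 := R.P_selfadj l' (R.P_continuous l hg hgM).measurable (R.P_bound l hgM) hh hhM
  rw [← h1]
  refine integral_congr_ae (Filter.Eventually.of_forall fun x => ?_)
  simp only
  rw [R.P_P l l' hg hgM x]

theorem inner_P (R : RK X Λ) (l : Λ) {g h : X → ℂ} {M : ℝ} (hg : Measurable g)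
    (hgM : ∀ x, ‖g x‖ ≤ M) (hh : Measurable h) (hhM : ∀ x, ‖h x‖ ≤ M) :
    ∫ x, R.P l g x * conj (R.P l h x) = ∫ x, R.P l g x * conj (h x) := by
  rw [R.inner_P_gen l l hg hgM hh hhM]
  simp only [if_true]

theorem inner_P_ne (R : RK X Λ) {l l' : Λ} (hl : l ≠ l') {g h : X → ℂ} {M : ℝ}
    (hg : Measurable g) (hgM : ∀ x, ‖g x‖ ≤ M) (hh : Measurable h) (hhM : ∀ x, ‖h x‖ ≤ M) :
    ∫ x, R.P l g x * conj (R.P l' h x) = 0 := by
  rw [R.inner_P_gen l l' hg hgM hh hhM]
  simp only [if_neg (Ne.symm hl), zero_mul, integral_zero]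

/-- The square integral as a complex number. -/
theorem sq_eq {f : X → ℂ} : ((∫ x, ‖f x‖ ^ 2 : ℝ) : ℂ) = ∫ x, f x * conj (f x) := by
  rw [← integral_complex_ofReal]
  refine integral_congr_ae (Filter.Eventually.of_forall fun x => ?_)
  simp only
  rw [Complex.mul_conj, Complex.normSq_eq_norm_sq]

theorem bessel (R : RK X Λ) (F : Finset Λ) {g : X → ℂ} {M : ℝ} (hg : Measurable g)
    (hgM : ∀ x, ‖g x‖ ≤ M) : ∑ l ∈ F, ∫ x, ‖R.P l g x‖ ^ 2 ≤ ∫ x, ‖g x‖ ^ 2 := by
  have hPm : ∀ l, Measurable (R.P l g) := fun l => (R.P_continuous l hg hgM).measurable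
  have hPb : ∀ l x, ‖R.P l g x‖ ≤ R.D l * M := fun l x => R.P_bound l hgM x
  have hcm : ∀ {u : X → ℂ}, Measurable u → Measurable fun x => conj (u x) :=
    fun hu => Complex.continuous_conj.measurable.comp hu
  have hint : ∀ {u v : X → ℂ} {A B : ℝ}, Measurable u → Measurable v → (∀ x, ‖u x‖ ≤ A) →
      (∀ x, ‖v x‖ ≤ B) → Integrable fun x => u x * conj (v x) := by
    intro u v A B hu hv hA hB
    refine integrable_bdd (C := A * B) (hu.mul (hcm hv)) fun x => ?_
    rw [norm_mul, RCLike.norm_conj]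
    exact mul_le_mul (hA x) (hB x) (norm_nonneg _) ((norm_nonneg _).trans (hA x))
  set u : X → ℂ := fun x => ∑ l ∈ F, R.P l g x with hu
  have hum : Measurable u := Finset.measurable_sum _ fun l _ => hPm l
  have hub : ∀ x, ‖u x‖ ≤ ∑ l ∈ F, R.D l * M := fun x =>
    (norm_sum_le _ _).trans (Finset.sum_le_sum fun l _ => hPb l x)
  set S : ℝ := ∑ l ∈ F, ∫ x, ‖R.P l g x‖ ^ 2 with hS
  have hSc : (S : ℂ) = ∑ l ∈ F, ∫ x, R.P l g x * conj (R.P l g x) := by
    rw [hS]
    push_cast
    exact Finset.sum_congr rfl fun l _ => sq_eq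
  -- `∫ u conj g = S`
  have h1 : ∫ x, u x * conj (g x) = S := by
    rw [hSc]
    have : ∀ x, u x * conj (g x) = ∑ l ∈ F, R.P l g x * conj (g x) := fun x => by
      rw [hu]; simp only [Finset.sum_mul]
    simp only [this]
    rw [integral_finsetSum _ fun l _ => hint (hPm l) hg (hPb l) hgM]
    exact Finset.sum_congr rfl fun l _ => (R.inner_P l hg hgM hg hgM).symm
  have h1' : ∫ x, g x * conj (u x) = S := by
    have h := congrArg conj h1
    rw [← integral_conj, Complex.conj_ofReal] at h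
    rw [← h]
    refine integral_congr_ae (Filter.Eventually.of_forall fun x => ?_)
    simp only [map_mul, Complex.conj_conj]
    ring
  -- `∫ u conj u = S`
  have h2 : ∫ x, u x * conj (u x) = S := by
    have h3 : ∀ x, u x * conj (u x) = ∑ l ∈ F, ∑ l' ∈ F, R.P l g x * conj (R.P l' g x) :=
      fun x => by
        rw [hu]; simp only [map_sum, Finset.sum_mul, Finset.mul_sum]
        rw [Finset.sum_comm]
    simp only [h3]
    rw [integral_finsetSum _ fun l _ => integrable_finsetSum _ fun l' _ =>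
      hint (hPm l) (hPm l') (hPb l) (hPb l')]
    rw [hSc]
    refine Finset.sum_congr rfl fun l hl => ?_
    rw [integral_finsetSum _ fun l' _ => hint (hPm l) (hPm l') (hPb l) (hPb l')]
    rw [Finset.sum_eq_single_of_mem l hl]
    intro l' _ hne
    exact R.inner_P_ne (Ne.symm hne) hg hgM hg hgM
  have h4 : ((∫ x, ‖g x - u x‖ ^ 2 : ℝ) : ℂ) = ((∫ x, ‖g x‖ ^ 2 : ℝ) : ℂ) - S := by
    rw [sq_eq (f := fun x => g x - u x), sq_eq (f := g)]
    have h5 : ∀ x, (g x - u x) * conj (g x - u x)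
        = (g x * conj (g x) - g x * conj (u x)) - (u x * conj (g x) - u x * conj (u x)) := by
      intro x
      rw [map_sub]; ring
    simp only [h5]
    have i1 : Integrable fun x => g x * conj (g x) := hint hg hg hgM hgM
    have i2 : Integrable fun x => g x * conj (u x) := hint hg hum hgM hub
    have i3 : Integrable fun x => u x * conj (g x) := hint hum hg hub hgM
    have i4 : Integrable fun x => u x * conj (u x) := hint hum hum hub hub
    have e1 : ∫ x, (g x * conj (g x) - g x * conj (u x)) - (u x * conj (g x) - u x * conj (u x))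
        = (∫ x, (g x * conj (g x) - g x * conj (u x)))
          - ∫ x, (u x * conj (g x) - u x * conj (u x)) := integral_sub (i1.sub i2) (i3.sub i4)
    rw [e1, integral_sub i1 i2, integral_sub i3 i4, h1, h1', h2]
    ring
  have h6 : ∫ x, ‖g x - u x‖ ^ 2 = (∫ x, ‖g x‖ ^ 2) - S := by exact_mod_cast h4
  have h7 : 0 ≤ ∫ x, ‖g x - u x‖ ^ 2 := integral_nonneg fun x => sq_nonneg _
  linarith

/-- `∫_x f(x) conj(g(x)) = ∫_x f(x) conj(P_l g(x))` for `f ∈ E_l`. -/
theorem inner_mem (R : RK X Λ) (l : Λ) {f g : X → ℂ} {M : ℝ} (hf : R.Mem l f)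
    (hg : Measurable g) (hgM : ∀ x, ‖g x‖ ≤ M) :
    ∫ x, f x * conj (g x) = ∫ x, f x * conj (R.P l g x) := by
  obtain ⟨C, hC⟩ := (isCompact_univ (X := X)).exists_bound_of_continuousOn hf.1.continuousOn
  rw [← R.P_selfadj l hf.1.measurable (fun x => hC x (Set.mem_univ x)) hg hgM]
  refine integral_congr_ae (Filter.Eventually.of_forall fun x => ?_)
  simp only
  rw [show R.P l f x = f x from hf.2 x]

/-- The two bounds for the quadratic form with multiplier `a`. -/
theorem form_le_L2 (R : RK X Λ) (F : Finset Λ) (a : Λ → ℂ) {A M : ℝ} (hA : ∀ l ∈ F, ‖a l‖ ≤ A)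
    (hA0 : 0 ≤ A) {g h : X → ℂ} (hg : Measurable g) (hgM : ∀ x, ‖g x‖ ≤ M) (hh : Measurable h)
    (hhM : ∀ x, ‖h x‖ ≤ M) :
    ‖∑ l ∈ F, a l * ∫ x, R.P l g x * conj (R.P l h x)‖ ≤
      A * ((∫ x, ‖g x‖ ^ 2 + ∫ x, ‖h x‖ ^ 2) / 2) := by
  have hsq : ∀ {v : X → ℂ} {B : ℝ}, Measurable v → (∀ x, ‖v x‖ ≤ B) →
      Integrable fun x => ‖v x‖ ^ 2 := by
    intro v B hv hB
    refine Integrable.of_bound (hv.norm.pow_const 2).aestronglyMeasurable (B ^ 2)
      (Filter.Eventually.of_forall fun x => ?_)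
    rw [Real.norm_of_nonneg (sq_nonneg _)]
    exact pow_le_pow_left₀ (norm_nonneg _) (hB x) 2
  have hterm : ∀ l, ‖∫ x, R.P l g x * conj (R.P l h x)‖
      ≤ ((∫ x, ‖R.P l g x‖ ^ 2) + (∫ x, ‖R.P l h x‖ ^ 2)) / 2 := by
    intro l
    have ig := hsq (R.P_continuous l hg hgM).measurable (R.P_bound l hgM)
    have ih := hsq (R.P_continuous l hh hhM).measurable (R.P_bound l hhM)
    calc ‖∫ x, R.P l g x * conj (R.P l h x)‖ ≤ ∫ x, (‖R.P l g x‖ ^ 2 + ‖R.P l h x‖ ^ 2) / 2 := by
          refine norm_integral_le_of_norm_le ((ig.add ih).div_const 2)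
            (Filter.Eventually.of_forall fun x => ?_)
          rw [norm_mul, RCLike.norm_conj]
          nlinarith [sq_nonneg (‖R.P l g x‖ - ‖R.P l h x‖)]
      _ = _ := by rw [integral_div, integral_add ig ih]
  calc ‖∑ l ∈ F, a l * ∫ x, R.P l g x * conj (R.P l h x)‖
      ≤ ∑ l ∈ F, ‖a l * ∫ x, R.P l g x * conj (R.P l h x)‖ := norm_sum_le _ _
    _ ≤ ∑ l ∈ F, A * (((∫ x, ‖R.P l g x‖ ^ 2) + (∫ x, ‖R.P l h x‖ ^ 2)) / 2) := by
        refine Finset.sum_le_sum fun l hl => ?_
        rw [norm_mul]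
        exact mul_le_mul (hA l hl) (hterm l) (norm_nonneg _) hA0
    _ = A * (((∑ l ∈ F, ∫ x, ‖R.P l g x‖ ^ 2) + (∑ l ∈ F, ∫ x, ‖R.P l h x‖ ^ 2)) / 2) := by
        rw [← Finset.mul_sum, ← Finset.sum_add_distrib, Finset.sum_div]
    _ ≤ A * (((∫ x, ‖g x‖ ^ 2) + (∫ x, ‖h x‖ ^ 2)) / 2) := by
        refine mul_le_mul_of_nonneg_left ?_ hA0
        have := R.bessel F hg hgM
        have := R.bessel F hh hhM
        linarith
    _ = A * ((∫ x, ‖g x‖ ^ 2 + ∫ x, ‖h x‖ ^ 2) / 2) := by
        rw [integral_add (hsq hg hgM) (integrable_const _), integral_const]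
        simp

theorem form_le_L1 (R : RK X Λ) (F : Finset Λ) (a : Λ → ℂ) {κ M : ℝ} (hκ : 0 ≤ κ)
    (hK : ∀ x y, ‖∑ l ∈ F, a l * R.k l x y‖ ≤ κ)
    {g h : X → ℂ} (hg : Measurable g) (hgM : ∀ x, ‖g x‖ ≤ M) (hh : Measurable h)
    (hhM : ∀ x, ‖h x‖ ≤ M) :
    ‖∑ l ∈ F, a l * ∫ x, R.P l g x * conj (R.P l h x)‖ ≤
      κ * (∫ x, ‖g x‖) * (∫ x, ‖h x‖) := by
  have hkm : ∀ l x, Measurable fun z => R.k l x z := fun l x =>
    ((R.cont l).comp (continuous_const.prodMk continuous_id)).measurable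
  have hgi : Integrable fun x => ‖g x‖ := (integrable_bdd hg hgM).norm
  have hhi : Integrable fun x => ‖h x‖ := (integrable_bdd hh hhM).norm
  have hcm : Measurable fun x => conj (h x) := Complex.continuous_conj.measurable.comp hh
  -- the sum is an integral
  have h1 : ∑ l ∈ F, a l * ∫ x, R.P l g x * conj (R.P l h x)
      = ∫ x, (∑ l ∈ F, a l * R.P l g x) * conj (h x) := by
    have h2 : ∀ x, (∑ l ∈ F, a l * R.P l g x) * conj (h x)
        = ∑ l ∈ F, a l * (R.P l g x * conj (h x)) := fun x => by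
      rw [Finset.sum_mul]
      exact Finset.sum_congr rfl fun l _ => by ring
    simp only [h2]
    rw [integral_finsetSum]
    · refine Finset.sum_congr rfl fun l _ => ?_
      rw [integral_const_mul, R.inner_P l hg hgM hh hhM]
    · intro l _
      refine Integrable.const_mul ?_ _
      refine integrable_bdd (C := R.D l * M * M)
        ((R.P_continuous l hg hgM).measurable.mul hcm) fun x => ?_
      rw [norm_mul, RCLike.norm_conj]
      exact mul_le_mul (R.P_bound l hgM x) (hhM x) (norm_nonneg _)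
        ((norm_nonneg _).trans (R.P_bound l hgM x))
  have h3 : ∀ x, ‖∑ l ∈ F, a l * R.P l g x‖ ≤ κ * ∫ y, ‖g y‖ := by
    intro x
    have h4 : ∑ l ∈ F, a l * R.P l g x = ∫ y, (∑ l ∈ F, a l * R.k l x y) * g y := by
      have h5 : ∀ y, (∑ l ∈ F, a l * R.k l x y) * g y = ∑ l ∈ F, a l * (R.k l x y * g y) :=
        fun y => by
          rw [Finset.sum_mul]
          exact Finset.sum_congr rfl fun l _ => by ring
      simp only [h5]
      rw [integral_finsetSum]
      · refine Finset.sum_congr rfl fun l _ => ?_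
        rw [integral_const_mul]
        rfl
      · intro l _
        refine Integrable.const_mul ?_ _
        refine integrable_bdd (C := R.D l * M) ((hkm l x).mul hg) fun y => ?_
        rw [norm_mul]
        exact mul_le_mul (R.norm_le l x y) (hgM y) (norm_nonneg _) (R.D_nonneg l)
    rw [h4, ← integral_const_mul]
    refine norm_integral_le_of_norm_le (hgi.const_mul κ) (Filter.Eventually.of_forall fun y => ?_)
    rw [norm_mul]
    exact mul_le_mul_of_nonneg_right (hK x y) (norm_nonneg _)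
  rw [h1, ← integral_const_mul]
  refine norm_integral_le_of_norm_le (hhi.const_mul _) (Filter.Eventually.of_forall fun x => ?_)
  rw [norm_mul, RCLike.norm_conj]
  exact mul_le_mul_of_nonneg_right (h3 x) (norm_nonneg _)

end RK

end STZ
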