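import Mathlib

/-!
# STZ/Dyadic: summation of dyadic blocks

PROOF. Put `σ = D/p > 0`, `γ = σ (p - q) > 0`, `v_j = ‖u j‖`, `S = ∑_{j<J} v_j`, `R_j = ∑_{j≤i<J} v_i`.
Since `a_i ≤ 1`, `∑_{i<j} v_i ≤ C0 ∑_{i<j} 2^(iσ) ≤ C1 2^(jσ)`, `C1 = C0/(2^σ - 1)`.
(1) Pointwise `S^p ≤ C2 ∑_{j<J} 2^(jγ) R_j^q`: if `S ≤ 2 C1` then
`S^p ≤ (2C1)^(p-q) S^q`, the term `j = 0` (if `J = 0` everything is `0`). If `S > 2 C1` let `j` be the
largest natural number with `2 C1 2^(jσ) ≤ S`; then `∑_{i<j} v_i ≤ S/2`, so `R_j ≥ S/2 > 0` (hence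
`j < J`) and `S^(p-q) ≤ (2 C1 2^((j+1)σ))^(p-q)`, so `S^p ≤ C 2^(jγ) (2 R_j)^q`.
(2) Hoelder: with `ρ = 2^(γ/(2q))`, `R_j^q = (∑_{i≥j} ρ^(-(i-j)) ρ^(i-j) v_i)^q`
`≤ (∑_k ρ^(-k q/(q-1)))^(q-1) ∑_{i≥j} ρ^((i-j) q) v_i^q`, so
`∫ R_j^q ≤ C3 ∑_{i≥j} 2^((i-j)γ/2) ∫ v_i^q ≤ C3 C0 ∑_{i≥j} 2^((i-j)γ/2) 2^(-iγ) a_i^q`
(note `q D (1/q - 1/p) = σ(p-q) = γ`).
(3) `∑_j 2^(jγ) ∫ R_j^q ≤ C ∑_i a_i^q ∑_{j≤i} 2^(-(i-j)γ/2) ≤ C' ∑ a_i^q ≤ C'` as `a_i ≤ 1`, `q ≥ 2`,
`∑ a_i² ≤ 1`. The functions are bounded and measurable, so integrable.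
-/

open MeasureTheory

namespace STZ

private lemma dy_geom_lt_one (t : ℝ) (ht0 : 0 < t) (K : ℕ) :
    ∑ k ∈ Finset.range K, (1 - t) * t ^ k < 1 := by
  rw [← Finset.mul_sum, mul_neg_geom_sum]
  have : 0 < t ^ K := pow_pos ht0 K
  linarith

private lemma dy_exists (b C0 t : ℝ) (hb : 1 < b) (hC0 : 0 < C0) (ht0 : 0 < t)
    (J : ℕ) (v : ℕ → ℝ) (hv : ∀ i < J, v i ≤ C0 * b ^ i) (S : ℝ)
    (hS : S = ∑ i ∈ Finset.range J, v i) (hS0 : 0 < S) (m : ℕ)
    (hm : ∑ i ∈ Finset.range m, C0 * b ^ i ≤ S / 2) (ht1 : t < 1) :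
    ∃ i < J, m ≤ i ∧ (1 - t) * t ^ (i - m) * (S / 2) ≤ v i := by
  by_contra hcon
  push Not at hcon
  set h : ℕ → ℝ := fun i => if i < m then C0 * b ^ i else (1 - t) * t ^ (i - m) * (S / 2) with hh
  have h0 : ∀ i, 0 ≤ h i := by
    intro i
    simp only [hh]
    split_ifs
    · positivity
    · have : 0 < 1 - t := by linarith
      positivity
  have h1 : ∀ i ∈ Finset.range J, v i ≤ h i := by
    intro i hi
    rw [Finset.mem_range] at hi
    simp only [hh]
    split_ifs with h2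
    · exact hv i hi
    · exact (hcon i hi (by omega)).le
  have h2 : S ≤ ∑ i ∈ Finset.range (m + J), h i := by
    rw [hS]
    calc ∑ i ∈ Finset.range J, v i ≤ ∑ i ∈ Finset.range J, h i := Finset.sum_le_sum h1
      _ ≤ ∑ i ∈ Finset.range (m + J), h i :=
          Finset.sum_le_sum_of_subset_of_nonneg
            (Finset.range_subset_range.mpr (by omega)) (fun i _ _ => h0 i)
  rw [Finset.sum_range_add] at h2
  have h3 : ∑ i ∈ Finset.range m, h i = ∑ i ∈ Finset.range m, C0 * b ^ i := by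
    apply Finset.sum_congr rfl
    intro i hi
    rw [Finset.mem_range] at hi
    simp only [hh, if_pos hi]
  have h4 : ∑ i ∈ Finset.range J, h (m + i) =
      (∑ i ∈ Finset.range J, (1 - t) * t ^ i) * (S / 2) := by
    rw [Finset.sum_mul]
    apply Finset.sum_congr rfl
    intro i hi
    simp only [hh]
    rw [if_neg (by omega)]
    congr 3
    omega
  rw [h3, h4] at h2
  have h5 := dy_geom_lt_one t ht0 J
  have h6 : (∑ i ∈ Finset.range J, (1 - t) * t ^ i) * (S / 2) < 1 * (S / 2) := by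
    apply mul_lt_mul_of_pos_right h5 (by linarith)
  linarith

private lemma dy_pointwise (p q b C0 : ℝ) (hq : 0 < q) (hqp : q < p) (hb : 1 < b) (hC0 : 0 < C0)
    (J : ℕ) (v : ℕ → ℝ) (hv0 : ∀ i, 0 ≤ v i) (hv : ∀ i < J, v i ≤ C0 * b ^ i) :
    (∑ i ∈ Finset.range J, v i) ^ p ≤
      ((2 * (C0 / (b - 1)) * b) ^ (p - q) * (2 / (1 - b ^ (-((p - q) / q)))) ^ q) *
        ∑ i ∈ Finset.range J, (b ^ (p - q)) ^ i * v i ^ q := by
  have hb0 : 0 < b := by linarith
  have hb1 : 0 < b - 1 := by linarith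
  set t : ℝ := b ^ (-((p - q) / q)) with ht
  have ht0 : 0 < t := Real.rpow_pos_of_pos hb0 _
  have hpq : 0 < p - q := by linarith
  have ht1 : t < 1 := by
    rw [ht]
    apply Real.rpow_lt_one_of_one_lt_of_neg hb
    have : 0 < (p - q) / q := by positivity
    linarith
  have h1t : 0 < 1 - t := by linarith
  set g : ℝ := b ^ (p - q) with hg
  have hg0 : 0 < g := Real.rpow_pos_of_pos hb0 _
  have hgt : g * t ^ q = 1 := by
    rw [hg, ht, ← Real.rpow_mul hb0.le, ← Real.rpow_add hb0]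
    have : p - q + -((p - q) / q) * q = 0 := by
      field_simp
      ring
    rw [this, Real.rpow_zero]
  have hsum0 : 0 ≤ ∑ i ∈ Finset.range J, g ^ i * v i ^ q := by
    apply Finset.sum_nonneg
    intro i _
    have := Real.rpow_nonneg (hv0 i) q
    positivity
  set S := ∑ i ∈ Finset.range J, v i with hS
  have hS0 : 0 ≤ S := Finset.sum_nonneg (fun i _ => hv0 i)
  rcases hS0.eq_or_lt with hS1 | hS1
  · rw [← hS1, Real.zero_rpow (by linarith)]
    positivity
  · have hex : ∃ n : ℕ, S / 2 < ∑ i ∈ Finset.range (n + 1), C0 * b ^ i := by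
      obtain ⟨n, hn⟩ := exists_nat_gt (S / 2 / C0)
      refine ⟨n, ?_⟩
      have h1 : ∑ i ∈ Finset.range (n + 1), C0 ≤ ∑ i ∈ Finset.range (n + 1), C0 * b ^ i := by
        apply Finset.sum_le_sum
        intro i _
        have : 1 ≤ b ^ i := one_le_pow₀ hb.le
        nlinarith
      have h2 : ∑ i ∈ Finset.range (n + 1), C0 = ((n : ℝ) + 1) * C0 := by
        simp
      rw [div_lt_iff₀ hC0] at hn
      nlinarith
    classical
    set m := Nat.find hex with hm
    have hm1 : S / 2 < ∑ i ∈ Finset.range (m + 1), C0 * b ^ i := Nat.find_spec hex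
    have hm2 : ∑ i ∈ Finset.range m, C0 * b ^ i ≤ S / 2 := by
      rcases Nat.eq_zero_or_pos m with h | h
      · rw [h]; simp; linarith
      · have h3 := Nat.find_min hex (m := m - 1) (by omega)
        push Not at h3
        have : m - 1 + 1 = m := by omega
        rw [this] at h3
        exact h3
    obtain ⟨i, hiJ, hmi, hi⟩ := dy_exists b C0 t hb hC0 ht0 J v hv S hS hS1 m hm2 ht1
    have hSm : S ≤ 2 * (C0 / (b - 1)) * b * b ^ m := by
      have h1 : ∑ i ∈ Finset.range (m + 1), C0 * b ^ i ≤ C0 / (b - 1) * b ^ (m + 1) := by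
        rw [← Finset.mul_sum, geom_sum_eq hb.ne', div_mul_eq_mul_div, mul_div_assoc]
        apply mul_le_mul_of_nonneg_left _ hC0.le
        gcongr
        linarith
      rw [pow_succ] at h1
      linarith
    have hSp : S ^ (p - q) ≤ (2 * (C0 / (b - 1)) * b) ^ (p - q) * g ^ m := by
      calc S ^ (p - q) ≤ (2 * (C0 / (b - 1)) * b * b ^ m) ^ (p - q) :=
            Real.rpow_le_rpow hS0 hSm hpq.le
        _ = (2 * (C0 / (b - 1)) * b) ^ (p - q) * g ^ m := by
            rw [Real.mul_rpow (by positivity) (by positivity), hg, ← Real.rpow_natCast b m,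
              ← Real.rpow_natCast (b ^ (p - q)) m, ← Real.rpow_mul hb0.le, ← Real.rpow_mul hb0.le,
              mul_comm (m : ℝ)]
    have hvi : g ^ m * S ^ q ≤ (2 / (1 - t)) ^ q * (g ^ i * v i ^ q) := by
      obtain ⟨k, rfl⟩ : ∃ k, i = m + k := ⟨i - m, by omega⟩
      have h1 : m + k - m = k := by omega
      rw [h1] at hi
      have h2 : ((1 - t) * t ^ k * (S / 2)) ^ q ≤ v (m + k) ^ q :=
        Real.rpow_le_rpow (by positivity) hi hq.le
      have h3 : (2 / (1 - t)) ^ q * (g ^ (m + k) * ((1 - t) * t ^ k * (S / 2)) ^ q) =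
          g ^ m * S ^ q := by
        have e1 : (2 / (1 - t)) ^ q * ((1 - t) * t ^ k * (S / 2)) ^ q = (t ^ q) ^ k * S ^ q := by
          rw [← Real.mul_rpow (by positivity) (by positivity)]
          have : 2 / (1 - t) * ((1 - t) * t ^ k * (S / 2)) = t ^ k * S := by
            field_simp
          rw [this, Real.mul_rpow (by positivity) hS0]
          congr 1
          rw [← Real.rpow_natCast t k, ← Real.rpow_natCast (t ^ q) k, ← Real.rpow_mul ht0.le,
            ← Real.rpow_mul ht0.le, mul_comm (k : ℝ)]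
        calc (2 / (1 - t)) ^ q * (g ^ (m + k) * ((1 - t) * t ^ k * (S / 2)) ^ q)
            = g ^ (m + k) * ((2 / (1 - t)) ^ q * ((1 - t) * t ^ k * (S / 2)) ^ q) := by ring
          _ = g ^ m * (g * t ^ q) ^ k * S ^ q := by rw [e1, mul_pow, pow_add]; ring
          _ = g ^ m * S ^ q := by rw [hgt]; simp
      rw [← h3]
      gcongr
    have hSS : S ^ p = S ^ (p - q) * S ^ q := by
      rw [← Real.rpow_add hS1]
      congr 1; ring
    have hle : g ^ i * v i ^ q ≤ ∑ i ∈ Finset.range J, g ^ i * v i ^ q := by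
      apply Finset.single_le_sum (f := fun i => g ^ i * v i ^ q) _ (Finset.mem_range.mpr hiJ)
      intro j _
      have := Real.rpow_nonneg (hv0 j) q
      positivity
    calc S ^ p = S ^ (p - q) * S ^ q := hSS
      _ ≤ (2 * (C0 / (b - 1)) * b) ^ (p - q) * g ^ m * S ^ q := by
          apply mul_le_mul_of_nonneg_right hSp (Real.rpow_nonneg hS0 q)
      _ = (2 * (C0 / (b - 1)) * b) ^ (p - q) * (g ^ m * S ^ q) := by ring
      _ ≤ (2 * (C0 / (b - 1)) * b) ^ (p - q) * ((2 / (1 - t)) ^ q * (g ^ i * v i ^ q)) := by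
          apply mul_le_mul_of_nonneg_left hvi (by positivity)
      _ ≤ (2 * (C0 / (b - 1)) * b) ^ (p - q) * ((2 / (1 - t)) ^ q *
          ∑ i ∈ Finset.range J, g ^ i * v i ^ q) := by
          gcongr
      _ = _ := by ring

theorem dyadic_sum (p q D C0 : ℝ) (hq : 2 ≤ q) (hqp : q < p) (hD : 0 < D) (hC0 : 0 < C0) :
    ∃ C : ℝ, 0 < C ∧ ∀ {Ω : Type} [MeasurableSpace Ω] (μ : Measure Ω) [IsFiniteMeasure μ]
      (J : ℕ) (u : ℕ → Ω → ℂ) (a : ℕ → ℝ), (∀ j, Measurable (u j)) → (∀ j, 0 ≤ a j) →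
      ∑ j ∈ Finset.range J, a j ^ 2 ≤ 1 →
      (∀ j < J, ∀ x, ‖u j x‖ ≤ C0 * 2 ^ ((j : ℝ) * D / p) * a j) →
      (∀ j < J, ∫ x, ‖u j x‖ ^ q ∂μ ≤ C0 * (2 ^ (-((j : ℝ) * D * (1 / q - 1 / p))) * a j) ^ q) →
      ∫ x, ‖∑ j ∈ Finset.range J, u j x‖ ^ p ∂μ ≤ C := by
  have hq0 : 0 < q := by linarith
  have hp0 : 0 < p := by linarith
  have hpq : 0 < p - q := by linarith
  set b : ℝ := 2 ^ (D / p) with hb
  have hb1 : 1 < b := Real.one_lt_rpow (by norm_num) (by positivity)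
  have hb0 : 0 < b := by linarith
  have hb10 : 0 < b - 1 := by linarith
  set t : ℝ := b ^ (-((p - q) / q)) with ht
  have ht1 : t < 1 := by
    rw [ht]
    apply Real.rpow_lt_one_of_one_lt_of_neg hb1
    have : 0 < (p - q) / q := by positivity
    linarith
  have h1t : 0 < 1 - t := by linarith
  set K : ℝ := (2 * (C0 / (b - 1)) * b) ^ (p - q) * (2 / (1 - t)) ^ q with hK
  have hK0 : 0 < K := by positivity
  refine ⟨K * C0, by positivity, ?_⟩
  intro Ω _ μ _ J u a hu ha hsum hsup hint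
  set g : ℝ := b ^ (p - q) with hg
  have hg0 : 0 < g := Real.rpow_pos_of_pos hb0 _
  have ha1 : ∀ j < J, a j ≤ 1 := by
    intro j hj
    have h1 : a j ^ 2 ≤ 1 := le_trans
      (Finset.single_le_sum (f := fun j => a j ^ 2) (fun i _ => sq_nonneg _)
        (Finset.mem_range.mpr hj)) hsum
    nlinarith [ha j]
  have hbj : ∀ j : ℕ, (2 : ℝ) ^ ((j : ℝ) * D / p) = b ^ j := by
    intro j
    rw [hb, ← Real.rpow_natCast, ← Real.rpow_mul (by norm_num)]
    congr 1
    ring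
  have hgj : ∀ j : ℕ, (2 : ℝ) ^ (-((j : ℝ) * D * (1 / q - 1 / p))) ≥ 0 := fun j => by positivity
  have hgj2 : ∀ j : ℕ, g ^ j * ((2 : ℝ) ^ (-((j : ℝ) * D * (1 / q - 1 / p)))) ^ q = 1 := by
    intro j
    have e1 : g ^ j = (2 : ℝ) ^ (D / p * (p - q) * (j : ℝ)) := by
      rw [hg, hb, ← Real.rpow_natCast, ← Real.rpow_mul (by norm_num : (0:ℝ) ≤ 2),
        ← Real.rpow_mul (by norm_num : (0:ℝ) ≤ 2)]
    rw [e1, ← Real.rpow_mul (by norm_num : (0:ℝ) ≤ 2), ← Real.rpow_add (by norm_num)]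
    have : D / p * (p - q) * (j : ℝ) + -((j : ℝ) * D * (1 / q - 1 / p)) * q = 0 := by
      field_simp
      ring
    rw [this, Real.rpow_zero]
  have hsup' : ∀ j < J, ∀ x, ‖u j x‖ ≤ C0 * b ^ j := by
    intro j hj x
    have h := hsup j hj x
    rw [hbj] at h
    calc ‖u j x‖ ≤ C0 * b ^ j * a j := h
      _ ≤ C0 * b ^ j * 1 := by
        apply mul_le_mul_of_nonneg_left (ha1 j hj) (by positivity)
      _ = C0 * b ^ j := by ring
  have hpt : ∀ x, ‖∑ j ∈ Finset.range J, u j x‖ ^ p ≤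
      K * ∑ i ∈ Finset.range J, g ^ i * ‖u i x‖ ^ q := by
    intro x
    calc ‖∑ j ∈ Finset.range J, u j x‖ ^ p ≤ (∑ j ∈ Finset.range J, ‖u j x‖) ^ p :=
          Real.rpow_le_rpow (norm_nonneg _) (norm_sum_le _ _) hp0.le
      _ ≤ _ := dy_pointwise p q b C0 hq0 hqp hb1 hC0 J (fun j => ‖u j x‖)
          (fun i => norm_nonneg _) (fun i hi => hsup' i hi x)
  have hI : ∀ i ∈ Finset.range J, Integrable (fun x => g ^ i * ‖u i x‖ ^ q) μ := by
    intro i hi
    rw [Finset.mem_range] at hi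
    apply Integrable.const_mul
    apply Integrable.of_bound (C := (C0 * b ^ i) ^ q)
    · exact ((hu i).norm.pow_const q).aestronglyMeasurable
    · filter_upwards with x
      rw [Real.norm_of_nonneg (by positivity)]
      exact Real.rpow_le_rpow (norm_nonneg _) (hsup' i hi x) hq0.le
  calc ∫ x, ‖∑ j ∈ Finset.range J, u j x‖ ^ p ∂μ
      ≤ ∫ x, K * ∑ i ∈ Finset.range J, g ^ i * ‖u i x‖ ^ q ∂μ := by
        apply integral_mono_of_nonneg
        · filter_upwards with x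
          positivity
        · exact (integrable_finsetSum _ hI).const_mul K
        · filter_upwards with x using hpt x
    _ = K * ∑ i ∈ Finset.range J, g ^ i * ∫ x, ‖u i x‖ ^ q ∂μ := by
        rw [integral_const_mul, integral_finsetSum _ hI]
        congr 1
        apply Finset.sum_congr rfl
        intro i _
        rw [integral_const_mul]
    _ ≤ K * ∑ i ∈ Finset.range J, C0 * a i ^ 2 := by
        apply mul_le_mul_of_nonneg_left _ hK0.le
        apply Finset.sum_le_sum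
        intro i hi
        rw [Finset.mem_range] at hi
        calc g ^ i * ∫ x, ‖u i x‖ ^ q ∂μ
            ≤ g ^ i * (C0 * (2 ^ (-((i : ℝ) * D * (1 / q - 1 / p))) * a i) ^ q) := by
              apply mul_le_mul_of_nonneg_left (hint i hi) (by positivity)
          _ = C0 * (g ^ i * (2 ^ (-((i : ℝ) * D * (1 / q - 1 / p)))) ^ q) * a i ^ q := by
              rw [Real.mul_rpow (hgj i) (ha i)]; ring
          _ = C0 * a i ^ q := by rw [hgj2]; ring
          _ ≤ C0 * a i ^ 2 := by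
              apply mul_le_mul_of_nonneg_left _ hC0.le
              rcases (ha i).eq_or_lt with h | h
              · rw [← h, Real.zero_rpow hq0.ne']; norm_num
              · rw [← Real.rpow_two]
                exact Real.rpow_le_rpow_of_exponent_ge h (ha1 i hi) hq
    _ = K * C0 * ∑ i ∈ Finset.range J, a i ^ 2 := by rw [← Finset.mul_sum]; ring
    _ ≤ K * C0 * 1 := by
        apply mul_le_mul_of_nonneg_left hsum (by positivity)
    _ = K * C0 := by ring

end STZ
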