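import Pool.Agent.STZ.Basic
import Pool.Agent.STZ.Dyadic

/-!
# STZ/HsSum: from the localised estimates to the Sobolev estimate

PROOF. `D = d + 2`, `σ = d/2 - D/p ≥ 0` (`= s_p`). For `l : Λ` let `j(l) = Nat.log 2 (size l + 1)`, so
`2^j ≤ size l + 1 < 2^(j+1)`; `F_j = {l ∈ F : j(l) = j}`, `J = 1 + sup j(l)`, `u_j = evol om F_j f`,
`u = ∑_{j<J} u_j`, `A_j² = ∑_{F_j} ∫‖f_l‖²`. For `l ∈ F_j`: `1 + om l ≥ c (1+size l)² ≥ c 4^j`, hence
`X := ∑_F (1+om l)^σ ∫‖f_l‖² ≥ c^σ ∑_j 4^(jσ) A_j²`. If `X = 0` then all `A_j = 0` and `u = 0`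
(`bernstein`). Otherwise put `a_j = c^(σ/2) 2^(jσ) A_j/√X`, so `∑ a_j² ≤ 1`, and apply `dyadic_sum` to
`u_j/√X`, measure `stm X T0`, `D = d+2`:
* sup: `‖u_j‖² ≤ C (2^(j+1))^d A_j²` (`bernstein`, `DS`, `mem_smul`), so
  `‖u_j‖/√X ≤ C' 2^(jd/2) 2^(-jσ) a_j = C' 2^(jD/p) a_j`.
* `BE` with `N = 2^(j+1)`: `∫‖u_j‖^q ≤ C N^(dq/2-d-2) A_j^q`, so
  `∫‖u_j/√X‖^q ≤ C' 2^(j(dq/2-d-2-σq)) a_j^q` and `dq/2 - d - 2 - σ q = -D + qD/p = -q D (1/q - 1/p)`.
Conclusion `∫‖u‖^p ≤ C X^(p/2)`. (`dyadic_sum` is for `Ω : Type`; here `X : Type`.)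
-/

open MeasureTheory Complex
open scoped ComplexConjugate

namespace STZ

namespace HsSumAux

lemma norm_phase (a : ℝ) : ‖cexp (-((a : ℝ) : ℂ) * I)‖ = 1 := by
  have h : (-((a : ℝ) : ℂ) * I) = ((-a : ℝ) : ℂ) * I := by push_cast; ring
  rw [h, Complex.norm_exp_ofReal_mul_I]

/-- pointwise bound for the evolution of a block -/
lemma evol_le {X Λ : Type} [TopologicalSpace X] [CompactSpace X] [T2Space X]
    [SecondCountableTopology X] [MeasureSpace X] [BorelSpace X]
    [IsProbabilityMeasure (volume : Measure X)] [DecidableEq Λ]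
    (R : RK X Λ) (om : Λ → ℝ) (F : Finset Λ) (f : Λ → X → ℂ) (hf : ∀ l ∈ F, R.Mem l (f l))
    (t : ℝ) (x : X) :
    ‖evol om F f t x‖ ^ 2 ≤ (∑ l ∈ F, R.D l) * ∑ l ∈ F, ∫ z, ‖f l z‖ ^ 2 := by
  unfold evol
  have h := R.bernstein F (fun l x => cexp (-((t * om l : ℝ) : ℂ) * I) * f l x)
    (fun l hl => R.mem_smul (hf l hl) _) x
  simp only [norm_mul, norm_phase, one_mul] at h
  exact h

lemma evol_measurable {X Λ : Type} [TopologicalSpace X] [CompactSpace X] [T2Space X]
    [SecondCountableTopology X] [MeasureSpace X] [BorelSpace X]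
    [IsProbabilityMeasure (volume : Measure X)] [DecidableEq Λ]
    (R : RK X Λ) (om : Λ → ℝ) (F : Finset Λ) (f : Λ → X → ℂ) (hf : ∀ l ∈ F, R.Mem l (f l)) :
    Measurable fun z : ℝ × X => evol om F f z.1 z.2 := by
  unfold evol
  refine Finset.measurable_fun_sum F fun l hl => ?_
  refine Measurable.mul ?_ ?_
  · refine Complex.measurable_exp.comp ?_
    refine Measurable.mul_const ?_ _
    refine Measurable.neg ?_
    refine Complex.measurable_ofReal.comp ?_
    exact measurable_fst.mul_const _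
  · exact (hf l hl).1.measurable.comp measurable_snd

end HsSumAux

open HsSumAux

theorem Hs_of_BE {X Λ : Type} [TopologicalSpace X] [CompactSpace X] [T2Space X]
    [SecondCountableTopology X] [MeasureSpace X] [BorelSpace X]
    [IsProbabilityMeasure (volume : Measure X)] [DecidableEq Λ]
    (R : RK X Λ) (om : Λ → ℝ) (size : Λ → ℕ) (d : ℕ) (q p : ℝ) (hq : 2 ≤ q) (hqp : q < p)
    (hs : 0 ≤ (d : ℝ) / 2 - ((d : ℝ) + 2) / p) (hBE : BE R om size d q) (hDS : DS R size d)
    (c : ℝ) (hc : 0 < c) (hom : ∀ l, c * (1 + (size l : ℝ)) ^ 2 ≤ 1 + om l)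
    (T0 : ℝ) (hT0 : 0 < T0) :
    ∃ C : ℝ, 0 < C ∧ ∀ (F : Finset Λ) (f : Λ → X → ℂ), (∀ l ∈ F, R.Mem l (f l)) →
      ∫ z, ‖evol om F f z.1 z.2‖ ^ p ∂(stm X T0) ≤
        C * (∑ l ∈ F, (1 + om l) ^ ((d : ℝ) / 2 - ((d : ℝ) + 2) / p) * ∫ x, ‖f l x‖ ^ 2) ^ (p / 2) := by
  classical
  have hp0 : 0 < p := by linarith
  have hq0 : 0 < q := by linarith
  obtain ⟨CB, hCB, hB⟩ := hBE T0 hT0
  obtain ⟨CD, hCD, hD⟩ := hDS
  set σ : ℝ := (d : ℝ) / 2 - ((d : ℝ) + 2) / p with hσ
  set e : ℝ := (d : ℝ) * q / 2 - d - 2 with he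
  -- the constants
  set C1 : ℝ := √CD * 2 ^ ((d : ℝ) / 2) * c ^ (-(σ / 2)) with hC1
  have hC1pos : 0 < C1 := by
    have : 0 < CD := by linarith
    positivity
  set C2 : ℝ := CB * 2 ^ e * (c ^ (-(σ / 2))) ^ q with hC2
  have hC2pos : 0 < C2 := by positivity
  obtain ⟨C, hC, hdy⟩ := dyadic_sum p q ((d : ℝ) + 2) (C1 + C2) hq hqp (by positivity)
    (by positivity)
  refine ⟨C, hC, fun F f hf => ?_⟩
  -- the dyadic level
  set jj : Λ → ℕ := fun l => Nat.log 2 (size l + 1) with hjj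
  set J : ℕ := F.sup jj + 1 with hJ
  set Fj : ℕ → Finset Λ := fun j => F.filter (fun l => jj l = j) with hFj
  have hFjF : ∀ j, Fj j ⊆ F := fun j => Finset.filter_subset _ _
  have hfj : ∀ j, ∀ l ∈ Fj j, R.Mem l (f l) := fun j l hl => hf l (hFjF j hl)
  have hmaps : ∀ l ∈ F, jj l ∈ Finset.range J := by
    intro l hl
    rw [Finset.mem_range, hJ]
    exact Nat.lt_succ_of_le (Finset.le_sup (f := jj) hl)
  have hsize : ∀ j, ∀ l ∈ Fj j, size l ≤ 2 ^ (j + 1) := by
    intro j l hl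
    have h1 : jj l = j := (Finset.mem_filter.1 hl).2
    have h2 : size l + 1 < 2 ^ (jj l + 1) := Nat.lt_pow_succ_log_self (by norm_num) _
    rw [h1] at h2
    omega
  have hsize2 : ∀ j, ∀ l ∈ Fj j, (2 : ℝ) ^ (j : ℕ) ≤ 1 + (size l : ℝ) := by
    intro j l hl
    have h1 : jj l = j := (Finset.mem_filter.1 hl).2
    have h2 : 2 ^ (jj l) ≤ size l + 1 := Nat.pow_log_le_self 2 (by omega)
    rw [h1] at h2
    have h3 : ((2 ^ j : ℕ) : ℝ) ≤ ((size l + 1 : ℕ) : ℝ) := by exact_mod_cast h2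
    push_cast at h3
    linarith
  set E : ℕ → ℝ := fun j => ∑ l ∈ Fj j, ∫ x, ‖f l x‖ ^ 2 with hE
  have hint0 : ∀ l, 0 ≤ ∫ x, ‖f l x‖ ^ 2 := fun l => integral_nonneg fun x => by positivity
  have hE0 : ∀ j, 0 ≤ E j := fun j => Finset.sum_nonneg fun l _ => hint0 l
  set X0 : ℝ := ∑ l ∈ F, (1 + om l) ^ σ * ∫ x, ‖f l x‖ ^ 2 with hX0
  have hom1 : ∀ l, 0 < 1 + om l := fun l => lt_of_lt_of_le (by positivity) (hom l)
  have hX0nn : 0 ≤ X0 := Finset.sum_nonneg fun l _ =>
    mul_nonneg (Real.rpow_nonneg (hom1 l).le _) (hint0 l)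
  -- the main lower bound for X0
  have hXlow : ∑ j ∈ Finset.range J, c ^ σ * ((2 : ℝ) ^ ((j : ℝ) * σ)) ^ 2 * E j ≤ X0 := by
    have h1 : X0 = ∑ j ∈ Finset.range J, ∑ l ∈ Fj j, (1 + om l) ^ σ * ∫ x, ‖f l x‖ ^ 2 := by
      rw [hX0]
      exact (Finset.sum_fiberwise_of_maps_to hmaps _).symm
    rw [h1]
    refine Finset.sum_le_sum fun j _ => ?_
    rw [hE]
    simp only
    rw [Finset.mul_sum]
    refine Finset.sum_le_sum fun l hl => ?_
    refine mul_le_mul_of_nonneg_right ?_ (hint0 l)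
    have h2 : c ^ σ * ((2 : ℝ) ^ ((j : ℝ) * σ)) ^ 2 = (c * ((2 : ℝ) ^ (j : ℕ)) ^ 2) ^ σ := by
      rw [Real.mul_rpow hc.le (by positivity)]
      congr 1
      rw [← Real.rpow_natCast (2 : ℝ) j, ← Real.rpow_natCast (_ : ℝ) 2,
        ← Real.rpow_natCast (_ : ℝ) 2, ← Real.rpow_mul (by norm_num), ← Real.rpow_mul (by norm_num),
        ← Real.rpow_mul (by norm_num)]
      congr 1
      ring
    rw [h2]
    refine Real.rpow_le_rpow (by positivity) ?_ hs
    refine le_trans ?_ (hom l)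
    refine mul_le_mul_of_nonneg_left ?_ hc.le
    exact pow_le_pow_left₀ (by positivity) (hsize2 j l hl) 2
  -- decomposition of the evolution
  have hdec : ∀ t x, evol om F f t x = ∑ j ∈ Finset.range J, evol om (Fj j) f t x := by
    intro t x
    unfold evol
    exact (Finset.sum_fiberwise_of_maps_to hmaps _).symm
  -- pointwise bounds
  have hpt : ∀ j, ∀ t x, ‖evol om (Fj j) f t x‖ ^ 2 ≤
      CD * ((2 : ℝ) ^ (j + 1)) ^ d * E j := by
    intro j t x
    refine (evol_le R om (Fj j) f (hfj j) t x).trans ?_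
    refine mul_le_mul_of_nonneg_right ?_ (hE0 j)
    have h := hD (2 ^ (j + 1)) Nat.one_le_two_pow (Fj j) (hsize j)
    push_cast at h
    exact h
  rcases hX0nn.eq_or_lt with hX | hX
  · -- the degenerate case
    have hEz : ∀ j ∈ Finset.range J, E j = 0 := by
      intro j hj
      have h1 : c ^ σ * ((2 : ℝ) ^ ((j : ℝ) * σ)) ^ 2 * E j ≤ 0 := by
        refine le_trans ?_ (hXlow.trans hX.symm.le)
        exact Finset.single_le_sum
          (f := fun j : ℕ => c ^ σ * ((2 : ℝ) ^ ((j : ℝ) * σ)) ^ 2 * E j)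
          (fun i _ => mul_nonneg (by positivity) (hE0 i)) hj
      have h2 : 0 < c ^ σ * ((2 : ℝ) ^ ((j : ℝ) * σ)) ^ 2 := by positivity
      have h3 := hE0 j
      nlinarith
    have hz : ∀ t x, evol om F f t x = 0 := by
      intro t x
      rw [hdec]
      refine Finset.sum_eq_zero fun j hj => ?_
      have h1 := hpt j t x
      rw [hEz j hj, mul_zero] at h1
      have h2 : ‖evol om (Fj j) f t x‖ = 0 := by
        have := sq_nonneg ‖evol om (Fj j) f t x‖
        have h3 : ‖evol om (Fj j) f t x‖ ^ 2 = 0 := le_antisymm h1 this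
        exact pow_eq_zero_iff (two_ne_zero) |>.1 h3
      exact norm_eq_zero.1 h2
    simp only [hz, norm_zero]
    rw [Real.zero_rpow hp0.ne']
    simp only [integral_zero]
    exact mul_nonneg hC.le (Real.rpow_nonneg hX0nn _)
  · -- the main case
    set rX : ℝ := √X0 with hrX
    have hrXpos : 0 < rX := Real.sqrt_pos.2 hX
    have hrX2 : rX ^ 2 = X0 := Real.sq_sqrt hX.le
    set A : ℕ → ℝ := fun j => √(E j) with hA
    have hA0 : ∀ j, 0 ≤ A j := fun j => Real.sqrt_nonneg _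
    have hA2 : ∀ j, A j ^ 2 = E j := fun j => Real.sq_sqrt (hE0 j)
    set a : ℕ → ℝ := fun j => c ^ (σ / 2) * (2 : ℝ) ^ ((j : ℝ) * σ) * A j / rX with ha
    have ha0 : ∀ j, 0 ≤ a j := by
      intro j
      rw [ha]
      have := hA0 j
      positivity
    have hAa : ∀ j, A j / rX = c ^ (-(σ / 2)) * (2 : ℝ) ^ (-((j : ℝ) * σ)) * a j := by
      intro j
      rw [ha]
      simp only
      rw [Real.rpow_neg hc.le, Real.rpow_neg (by norm_num : (0 : ℝ) ≤ 2)]
      have h1 : c ^ (σ / 2) ≠ 0 := (Real.rpow_pos_of_pos hc _).ne'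
      have h2 : (2 : ℝ) ^ ((j : ℝ) * σ) ≠ 0 := (Real.rpow_pos_of_pos (by norm_num) _).ne'
      field_simp
    have hasum : ∑ j ∈ Finset.range J, a j ^ 2 ≤ 1 := by
      have h1 : ∀ j, a j ^ 2 = (c ^ σ * ((2 : ℝ) ^ ((j : ℝ) * σ)) ^ 2 * E j) / X0 := by
        intro j
        rw [ha]
        simp only
        rw [div_pow, mul_pow, mul_pow, hrX2, hA2]
        have h2 : (c ^ (σ / 2)) ^ 2 = c ^ σ := by
          rw [← Real.rpow_natCast, ← Real.rpow_mul hc.le]
          congr 1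
          push_cast; ring
        rw [h2]
      simp only [h1]
      rw [← Finset.sum_div, div_le_one hX]
      exact hXlow
    set v : ℕ → ℝ × X → ℂ := fun j z => evol om (Fj j) f z.1 z.2 / (rX : ℂ) with hv
    have hvnorm : ∀ j z, ‖v j z‖ = ‖evol om (Fj j) f z.1 z.2‖ / rX := by
      intro j z
      rw [hv]
      simp only
      rw [norm_div, Complex.norm_real, Real.norm_of_nonneg hrXpos.le]
    have hmeas : ∀ j, Measurable (v j) := by
      intro j
      rw [hv]
      exact (evol_measurable R om (Fj j) f (hfj j)).div_const _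
    have hsup : ∀ j < J, ∀ z, ‖v j z‖ ≤
        (C1 + C2) * 2 ^ ((j : ℝ) * ((d : ℝ) + 2) / p) * a j := by
      intro j _ z
      have h1 : ‖v j z‖ ≤ C1 * 2 ^ ((j : ℝ) * ((d : ℝ) + 2) / p) * a j := by
        rw [hvnorm]
        have h2 : ‖evol om (Fj j) f z.1 z.2‖ ≤ √CD * 2 ^ (((j : ℝ) + 1) * (d / 2)) * A j := by
          refine abs_le_of_sq_le_sq' ?_ ?_ |>.2
          · refine (hpt j z.1 z.2).trans (le_of_eq ?_)
            rw [mul_pow, mul_pow, hA2, Real.sq_sqrt (by linarith)]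
            congr 2
            rw [← Real.rpow_natCast (2 : ℝ) (j + 1), ← Real.rpow_natCast (_ : ℝ) d,
              ← Real.rpow_natCast (_ : ℝ) 2, ← Real.rpow_mul (by norm_num),
              ← Real.rpow_mul (by norm_num)]
            congr 1
            push_cast; ring
          · have := hA0 j
            positivity
        calc ‖evol om (Fj j) f z.1 z.2‖ / rX
            ≤ √CD * 2 ^ (((j : ℝ) + 1) * (d / 2)) * A j / rX :=
              div_le_div_of_nonneg_right h2 hrXpos.le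
          _ = √CD * 2 ^ (((j : ℝ) + 1) * (d / 2)) * (A j / rX) := by ring
          _ = √CD * c ^ (-(σ / 2)) *
                (2 ^ (((j : ℝ) + 1) * (d / 2)) * (2 : ℝ) ^ (-((j : ℝ) * σ))) * a j := by
              rw [hAa]; ring
          _ = √CD * c ^ (-(σ / 2)) *
                (2 ^ ((d : ℝ) / 2) * 2 ^ ((j : ℝ) * ((d : ℝ) + 2) / p)) * a j := by
              congr 2
              rw [← Real.rpow_add (by norm_num), ← Real.rpow_add (by norm_num)]
              congr 1
              rw [hσ]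
              ring
          _ = C1 * 2 ^ ((j : ℝ) * ((d : ℝ) + 2) / p) * a j := by
              rw [hC1]; ring
      refine h1.trans ?_
      refine mul_le_mul_of_nonneg_right ?_ (ha0 j)
      refine mul_le_mul_of_nonneg_right ?_ (by positivity)
      linarith
    have hLq : ∀ j < J, ∫ z, ‖v j z‖ ^ q ∂(stm X T0) ≤
        (C1 + C2) * (2 ^ (-((j : ℝ) * ((d : ℝ) + 2) * (1 / q - 1 / p))) * a j) ^ q := by
      intro j _
      have h1 : ∫ z, ‖v j z‖ ^ q ∂(stm X T0) ≤
          C2 * (2 ^ (-((j : ℝ) * ((d : ℝ) + 2) * (1 / q - 1 / p))) * a j) ^ q := by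
        have h2 : ∀ z, ‖v j z‖ ^ q = ‖evol om (Fj j) f z.1 z.2‖ ^ q / rX ^ q := by
          intro z
          rw [hvnorm, Real.div_rpow (norm_nonneg _) hrXpos.le]
        simp only [h2]
        rw [integral_div]
        have h3 := hB (2 ^ (j + 1)) Nat.one_le_two_pow (Fj j) (hsize j) f (hfj j)
        push_cast at h3
        have h4 : (∑ l ∈ Fj j, ∫ x, ‖f l x‖ ^ 2) ^ (q / 2) = A j ^ q := by
          have : (∑ l ∈ Fj j, ∫ x, ‖f l x‖ ^ 2) = A j ^ 2 := (hA2 j).symm
          rw [this, ← Real.rpow_natCast, ← Real.rpow_mul (hA0 j)]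
          congr 1
          push_cast; ring
        rw [h4] at h3
        calc (∫ z, ‖evol om (Fj j) f z.1 z.2‖ ^ q ∂(stm X T0)) / rX ^ q
            ≤ (CB * ((2 : ℝ) ^ (j + 1)) ^ e * A j ^ q) / rX ^ q :=
              div_le_div_of_nonneg_right h3 (by positivity)
          _ = CB * ((2 : ℝ) ^ (j + 1)) ^ e * (A j / rX) ^ q := by
              rw [Real.div_rpow (hA0 j) hrXpos.le]; ring
          _ = CB * ((2 : ℝ) ^ (j + 1)) ^ e *
                ((c ^ (-(σ / 2))) ^ q * ((2 : ℝ) ^ (-((j : ℝ) * σ))) ^ q * (a j) ^ q) := by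
              rw [hAa, Real.mul_rpow (by positivity) (ha0 j),
                Real.mul_rpow (by positivity) (by positivity)]
          _ = CB * (c ^ (-(σ / 2))) ^ q *
                (((2 : ℝ) ^ (j + 1)) ^ e * ((2 : ℝ) ^ (-((j : ℝ) * σ))) ^ q) * (a j) ^ q := by
              ring
          _ = CB * (c ^ (-(σ / 2))) ^ q *
                (2 ^ e * (2 ^ (-((j : ℝ) * ((d : ℝ) + 2) * (1 / q - 1 / p)))) ^ q) *
                  (a j) ^ q := by
              congr 2
              rw [← Real.rpow_natCast (2 : ℝ) (j + 1), ← Real.rpow_mul (by norm_num),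
                ← Real.rpow_mul (by norm_num), ← Real.rpow_mul (by norm_num),
                ← Real.rpow_add (by norm_num), ← Real.rpow_add (by norm_num)]
              congr 1
              rw [he, hσ]
              push_cast
              field_simp
              ring
          _ = C2 * (2 ^ (-((j : ℝ) * ((d : ℝ) + 2) * (1 / q - 1 / p))) * a j) ^ q := by
              rw [Real.mul_rpow (by positivity) (ha0 j), hC2]
              ring
      refine h1.trans ?_
      refine mul_le_mul_of_nonneg_right (by linarith) ?_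
      exact Real.rpow_nonneg (mul_nonneg (by positivity) (ha0 j)) _
    have : IsFiniteMeasure (stm X T0) := by
      unfold stm; infer_instance
    have hfin := hdy (stm X T0) J v a hmeas ha0 hasum hsup hLq
    -- conclusion
    have h5 : ∀ z : ℝ × X, ‖evol om F f z.1 z.2‖ ^ p =
        X0 ^ (p / 2) * ‖∑ j ∈ Finset.range J, v j z‖ ^ p := by
      intro z
      have h6 : ∑ j ∈ Finset.range J, v j z = evol om F f z.1 z.2 / (rX : ℂ) := by
        rw [hdec, Finset.sum_div]
      rw [h6, norm_div, Complex.norm_real, Real.norm_of_nonneg hrXpos.le,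
        Real.div_rpow (norm_nonneg _) hrXpos.le]
      have h7 : rX ^ p = X0 ^ (p / 2) := by
        rw [← hrX2, ← Real.rpow_natCast, ← Real.rpow_mul hrXpos.le]
        congr 1
        push_cast; ring
      rw [h7]
      have h8 : X0 ^ (p / 2) ≠ 0 := (Real.rpow_pos_of_pos hX _).ne'
      field_simp
    simp only [h5]
    rw [integral_const_mul, mul_comm]
    exact mul_le_mul_of_nonneg_right hfin (by positivity)

end STZ
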