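import Mathlib

/-!
# STZ/Mink: Minkowski's integral inequality

PROOF of `mink`. Let `Φ(x) = ∑_i ∫⁻ y, H i x y`, `A_i(y) = (∫⁻ x, (H i x y)^r)^(1/r)`, `K = ∑_i ∫⁻ y, A_i(y)`.
If `r = 1` it is Tonelli. Let `r > 1`. If `K = ∞` nothing to prove. Let first `Ψ` be a measurable
function with `0 ≤ Ψ ≤ Φ` and `∫⁻ Ψ^r < ∞`. Tonelli and Hoelder (`ENNReal.lintegral_mul_le_Lp_mul_Lq`,
exponents `r/(r-1)`, `r`):
`∫⁻ Ψ^r ≤ ∫⁻ Ψ^(r-1) Φ = ∑_i ∫⁻_y ∫⁻_x Ψ^(r-1) H i x y ≤ ∑_i ∫⁻_y (∫⁻ Ψ^r)^(1-1/r) A_i(y) = (∫⁻ Ψ^r)^(1-1/r) K`,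
so `(∫⁻ Ψ^r)^(1/r) ≤ K`. Take `Ψ = min(Φ, n) 1_{S_n}` with `S_n` (spanning sets of `μ`) increasing to
the whole space, of finite measure, and use monotone convergence.
(Here `μ` is finite in our application, so one may assume `[IsFiniteMeasure μ]` and take
`Ψ = min(Φ, n)`; the statement below has finite measures.)
PROOF of `mink_real`: apply `mink` with `H i x y = ofReal (h i x y)`, all functions are continuous
on compact spaces (or bounded measurable), so the lintegrals are finite and equal the integrals.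
-/

open MeasureTheory
open scoped ENNReal

namespace STZ

/-- the main step, for a minorant `Ψ` with finite integral -/
lemma mink_step {Ω₁ Ω₂ ι : Type*} [MeasurableSpace Ω₁] [MeasurableSpace Ω₂] (μ : Measure Ω₁)
    (ν : Measure Ω₂) [IsFiniteMeasure μ] [IsFiniteMeasure ν] (s : Finset ι)
    (H : ι → Ω₁ → Ω₂ → ℝ≥0∞) (hH : ∀ i ∈ s, Measurable (Function.uncurry (H i)))
    (r : ℝ) (hr : 1 < r) (Ψ : Ω₁ → ℝ≥0∞) (hΨ : Measurable Ψ)
    (hle : ∀ x, Ψ x ≤ ∑ i ∈ s, ∫⁻ y, H i x y ∂ν) (hfin : ∫⁻ x, Ψ x ^ r ∂μ ≠ ∞) :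
    ∫⁻ x, Ψ x ^ r ∂μ ≤
      (∑ i ∈ s, ∫⁻ y, (∫⁻ x, (H i x y) ^ r ∂μ) ^ (1 / r) ∂ν) ^ r := by
  have hr0 : 0 < r := zero_lt_one.trans hr
  set J : ℝ≥0∞ := ∫⁻ x, Ψ x ^ r ∂μ with hJ
  set K : ℝ≥0∞ := ∑ i ∈ s, ∫⁻ y, (∫⁻ x, (H i x y) ^ r ∂μ) ^ (1 / r) ∂ν with hK
  by_cases hJ0 : J = 0
  · rw [hJ0]; exact zero_le
  set q : ℝ := r / (r - 1) with hq
  have hr1 : 0 < r - 1 := by linarith
  have hq0 : 0 < q := div_pos hr0 hr1
  have hpq : q.HolderConjugate r := (Real.HolderConjugate.conjExponent hr).symm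
  have hqr : 1 / q + 1 / r = 1 := by
    rw [hq]; field_simp; ring
  have hfinq : J ^ (1 / q) ≠ ∞ := ENNReal.rpow_ne_top_of_nonneg (by positivity) hfin
  have h0q : J ^ (1 / q) ≠ 0 := by
    rw [Ne, ENNReal.rpow_eq_zero_iff]
    rintro (⟨h, -⟩ | ⟨h, -⟩)
    · exact hJ0 h
    · exact hfin h
  have hΨr : Measurable fun x => Ψ x ^ (r - 1) := hΨ.pow_const _
  have hHy : ∀ i ∈ s, ∀ y, Measurable fun x => H i x y := fun i hi y =>
    (hH i hi).comp measurable_prodMk_right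
  have hHx : ∀ i ∈ s, ∀ x, Measurable fun y => H i x y := fun i hi x =>
    (hH i hi).comp measurable_prodMk_left
  have main : J ≤ J ^ (1 / q) * K := by
    calc J ≤ ∫⁻ x, Ψ x ^ (r - 1) * ∑ i ∈ s, ∫⁻ y, H i x y ∂ν ∂μ := by
          refine lintegral_mono fun x => ?_
          have : Ψ x ^ r = Ψ x ^ (r - 1) * Ψ x := by
            conv_lhs => rw [show r = (r - 1) + 1 by ring]
            rw [ENNReal.rpow_add_of_nonneg _ _ hr1.le zero_le_one, ENNReal.rpow_one]
          rw [this]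
          exact mul_le_mul_right (hle x) _
      _ = ∫⁻ x, ∑ i ∈ s, ∫⁻ y, Ψ x ^ (r - 1) * H i x y ∂ν ∂μ := by
          refine lintegral_congr fun x => ?_
          rw [Finset.mul_sum]
          refine Finset.sum_congr rfl fun i hi => ?_
          rw [lintegral_const_mul _ (hHx i hi x)]
      _ = ∑ i ∈ s, ∫⁻ x, ∫⁻ y, Ψ x ^ (r - 1) * H i x y ∂ν ∂μ := by
          refine lintegral_finsetSum' _ fun i hi => ?_
          have hm : Measurable (Function.uncurry fun x y => Ψ x ^ (r - 1) * H i x y) :=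
            (hΨr.comp measurable_fst).mul (hH i hi)
          exact hm.lintegral_prod_right.aemeasurable
      _ = ∑ i ∈ s, ∫⁻ y, ∫⁻ x, Ψ x ^ (r - 1) * H i x y ∂μ ∂ν := by
          refine Finset.sum_congr rfl fun i hi => ?_
          have hm : Measurable (Function.uncurry fun x y => Ψ x ^ (r - 1) * H i x y) :=
            (hΨr.comp measurable_fst).mul (hH i hi)
          exact lintegral_lintegral_swap hm.aemeasurable
      _ ≤ ∑ i ∈ s, ∫⁻ y, J ^ (1 / q) * (∫⁻ x, (H i x y) ^ r ∂μ) ^ (1 / r) ∂ν := by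
          refine Finset.sum_le_sum fun i hi => lintegral_mono fun y => ?_
          have := ENNReal.lintegral_mul_le_Lp_mul_Lq μ hpq hΨr.aemeasurable
            (hHy i hi y).aemeasurable
          have e : ∫⁻ x, (Ψ x ^ (r - 1)) ^ q ∂μ = J := by
            rw [hJ]
            refine lintegral_congr fun x => ?_
            rw [← ENNReal.rpow_mul]
            congr 1
            rw [hq]; field_simp
          rw [e] at this
          exact this
      _ = J ^ (1 / q) * K := by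
          rw [hK, Finset.mul_sum]
          refine Finset.sum_congr rfl fun i _ => ?_
          rw [lintegral_const_mul' _ _ hfinq]
  have hJJ : J = J ^ (1 / q) * J ^ (1 / r) := by
    rw [← ENNReal.rpow_add _ _ hJ0 hfin, hqr, ENNReal.rpow_one]
  have h1 : J ^ (1 / r) ≤ K := by
    rw [hJJ] at main
    rw [← hJJ] at main
    have main2 : J ^ (1 / q) * J ^ (1 / r) ≤ J ^ (1 / q) * K := by
      rw [← hJJ]; exact main
    exact (ENNReal.mul_le_mul_iff_right h0q hfinq).1 main2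
  calc J = (J ^ (1 / r)) ^ r := by
        rw [← ENNReal.rpow_mul, one_div, inv_mul_cancel₀ hr0.ne', ENNReal.rpow_one]
    _ ≤ K ^ r := ENNReal.rpow_le_rpow h1 hr0.le

theorem mink {Ω₁ Ω₂ ι : Type*} [MeasurableSpace Ω₁] [MeasurableSpace Ω₂] (μ : Measure Ω₁)
    (ν : Measure Ω₂) [IsFiniteMeasure μ] [IsFiniteMeasure ν] (s : Finset ι)
    (H : ι → Ω₁ → Ω₂ → ℝ≥0∞) (hH : ∀ i ∈ s, Measurable (Function.uncurry (H i)))
    (r : ℝ) (hr : 1 ≤ r) :
    ∫⁻ x, (∑ i ∈ s, ∫⁻ y, H i x y ∂ν) ^ r ∂μ ≤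
      (∑ i ∈ s, ∫⁻ y, (∫⁻ x, (H i x y) ^ r ∂μ) ^ (1 / r) ∂ν) ^ r := by
  have hΦm : Measurable fun x => ∑ i ∈ s, ∫⁻ y, H i x y ∂ν :=
    Finset.measurable_fun_sum s fun i hi => (hH i hi).lintegral_prod_right
  rcases hr.eq_or_lt with rfl | hr1
  · simp only [ENNReal.rpow_one, div_one]
    rw [lintegral_finsetSum' _ fun i hi => (hH i hi).lintegral_prod_right.aemeasurable]
    refine (Finset.sum_congr rfl fun i hi => ?_).le
    exact lintegral_lintegral_swap (hH i hi).aemeasurable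
  · have hr0 : 0 < r := zero_lt_one.trans hr1
    set Φ : Ω₁ → ℝ≥0∞ := fun x => ∑ i ∈ s, ∫⁻ y, H i x y ∂ν with hΦ
    have ht : Filter.Tendsto (fun n : ℕ => ∫⁻ x, (min (Φ x) n) ^ r ∂μ) Filter.atTop
        (nhds (∫⁻ x, (Φ x) ^ r ∂μ)) := by
      refine lintegral_tendsto_of_tendsto_of_monotone
        (fun n => ((hΦm.min measurable_const).pow_const _).aemeasurable) ?_ ?_
      · refine Filter.Eventually.of_forall fun x n m hnm => ?_
        refine ENNReal.rpow_le_rpow (min_le_min_left _ ?_) hr0.le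
        exact_mod_cast hnm
      · refine Filter.Eventually.of_forall fun x => ?_
        have h1 : Filter.Tendsto (fun n : ℕ => min (Φ x) (n : ℝ≥0∞)) Filter.atTop
            (nhds (Φ x)) := by
          have := (tendsto_const_nhds (x := Φ x) (f := Filter.atTop (α := ℕ))).min
            ENNReal.tendsto_nat_nhds_top
          simpa using this
        exact ((ENNReal.continuous_rpow_const (y := r)).tendsto _).comp h1
    refine le_of_tendsto' ht fun n => ?_
    refine mink_step μ ν s H hH r hr1 _ (hΦm.min measurable_const)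
      (fun x => min_le_left _ _) ?_
    have : ∫⁻ x, (min (Φ x) (n : ℝ≥0∞)) ^ r ∂μ ≤ ∫⁻ _, (n : ℝ≥0∞) ^ r ∂μ :=
      lintegral_mono fun x => ENNReal.rpow_le_rpow (min_le_right _ _) hr0.le
    refine ne_top_of_le_ne_top ?_ this
    rw [lintegral_const]
    exact ENNReal.mul_ne_top (ENNReal.rpow_ne_top_of_nonneg hr0.le (ENNReal.natCast_ne_top n))
      (measure_ne_top μ _)

theorem mink_real {Ω₁ Ω₂ ι : Type*} [MeasurableSpace Ω₁] [MeasurableSpace Ω₂] (μ : Measure Ω₁)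
    (ν : Measure Ω₂) [IsFiniteMeasure μ] [IsFiniteMeasure ν] (s : Finset ι)
    (h : ι → Ω₁ → Ω₂ → ℝ) (hh : ∀ i ∈ s, Measurable (Function.uncurry (h i)))
    (h0 : ∀ i x y, 0 ≤ h i x y) (M : ℝ) (hM : ∀ i ∈ s, ∀ x y, h i x y ≤ M)
    (r : ℝ) (hr : 1 ≤ r) :
    ∫ x, (∑ i ∈ s, ∫ y, h i x y ∂ν) ^ r ∂μ ≤
      (∑ i ∈ s, ∫ y, (∫ x, (h i x y) ^ r ∂μ) ^ (1 / r) ∂ν) ^ r := by
  have hr0 : 0 < r := zero_lt_one.trans_le hr
  have hHm : ∀ i ∈ s, Measurable (Function.uncurry fun x y => ENNReal.ofReal (h i x y)) :=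
    fun i hi => (hh i hi).ennreal_ofReal
  have key := mink μ ν s (fun i x y => ENNReal.ofReal (h i x y)) hHm r hr
  have hmx : ∀ i ∈ s, ∀ x, Measurable fun y => h i x y := fun i hi x =>
    (hh i hi).comp measurable_prodMk_left
  have hmy : ∀ i ∈ s, ∀ y, Measurable fun x => h i x y := fun i hi y =>
    (hh i hi).comp measurable_prodMk_right
  -- the left side
  have hL1 : ∀ i ∈ s, ∀ x, ∫⁻ y, ENNReal.ofReal (h i x y) ∂ν = ENNReal.ofReal (∫ y, h i x y ∂ν) := by
    intro i hi x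
    rw [ofReal_integral_eq_lintegral_ofReal]
    · exact Integrable.of_bound (hmx i hi x).aestronglyMeasurable M
        (Filter.Eventually.of_forall fun y => by
          rw [Real.norm_eq_abs, abs_of_nonneg (h0 i x y)]; exact hM i hi x y)
    · exact Filter.Eventually.of_forall fun y => h0 i x y
  have hI0 : ∀ i x, 0 ≤ ∫ y, h i x y ∂ν := fun i x => integral_nonneg fun y => h0 i x y
  have hL2 : ∀ x, (∑ i ∈ s, ∫⁻ y, ENNReal.ofReal (h i x y) ∂ν) ^ r =
      ENNReal.ofReal ((∑ i ∈ s, ∫ y, h i x y ∂ν) ^ r) := by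
    intro x
    rw [Finset.sum_congr rfl fun i hi => hL1 i hi x,
      ← ENNReal.ofReal_sum_of_nonneg fun i _ => hI0 i x,
      ENNReal.ofReal_rpow_of_nonneg (Finset.sum_nonneg fun i _ => hI0 i x) hr0.le]
  -- the right side
  have hr1' : ∀ i ∈ s, ∀ x y, h i x y ^ r ≤ M ^ r := fun i hi x y =>
    Real.rpow_le_rpow (h0 i x y) (hM i hi x y) hr0.le
  have hR1 : ∀ i ∈ s, ∀ y, ∫⁻ x, (ENNReal.ofReal (h i x y)) ^ r ∂μ =
      ENNReal.ofReal (∫ x, h i x y ^ r ∂μ) := by
    intro i hi y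
    rw [ofReal_integral_eq_lintegral_ofReal]
    · refine lintegral_congr fun x => ?_
      rw [ENNReal.ofReal_rpow_of_nonneg (h0 i x y) hr0.le]
    · exact Integrable.of_bound ((hmy i hi y).pow_const r).aestronglyMeasurable (M ^ r)
        (Filter.Eventually.of_forall fun x => by
          rw [Real.norm_eq_abs, abs_of_nonneg (Real.rpow_nonneg (h0 i x y) _)]
          exact hr1' i hi x y)
    · exact Filter.Eventually.of_forall fun x => Real.rpow_nonneg (h0 i x y) _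
  have hJ0 : ∀ i y, 0 ≤ ∫ x, h i x y ^ r ∂μ := fun i y =>
    integral_nonneg fun x => Real.rpow_nonneg (h0 i x y) _
  have hJm : ∀ i ∈ s, Measurable fun y => ∫ x, h i x y ^ r ∂μ := by
    intro i hi
    have : StronglyMeasurable (Function.uncurry fun y x => h i x y ^ r) := by
      have h1 : Measurable (Function.uncurry fun y x => h i x y ^ r) :=
        ((hh i hi).comp measurable_swap).pow_const r
      exact h1.stronglyMeasurable
    exact this.integral_prod_right.measurable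
  have hJb : ∀ i ∈ s, ∀ y, ∫ x, h i x y ^ r ∂μ ≤ M ^ r * μ.real Set.univ := by
    intro i hi y
    have := norm_integral_le_of_norm_le_const (μ := μ) (f := fun x => h i x y ^ r) (C := M ^ r)
      (Filter.Eventually.of_forall fun x => by
          rw [Real.norm_eq_abs, abs_of_nonneg (Real.rpow_nonneg (h0 i x y) _)]
          exact hr1' i hi x y)
    exact (le_abs_self _).trans this
  have hR2 : ∀ i ∈ s, ∫⁻ y, (∫⁻ x, (ENNReal.ofReal (h i x y)) ^ r ∂μ) ^ (1 / r) ∂ν =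
      ENNReal.ofReal (∫ y, (∫ x, h i x y ^ r ∂μ) ^ (1 / r) ∂ν) := by
    intro i hi
    rw [ofReal_integral_eq_lintegral_ofReal]
    · refine lintegral_congr fun y => ?_
      rw [hR1 i hi y, ENNReal.ofReal_rpow_of_nonneg (hJ0 i y) (by positivity)]
    · exact Integrable.of_bound ((hJm i hi).pow_const _).aestronglyMeasurable
        ((M ^ r * μ.real Set.univ) ^ (1 / r))
        (Filter.Eventually.of_forall fun y => by
          rw [Real.norm_eq_abs, abs_of_nonneg (Real.rpow_nonneg (hJ0 i y) _)]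
          exact Real.rpow_le_rpow (hJ0 i y) (hJb i hi y) (by positivity))
    · exact Filter.Eventually.of_forall fun y => Real.rpow_nonneg (hJ0 i y) _
  have hB0 : ∀ i, 0 ≤ ∫ y, (∫ x, h i x y ^ r ∂μ) ^ (1 / r) ∂ν := fun i =>
    integral_nonneg fun y => Real.rpow_nonneg (hJ0 i y) _
  rw [lintegral_congr hL2, Finset.sum_congr rfl hR2,
    ← ENNReal.ofReal_sum_of_nonneg fun i _ => hB0 i,
    ENNReal.ofReal_rpow_of_nonneg (Finset.sum_nonneg fun i _ => hB0 i) hr0.le] at key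
  have hLm : AEStronglyMeasurable (fun x => (∑ i ∈ s, ∫ y, h i x y ∂ν) ^ r) μ := by
    have : Measurable fun x => ∑ i ∈ s, ∫ y, h i x y ∂ν :=
      Finset.measurable_fun_sum s fun i hi =>
        ((hh i hi).stronglyMeasurable.integral_prod_right).measurable
    exact (this.pow_const r).aestronglyMeasurable
  have hRnn : 0 ≤ (∑ i ∈ s, ∫ y, (∫ x, h i x y ^ r ∂μ) ^ (1 / r) ∂ν) ^ r :=
    Real.rpow_nonneg (Finset.sum_nonneg fun i _ => hB0 i) _
  rw [integral_eq_lintegral_of_nonneg_ae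
    (Filter.Eventually.of_forall fun x =>
      Real.rpow_nonneg (Finset.sum_nonneg fun i _ => hI0 i x) _) hLm]
  exact ENNReal.toReal_le_of_le_ofReal hRnn key

end STZ
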