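import Mathlib

/-!
# STZ/Distr: from a weak type bound to a strong type bound

PROOF. Layer cake (`MeasureTheory.integral_rpow_eq_..` / `lintegral_rpow_eq_lintegral_meas_lt_mul`):
`∫ v^q = q ∫_0^∞ t^(q-1) μ{v > t} dt = q ∫_0^A t^(q-1) μ{v > t} dt` (the level sets are empty for
`t ≥ A`) `≤ q B ∫_0^A t^(q-1-p0) dt = q/(q-p0) B A^(q-p0)`. (If `A = 0` then `v = 0` and both sides
are zero; `0 < q`.)
-/

open MeasureTheory

namespace STZ

theorem weak_strong {Ω : Type*} [MeasurableSpace Ω] (μ : Measure Ω) [IsFiniteMeasure μ]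
    (v : Ω → ℝ) (hv : Measurable v) (hv0 : ∀ x, 0 ≤ v x) (A B p0 q : ℝ) (hA : ∀ x, v x ≤ A)
    (hA0 : 0 ≤ A) (hB0 : 0 ≤ B) (hp0 : 0 < p0) (hq : p0 < q)
    (hB : ∀ t : ℝ, 0 < t → μ.real {x | t < v x} ≤ B * t ^ (-p0)) :
    ∫ x, v x ^ q ∂μ ≤ q / (q - p0) * B * A ^ (q - p0) := by
  have hq0 : 0 < q := hp0.trans hq
  have hqp : 0 < q - p0 := by linarith
  have hR : 0 ≤ q / (q - p0) * B * A ^ (q - p0) := by positivity
  rw [integral_eq_lintegral_of_nonneg_ae (ae_of_all _ fun x => Real.rpow_nonneg (hv0 x) q)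
    (hv.pow_const q).aestronglyMeasurable]
  refine ENNReal.toReal_le_of_le_ofReal hR ?_
  rw [lintegral_rpow_eq_lintegral_meas_lt_mul μ (ae_of_all _ hv0) hv.aemeasurable hq0]
  have h1 : ∀ t ∈ Set.Ioi (0:ℝ), μ {a | t < v a} * ENNReal.ofReal (t ^ (q - 1)) ≤
      (Set.Ioc 0 A).indicator (fun t => ENNReal.ofReal (B * t ^ (q - p0 - 1))) t := by
    intro t ht
    have ht0 : (0:ℝ) < t := ht
    by_cases htA : t ≤ A
    · have hmem : t ∈ Set.Ioc 0 A := ⟨ht0, htA⟩
      rw [Set.indicator_of_mem hmem]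
      have e1 : μ {a | t < v a} = ENNReal.ofReal (μ.real {a | t < v a}) := by
        rw [Measure.real, ENNReal.ofReal_toReal (measure_ne_top _ _)]
      rw [e1, ← ENNReal.ofReal_mul measureReal_nonneg]
      apply ENNReal.ofReal_le_ofReal
      calc μ.real {a | t < v a} * t ^ (q - 1) ≤ (B * t ^ (-p0)) * t ^ (q - 1) := by
            gcongr
            exact hB t ht0
        _ = B * t ^ (q - p0 - 1) := by
            rw [mul_assoc, ← Real.rpow_add ht0]
            congr 2
            ring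
    · have e2 : {a | t < v a} = ∅ := by
        ext a
        simp only [Set.mem_setOf_eq, Set.mem_empty_iff_false, iff_false, not_lt]
        exact (hA a).trans (le_of_lt (not_le.1 htA))
      rw [e2, measure_empty, zero_mul]
      exact zero_le
  have hint : IntervalIntegrable (fun t : ℝ => B * t ^ (q - p0 - 1)) volume 0 A := by
    apply IntervalIntegrable.const_mul
    exact intervalIntegral.intervalIntegrable_rpow' (by linarith)
  have hval : ∫ t in Set.Ioc 0 A, B * t ^ (q - p0 - 1) = B * (A ^ (q - p0) / (q - p0)) := by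
    rw [← intervalIntegral.integral_of_le hA0, intervalIntegral.integral_const_mul,
      integral_rpow (Or.inl (by linarith))]
    congr 2
    · rw [show q - p0 - 1 + 1 = q - p0 by ring, Real.zero_rpow hqp.ne', sub_zero]
    · ring
  calc ENNReal.ofReal q * ∫⁻ t in Set.Ioi 0, μ {a | t < v a} * ENNReal.ofReal (t ^ (q - 1))
      ≤ ENNReal.ofReal q * ∫⁻ t in Set.Ioi 0,
          (Set.Ioc 0 A).indicator (fun t => ENNReal.ofReal (B * t ^ (q - p0 - 1))) t := by
        gcongr ENNReal.ofReal q * ?_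
        exact setLIntegral_mono' measurableSet_Ioi h1
    _ ≤ ENNReal.ofReal q * ∫⁻ t in Set.Ioc 0 A, ENNReal.ofReal (B * t ^ (q - p0 - 1)) := by
        gcongr ENNReal.ofReal q * ?_
        rw [← lintegral_indicator measurableSet_Ioc]
        exact setLIntegral_le_lintegral _ _
    _ = ENNReal.ofReal q * ENNReal.ofReal (∫ t in Set.Ioc 0 A, B * t ^ (q - p0 - 1)) := by
        rw [ofReal_integral_eq_lintegral_ofReal]
        · exact (intervalIntegrable_iff_integrableOn_Ioc_of_le hA0).1 hint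
        · rw [Filter.EventuallyLE, ae_restrict_iff' measurableSet_Ioc]
          refine ae_of_all _ fun t ht => ?_
          exact mul_nonneg hB0 (Real.rpow_nonneg ht.1.le _)
    _ = ENNReal.ofReal (q / (q - p0) * B * A ^ (q - p0)) := by
        rw [hval, ← ENNReal.ofReal_mul hq0.le]
        congr 1
        field_simp

end STZ
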