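import Mathlib

/-!
# STZ/Arcs: measure of the major arcs

PROOF. The set is the countable union over `c ≥ 1`, `d ∈ ℤ` of closed sets, so measurable. For
`t ∈ [-T0,T0]` in the part `(c,d)`: `|d| ≤ ρ + c |a| T0 ≤ 1 + c |a| T0`, so at most
`3 + 2 c |a| T0` values of `d`, and `{t : |c a t + d| ≤ ρ}` is an interval of length `2ρ/(c|a|)`. Sum:
`∑_{1 ≤ c ≤ Q} (3 + 2 c |a| T0) 2ρ/(c|a|) ≤ (6/|a| + 4 T0) Q ρ`.
-/

open MeasureTheory

namespace STZ

/-- The set of times near a fraction with denominator at most `Q`. -/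
def arcs (a Q ρ : ℝ) : Set ℝ :=
  {t : ℝ | ∃ c d : ℤ, 1 ≤ c ∧ (c : ℝ) ≤ Q ∧ |(c : ℝ) * (a * t) + d| ≤ ρ}

theorem measurableSet_arcs (a Q ρ : ℝ) : MeasurableSet (arcs a Q ρ) := by
  have e : arcs a Q ρ = ⋃ c : ℤ, ⋃ d : ℤ,
      {t : ℝ | 1 ≤ c ∧ (c : ℝ) ≤ Q ∧ |(c : ℝ) * (a * t) + d| ≤ ρ} := by
    ext t
    simp [arcs]
  rw [e]
  refine MeasurableSet.iUnion fun c => MeasurableSet.iUnion fun d => ?_
  refine IsClosed.measurableSet ?_
  have h : IsClosed {t : ℝ | |(c : ℝ) * (a * t) + d| ≤ ρ} :=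
    isClosed_le (by fun_prop) continuous_const
  by_cases h1 : 1 ≤ c
  · by_cases h2 : (c : ℝ) ≤ Q
    · simpa [h1, h2] using h
    · simp [h2]
  · simp [h1]

theorem arcs_measure (a T0 : ℝ) (ha : a ≠ 0) (hT0 : 0 < T0) : ∃ C : ℝ, 1 ≤ C ∧
    ∀ Q ρ : ℝ, 1 ≤ Q → 0 < ρ → ρ ≤ 1 →
      volume (arcs a Q ρ ∩ Set.Icc (-T0) T0) ≤ ENNReal.ofReal (C * Q * ρ) := by
  have ha' : 0 < |a| := abs_pos.2 ha
  refine ⟨6 / |a| + 4 * T0 + 1, by have : 0 < 6 / |a| := by positivity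
                                   linarith, ?_⟩
  intro Q ρ hQ hρ hρ1
  set M : ℤ → ℤ := fun c => ⌊1 + (c : ℝ) * |a| * T0⌋ with hM
  set x : ℤ → ℝ := fun c => 2 * ρ / ((c : ℝ) * |a|) with hx
  have hcov : arcs a Q ρ ∩ Set.Icc (-T0) T0 ⊆
      ⋃ c ∈ Finset.Icc (1 : ℤ) ⌊Q⌋, ⋃ d ∈ Finset.Icc (-M c) (M c),
        Set.Icc (-(d : ℝ) / (c * a) - ρ / (c * |a|)) (-(d : ℝ) / (c * a) + ρ / (c * |a|)) := by
    rintro t ⟨⟨c, d, hc1, hcQ, hcd⟩, ht⟩
    have hc0 : (1 : ℝ) ≤ c := by exact_mod_cast hc1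
    have hc0' : (0 : ℝ) < c := by linarith
    have hct : |(c : ℝ) * (a * t)| ≤ c * |a| * T0 := by
      rw [abs_mul, abs_mul, abs_of_pos hc0', mul_assoc]
      exact mul_le_mul_of_nonneg_left (mul_le_mul_of_nonneg_left (abs_le.2 ht) ha'.le) hc0'.le
    have hd : |(d : ℝ)| ≤ 1 + c * |a| * T0 := by
      have : (d : ℝ) = ((c : ℝ) * (a * t) + d) - (c : ℝ) * (a * t) := by ring
      rw [this]
      calc |((c : ℝ) * (a * t) + d) - (c : ℝ) * (a * t)| ≤ |(c : ℝ) * (a * t) + d| +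
          |(c : ℝ) * (a * t)| := abs_sub _ _
        _ ≤ 1 + c * |a| * T0 := by linarith
    have hd' : |d| ≤ M c := by
      rw [hM]
      refine Int.le_floor.2 ?_
      push_cast
      exact hd
    simp only [Set.mem_iUnion, Finset.mem_Icc]
    refine ⟨c, ⟨hc1, Int.le_floor.2 hcQ⟩, d, abs_le.1 hd', ?_⟩
    have e : t - -(d : ℝ) / (c * a) = ((c : ℝ) * (a * t) + d) / (c * a) := by
      field_simp
      ring
    have e2 : |t - -(d : ℝ) / (c * a)| ≤ ρ / (c * |a|) := by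
      rw [e, abs_div, abs_mul, abs_of_pos hc0']
      gcongr
    rw [abs_le] at e2
    constructor <;> linarith [e2.1, e2.2]
  calc volume (arcs a Q ρ ∩ Set.Icc (-T0) T0)
      ≤ volume (⋃ c ∈ Finset.Icc (1 : ℤ) ⌊Q⌋, ⋃ d ∈ Finset.Icc (-M c) (M c),
        Set.Icc (-(d : ℝ) / (c * a) - ρ / (c * |a|)) (-(d : ℝ) / (c * a) + ρ / (c * |a|))) :=
        measure_mono hcov
    _ ≤ ∑ c ∈ Finset.Icc (1 : ℤ) ⌊Q⌋, volume (⋃ d ∈ Finset.Icc (-M c) (M c),
        Set.Icc (-(d : ℝ) / (c * a) - ρ / (c * |a|)) (-(d : ℝ) / (c * a) + ρ / (c * |a|))) :=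
        measure_biUnion_finset_le _ _
    _ ≤ ∑ c ∈ Finset.Icc (1 : ℤ) ⌊Q⌋, ∑ d ∈ Finset.Icc (-M c) (M c), volume (
        Set.Icc (-(d : ℝ) / (c * a) - ρ / (c * |a|)) (-(d : ℝ) / (c * a) + ρ / (c * |a|))) :=
        Finset.sum_le_sum fun c _ => measure_biUnion_finset_le _ _
    _ = ∑ c ∈ Finset.Icc (1 : ℤ) ⌊Q⌋, ∑ d ∈ Finset.Icc (-M c) (M c), ENNReal.ofReal (x c) := by
        refine Finset.sum_congr rfl fun c _ => Finset.sum_congr rfl fun d _ => ?_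
        rw [Real.volume_Icc]
        congr 1
        rw [hx]
        ring
    _ ≤ ∑ c ∈ Finset.Icc (1 : ℤ) ⌊Q⌋, ENNReal.ofReal ((6 / |a| + 4 * T0) * ρ) := by
        refine Finset.sum_le_sum fun c hc => ?_
        have hc1 : (1 : ℝ) ≤ c := by exact_mod_cast (Finset.mem_Icc.1 hc).1
        have hc0 : (0 : ℝ) < c := by linarith
        have hM0 : 0 ≤ M c := Int.floor_nonneg.2 (by positivity)
        have hx0 : 0 ≤ x c := by rw [hx]; positivity
        rw [Finset.sum_const, nsmul_eq_mul, Int.card_Icc]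
        have e1 : ((M c + 1 - -M c).toNat : ENNReal) = ENNReal.ofReal (2 * M c + 1) := by
          rw [show M c + 1 - -M c = 2 * M c + 1 by ring]
          rw [← ENNReal.ofReal_natCast]
          congr 1
          have : ((2 * M c + 1).toNat : ℤ) = 2 * M c + 1 := Int.toNat_of_nonneg (by omega)
          have h2 : (((2 * M c + 1).toNat : ℤ) : ℝ) = ((2 * M c + 1 : ℤ) : ℝ) := by rw [this]
          push_cast at h2
          exact h2
        rw [e1, ← ENNReal.ofReal_mul (by positivity)]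
        refine ENNReal.ofReal_le_ofReal ?_
        have hMle : (M c : ℝ) ≤ 1 + c * |a| * T0 := Int.floor_le _
        calc (2 * (M c : ℝ) + 1) * x c ≤ (2 * (1 + c * |a| * T0) + 1) * x c := by gcongr
          _ = (6 / |a| / c + 4 * T0) * ρ := by
              rw [hx]
              field_simp
              ring
          _ ≤ (6 / |a| + 4 * T0) * ρ := by
              have : 6 / |a| / c ≤ 6 / |a| := div_le_self (by positivity) hc1
              gcongr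
    _ ≤ ENNReal.ofReal ((6 / |a| + 4 * T0 + 1) * Q * ρ) := by
        rw [Finset.sum_const, nsmul_eq_mul, Int.card_Icc]
        have hfl : 0 ≤ ⌊Q⌋ := Int.floor_nonneg.2 (by linarith)
        have e1 : ((⌊Q⌋ + 1 - 1).toNat : ENNReal) = ENNReal.ofReal (⌊Q⌋ : ℝ) := by
          rw [add_sub_cancel_right, ← ENNReal.ofReal_natCast]
          congr 1
          have : ((⌊Q⌋).toNat : ℤ) = ⌊Q⌋ := Int.toNat_of_nonneg hfl
          exact_mod_cast this
        have hfl' : (0 : ℝ) ≤ (⌊Q⌋ : ℝ) := by exact_mod_cast hfl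
        rw [e1, ← ENNReal.ofReal_mul hfl']
        refine ENNReal.ofReal_le_ofReal ?_
        have h1 : (⌊Q⌋ : ℝ) ≤ Q := Int.floor_le Q
        have h2 : 0 ≤ 6 / |a| + 4 * T0 := by positivity
        calc (⌊Q⌋ : ℝ) * ((6 / |a| + 4 * T0) * ρ) ≤ Q * ((6 / |a| + 4 * T0) * ρ) := by gcongr
          _ ≤ (6 / |a| + 4 * T0 + 1) * Q * ρ := by nlinarith [mul_pos (by linarith : 0 < Q) hρ]

end STZ
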