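import Mathlib
import Pool.Agent.Pal.Divisor

/-!
# STZ/DivMom: moments of the truncated divisor function

PROOF. Induction on `B`; `B = 0` is clear (`C = 1`, `Q ≥ 1`). Step: `dQ Q (q j) ≤ τ(q) dQ Q j` for
`q, j ≥ 1` (`c ↦ (gcd(c,q), c/gcd(c,q))` maps the divisors `c ≤ Q` of `q j` injectively into
`divisors q x {c' ≤ Q : c' ∣ j}`). So
`∑_{k ≤ X} dQ(k)^(B+1) = ∑_{q ≤ Q} ∑_{j ≤ X/q} dQ(qj)^B ≤ ∑_{q ≤ Q} τ(q)^B ∑_{j ≤ ⌊X/q⌋} dQ(j)^B`
`≤ C_B Q^(σ/2) X ∑_{q≤Q} τ(q)^B/q`, and by the divisor bound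
(`Pool.Agent.Pal.card_divisors_le_rpow` with exponent `η = σ/(4(B+1))`)
`τ(q)^B/q ≤ C q^(σ/4 - 1) ≤ C Q^(σ/4) (1/q)` and `∑_{q≤Q} 1/q ≤ 1 + log Q ≤ C' Q^(σ/4)`.
Use the induction hypothesis with `σ/2`.
-/

namespace STZ

/-- The number of divisors `c ≤ Q` of `k`. -/
def dQ (Q k : ℕ) : ℕ := ((Finset.Icc 1 Q).filter (fun c => c ∣ k)).card

private lemma dQ_mul (Q q j : ℕ) (hq : 1 ≤ q) : dQ Q (q * j) ≤ q.divisors.card * dQ Q j := by
  unfold dQ
  rw [← Finset.card_product]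
  apply Finset.card_le_card_of_injOn (fun c => (Nat.gcd c q, c / Nat.gcd c q))
  · intro c hc
    simp only [Finset.coe_filter, Finset.mem_Icc, Set.mem_setOf_eq] at hc
    obtain ⟨⟨hc1, hcQ⟩, hcd⟩ := hc
    have hg : 0 < Nat.gcd c q := Nat.gcd_pos_of_pos_left _ hc1
    simp only [Finset.coe_product, Set.mem_prod, Finset.mem_coe, Nat.mem_divisors,
      Finset.mem_filter, Finset.mem_Icc]
    refine ⟨⟨Nat.gcd_dvd_right _ _, by omega⟩, ⟨?_, ?_⟩, ?_⟩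
    · exact Nat.div_pos (Nat.le_of_dvd hc1 (Nat.gcd_dvd_left _ _)) hg
    · exact (Nat.div_le_self _ _).trans hcQ
    · have hcop : Nat.Coprime (c / Nat.gcd c q) (q / Nat.gcd c q) :=
        Nat.coprime_div_gcd_div_gcd hg
      apply hcop.dvd_of_dvd_mul_left
      have h1 : c / Nat.gcd c q ∣ (q * j) / Nat.gcd c q :=
        Nat.div_dvd_div (Nat.gcd_dvd_left _ _) hcd
      have h2 : (q * j) / Nat.gcd c q = q / Nat.gcd c q * j := by
        rw [Nat.div_mul_right_comm (Nat.gcd_dvd_right _ _)]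
      rwa [h2] at h1
  · intro a ha b hb hab
    simp only [Prod.mk.injEq] at hab
    obtain ⟨h1, h2⟩ := hab
    calc a = Nat.gcd a q * (a / Nat.gcd a q) := (Nat.mul_div_cancel' (Nat.gcd_dvd_left _ _)).symm
      _ = Nat.gcd b q * (b / Nat.gcd b q) := by rw [h2, h1]
      _ = b := Nat.mul_div_cancel' (Nat.gcd_dvd_left _ _)

private lemma sum_mult (f : ℕ → ℝ) (X q : ℕ) (hq : 1 ≤ q) :
    ∑ k ∈ (Finset.Icc 1 X).filter (fun k => q ∣ k), f k = ∑ j ∈ Finset.Icc 1 (X / q), f (q * j) := by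
  symm
  apply Finset.sum_nbij (fun j => q * j)
  · intro j hj
    simp only [Finset.mem_Icc, Finset.mem_filter] at hj ⊢
    refine ⟨⟨Nat.mul_pos hq hj.1, ?_⟩, Dvd.intro _ rfl⟩
    calc q * j ≤ q * (X / q) := Nat.mul_le_mul_left _ hj.2
      _ ≤ X := Nat.mul_div_le _ _
  · intro a _ b _ hab
    exact Nat.eq_of_mul_eq_mul_left hq hab
  · intro k hk
    simp only [Finset.coe_filter, Finset.mem_Icc, Set.mem_setOf_eq] at hk
    obtain ⟨⟨hk1, hkX⟩, j, rfl⟩ := hk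
    refine ⟨j, ?_, rfl⟩
    simp only [Finset.coe_Icc, Set.mem_Icc]
    refine ⟨Nat.pos_of_ne_zero (by rintro rfl; simp at hk1), ?_⟩
    rw [Nat.le_div_iff_mul_le hq, mul_comm]; exact hkX
  · intro a _; rfl

private lemma sum_inv_le (σ : ℝ) (hσ : 0 < σ) : ∀ Q : ℕ, 1 ≤ Q →
    ∑ q ∈ Finset.Icc 1 Q, (1 : ℝ) / q ≤ (1 + 1 / σ) * (Q : ℝ) ^ σ := by
  intro Q hQ
  have h1 : ∑ q ∈ Finset.Icc 1 Q, (1 : ℝ) / q ≤ 1 + Real.log Q := by
    have := harmonic_le_one_add_log Q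
    rw [harmonic_eq_sum_Icc] at this
    push_cast at this
    simpa [one_div] using this
  have hQ' : (1 : ℝ) ≤ Q := by exact_mod_cast hQ
  have h2 : Real.log Q ≤ (Q : ℝ) ^ σ / σ := Real.log_le_rpow_div (by linarith) hσ
  have h3 : (1 : ℝ) ≤ (Q : ℝ) ^ σ := Real.one_le_rpow hQ' hσ.le
  calc ∑ q ∈ Finset.Icc 1 Q, (1 : ℝ) / q ≤ 1 + Real.log Q := h1
    _ ≤ (Q : ℝ) ^ σ + (Q : ℝ) ^ σ / σ := add_le_add h3 h2
    _ = (1 + 1 / σ) * (Q : ℝ) ^ σ := by ring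

theorem div_moment (B : ℕ) (σ : ℝ) (hσ : 0 < σ) : ∃ C : ℝ, 1 ≤ C ∧ ∀ Q X : ℕ, 1 ≤ Q →
    ∑ k ∈ Finset.Icc 1 X, (dQ Q k : ℝ) ^ B ≤ C * (Q : ℝ) ^ σ * X := by
  induction B generalizing σ with
  | zero =>
    refine ⟨1, le_rfl, fun Q X hQ => ?_⟩
    have hQ' : (1 : ℝ) ≤ Q := by exact_mod_cast hQ
    have h3 : (1 : ℝ) ≤ (Q : ℝ) ^ σ := Real.one_le_rpow hQ' hσ.le
    simp only [pow_zero, Finset.sum_const, Nat.card_Icc, Nat.add_sub_cancel, nsmul_eq_mul,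
      mul_one, one_mul]
    nlinarith [(Nat.cast_nonneg X : (0 : ℝ) ≤ X)]
  | succ B ih =>
    obtain ⟨C1, hC1, ih⟩ := ih (σ / 2) (by positivity)
    have hη : 0 < σ / (4 * ((B : ℝ) + 1)) := by positivity
    obtain ⟨D, hD, hdiv⟩ := Pool.Agent.Pal.card_divisors_le_rpow hη
    set E : ℝ := 1 + 1 / (σ / 4) with hE
    have hE1 : 1 ≤ E := by
      have : 0 ≤ 1 / (σ / 4) := by positivity
      linarith
    have hDB : 1 ≤ D ^ B := one_le_pow₀ hD
    refine ⟨C1 * D ^ B * E, ?_, ?_⟩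
    · calc (1 : ℝ) = 1 * 1 * 1 := by ring
        _ ≤ C1 * D ^ B * E := by gcongr
    · intro Q X hQ
      have hQ' : (1 : ℝ) ≤ Q := by exact_mod_cast hQ
      have hstep : ∑ k ∈ Finset.Icc 1 X, (dQ Q k : ℝ) ^ (B + 1) =
          ∑ q ∈ Finset.Icc 1 Q, ∑ j ∈ Finset.Icc 1 (X / q), (dQ Q (q * j) : ℝ) ^ B := by
        have : ∀ k, (dQ Q k : ℝ) ^ (B + 1) =
            ∑ q ∈ Finset.Icc 1 Q, if q ∣ k then (dQ Q k : ℝ) ^ B else 0 := by
          intro k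
          rw [← Finset.sum_filter, Finset.sum_const, nsmul_eq_mul, pow_succ, mul_comm]
          rfl
        simp_rw [this]
        rw [Finset.sum_comm]
        apply Finset.sum_congr rfl
        intro q hq
        rw [← Finset.sum_filter]
        exact sum_mult (fun k => (dQ Q k : ℝ) ^ B) X q (Finset.mem_Icc.mp hq).1
      rw [hstep]
      have hq1 : ∀ q ∈ Finset.Icc 1 Q, ∑ j ∈ Finset.Icc 1 (X / q), (dQ Q (q * j) : ℝ) ^ B ≤
          (D ^ B * (Q : ℝ) ^ (σ / 4)) * (C1 * (Q : ℝ) ^ (σ / 2) * X) * (1 / (q : ℝ)) := by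
        intro q hq
        obtain ⟨hq1, hqQ⟩ := Finset.mem_Icc.mp hq
        have hqpos : (0 : ℝ) < q := by exact_mod_cast hq1
        have hqQ' : (q : ℝ) ≤ Q := by exact_mod_cast hqQ
        have h1 : ∑ j ∈ Finset.Icc 1 (X / q), (dQ Q (q * j) : ℝ) ^ B ≤
            (q.divisors.card : ℝ) ^ B * ∑ j ∈ Finset.Icc 1 (X / q), (dQ Q j : ℝ) ^ B := by
          rw [Finset.mul_sum]
          apply Finset.sum_le_sum
          intro j _
          rw [← mul_pow]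
          apply pow_le_pow_left₀ (by positivity)
          exact_mod_cast dQ_mul Q q j hq1
        have h2 : (q.divisors.card : ℝ) ^ B ≤ D ^ B * (Q : ℝ) ^ (σ / 4) := by
          calc (q.divisors.card : ℝ) ^ B ≤ (D * (q : ℝ) ^ (σ / (4 * ((B : ℝ) + 1)))) ^ B :=
                pow_le_pow_left₀ (by positivity) (hdiv q hq1) B
            _ = D ^ B * ((q : ℝ) ^ (σ / (4 * ((B : ℝ) + 1)))) ^ B := mul_pow _ _ _
            _ ≤ D ^ B * (Q : ℝ) ^ (σ / 4) := by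
              gcongr
              rw [← Real.rpow_natCast, ← Real.rpow_mul (by positivity)]
              calc (q : ℝ) ^ (σ / (4 * ((B : ℝ) + 1)) * (B : ℝ))
                  ≤ (Q : ℝ) ^ (σ / (4 * ((B : ℝ) + 1)) * (B : ℝ)) :=
                    Real.rpow_le_rpow (by positivity) hqQ' (by positivity)
                _ ≤ (Q : ℝ) ^ (σ / 4) := by
                  apply Real.rpow_le_rpow_of_exponent_le hQ'
                  have hB : (0 : ℝ) < (B : ℝ) + 1 := by positivity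
                  rw [div_mul_eq_mul_div, div_le_div_iff₀ (by positivity) (by norm_num)]
                  nlinarith
        have h3 : ∑ j ∈ Finset.Icc 1 (X / q), (dQ Q j : ℝ) ^ B ≤
            C1 * (Q : ℝ) ^ (σ / 2) * (X * (1 / (q : ℝ))) := by
          refine (ih Q (X / q) hQ).trans ?_
          gcongr
          have := @Nat.cast_div_le ℝ _ _ _ X q
          calc ((X / q : ℕ) : ℝ) ≤ (X : ℝ) / q := this
            _ = X * (1 / (q : ℝ)) := by ring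
        calc ∑ j ∈ Finset.Icc 1 (X / q), (dQ Q (q * j) : ℝ) ^ B ≤ _ := h1
          _ ≤ (D ^ B * (Q : ℝ) ^ (σ / 4)) * (C1 * (Q : ℝ) ^ (σ / 2) * (X * (1 / (q : ℝ)))) := by
            apply mul_le_mul h2 h3 (by positivity) (by positivity)
          _ = _ := by ring
      calc _ ≤ ∑ q ∈ Finset.Icc 1 Q,
            (D ^ B * (Q : ℝ) ^ (σ / 4)) * (C1 * (Q : ℝ) ^ (σ / 2) * X) * (1 / (q : ℝ)) :=
            Finset.sum_le_sum hq1
        _ = (D ^ B * (Q : ℝ) ^ (σ / 4)) * (C1 * (Q : ℝ) ^ (σ / 2) * X) *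
            ∑ q ∈ Finset.Icc 1 Q, (1 : ℝ) / q := by rw [Finset.mul_sum]
        _ ≤ (D ^ B * (Q : ℝ) ^ (σ / 4)) * (C1 * (Q : ℝ) ^ (σ / 2) * X) *
            (E * (Q : ℝ) ^ (σ / 4)) := by
          apply mul_le_mul_of_nonneg_left (sum_inv_le (σ / 4) (by positivity) Q hQ)
          positivity
        _ = C1 * D ^ B * E * ((Q : ℝ) ^ (σ / 4) * (Q : ℝ) ^ (σ / 2) * (Q : ℝ) ^ (σ / 4)) * X := by
          ring
        _ = C1 * D ^ B * E * (Q : ℝ) ^ σ * X := by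
          rw [← Real.rpow_add (by linarith), ← Real.rpow_add (by linarith)]
          congr 3
          ring

end STZ
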