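import Pool.Agent.STZ.Defs

/-!
# Reproducing kernel families and the statements about them

A reproducing kernel family on a probability space `X`, indexed by `Λ`: for every `l : Λ`
a continuous hermitian kernel `k l` which is the orthogonal projection onto a
finite dimensional space `E_l ⊆ C(X)`, the spaces being pairwise orthogonal.
-/

open MeasureTheory Complex
open scoped ComplexConjugate

namespace STZ

/-- A reproducing kernel family. -/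
structure RK (X Λ : Type*) [TopologicalSpace X] [MeasureSpace X] [DecidableEq Λ] where
  k : Λ → X → X → ℂ
  D : Λ → ℝ
  cont : ∀ l, Continuous fun p : X × X => k l p.1 p.2
  herm : ∀ l x y, k l y x = conj (k l x y)
  diag : ∀ l x, k l x x = (D l : ℂ)
  comp : ∀ l l' x y, ∫ z, k l x z * k l' z y = if l = l' then k l x y else 0

section
variable {X Λ : Type*} [TopologicalSpace X] [MeasureSpace X] [DecidableEq Λ]

/-- `f` belongs to the space `E_l`. -/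
def RK.Mem (R : RK X Λ) (l : Λ) (f : X → ℂ) : Prop :=
  Continuous f ∧ ∀ x, ∫ z, R.k l x z * f z = f x

/-- The orthogonal projection onto `E_l`. -/
noncomputable def RK.P (R : RK X Λ) (l : Λ) (g : X → ℂ) (x : X) : ℂ := ∫ z, R.k l x z * g z

/-- The Schrodinger evolution of the finite family `f`: `∑ e^{- i t om l} f_l(x)`. -/
noncomputable def evol {X Λ : Type*} (om : Λ → ℝ) (F : Finset Λ) (f : Λ → X → ℂ) (t : ℝ) (x : X) : ℂ :=
  ∑ l ∈ F, cexp (-((t * om l : ℝ) : ℂ) * I) * f l x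

/-- The truncated smoothed kernel `∑_{l ∈ s} w_l e^{- i t om l} k_l(x,y)`. -/
noncomputable def RK.ker (R : RK X Λ) (om : Λ → ℝ) (s : Finset Λ) (w : Λ → ℝ) (t : ℝ) (x y : X) : ℂ :=
  ∑ l ∈ s, ((w l : ℝ) : ℂ) * cexp (-((t * om l : ℝ) : ℂ) * I) * R.k l x y

/-- The measure `dt dx` on `[0,T0] x X`, as a measure on `ℝ x X`. -/
noncomputable def stm (X : Type*) [MeasureSpace X] (T0 : ℝ) : Measure (ℝ × X) :=
  (volume.restrict (Set.Icc (0 : ℝ) T0)).prod volume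

/-- Kernel bound of dimension `d` and rank `r`: for every `N` there are weights (at least `1` on
the frequencies of size `≤ N`) and for every level `η ∈ (0,1]` an exceptional set of times of
measure `O(N^-2 η^-4)` outside of which the kernel is `O(η^r N^d)`. -/
def KB (R : RK X Λ) (om : Λ → ℝ) (size : Λ → ℕ) (d r : ℕ) : Prop :=
  ∀ T0 : ℝ, 0 < T0 → ∃ C : ℝ, 1 ≤ C ∧ ∀ N : ℕ, 1 ≤ N → ∃ (s : Finset Λ) (w : Λ → ℝ),
    (∀ l, size l ≤ N → l ∈ s) ∧ (∀ l, 0 ≤ w l ∧ w l ≤ C) ∧ (∀ l, size l ≤ N → 1 ≤ w l) ∧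
    ∀ η : ℝ, 0 < η → η ≤ 1 → ∃ T : Set ℝ, MeasurableSet T ∧
      volume (T ∩ Set.Icc (-T0) T0) ≤ ENNReal.ofReal (C * ((N : ℝ) ^ 2)⁻¹ * (η ^ 4)⁻¹) ∧
      ∀ t : ℝ, |t| ≤ T0 → t ∉ T → ∀ x y, ‖R.ker om s w t x y‖ ≤ C * η ^ r * (N : ℝ) ^ d

/-- The dimension bound: the sum of the dimensions of the `E_l` with `size l ≤ N` is `O(N^d)`. -/
def DS (R : RK X Λ) (size : Λ → ℕ) (d : ℕ) : Prop :=
  ∃ C : ℝ, 1 ≤ C ∧ ∀ N : ℕ, 1 ≤ N → ∀ F : Finset Λ, (∀ l ∈ F, size l ≤ N) →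
    ∑ l ∈ F, R.D l ≤ C * (N : ℝ) ^ d

/-- The frequency localised scale-invariant Strichartz estimate at the exponent `q`. -/
def BE (R : RK X Λ) (om : Λ → ℝ) (size : Λ → ℕ) (d : ℕ) (q : ℝ) : Prop :=
  ∀ T0 : ℝ, 0 < T0 → ∃ C : ℝ, 0 < C ∧ ∀ N : ℕ, 1 ≤ N → ∀ F : Finset Λ,
    (∀ l ∈ F, size l ≤ N) → ∀ f : Λ → X → ℂ, (∀ l ∈ F, R.Mem l (f l)) →
    ∫ p, ‖evol om F f p.1 p.2‖ ^ q ∂(stm X T0) ≤
      C * (N : ℝ) ^ ((d : ℝ) * q / 2 - d - 2) * (∑ l ∈ F, ∫ x, ‖f l x‖ ^ 2) ^ (q / 2)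

end

end STZ
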