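import Pool.Agent.STZ.Theta1

/-!
# STZ/Theta2: the Weyl type bound for the theta function

PROOF. (1) There is `C1` such that for `Im τ ≥ 1/2` and all `z`:
`‖θ(z,τ)‖ ≤ C1 exp(π (Im z)²/Im τ)`: by `norm_jacobiTheta₂_term`
`‖term n‖ = exp(-π n² Im τ - 2 π n Im z) = exp(π (Im z)²/Im τ) exp(-π Im τ (n + u)²)`,
`u = Im z/Im τ`, and `∑_n exp(-π (n+u)²/2) ≤ C1` uniformly in real `u` (shift `n` by an integer so
that `|u| ≤ 1/2`, then `(n+u)² ≥ (|n| - 1/2)² ≥ |n| - 1`, say).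
(2) Given `τ` with `0 < Im τ < 3/4` choose `γ` with `γ • τ ∈ ModularGroup.fd`
(`ModularGroup.exists_smul_mem_fd`), so `Im (γ • τ) ≥ √3/2` (`ModularGroup.three_le_four_mul_im_sq_of_mem_fd`)
and `Im (γ • τ) = Im τ/‖c τ + d‖²` (`ModularGroup.im_smul_eq_div_normSq`), `(c,d)` the lower row.
By (1) `NB (γ•τ) (C1 (Im γ•τ)^(1/4))`, so by `NB_smul`
`‖θ(z,τ)‖ ≤ (Im τ)^(-1/4) C1 (Im τ/‖cτ+d‖²)^(1/4) exp(..) = C1 ‖cτ+d‖^(-1/2) exp(..)`.
(3) `c ≠ 0`: otherwise `d = ±1` and `Im τ = Im γ•τ ≥ √3/2 > 3/4`. If `c < 0` replace `(c,d)` by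
`(-c,-d)`.
-/

open Complex UpperHalfPlane
open scoped Real MatrixGroups

namespace STZ

/-- The theta series is bounded by a constant times the Gaussian factor when `Im τ ≥ 1/2`. -/
lemma theta_bound_high : ∃ C1 : ℝ, 1 ≤ C1 ∧ ∀ z τ : ℂ, 1 / 2 ≤ τ.im →
    ‖jacobiTheta₂ z τ‖ ≤ C1 * Real.exp (π * z.im ^ 2 / τ.im) := by
  have hs := summable_pow_mul_jacobiTheta₂_term_bound (1 / 4) (T := 1 / 2) (by norm_num) 0
  simp only [pow_zero, one_mul, Int.cast_abs] at hs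
  refine ⟨max 1 (∑' n : ℤ, Real.exp (-π * (1 / 2 * (n : ℝ) ^ 2 - 2 * (1 / 4) * |(n : ℝ)|))),
    le_max_left _ _, fun z τ hτ => ?_⟩
  have hτ0 : 0 < τ.im := by linarith
  set u : ℝ := z.im / τ.im with hu
  set m : ℤ := round u with hm
  set E : ℝ := Real.exp (π * z.im ^ 2 / τ.im) with hE
  have hterm : ∀ n : ℤ, ‖jacobiTheta₂_term (n - m) z τ‖ ≤
      E * Real.exp (-π * (1 / 2 * (n : ℝ) ^ 2 - 2 * (1 / 4) * |(n : ℝ)|)) := by
    intro n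
    rw [norm_jacobiTheta₂_term, hE, ← Real.exp_add, Real.exp_le_exp]
    have hv : |u - m| ≤ 1 / 2 := abs_sub_round u
    have hz : z.im = u * τ.im := by rw [hu]; field_simp
    have e1 : -π * ((n - m : ℤ) : ℝ) ^ 2 * τ.im - 2 * π * ((n - m : ℤ) : ℝ) * z.im
        = π * z.im ^ 2 / τ.im - π * τ.im * (n + (u - m)) ^ 2 := by
      rw [hz]
      push_cast
      field_simp
      ring
    rw [e1]
    have h2 : 1 / 2 * ((n : ℝ) ^ 2 - |(n : ℝ)|) ≤ τ.im * (n + (u - m)) ^ 2 := by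
      have h3 : (n : ℝ) ^ 2 - |(n : ℝ)| ≤ (n + (u - m)) ^ 2 := by
        have h4 : -(|(n : ℝ)| * (1 / 2)) ≤ n * (u - m) := by
          have := neg_abs_le ((n : ℝ) * (u - m))
          rw [abs_mul] at this
          have h5 : |(n : ℝ)| * |u - m| ≤ |(n : ℝ)| * (1 / 2) :=
            mul_le_mul_of_nonneg_left hv (abs_nonneg _)
          linarith
        nlinarith [sq_nonneg (u - m)]
      calc 1 / 2 * ((n : ℝ) ^ 2 - |(n : ℝ)|) ≤ 1 / 2 * (n + (u - m)) ^ 2 := by linarith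
        _ ≤ τ.im * (n + (u - m)) ^ 2 := mul_le_mul_of_nonneg_right hτ (sq_nonneg _)
    have := mul_le_mul_of_nonneg_left h2 Real.pi_pos.le
    nlinarith
  have hmaj : Summable fun n : ℤ =>
      E * Real.exp (-π * (1 / 2 * (n : ℝ) ^ 2 - 2 * (1 / 4) * |(n : ℝ)|)) := hs.mul_left E
  have hsum : Summable fun n : ℤ => ‖jacobiTheta₂_term (n - m) z τ‖ :=
    Summable.of_nonneg_of_le (fun _ => norm_nonneg _) hterm hmaj
  have e2 : jacobiTheta₂ z τ = ∑' n : ℤ, jacobiTheta₂_term (n - m) z τ := by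
    rw [jacobiTheta₂, ← Equiv.tsum_eq (Equiv.subRight m)]
    rfl
  rw [e2]
  calc ‖∑' n : ℤ, jacobiTheta₂_term (n - m) z τ‖
      ≤ ∑' n : ℤ, ‖jacobiTheta₂_term (n - m) z τ‖ := norm_tsum_le_tsum_norm hsum
    _ ≤ ∑' n : ℤ, E * Real.exp (-π * (1 / 2 * (n : ℝ) ^ 2 - 2 * (1 / 4) * |(n : ℝ)|)) :=
        hsum.tsum_le_tsum hterm hmaj
    _ = (∑' n : ℤ, Real.exp (-π * (1 / 2 * (n : ℝ) ^ 2 - 2 * (1 / 4) * |(n : ℝ)|))) * E := by
        rw [tsum_mul_left, mul_comm]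
    _ ≤ _ := mul_le_mul_of_nonneg_right (le_max_right _ _) (Real.exp_pos _).le

theorem theta_bound : ∃ C0 : ℝ, 1 ≤ C0 ∧ ∀ τ : ℂ, 0 < τ.im → τ.im < 3 / 4 →
    ∃ c d : ℤ, 0 < c ∧ IsCoprime c d ∧ ∀ z : ℂ, ‖jacobiTheta₂ z τ‖ ≤
      C0 * ‖(c : ℂ) * τ + d‖ ^ (-(1 / 2) : ℝ) * Real.exp (π * z.im ^ 2 / τ.im) := by
  obtain ⟨C1, hC1, hb⟩ := theta_bound_high
  refine ⟨C1, hC1, fun t ht0 ht1 => ?_⟩
  set τ : ℍ := ⟨t, ht0⟩ with hτ
  have hcoe : (τ : ℂ) = t := rfl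
  obtain ⟨g, hg⟩ := ModularGroup.exists_smul_mem_fd τ
  have him3 := ModularGroup.three_le_four_mul_im_sq_of_mem_fd hg
  have himpos : 0 < (g • τ).im := (g • τ).im_pos
  have himge : 1 / 2 ≤ (g • τ).im := by nlinarith
  have him := ModularGroup.im_smul_eq_div_normSq g τ
  rw [ModularGroup.denom_apply] at him
  have hcop := ModularGroup.bottom_row_coprime g
  have hτim : τ.im = t.im := rfl
  have hns : 0 < Complex.normSq ((g 1 0 : ℂ) * (τ : ℂ) + (g 1 1 : ℂ)) := by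
    rw [Complex.normSq_pos]
    intro h0
    rw [h0, map_zero, div_zero] at him
    rw [him] at himpos
    exact lt_irrefl _ himpos
  have hN : 0 < ‖(g 1 0 : ℂ) * t + (g 1 1 : ℂ)‖ := by
    rw [← hcoe]
    have := hns
    rw [Complex.normSq_pos] at this
    exact norm_pos_iff.2 this
  have hNB : NB τ (C1 * (g • τ).im ^ (1 / 4 : ℝ)) := by
    rw [← NB_smul g τ]
    intro z
    have h1 := hb z (g • τ : ℍ) himge
    calc (g • τ).im ^ (1 / 4 : ℝ) * ‖jacobiTheta₂ z ((g • τ : ℍ) : ℂ)‖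
        ≤ (g • τ).im ^ (1 / 4 : ℝ) * (C1 * Real.exp (π * z.im ^ 2 / (g • τ).im)) :=
          mul_le_mul_of_nonneg_left h1 (by positivity)
      _ = _ := by ring
  have hbd : ∀ z : ℂ, ‖jacobiTheta₂ z t‖ ≤
      C1 * ‖(g 1 0 : ℂ) * t + (g 1 1 : ℂ)‖ ^ (-(1 / 2) : ℝ) * Real.exp (π * z.im ^ 2 / t.im) := by
    intro z
    have h1 := hNB z
    rw [him, hτim, hcoe, Complex.normSq_eq_norm_sq, Real.div_rpow ht0.le (by positivity),
      ← Real.rpow_natCast, ← Real.rpow_mul hN.le] at h1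
    have h2 : ‖(g 1 0 : ℂ) * t + (g 1 1 : ℂ)‖ ^ (((2 : ℕ) : ℝ) * (1 / 4))
        = ‖(g 1 0 : ℂ) * t + (g 1 1 : ℂ)‖ ^ (1 / 2 : ℝ) := by
      congr 1; norm_num
    rw [h2] at h1
    have h3 : 0 < t.im ^ (1 / 4 : ℝ) := Real.rpow_pos_of_pos ht0 _
    rw [Real.rpow_neg hN.le]
    have h4 : t.im ^ (1 / 4 : ℝ) * ‖jacobiTheta₂ z t‖ ≤ t.im ^ (1 / 4 : ℝ) *
        (C1 * (‖(g 1 0 : ℂ) * t + (g 1 1 : ℂ)‖ ^ (1 / 2 : ℝ))⁻¹ *
          Real.exp (π * z.im ^ 2 / t.im)) := by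
      refine h1.trans (le_of_eq ?_)
      rw [div_eq_mul_inv]
      ring
    exact le_of_mul_le_mul_left h4 h3
  have hc0 : g 1 0 ≠ 0 := by
    intro h0
    rw [h0] at hcop him
    have hd : (g 1 1 : ℤ) = 1 ∨ (g 1 1 : ℤ) = -1 := by
      rw [isCoprime_zero_left] at hcop
      exact Int.isUnit_iff.1 hcop
    have : Complex.normSq (((0 : ℤ) : ℂ) * (τ : ℂ) + (g 1 1 : ℂ)) = 1 := by
      rcases hd with h | h <;> rw [h] <;> simp
    rw [this, div_one, hτim] at him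
    nlinarith
  rcases lt_or_gt_of_ne hc0 with h | h
  · refine ⟨-g 1 0, -g 1 1, by omega, hcop.neg_neg, fun z => ?_⟩
    have e : (((-g 1 0 : ℤ) : ℂ)) * t + ((-g 1 1 : ℤ) : ℂ) = -((g 1 0 : ℂ) * t + (g 1 1 : ℂ)) := by
      push_cast; ring
    rw [e, norm_neg]
    exact hbd z
  · exact ⟨g 1 0, g 1 1, h, hcop, hbd⟩

end STZ
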