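import Pool.Agent.STZ.Inst
import Pool.Agent.STZ.Theta2
import Pool.Agent.STZ.Arcs

/-!
# STZ/KBCircle: the kernel bound of the circle

PROOF. `om k = k²/α`. For `N ≥ 1` put `τ = -t/(π α) + i/N²`; then
`e^{-i t k²/α} e^{-π k²/N²} e^{2 π i k x} = jacobiTheta₂_term k x τ`. Weights
`w k = e^{π} e^{-π k²/N²}` (so `w k ≥ 1` for `|k| ≤ N`, `0 ≤ w ≤ e^π`), `s = Finset.Icc (-M) M` with
`M ≥ N` and `∑_{k ∉ s} w k ≤ 1` (summable). For `x - y ∈ ℝ/ℤ` choose a real representative `z`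
(`fourier_coe_apply`). So `‖ker‖ ≤ 1 + e^π ‖jacobiTheta₂ z τ‖`.
Let `η ∈ (0,1]`. If `N = 1` or `η N < 1`, take `T = univ`: the measure is `2 T0` and
`N^-2 η^-4 ≥ 1`. If `N ≥ 2` and `η N ≥ 1` take `T = arcs a Q ρ`, `a = -1/(π α)`, `Q = η^-2`,
`ρ = 1/(η² N²) ≤ 1`: measure `≤ C Q ρ = C N^-2 η^-4`. For `t ∉ T`, `|t| ≤ T0`: with `(c,d)` of
`theta_bound` for `τ` (`Im τ = 1/N² ≤ 1/4`) either `c > Q` and `‖cτ+d‖ ≥ Im = c/N² > 1/(ηN)²`, or
`‖cτ+d‖ ≥ |Re| = |c a t + d| > ρ = 1/(ηN)²`; in both cases `‖cτ+d‖^(-1/2) ≤ η N`, so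
`‖ker‖ ≤ 1 + e^π C0 η N ≤ (1 + e^π C0) η N` (`Im z = 0`).
-/

open MeasureTheory Complex
open scoped ComplexConjugate Real

namespace STZ

/-- The point of the upper half plane attached to the time `t`, at scale `N`. -/
noncomputable def tauC (a : ℝ) (N : ℕ) (t : ℝ) : ℂ := ((a * t : ℝ) : ℂ) + ((((N : ℝ) ^ 2)⁻¹ : ℝ) : ℂ) * I

lemma tauC_re (a : ℝ) (N : ℕ) (t : ℝ) : (tauC a N t).re = a * t := by
  rw [tauC, add_re, ofReal_re, mul_I_re, ofReal_im, neg_zero, add_zero]

lemma tauC_im (a : ℝ) (N : ℕ) (t : ℝ) : (tauC a N t).im = ((N : ℝ) ^ 2)⁻¹ := by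
  have : (tauC a N t).im = ((((N : ℝ) ^ 2)⁻¹ : ℝ) : ℂ).re := by
    rw [tauC, add_im, ofReal_im, zero_add, mul_I_im]
  rw [this, ofReal_re]

/-- Outside of the major arcs, `‖c τ + d‖^(-1/2) ≤ η N`. -/
lemma rpow_le_of_notMem_arcs {a : ℝ} {N : ℕ} {t η : ℝ} (hN : 1 ≤ N) (hη : 0 < η)
    (ht : t ∉ arcs a (η ^ 2)⁻¹ (η ^ 2 * (N : ℝ) ^ 2)⁻¹) {c d : ℤ} (hc : 0 < c) :
    ‖(c : ℂ) * tauC a N t + d‖ ^ (-(1 / 2) : ℝ) ≤ η * N := by
  have hN0 : (0 : ℝ) < N := by exact_mod_cast hN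
  have hpos : 0 < (η ^ 2 * (N : ℝ) ^ 2)⁻¹ := by positivity
  have hre : ((c : ℂ) * tauC a N t + d).re = (c : ℝ) * (a * t) + d := by
    rw [add_re, intCast_re, ← ofReal_intCast c, re_ofReal_mul, tauC_re]
  have him : ((c : ℂ) * tauC a N t + d).im = (c : ℝ) * ((N : ℝ) ^ 2)⁻¹ := by
    rw [add_im, intCast_im, ← ofReal_intCast c, im_ofReal_mul, tauC_im, add_zero]
  have hge : (η ^ 2 * (N : ℝ) ^ 2)⁻¹ ≤ ‖(c : ℂ) * tauC a N t + d‖ := by
    by_cases hcQ : (c : ℝ) ≤ (η ^ 2)⁻¹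
    · by_contra hcon
      push Not at hcon
      apply ht
      refine ⟨c, d, by omega, hcQ, ?_⟩
      have := Complex.abs_re_le_norm ((c : ℂ) * tauC a N t + d)
      rw [hre] at this
      linarith
    · push Not at hcQ
      have h1 := Complex.abs_im_le_norm ((c : ℂ) * tauC a N t + d)
      rw [him] at h1
      refine le_trans ?_ ((le_abs_self _).trans h1)
      rw [mul_inv]
      exact mul_le_mul_of_nonneg_right hcQ.le (by positivity)
  calc ‖(c : ℂ) * tauC a N t + d‖ ^ (-(1 / 2) : ℝ)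
      ≤ ((η ^ 2 * (N : ℝ) ^ 2)⁻¹) ^ (-(1 / 2) : ℝ) :=
        Real.rpow_le_rpow_of_nonpos hpos hge (by norm_num)
    _ = η * N := by
        rw [Real.rpow_neg hpos.le, ← Real.inv_rpow hpos.le, inv_inv,
          ← mul_pow, ← Real.sqrt_eq_rpow, Real.sqrt_sq (by positivity)]

/-- a finite set outside of which the sum of the norms of a summable family is small -/
lemma exists_finset_norm_sub_le {v : ℤ → ℝ} (hv : Summable v) (s0 : Finset ℤ)
    {ε : ℝ} (hε : 0 < ε) :
    ∃ s : Finset ℤ, s0 ⊆ s ∧ ∀ f : ℤ → ℂ, (∀ n, ‖f n‖ ≤ v n) →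
      ‖∑ n ∈ s, f n‖ ≤ ‖∑' n, f n‖ + ε := by
  have h1 := hv.hasSum
  rw [HasSum] at h1
  have h2 : ∀ᶠ s : Finset ℤ in Filter.atTop, ∑' n, v n - ε < ∑ n ∈ s, v n :=
    h1.eventually (lt_mem_nhds (by linarith))
  obtain ⟨s, hs0, hs⟩ := ((Filter.eventually_ge_atTop s0).and h2).exists
  refine ⟨s, hs0, fun f hf => ?_⟩
  have hfs : Summable fun n => ‖f n‖ := hv.of_nonneg_of_le (fun n => norm_nonneg _) hf
  have e1 := hfs.of_norm.sum_add_tsum_subtype_compl s
  have e2 := hv.sum_add_tsum_subtype_compl s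
  have h3 : ‖∑' n : {n // n ∉ s}, f n‖ ≤ ∑' n : {n // n ∉ s}, v n := by
    refine tsum_of_norm_bounded (hv.subtype _).hasSum fun n => hf n
  have h4 : ∑' n : {n // n ∉ s}, v n ≤ ε := by linarith
  have h5 : ∑ n ∈ s, f n = ∑' n, f n - ∑' n : {n // n ∉ s}, f n := by
    rw [← e1]; ring
  rw [h5]
  exact (norm_sub_le _ _).trans (by linarith)

theorem KB_circle (α : ℝ) (hα : 0 < α) :
    KB circleRK (fun k : ℤ => (k : ℝ) ^ 2 / α) (fun k => k.natAbs) 1 1 := by
  intro T0 hT0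
  obtain ⟨C0, hC0, hθ⟩ := theta_bound
  set a : ℝ := -1 / (π * α) with ha
  have ha0 : a ≠ 0 := by
    rw [ha]; positivity
  obtain ⟨C1, hC1, harc⟩ := arcs_measure a T0 ha0 hT0
  have hE : (1 : ℝ) ≤ rexp π := Real.one_le_exp Real.pi_pos.le
  set C : ℝ := 2 * T0 + C1 + (1 + rexp π * C0) + rexp π with hC
  have hEC : 0 ≤ rexp π * C0 := by positivity
  have hC1' : 1 ≤ C := by linarith
  refine ⟨C, hC1', fun N hN => ?_⟩
  have hN0 : (0 : ℝ) < N := by exact_mod_cast hN
  have hN1 : (1 : ℝ) ≤ N := by exact_mod_cast hN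
  set v : ℤ → ℝ := fun n => rexp (-π * n ^ 2 * ((N : ℝ) ^ 2)⁻¹) with hv
  have hvnorm : ∀ (t z : ℝ) (n : ℤ), ‖jacobiTheta₂_term n z (tauC a N t)‖ = v n := by
    intro t z n
    rw [norm_jacobiTheta₂_term, tauC_im, ofReal_im, mul_zero, sub_zero]
  have hvs : Summable v := by
    have h1 := (summable_jacobiTheta₂_term_iff ((0 : ℝ) : ℂ) (tauC a N 0)).2
      (by rw [tauC_im]; positivity)
    have h2 := h1.norm
    simp only [hvnorm] at h2
    exact h2
  have hv0 : ∀ n, 0 ≤ v n := fun n => (Real.exp_pos _).le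
  have hv1 : ∀ n, v n ≤ 1 := by
    intro n
    rw [hv]
    simp only
    rw [Real.exp_le_one_iff]
    have : 0 ≤ π * (n : ℝ) ^ 2 * ((N : ℝ) ^ 2)⁻¹ := by positivity
    linarith
  obtain ⟨s, hs0, hs⟩ := exists_finset_norm_sub_le hvs (Finset.Icc (-(N : ℤ)) N)
    (ε := (rexp π)⁻¹) (by positivity)
  refine ⟨s, fun n => rexp π * v n, ?_, ?_, ?_, ?_⟩
  · intro l hl
    apply hs0
    change l.natAbs ≤ N at hl
    rw [Finset.mem_Icc]
    omega
  · intro l
    refine ⟨mul_nonneg (by positivity) (hv0 l), ?_⟩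
    calc rexp π * v l ≤ rexp π * 1 := mul_le_mul_of_nonneg_left (hv1 l) (by positivity)
      _ ≤ C := by rw [mul_one]; linarith
  · intro l hl
    have h1 : ((l : ℝ)) ^ 2 ≤ (N : ℝ) ^ 2 := by
      have h2 : |(l : ℝ)| ≤ N := by
        rw [← Int.cast_abs, Int.abs_eq_natAbs]
        exact_mod_cast hl
      rw [← sq_abs]
      exact pow_le_pow_left₀ (abs_nonneg _) h2 2
    simp only [hv]
    rw [← Real.exp_add]
    apply Real.one_le_exp
    have h3 : (l : ℝ) ^ 2 * ((N : ℝ) ^ 2)⁻¹ ≤ 1 := by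
      rw [← div_eq_mul_inv]
      exact div_le_one_of_le₀ h1 (by positivity)
    nlinarith [Real.pi_pos]
  · intro η hη hη1
    by_cases hcase : N = 1 ∨ η * N < 1
    · refine ⟨Set.univ, MeasurableSet.univ, ?_, fun t _ ht => absurd (Set.mem_univ t) ht⟩
      rw [Set.univ_inter, Real.volume_Icc]
      apply ENNReal.ofReal_le_ofReal
      have h1 : (N : ℝ) ^ 2 * η ^ 4 ≤ 1 := by
        rcases hcase with h | h
        · rw [h, Nat.cast_one, one_pow, one_mul]
          exact pow_le_one₀ hη.le hη1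
        · have e : (N : ℝ) ^ 2 * η ^ 4 = (η * N) ^ 2 * η ^ 2 := by ring
          rw [e]
          have h2 : (η * N) ^ 2 ≤ 1 := pow_le_one₀ (by positivity) h.le
          have h3 : η ^ 2 ≤ 1 := pow_le_one₀ hη.le hη1
          exact mul_le_one₀ h2 (by positivity) h3
      have h2 : 1 ≤ ((N : ℝ) ^ 2)⁻¹ * (η ^ 4)⁻¹ := by
        rw [← mul_inv]
        exact (one_le_inv₀ (by positivity)).2 h1
      calc T0 - -T0 = 2 * T0 := by ring
        _ ≤ C := by linarith
        _ ≤ C * (((N : ℝ) ^ 2)⁻¹ * (η ^ 4)⁻¹) := le_mul_of_one_le_right (by linarith) h2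
        _ = C * ((N : ℝ) ^ 2)⁻¹ * (η ^ 4)⁻¹ := by ring
    · push Not at hcase
      obtain ⟨hN2, hηN⟩ := hcase
      have hN2' : (2 : ℝ) ≤ N := by
        have : 2 ≤ N := by omega
        exact_mod_cast this
      refine ⟨arcs a (η ^ 2)⁻¹ (η ^ 2 * (N : ℝ) ^ 2)⁻¹, measurableSet_arcs _ _ _, ?_, ?_⟩
      · refine (harc _ _ ?_ (by positivity) ?_).trans ?_
        · exact (one_le_inv₀ (by positivity)).2 (pow_le_one₀ hη.le hη1)
        · rw [← mul_pow]
          exact inv_le_one_of_one_le₀ (one_le_pow₀ hηN)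
        · apply ENNReal.ofReal_le_ofReal
          have e : C1 * (η ^ 2)⁻¹ * (η ^ 2 * (N : ℝ) ^ 2)⁻¹ = C1 * ((N : ℝ) ^ 2)⁻¹ * (η ^ 4)⁻¹ := by
            field_simp
          rw [e]
          have : C1 ≤ C := by linarith
          gcongr
      · intro t _ ht x y
        obtain ⟨z, hz⟩ := QuotientAddGroup.mk_surjective (x - y)
        have him : (tauC a N t).im = ((N : ℝ) ^ 2)⁻¹ := tauC_im a N t
        have him4 : ((N : ℝ) ^ 2)⁻¹ < 3 / 4 := by
          have : (4 : ℝ) ≤ (N : ℝ) ^ 2 := by nlinarith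
          calc ((N : ℝ) ^ 2)⁻¹ ≤ 4⁻¹ := inv_anti₀ (by norm_num) this
            _ < 3 / 4 := by norm_num
        obtain ⟨c, d, hc, -, hcd⟩ := hθ (tauC a N t) (by rw [him]; positivity) (by rw [him]; exact him4)
        have hk := hcd (z : ℂ)
        rw [ofReal_im] at hk
        have hpow := rpow_le_of_notMem_arcs (d := d) hN hη ht hc
        have hth : ‖jacobiTheta₂ z (tauC a N t)‖ ≤ C0 * (η * N) := by
          refine hk.trans ?_
          have : rexp (π * 0 ^ 2 / (tauC a N t).im) = 1 := by simp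
          rw [this, mul_one]
          exact mul_le_mul_of_nonneg_left hpow (by linarith)
        have hsum := hs (fun n => jacobiTheta₂_term n z (tauC a N t)) fun n => (hvnorm t z n).le
        have hker : circleRK.ker (fun k : ℤ => (k : ℝ) ^ 2 / α) s (fun n => rexp π * v n) t x y =
            (rexp π : ℂ) * ∑ n ∈ s, jacobiTheta₂_term n z (tauC a N t) := by
          unfold RK.ker
          rw [Finset.mul_sum]
          refine Finset.sum_congr rfl fun n _ => ?_
          have e1 : circleRK.k n x y = cexp (2 * π * I * n * z / (1 : ℝ)) := by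
            change kT n x y = _
            rw [kT, ← hz]
            exact fourier_coe_apply
          rw [e1, jacobiTheta₂_term]
          simp only [hv]
          push_cast
          rw [mul_assoc, mul_assoc, ← Complex.exp_add, ← Complex.exp_add]
          congr 2
          rw [tauC, ha]
          push_cast
          have hπ : (π : ℂ) ≠ 0 := by exact_mod_cast Real.pi_ne_zero
          have hα' : (α : ℂ) ≠ 0 := by exact_mod_cast hα.ne'
          have hN' : (N : ℂ) ≠ 0 := by exact_mod_cast hN0.ne'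
          field_simp
          have hI : I ^ 2 = -1 := I_sq
          ring_nf
          rw [hI]
          ring
        rw [hker, norm_mul]
        have e3 : ‖((rexp π : ℝ) : ℂ)‖ = rexp π := by
          rw [Complex.norm_real, Real.norm_eq_abs, abs_of_pos (Real.exp_pos _)]
        rw [e3, pow_one, pow_one]
        have h6 : ‖∑ n ∈ s, jacobiTheta₂_term n z (tauC a N t)‖ ≤ C0 * (η * N) + (rexp π)⁻¹ :=
          hsum.trans (by
            change ‖jacobiTheta₂ z (tauC a N t)‖ + _ ≤ _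
            linarith)
        calc rexp π * ‖∑ n ∈ s, jacobiTheta₂_term n z (tauC a N t)‖
            ≤ rexp π * (C0 * (η * N) + (rexp π)⁻¹) :=
              mul_le_mul_of_nonneg_left h6 (Real.exp_pos _).le
          _ = rexp π * C0 * (η * N) + 1 := by
              rw [mul_add, mul_inv_cancel₀ (Real.exp_pos _).ne']; ring
          _ ≤ rexp π * C0 * (η * N) + 1 * (η * N) := by linarith
          _ = (1 + rexp π * C0) * (η * N) := by ring
          _ ≤ C * (η * N) := by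
              apply mul_le_mul_of_nonneg_right _ (by positivity)
              linarith
          _ = C * η * N := by ring

end STZ
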