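import Pool.Agent.STZ.LargeValues
import Pool.Agent.STZ.Distr

/-!
# STZ/BEofKB: kernel bounds imply the localised Strichartz estimates for `q > 2 + 8/r`

PROOF. Fix `T0`; let `C1 ≥ 1` be the constant of `KB` and `C2 ≥ 1` the one of `DS`. Fix `N`, `F`, `f`,
`A² = ∑_{l ∈ F} ∫ ‖f l‖²`, `v(t,x) = ‖evol om F f t x‖`. If `A = 0` every `f l` vanishes
(continuous functions with `∫‖f‖² = 0`; or: `point_le`), so both sides are `0` (`q > 0`). Assume `A > 0`.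
(1) `bernstein` (for the family `e^{-i t om l} f_l`, `mem_smul`) and `DS`:
`v ≤ V := (C2 N^d)^(1/2) A`.
(2) Let `S = {v > lam}`, `lam > 0`, `|S| = (stm X T0).real S`. If `lam ≥ V`, `S = ∅`. Otherwise put
`κ = lam²/(2 A²) ≤ C2 N^d/2` and `η = (κ/(C1 C2 N^d))^(1/r) ∈ (0,1]`, so that `C1 η^r N^d ≤ κ`. Take
`T` from `KB`; `large_values` with `W = C1` gives
`lam² |S|² ≤ A² (κ |S|² + C1 |T| |S|)`, hence `lam²|S|²/2 ≤ A² C1 |T| |S|` and
`|S| ≤ 2 C1 A² lam^-2 |T| ≤ 2 C1² A² lam^-2 N^-2 η^-4`,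
`η^-4 = (lam²/(2 C1 C2 A² N^d))^(-4/r)`. So `|S| ≤ B lam^(-p0)` with `p0 = 2 + 8/r` and
`B = C3 N^(-2 + 4 d/r) A^(p0)`, `C3 = 2 C1² (2 C1 C2)^(4/r)`.
(3) `weak_strong`: `∫ v^q ≤ q/(q-p0) B V^(q-p0) = C4 N^(-2 + 4d/r + d (q-p0)/2) A^q` and
`-2 + 4d/r + d(q - p0)/2 = d q/2 - d - 2`. Finally `A^q = (A²)^(q/2)`.
-/

open MeasureTheory Complex
open scoped ComplexConjugate

namespace STZ

variable {X Λ : Type*} [TopologicalSpace X] [CompactSpace X] [T2Space X]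
  [SecondCountableTopology X] [MeasureSpace X] [BorelSpace X]
  [IsProbabilityMeasure (volume : Measure X)] [DecidableEq Λ]

lemma BEofKB_norm_exp (x : ℝ) : ‖cexp (-((x : ℝ) : ℂ) * I)‖ = 1 := by
  rw [← Complex.ofReal_neg, Complex.norm_exp_ofReal_mul_I]

/-- The pointwise bound of the evolution. -/
lemma BEofKB_point (R : RK X Λ) (om : Λ → ℝ) (F : Finset Λ) (f : Λ → X → ℂ)
    (hf : ∀ l ∈ F, R.Mem l (f l)) (t : ℝ) (x : X) :
    ‖evol om F f t x‖ ^ 2 ≤ (∑ l ∈ F, R.D l) * ∑ l ∈ F, ∫ z, ‖f l z‖ ^ 2 := by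
  have h := R.bernstein F (fun l x => cexp (-((t * om l : ℝ) : ℂ) * I) * f l x)
    (fun l hl => R.mem_smul (hf l hl) _) x
  have e : ∀ l ∈ F, (∫ z, ‖cexp (-((t * om l : ℝ) : ℂ) * I) * f l z‖ ^ 2) = ∫ z, ‖f l z‖ ^ 2 := by
    intro l _
    simp only [norm_mul, BEofKB_norm_exp, one_mul]
  rw [Finset.sum_congr rfl e] at h
  exact h

lemma BEofKB_cont (R : RK X Λ) (om : Λ → ℝ) (F : Finset Λ) (f : Λ → X → ℂ)
    (hf : ∀ l ∈ F, R.Mem l (f l)) : Continuous fun p : ℝ × X => evol om F f p.1 p.2 := by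
  unfold evol
  refine continuous_finsetSum _ fun l hl => ?_
  refine Continuous.mul ?_ ((hf l hl).1.comp continuous_snd)
  refine Complex.continuous_exp.comp ?_
  refine Continuous.mul (Continuous.neg ?_) continuous_const
  exact Complex.continuous_ofReal.comp (continuous_fst.mul continuous_const)

/-- Weak type bound, a single level. -/
lemma BEofKB_weak (R : RK X Λ) (om : Λ → ℝ) (d r : ℕ) (hr : 1 ≤ r)
    (T0 C1 C2 : ℝ) (hT0 : 0 < T0) (hC1 : 1 ≤ C1) (hC2 : 1 ≤ C2) (N : ℕ) (hN : 1 ≤ N)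
    (s : Finset Λ) (w : Λ → ℝ)
    (F : Finset Λ) (hFs : F ⊆ s) (hw : ∀ l, 0 ≤ w l ∧ w l ≤ C1) (hw1 : ∀ l ∈ F, 1 ≤ w l)
    (hη : ∀ η : ℝ, 0 < η → η ≤ 1 → ∃ T : Set ℝ, MeasurableSet T ∧
      volume (T ∩ Set.Icc (-T0) T0) ≤ ENNReal.ofReal (C1 * ((N : ℝ) ^ 2)⁻¹ * (η ^ 4)⁻¹) ∧
      ∀ t : ℝ, |t| ≤ T0 → t ∉ T → ∀ x y, ‖R.ker om s w t x y‖ ≤ C1 * η ^ r * (N : ℝ) ^ d)
    (f : Λ → X → ℂ) (hf : ∀ l ∈ F, R.Mem l (f l))
    (hsup : ∀ t x, ‖evol om F f t x‖ ^ 2 ≤ C2 * (N : ℝ) ^ d * ∑ l ∈ F, ∫ z, ‖f l z‖ ^ 2)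
    (lam : ℝ) (hlam : 0 < lam) :
    (stm X T0).real {p : ℝ × X | lam < ‖evol om F f p.1 p.2‖} ≤
      (2 * C1 ^ 2 * (2 * C1 * C2) ^ (4 / (r : ℝ)) * (N : ℝ) ^ (-2 + 4 * (d : ℝ) / r) *
        (∑ l ∈ F, ∫ z, ‖f l z‖ ^ 2) ^ (1 + 4 / (r : ℝ))) * lam ^ (-(2 + 8 / (r : ℝ))) := by
  set E : ℝ := ∑ l ∈ F, ∫ z, ‖f l z‖ ^ 2 with hE
  have hr0 : (0 : ℝ) < r := by exact_mod_cast hr
  have hN0 : (0 : ℝ) < N := by exact_mod_cast hN
  have hE0 : 0 ≤ E := Finset.sum_nonneg fun l _ => integral_nonneg fun z => by positivity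
  set S : Set (ℝ × X) := {p : ℝ × X | lam < ‖evol om F f p.1 p.2‖} with hS
  have hcont := BEofKB_cont R om F f hf
  have hSm : MeasurableSet S :=
    (isOpen_lt continuous_const hcont.norm).measurableSet
  by_cases hempty : C2 * (N : ℝ) ^ d * E ≤ lam ^ 2
  · have : S = ∅ := by
      ext p
      simp only [hS, Set.mem_ofPred_eq, Set.mem_empty_iff_false, iff_false, not_lt]
      have := (hsup p.1 p.2).trans hempty
      exact (abs_le_of_sq_le_sq' this hlam.le).2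
    rw [this]
    simp only [measureReal_empty]
    positivity
  push Not at hempty
  have hEpos : 0 < E := by
    rcases hE0.lt_or_eq with h | h
    · exact h
    · rw [← h, mul_zero] at hempty
      exact absurd hempty (not_lt.2 (by positivity))
  have hNd : (0 : ℝ) < (N : ℝ) ^ d := by positivity
  have hC10 : 0 < C1 := by linarith
  have hC20 : 0 < C2 := by linarith
  set κ : ℝ := lam ^ 2 / (2 * E) with hκ
  have hκ0 : 0 < κ := by positivity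
  set ρ : ℝ := κ / (C1 * C2 * (N : ℝ) ^ d) with hρ
  have hρ0 : 0 < ρ := by positivity
  have hρ1 : ρ ≤ 1 := by
    rw [hρ, div_le_one (by positivity), hκ, div_le_iff₀ (by positivity)]
    have h1 : C2 * (N : ℝ) ^ d * E ≤ C1 * C2 * (N : ℝ) ^ d * (2 * E) := by
      have : 0 ≤ C2 * (N : ℝ) ^ d * E := by positivity
      nlinarith
    linarith
  obtain ⟨T, hT, hTm, hTk⟩ := hη (ρ ^ (1 / (r : ℝ))) (Real.rpow_pos_of_pos hρ0 _)
    (Real.rpow_le_one hρ0.le hρ1 (by positivity))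
  have hηr : (ρ ^ (1 / (r : ℝ))) ^ r = ρ := by
    rw [← Real.rpow_natCast, ← Real.rpow_mul hρ0.le, one_div, inv_mul_cancel₀ hr0.ne',
      Real.rpow_one]
  have hη4 : (ρ ^ (1 / (r : ℝ))) ^ 4 = ρ ^ (4 / (r : ℝ)) := by
    rw [← Real.rpow_natCast, ← Real.rpow_mul hρ0.le]
    congr 1
    push_cast
    ring
  have hkap : C1 * ρ * (N : ℝ) ^ d ≤ κ := by
    have : C1 * ρ * (N : ℝ) ^ d = κ / C2 := by
      rw [hρ]; field_simp
    rw [this, div_le_iff₀ hC20]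
    nlinarith
  have hLV := large_values R om F s hFs w C1 κ T0 lam (fun l => (hw l).1) (fun l => (hw l).2)
    hw1 hκ0.le hT0 hlam T hT (fun t ht htT x y => (hTk t ht htT x y).trans (by
      rw [hηr]; exact hkap)) f hf S hSm (fun p hp => le_of_lt hp)
  rw [← hE] at hLV
  set m : ℝ := (stm X T0).real S with hm
  have hm0 : 0 ≤ m := measureReal_nonneg
  set τ : ℝ := (volume (T ∩ Set.Icc (-T0) T0)).toReal with hτ
  have hτ0 : 0 ≤ τ := ENNReal.toReal_nonneg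
  have hτle : τ ≤ C1 * ((N : ℝ) ^ 2)⁻¹ * (ρ ^ (4 / (r : ℝ)))⁻¹ := by
    rw [hη4] at hTm
    refine ENNReal.toReal_le_of_le_ofReal ?_ hTm
    have := Real.rpow_pos_of_pos hρ0 (4 / (r : ℝ))
    positivity
  have hEκ : E * κ = lam ^ 2 / 2 := by
    rw [hκ]; field_simp
  have hmain : lam ^ 2 / 2 * m ≤ E * C1 * τ := by
    have h1 : lam ^ 2 * m ^ 2 ≤ lam ^ 2 / 2 * m ^ 2 + E * C1 * τ * m := by
      calc lam ^ 2 * m ^ 2 ≤ E * (κ * m ^ 2 + C1 * τ * m) := hLV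
        _ = E * κ * m ^ 2 + E * C1 * τ * m := by ring
        _ = _ := by rw [hEκ]
    rcases hm0.lt_or_eq with h | h
    · have h2 : lam ^ 2 / 2 * m * m ≤ E * C1 * τ * m := by nlinarith
      exact le_of_mul_le_mul_right h2 h
    · rw [← h, mul_zero]; positivity
  have hm1 : m ≤ 2 * E * C1 * τ / lam ^ 2 := by
    rw [le_div_iff₀ (by positivity)]
    nlinarith
  refine hm1.trans ?_
  have h3 : 2 * E * C1 * τ / lam ^ 2 ≤
      2 * E * C1 * (C1 * ((N : ℝ) ^ 2)⁻¹ * (ρ ^ (4 / (r : ℝ)))⁻¹) / lam ^ 2 := by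
    refine div_le_div_of_nonneg_right ?_ (by positivity)
    exact mul_le_mul_of_nonneg_left hτle (by positivity)
  refine h3.trans (le_of_eq ?_)
  have e1 : (ρ ^ (4 / (r : ℝ)))⁻¹ =
      (2 * C1 * C2) ^ (4 / (r : ℝ)) * (N : ℝ) ^ (4 * (d : ℝ) / r) * E ^ (4 / (r : ℝ)) *
        lam ^ (-(8 / (r : ℝ))) := by
    have e2 : ρ⁻¹ = (2 * C1 * C2) * (N : ℝ) ^ d * E * (lam ^ 2)⁻¹ := by
      rw [hρ, hκ]; field_simp
    rw [← Real.inv_rpow hρ0.le, e2, Real.mul_rpow (by positivity) (by positivity),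
      Real.mul_rpow (by positivity) hE0, Real.mul_rpow (by positivity) (by positivity)]
    have e3 : ((N : ℝ) ^ d) ^ (4 / (r : ℝ)) = (N : ℝ) ^ (4 * (d : ℝ) / r) := by
      rw [← Real.rpow_natCast, ← Real.rpow_mul hN0.le]; congr 1; ring
    have e4 : ((lam ^ 2)⁻¹) ^ (4 / (r : ℝ)) = lam ^ (-(8 / (r : ℝ))) := by
      rw [Real.inv_rpow (by positivity), ← Real.rpow_natCast, ← Real.rpow_mul hlam.le,
        ← Real.rpow_neg hlam.le]
      congr 1; push_cast; ring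
    rw [e3, e4]
  have e5 : E ^ (1 + 4 / (r : ℝ)) = E * E ^ (4 / (r : ℝ)) := by
    rw [Real.rpow_add hEpos, Real.rpow_one]
  have e6 : (N : ℝ) ^ (-2 + 4 * (d : ℝ) / r) = ((N : ℝ) ^ 2)⁻¹ * (N : ℝ) ^ (4 * (d : ℝ) / r) := by
    rw [Real.rpow_add hN0, Real.rpow_neg hN0.le]; norm_num
  have e7 : lam ^ (-(2 + 8 / (r : ℝ))) = (lam ^ 2)⁻¹ * lam ^ (-(8 / (r : ℝ))) := by
    rw [neg_add, Real.rpow_add hlam, Real.rpow_neg hlam.le 2]; norm_num
  rw [e1, e5, e6, e7]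
  ring

theorem BE_of_KB (R : RK X Λ) (om : Λ → ℝ) (size : Λ → ℕ) (d r : ℕ) (hr : 1 ≤ r)
    (hK : KB R om size d r) (hD : DS R size d) (q : ℝ) (hq : 2 + 8 / (r : ℝ) < q) :
    BE R om size d q := by
  intro T0 hT0
  obtain ⟨C1, hC1, h1⟩ := hK T0 hT0
  obtain ⟨C2, hC2, h2⟩ := hD
  have hr0 : (0 : ℝ) < r := by exact_mod_cast hr
  have hp0 : 0 < 2 + 8 / (r : ℝ) := by positivity
  have hq0 : 0 < q := hp0.trans hq
  have hC10 : 0 < C1 := by linarith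
  have hC20 : 0 < C2 := by linarith
  have hqp : 0 < q - (2 + 8 / (r : ℝ)) := by linarith
  refine ⟨q / (q - (2 + 8 / (r : ℝ))) * (2 * C1 ^ 2 * (2 * C1 * C2) ^ (4 / (r : ℝ))) *
    C2 ^ ((q - (2 + 8 / (r : ℝ))) / 2), by positivity, ?_⟩
  intro N hN F hF f hf
  obtain ⟨s, w, hs, hw, hw1, hη⟩ := h1 N hN
  have hN0 : (0 : ℝ) < N := by exact_mod_cast hN
  have hFs : F ⊆ s := fun l hl => hs l (hF l hl)
  set E : ℝ := ∑ l ∈ F, ∫ z, ‖f l z‖ ^ 2 with hE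
  have hE0 : 0 ≤ E := Finset.sum_nonneg fun l _ => integral_nonneg fun z => by positivity
  have hsup : ∀ t x, ‖evol om F f t x‖ ^ 2 ≤ C2 * (N : ℝ) ^ d * E := fun t x =>
    (BEofKB_point R om F f hf t x).trans (mul_le_mul_of_nonneg_right (h2 N hN F hF) hE0)
  have hweak := BEofKB_weak R om d r hr T0 C1 C2 hT0 hC1 hC2 N hN s w F hFs hw
    (fun l hl => hw1 l (hF l hl)) hη f hf hsup
  have hfin : IsFiniteMeasure (stm X T0) := by
    unfold stm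
    have : IsFiniteMeasure ((volume : Measure ℝ).restrict (Set.Icc (0 : ℝ) T0)) :=
      ⟨by rw [Measure.restrict_apply_univ, Real.volume_Icc]; exact ENNReal.ofReal_lt_top⟩
    infer_instance
  set V : ℝ := (C2 * (N : ℝ) ^ d * E) ^ (1 / 2 : ℝ) with hV
  have hV0 : 0 ≤ V := by positivity
  have hVle : ∀ p : ℝ × X, ‖evol om F f p.1 p.2‖ ≤ V := by
    intro p
    have h5 : V ^ 2 = C2 * (N : ℝ) ^ d * E := by
      rw [hV, ← Real.rpow_natCast, ← Real.rpow_mul (by positivity)]; norm_num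
    have h6 := hsup p.1 p.2
    rw [← h5] at h6
    exact (abs_le_of_sq_le_sq' h6 hV0).2
  have hWS := weak_strong (stm X T0) (fun p : ℝ × X => ‖evol om F f p.1 p.2‖)
    (BEofKB_cont R om F f hf).norm.measurable (fun _ => norm_nonneg _) V
    (2 * C1 ^ 2 * (2 * C1 * C2) ^ (4 / (r : ℝ)) * (N : ℝ) ^ (-2 + 4 * (d : ℝ) / r) *
        E ^ (1 + 4 / (r : ℝ))) (2 + 8 / (r : ℝ)) q hVle hV0 (by positivity) hp0 hq
    (fun t ht => hweak t ht)
  refine hWS.trans (le_of_eq ?_)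
  have e1 : V ^ (q - (2 + 8 / (r : ℝ))) = C2 ^ ((q - (2 + 8 / (r : ℝ))) / 2) *
      (N : ℝ) ^ ((d : ℝ) * ((q - (2 + 8 / (r : ℝ))) / 2)) * E ^ ((q - (2 + 8 / (r : ℝ))) / 2) := by
    rw [hV, ← Real.rpow_mul (by positivity), Real.mul_rpow (by positivity) hE0,
      Real.mul_rpow (by positivity) (by positivity), ← Real.rpow_natCast (N : ℝ) d,
      ← Real.rpow_mul hN0.le]
    have : (1 / 2 : ℝ) * (q - (2 + 8 / (r : ℝ))) = (q - (2 + 8 / (r : ℝ))) / 2 := by ring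
    rw [this]
  have e2 : E ^ (q / 2) = E ^ (1 + 4 / (r : ℝ)) * E ^ ((q - (2 + 8 / (r : ℝ))) / 2) := by
    rw [← Real.rpow_add_of_nonneg hE0 (by positivity) (by positivity)]
    congr 1; ring
  have e3 : (N : ℝ) ^ ((d : ℝ) * q / 2 - d - 2) = (N : ℝ) ^ (-2 + 4 * (d : ℝ) / r) *
      (N : ℝ) ^ ((d : ℝ) * ((q - (2 + 8 / (r : ℝ))) / 2)) := by
    rw [← Real.rpow_add hN0]; congr 1; ring
  rw [e1, e2, e3]
  ring

end STZ
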