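import Pool.Agent.STZ.RKDefs

/-!
# STZ/Basic: elementary facts about reproducing kernel families

PROOFS. Everything is continuous on the compact probability space `X`, so all integrals exist.
* `D_nonneg`: `X` is nonempty (`nonempty_of_isProbabilityMeasure`), use `sq_int`.
* `sq_int`: `‖k l x z‖^2 = k l x z * conj (k l x z) = k l x z * k l z x` (`herm`), integrate with
  `comp` and `diag`.
* `norm_le`: Cauchy-Schwarz in `k l x y = ∫ k l x z * k l z y` and `sq_int` (for `k l z y` use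
  `herm`).
* `P_of_ne`: `∫ k l' x z * f z = ∫ k l' x z * ∫ k l z w * f w = ∫ (∫ k l' x z * k l z w dz) f w dw = 0`.
* `orth`: `∫ f conj g = ∫ f(z) conj (∫ k l' z w g w dw) dz = ∫ conj (g w) (∫ k l' w z f z dz) dw = 0`
  by `herm` and `P_of_ne`.
* `parseval`: expand `‖∑ f_l‖^2 = ∑∑ f_l conj f_l'`.
* `point_le`: `f x = ∫ k l x z f z`, Cauchy-Schwarz and `sq_int`.
* `bernstein`: `‖∑ f_l x‖ ≤ ∑ √(D_l) ‖f_l‖_2` and Cauchy-Schwarz for sums.
-/

open MeasureTheory Complex
open scoped ComplexConjugate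

namespace STZ

variable {X Λ : Type*} [TopologicalSpace X] [CompactSpace X] [T2Space X]
  [SecondCountableTopology X] [MeasureSpace X] [BorelSpace X]
  [IsProbabilityMeasure (volume : Measure X)] [DecidableEq Λ]

section aux

variable {E : Type*} [NormedAddCommGroup E]

omit [T2Space X] [DecidableEq Λ] in
private theorem intg {f : X → E} (hf : Continuous f) : Integrable f volume :=
  hf.integrable_of_hasCompactSupport (HasCompactSupport.of_compactSpace f)

omit [T2Space X] in
private theorem intg2 {f : X × X → E} (hf : Continuous f) :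
    Integrable f ((volume : Measure X).prod (volume : Measure X)) :=
  hf.integrable_of_hasCompactSupport (HasCompactSupport.of_compactSpace f)

omit [T2Space X] in
/-- Cauchy-Schwarz for continuous functions -/
private theorem cs {f g : X → ℂ} (hf : Continuous f) (hg : Continuous g) :
    ‖∫ z, f z * g z‖ ^ 2 ≤ (∫ z, ‖f z‖ ^ 2) * ∫ z, ‖g z‖ ^ 2 := by
  set A := ∫ z, ‖f z‖ ^ 2 with hA
  set B := ∫ z, ‖f z‖ * ‖g z‖ with hB
  set C := ∫ z, ‖g z‖ ^ 2 with hC
  have h1 : ‖∫ z, f z * g z‖ ≤ B := by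
    refine (norm_integral_le_integral_norm _).trans (le_of_eq ?_)
    rw [hB]
    exact integral_congr_ae (Filter.Eventually.of_forall fun z => norm_mul _ _)
  have h2 : discrim C (-2 * B) A ≤ 0 := by
    refine discrim_le_zero fun s => ?_
    have e : C * (s * s) + -2 * B * s + A = ∫ z, (‖f z‖ - s * ‖g z‖) ^ 2 := by
      have e1 : ∀ z, (‖f z‖ - s * ‖g z‖) ^ 2 =
          (s * s) * ‖g z‖ ^ 2 + (-2 * s) * (‖f z‖ * ‖g z‖) + ‖f z‖ ^ 2 := fun z => by ring
      simp_rw [e1]
      rw [integral_add, integral_add, integral_const_mul, integral_const_mul]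
      · rw [← hA, ← hB, ← hC]; ring
      · exact (intg (by fun_prop)).const_mul _
      · exact (intg (by fun_prop)).const_mul _
      · exact ((intg (by fun_prop)).const_mul _).add ((intg (by fun_prop)).const_mul _)
      · exact intg (by fun_prop)
    rw [e]
    exact integral_nonneg fun z => sq_nonneg _
  rw [discrim] at h2
  have h3 : B ^ 2 ≤ A * C := by nlinarith
  calc ‖∫ z, f z * g z‖ ^ 2 ≤ B ^ 2 := by gcongr
    _ ≤ A * C := h3

omit [CompactSpace X] [T2Space X] [SecondCountableTopology X] [BorelSpace X]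
  [IsProbabilityMeasure (volume : Measure X)] [TopologicalSpace X] in
private theorem ofReal_sq (f : X → ℂ) : ((∫ z, ‖f z‖ ^ 2 : ℝ) : ℂ) = ∫ z, f z * conj (f z) := by
  rw [← integral_complex_ofReal]
  refine integral_congr_ae (Filter.Eventually.of_forall fun z => ?_)
  simp only [Complex.mul_conj']
  push_cast
  rfl

end aux

namespace RK

omit [CompactSpace X] [T2Space X] [SecondCountableTopology X] [BorelSpace X]
  [IsProbabilityMeasure (volume : Measure X)] in
private theorem ck (R : RK X Λ) (l : Λ) (x : X) : Continuous fun z => R.k l x z :=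
  (R.cont l).comp (by fun_prop : Continuous fun z : X => (x, z))

omit [CompactSpace X] [T2Space X] [SecondCountableTopology X] [BorelSpace X]
  [IsProbabilityMeasure (volume : Measure X)] in
private theorem ck' (R : RK X Λ) (l : Λ) (y : X) : Continuous fun z => R.k l z y :=
  (R.cont l).comp (by fun_prop : Continuous fun z : X => (z, y))

theorem sq_int (R : RK X Λ) (l : Λ) (x : X) : ∫ z, ‖R.k l x z‖ ^ 2 = R.D l := by
  have h : ((∫ z, ‖R.k l x z‖ ^ 2 : ℝ) : ℂ) = (R.D l : ℂ) := by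
    rw [ofReal_sq (fun z => R.k l x z), ← R.diag l x]
    have := R.comp l l x x
    rw [if_pos rfl] at this
    rw [← this]
    refine integral_congr_ae (Filter.Eventually.of_forall fun z => ?_)
    simp only
    rw [R.herm l x z]
  exact_mod_cast h

theorem D_nonneg (R : RK X Λ) (l : Λ) : 0 ≤ R.D l := by
  have : Nonempty X := nonempty_of_isProbabilityMeasure (volume : Measure X)
  obtain ⟨x⟩ := this
  rw [← R.sq_int l x]
  exact integral_nonneg fun z => sq_nonneg _

theorem norm_le (R : RK X Λ) (l : Λ) (x y : X) : ‖R.k l x y‖ ≤ R.D l := by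
  have h1 := R.comp l l x y
  rw [if_pos rfl] at h1
  have h2 := cs (R.ck l x) (R.ck' l y)
  rw [h1, R.sq_int] at h2
  have h3 : ∫ z, ‖R.k l z y‖ ^ 2 = R.D l := by
    rw [← R.sq_int l y]
    refine integral_congr_ae (Filter.Eventually.of_forall fun z => ?_)
    simp only
    rw [R.herm l y z, RCLike.norm_conj]
  rw [h3, ← sq] at h2
  exact (pow_le_pow_iff_left₀ (norm_nonneg _) (R.D_nonneg l) two_ne_zero).1 h2

theorem P_of_ne (R : RK X Λ) {l l' : Λ} (h : l ≠ l') {f : X → ℂ} (hf : R.Mem l f) (x : X) :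
    R.P l' f x = 0 := by
  unfold RK.P
  have hfc : Continuous f := hf.1
  have e1 : ∀ z, R.k l' x z * f z = ∫ w, R.k l' x z * (R.k l z w * f w) := by
    intro z
    rw [integral_const_mul, hf.2 z]
  simp_rw [e1]
  rw [integral_integral_swap]
  · have e2 : ∀ w, ∫ z, R.k l' x z * (R.k l z w * f w) = 0 := by
      intro w
      have e3 : ∀ z, R.k l' x z * (R.k l z w * f w) = (R.k l' x z * R.k l z w) * f w :=
        fun z => by ring
      simp_rw [e3]
      rw [integral_mul_const, R.comp l' l x w, if_neg (Ne.symm h), zero_mul]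
    simp [e2]
  · refine intg2 ?_
    have h1 : Continuous fun p : X × X => R.k l' x p.1 := (R.ck l' x).comp continuous_fst
    have h2 : Continuous fun p : X × X => R.k l p.1 p.2 := R.cont l
    have h3 : Continuous fun p : X × X => f p.2 := hfc.comp continuous_snd
    exact h1.mul (h2.mul h3)

theorem orth (R : RK X Λ) {l l' : Λ} (h : l ≠ l') {f g : X → ℂ} (hf : R.Mem l f)
    (hg : R.Mem l' g) : ∫ x, f x * conj (g x) = 0 := by
  have hfc : Continuous f := hf.1
  have hgc : Continuous g := hg.1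
  have e1 : ∀ z, f z * conj (g z) = ∫ w, f z * (R.k l' w z * conj (g w)) := by
    intro z
    rw [integral_const_mul]
    congr 1
    rw [← hg.2 z, ← integral_conj]
    refine integral_congr_ae (Filter.Eventually.of_forall fun w => ?_)
    simp only [map_mul]
    rw [← R.herm l' z w]
  simp_rw [e1]
  rw [integral_integral_swap]
  · have e2 : ∀ w, ∫ z, f z * (R.k l' w z * conj (g w)) = 0 := by
      intro w
      have e3 : ∀ z, f z * (R.k l' w z * conj (g w)) = (R.k l' w z * f z) * conj (g w) :=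
        fun z => by ring
      simp_rw [e3]
      rw [integral_mul_const]
      have := R.P_of_ne h hf w
      unfold RK.P at this
      rw [this, zero_mul]
    simp [e2]
  · refine intg2 ?_
    have h1 : Continuous fun p : X × X => f p.1 := hfc.comp continuous_fst
    have h2 : Continuous fun p : X × X => R.k l' p.2 p.1 := (R.cont l').comp continuous_swap
    have h3 : Continuous fun p : X × X => conj (g p.2) :=
      Complex.continuous_conj.comp (hgc.comp continuous_snd)
    exact h1.mul (h2.mul h3)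

theorem parseval (R : RK X Λ) (F : Finset Λ) (f : Λ → X → ℂ) (hf : ∀ l ∈ F, R.Mem l (f l)) :
    ∫ x, ‖∑ l ∈ F, f l x‖ ^ 2 = ∑ l ∈ F, ∫ x, ‖f l x‖ ^ 2 := by
  have h : ((∫ x, ‖∑ l ∈ F, f l x‖ ^ 2 : ℝ) : ℂ) = ((∑ l ∈ F, ∫ x, ‖f l x‖ ^ 2 : ℝ) : ℂ) := by
    rw [ofReal_sq (fun x => ∑ l ∈ F, f l x)]
    push_cast
    have e1 : ∀ x, (∑ l ∈ F, f l x) * conj (∑ l ∈ F, f l x) =
        ∑ l ∈ F, ∑ l' ∈ F, f l x * conj (f l' x) := by
      intro x
      rw [map_sum, Finset.sum_mul_sum]
    simp_rw [e1]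
    have hc : ∀ l ∈ F, ∀ l' ∈ F, Continuous fun x => f l x * conj (f l' x) := fun l hl l' hl' =>
      (hf l hl).1.mul (Complex.continuous_conj.comp (hf l' hl').1)
    rw [integral_finsetSum _ fun l hl => intg (continuous_finsetSum _ fun l' hl' => hc l hl l' hl')]
    refine Finset.sum_congr rfl fun l hl => ?_
    rw [integral_finsetSum _ fun l' hl' => intg (hc l hl l' hl')]
    rw [Finset.sum_eq_single l]
    · exact (ofReal_sq (f l)).symm
    · intro l' hl' hne
      exact R.orth (Ne.symm hne) (hf l hl) (hf l' hl')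
    · exact fun h => absurd hl h
  exact_mod_cast h

theorem point_le (R : RK X Λ) {l : Λ} {f : X → ℂ} (hf : R.Mem l f) (x : X) :
    ‖f x‖ ^ 2 ≤ R.D l * ∫ z, ‖f z‖ ^ 2 := by
  have h := cs (R.ck l x) hf.1
  rwa [hf.2 x, R.sq_int] at h

theorem bernstein (R : RK X Λ) (F : Finset Λ) (f : Λ → X → ℂ) (hf : ∀ l ∈ F, R.Mem l (f l))
    (x : X) : ‖∑ l ∈ F, f l x‖ ^ 2 ≤ (∑ l ∈ F, R.D l) * ∑ l ∈ F, ∫ z, ‖f l z‖ ^ 2 := by
  have hI : ∀ l, 0 ≤ ∫ z, ‖f l z‖ ^ 2 := fun l => integral_nonneg fun z => sq_nonneg _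
  have h1 : ‖∑ l ∈ F, f l x‖ ≤ ∑ l ∈ F, √(R.D l) * √(∫ z, ‖f l z‖ ^ 2) := by
    refine (norm_sum_le _ _).trans (Finset.sum_le_sum fun l hl => ?_)
    rw [← Real.sqrt_mul (R.D_nonneg l)]
    exact Real.le_sqrt_of_sq_le (R.point_le (hf l hl) x)
  calc ‖∑ l ∈ F, f l x‖ ^ 2 ≤ (∑ l ∈ F, √(R.D l) * √(∫ z, ‖f l z‖ ^ 2)) ^ 2 := by gcongr
    _ ≤ (∑ l ∈ F, √(R.D l) ^ 2) * ∑ l ∈ F, √(∫ z, ‖f l z‖ ^ 2) ^ 2 :=
        Finset.sum_mul_sq_le_sq_mul_sq _ _ _
    _ = (∑ l ∈ F, R.D l) * ∑ l ∈ F, ∫ z, ‖f l z‖ ^ 2 := by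
        congr 1
        · exact Finset.sum_congr rfl fun l _ => Real.sq_sqrt (R.D_nonneg l)
        · exact Finset.sum_congr rfl fun l _ => Real.sq_sqrt (hI l)

theorem mem_smul (R : RK X Λ) {l : Λ} {f : X → ℂ} (hf : R.Mem l f) (c : ℂ) :
    R.Mem l (fun x => c * f x) := by
  refine ⟨continuous_const.mul hf.1, fun x => ?_⟩
  have e : ∀ z, R.k l x z * (c * f z) = c * (R.k l x z * f z) := fun z => by ring
  simp_rw [e]
  rw [integral_const_mul, hf.2 x]

theorem mem_sum (R : RK X Λ) {ι : Type*} (l : Λ) (s : Finset ι) (f : ι → X → ℂ)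
    (hf : ∀ i ∈ s, R.Mem l (f i)) : R.Mem l (fun x => ∑ i ∈ s, f i x) := by
  refine ⟨continuous_finsetSum _ fun i hi => (hf i hi).1, fun x => ?_⟩
  simp_rw [Finset.mul_sum]
  have h := integral_finsetSum (μ := (volume : Measure X)) s (f := fun i z => R.k l x z * f i z)
    fun i hi => intg ((R.ck l x).mul (hf i hi).1)
  rw [h]
  exact Finset.sum_congr rfl fun i hi => (hf i hi).2 x

end RK

end STZ
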