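import Mathlib

/-!
# STZ/Cauchy: the derivative of theta on the real axis

PROOF. Let `r = √(Im τ)`, `f = jacobiTheta₂ · τ` (entire, `hasDerivAt_jacobiTheta₂_fst`: the
derivative is `jacobiTheta₂' · τ`). For `|Im z| ≤ r`: `‖f z‖ ≤ B e^π`. Cauchy
(`Complex.norm_deriv_le_of_forall_mem_sphere_norm_le`) on circles of radius `r/2`: for
`|Im z| ≤ r/2`, `‖f' z‖ ≤ 2 B e^π/r`, and then for real `x`: `‖f'' x‖ ≤ 4 B e^π/r² = 4 B e^π/Im τ`.
`f'` vanishes at all half integers `j/2`: it is odd and `1`-periodic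
(`jacobiTheta₂'_neg_left`, `jacobiTheta₂'_add_left`; iterate the periodicity).
For real `x = θ/(2π)` write `x = j/2 + y`, `|y| ≤ 1/4` (`round (2 x)`). Mean value inequality:
`‖f' x‖ ≤ |y| 4 B e^π/Im τ`, and `|sin(2π x)| = |sin (2 π y)| ≥ 4 |y|` (`Real.mul_le_sin`,
`2/π * u ≤ sin u` for `0 ≤ u ≤ π/2`). So `‖f' x‖ ≤ (e^π B/Im τ) |sin θ|` and `e^π ≤ 50`
(`π ≤ 3.15`, `e < 2.7183`). Note `B ≥ 0` follows from `hB`.
-/

open Complex
open scoped Real

namespace STZ

private theorem exp_pi_le : Real.exp π ≤ 50 := by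
  have h1 : Real.exp π ^ 2 ≤ 2500 := by
    have h2 : Real.exp π ^ 2 = Real.exp (2 * π) := by
      rw [← Real.exp_nat_mul]
      norm_num
    have h3 : Real.exp (2 * π) ≤ Real.exp 7 := by
      apply Real.exp_le_exp.2
      have := Real.pi_lt_d2
      linarith
    have h4 : Real.exp 7 = Real.exp 1 ^ 7 := by
      rw [← Real.exp_nat_mul]
      norm_num
    have h5 : Real.exp 1 ^ 7 ≤ (2.7183:ℝ) ^ 7 := by
      have := Real.exp_one_lt_d9
      have h0 : 0 ≤ Real.exp 1 := (Real.exp_pos 1).le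
      gcongr
      linarith
    rw [h2]
    refine h3.trans ?_
    rw [h4]
    refine h5.trans ?_
    norm_num
  nlinarith [Real.exp_pos π]

private theorem d_add_int (τ z : ℂ) (n : ℤ) : jacobiTheta₂' (z + n) τ = jacobiTheta₂' z τ := by
  induction n using Int.induction_on with
  | zero => simp
  | succ n ih =>
    rw [← ih]
    push_cast
    rw [← add_assoc, jacobiTheta₂'_add_left]
  | pred n ih =>
    rw [← ih]
    push_cast
    rw [← jacobiTheta₂'_add_left]
    congr 1
    ring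

private theorem d_half (τ : ℂ) (j : ℤ) : jacobiTheta₂' ((j / 2 : ℝ) : ℂ) τ = 0 := by
  have h1 := jacobiTheta₂'_neg_left ((j / 2 : ℝ) : ℂ) τ
  have h2 := d_add_int τ (-((j / 2 : ℝ) : ℂ)) j
  have h3 : -((j / 2 : ℝ) : ℂ) + j = ((j / 2 : ℝ) : ℂ) := by
    push_cast
    ring
  rw [h3, h1] at h2
  have h4 : 2 * jacobiTheta₂' ((j / 2 : ℝ) : ℂ) τ = 0 := by
    linear_combination h2
  simpa using h4

theorem theta'_sin (τ : ℂ) (hτ : 0 < τ.im) (B : ℝ)
    (hB : ∀ z : ℂ, ‖jacobiTheta₂ z τ‖ ≤ B * Real.exp (π * z.im ^ 2 / τ.im)) (θ : ℝ) :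
    ‖jacobiTheta₂' ((θ / (2 * π) : ℝ) : ℂ) τ‖ ≤ 50 * B / τ.im * |Real.sin θ| := by
  have hB0 : 0 ≤ B := by
    have := (norm_nonneg _).trans (hB 0)
    simpa using this
  set r := Real.sqrt τ.im with hr
  have hr0 : 0 < r := Real.sqrt_pos.2 hτ
  have hr2 : r ^ 2 = τ.im := Real.sq_sqrt hτ.le
  have hd : ∀ z, HasDerivAt (fun z => jacobiTheta₂ z τ) (jacobiTheta₂' z τ) z :=
    fun z => hasDerivAt_jacobiTheta₂_fst z hτ
  have hdiff : Differentiable ℂ (fun z => jacobiTheta₂ z τ) := fun z => (hd z).differentiableAt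
  have hderiv : deriv (fun z => jacobiTheta₂ z τ) = fun z => jacobiTheta₂' z τ :=
    funext fun z => (hd z).deriv
  have hdiff' : Differentiable ℂ (fun z => jacobiTheta₂' z τ) := by
    rw [← hderiv]
    exact hdiff.deriv
  have hb1 : ∀ z : ℂ, |z.im| ≤ r → ‖jacobiTheta₂ z τ‖ ≤ B * Real.exp π := by
    intro z hz
    refine (hB z).trans ?_
    gcongr
    rw [div_le_iff₀ hτ, ← hr2]
    have : z.im ^ 2 ≤ r ^ 2 := by
      rw [← sq_abs]
      gcongr
    nlinarith [Real.pi_pos]
  have hb2 : ∀ z : ℂ, |z.im| ≤ r / 2 → ‖jacobiTheta₂' z τ‖ ≤ B * Real.exp π / (r / 2) := by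
    intro z hz
    have h := norm_deriv_le_of_forall_mem_sphere_norm_le (c := z) (R := r / 2)
      (C := B * Real.exp π) (f := fun z => jacobiTheta₂ z τ) (by positivity)
      hdiff.diffContOnCl ?_
    · rwa [hderiv] at h
    · intro w hw
      apply hb1
      have h1 : |(w - z).im| ≤ r / 2 := by
        refine (Complex.abs_im_le_norm _).trans ?_
        rw [mem_sphere_iff_norm] at hw
        exact hw.le
      have h2 : w.im = (w - z).im + z.im := by simp
      rw [h2]
      refine (abs_add_le _ _).trans ?_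
      linarith
  have hb3 : ∀ x : ℝ, ‖deriv (fun z => jacobiTheta₂' z τ) (x : ℂ)‖ ≤
      4 * B * Real.exp π / τ.im := by
    intro x
    have h := norm_deriv_le_of_forall_mem_sphere_norm_le (c := (x : ℂ)) (R := r / 2)
      (C := B * Real.exp π / (r / 2)) (f := fun z => jacobiTheta₂' z τ) (by positivity)
      hdiff'.diffContOnCl ?_
    · refine h.trans (le_of_eq ?_)
      rw [← hr2]
      field_simp
      norm_num
    · intro w hw
      apply hb2
      have h1 : |(w - (x : ℂ)).im| ≤ r / 2 := by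
        refine (Complex.abs_im_le_norm _).trans ?_
        rw [mem_sphere_iff_norm] at hw
        exact hw.le
      simpa using h1
  set x := θ / (2 * π) with hx
  set j := round (2 * x) with hj
  set y := x - j / 2 with hy
  have hy1 : |y| ≤ 1 / 4 := by
    have := abs_sub_round (2 * x)
    have h2 : 2 * x - round (2 * x) = 2 * y := by rw [hy, hj]; ring
    rw [h2, abs_mul, abs_two] at this
    linarith
  have hmv : ‖jacobiTheta₂' (x : ℂ) τ‖ ≤ 4 * B * Real.exp π / τ.im * |y| := by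
    have h := (convex_univ (𝕜 := ℝ) (E := ℝ)).norm_image_sub_le_of_norm_hasDerivWithin_le
      (f := fun t : ℝ => jacobiTheta₂' (t : ℂ) τ)
      (f' := fun t : ℝ => deriv (fun z => jacobiTheta₂' z τ) (t : ℂ))
      (C := 4 * B * Real.exp π / τ.im) (x := (j / 2 : ℝ)) (y := x)
      (fun t _ => ((hdiff' (t : ℂ)).hasDerivAt.comp_ofReal).hasDerivWithinAt)
      (fun t _ => hb3 t) (Set.mem_univ _) (Set.mem_univ _)
    rw [d_half, sub_zero] at h
    simpa [hy] using h
  have hsin : 4 * |y| ≤ |Real.sin θ| := by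
    have h1 : θ = 2 * π * y + j * π := by
      rw [hy, hx]
      field_simp
      ring
    have h2 : |Real.sin θ| = |Real.sin (2 * π * y)| := by
      rw [h1, Real.sin_add_int_mul_pi, abs_mul]
      simp
    have h3 : |Real.sin (2 * π * y)| = |Real.sin (2 * π * |y|)| := by
      rcases abs_choice y with h | h <;> rw [h]
      rw [mul_neg, Real.sin_neg, abs_neg]
    have h4 := Real.mul_le_sin (x := 2 * π * |y|) (by positivity) (by nlinarith [Real.pi_pos])
    rw [h2, h3]
    refine le_trans ?_ (le_abs_self _)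
    refine le_trans (le_of_eq ?_) h4
    field_simp
    ring
  calc ‖jacobiTheta₂' (x : ℂ) τ‖ ≤ 4 * B * Real.exp π / τ.im * |y| := hmv
    _ = B * Real.exp π / τ.im * (4 * |y|) := by ring
    _ ≤ B * 50 / τ.im * |Real.sin θ| := by
        gcongr
        exact exp_pi_le
    _ = 50 * B / τ.im * |Real.sin θ| := by ring

end STZ
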