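import Mathlib

/-!
# STZ/Cheb: Chebyshev polynomials of the second kind on [-1,1]

Mathlib: `Polynomial.Chebyshev.U R n`, `n : ℤ`, `U_add_two`, `U_neg_one`, `U_neg`.
PROOFS. Put `x = cos θ` (`θ = arccos x`).
* `abs_U_sin`: `U_n(cos θ) sin θ = sin((n+1) θ)` (Mathlib, file
  Mathlib/Analysis/SpecialFunctions/Trigonometric/Chebyshev..).
* `abs_U_le`: induction with `U_{n+1}(cos θ) = cos θ U_n(cos θ) + cos((n+1)θ)`
  (`Polynomial.Chebyshev.U_eq_X_mul_U_add_T`) and `|T_n(cos θ)| ≤ 1`.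
* `U_mul_U`: `U_m U_n = ∑_{k=0}^m U_{n-m+2k}` for all integers `n`: induction on `m` (two steps,
  `U_{m+2} U_n = 2X U_{m+1} U_n - U_m U_n` and `2X U_j = U_{j+1} + U_{j-1}`).
* `U_sq_mul`: apply `U_mul_U` twice with `m = M - 1` and count the pairs `k + k' = j + M - 1`.
* `one_sub_le`: take `n = 0` in `U_sq_mul`: with `F = (U_{M-1}(x)/M)²` one gets
  `M² F = ∑_{|j|<M} (M-|j|) U_{2j}(x) = ∑_{|j|<M} (M-|j|) cos(2jθ)` (pair `j` and `-j`:
  `U_{2j} + U_{-2j} = U_{2j} - U_{2j-2} = 2 T_{2j}`), and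
  `1 - cos(2jθ) = 2 sin²(jθ) ≤ 2 j² sin² θ ≤ 2 M² sin²θ`, `∑ (M - |j|) = M²`. So
  `1 - F ≤ 2 M² (1 - x²)`. (Any other proof is fine: for instance induction on `M` of
  `U_{M-1}(x)² ≥ M² - 2M⁴(1-x²)`.)
* `fejer_compl`: `s = |sin θ|`, `|U_l(x)| ≤ 1/s`, `0 ≤ 1 - F ≤ min(1, 2 M² s²)`. If `s ≥ 1/M` the
  product is `≤ M`; if `0 < s < 1/M` it is `≤ 2 M² s ≤ 2M`; if `s = 0` then `1 - F ≤ 0`.
-/

open Polynomial

namespace STZ

private lemma eval_T_abs_le (n : ℤ) (x : ℝ) (hx : |x| ≤ 1) :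
    |(Chebyshev.T ℝ n).eval x| ≤ 1 := by
  have h1 : -1 ≤ x := (abs_le.mp hx).1
  have h2 : x ≤ 1 := (abs_le.mp hx).2
  rw [← Real.cos_arccos h1 h2, Chebyshev.T_real_cos]
  exact Real.abs_cos_le_one _

theorem abs_U_le (l : ℕ) (x : ℝ) (hx : |x| ≤ 1) :
    |(Chebyshev.U ℝ (l : ℤ)).eval x| ≤ (l : ℝ) + 1 := by
  induction l with
  | zero => simp
  | succ l ih =>
    have h := Chebyshev.U_eq_X_mul_U_add_T ℝ (l : ℤ)
    push_cast
    rw [h, eval_add, eval_mul, eval_X]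
    calc |x * (Chebyshev.U ℝ (l : ℤ)).eval x + (Chebyshev.T ℝ ((l : ℤ) + 1)).eval x|
        ≤ |x * (Chebyshev.U ℝ (l : ℤ)).eval x| + |(Chebyshev.T ℝ ((l : ℤ) + 1)).eval x| :=
          abs_add_le _ _
      _ ≤ 1 * ((l : ℝ) + 1) + 1 := by
          rw [abs_mul]
          exact add_le_add (mul_le_mul hx ih (abs_nonneg _) (by norm_num)) (eval_T_abs_le _ x hx)
      _ = (l : ℝ) + 1 + 1 := by ring

private lemma U_rec (n : ℤ) (x : ℝ) :
    2 * x * (Chebyshev.U ℝ n).eval x =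
      (Chebyshev.U ℝ (n + 1)).eval x + (Chebyshev.U ℝ (n - 1)).eval x := by
  have h := Chebyshev.U_add_two ℝ (n - 1)
  have e1 : n - 1 + 2 = n + 1 := by ring
  have e2 : n - 1 + 1 = n := by ring
  rw [e1, e2] at h
  rw [h]
  simp only [eval_sub, eval_mul, eval_X, eval_ofNat]
  ring

theorem U_mul_U (m : ℕ) (n : ℤ) (x : ℝ) :
    (Chebyshev.U ℝ (m : ℤ)).eval x * (Chebyshev.U ℝ n).eval x =
      ∑ k ∈ Finset.range (m + 1), (Chebyshev.U ℝ (n - m + 2 * k)).eval x := by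
  induction m using Nat.twoStepInduction with
  | zero => simp
  | one =>
    rw [Finset.sum_range_succ, Finset.sum_range_succ, Finset.sum_range_zero]
    have h := U_rec n x
    have e1 : n - ((1 : ℕ) : ℤ) + 2 * ((0 : ℕ) : ℤ) = n - 1 := by push_cast; ring
    have e2 : n - ((1 : ℕ) : ℤ) + 2 * ((1 : ℕ) : ℤ) = n + 1 := by push_cast; ring
    rw [e1, e2]
    simp only [Nat.cast_one, Chebyshev.U_one, eval_mul, eval_ofNat, eval_X, zero_add]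
    rw [h]; ring
  | more m ih1 ih2 =>
    have h2 : (Chebyshev.U ℝ ((m + 2 : ℕ) : ℤ)).eval x =
        2 * x * (Chebyshev.U ℝ ((m + 1 : ℕ) : ℤ)).eval x - (Chebyshev.U ℝ ((m : ℕ) : ℤ)).eval x := by
      have h := U_rec ((m : ℤ) + 1) x
      have e1 : (m : ℤ) + 1 + 1 = ((m + 2 : ℕ) : ℤ) := by push_cast; ring
      have e2 : (m : ℤ) + 1 - 1 = (m : ℤ) := by ring
      have e3 : (m : ℤ) + 1 = ((m + 1 : ℕ) : ℤ) := by push_cast; ring
      rw [e1, e2, e3] at h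
      rw [h]; ring
    rw [h2, sub_mul, mul_assoc, ih1, ih2, Finset.mul_sum]
    have h3 : ∀ k ∈ Finset.range (m + 1 + 1),
        2 * x * (Chebyshev.U ℝ (n - ((m + 1 : ℕ) : ℤ) + 2 * (k : ℤ))).eval x =
        (Chebyshev.U ℝ (n - (m : ℤ) + 2 * (k : ℤ))).eval x +
        (Chebyshev.U ℝ (n - ((m + 2 : ℕ) : ℤ) + 2 * (k : ℤ))).eval x := by
      intro k _
      rw [U_rec]
      congr 3 <;> push_cast <;> ring_nf
    rw [Finset.sum_congr rfl h3, Finset.sum_add_distrib]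
    rw [Finset.sum_range_succ (fun k : ℕ => (Chebyshev.U ℝ (n - (m : ℤ) + 2 * (k : ℤ))).eval x) (m + 1)]
    rw [Finset.sum_range_succ (fun k : ℕ => (Chebyshev.U ℝ (n - ((m + 2 : ℕ) : ℤ) + 2 * (k : ℤ))).eval x) (m + 2)]
    have e4 : n - (m : ℤ) + 2 * ((m + 1 : ℕ) : ℤ) = n - ((m + 2 : ℕ) : ℤ) + 2 * ((m + 2 : ℕ) : ℤ) := by
      push_cast; ring
    rw [e4]
    ring

private lemma U_sq_succ (M : ℕ) (x : ℝ) :
    (Chebyshev.U ℝ (M : ℤ)).eval x ^ 2 =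
      (Chebyshev.U ℝ ((M : ℤ) - 1)).eval x ^ 2 + (Chebyshev.U ℝ (2 * (M : ℤ))).eval x := by
  rcases Nat.eq_zero_or_pos M with rfl | hM
  · simp
  · obtain ⟨N, rfl⟩ : ∃ N, M = N + 1 := ⟨M - 1, by omega⟩
    have h1 := U_mul_U (N + 1) ((N + 1 : ℕ) : ℤ) x
    have h2 := U_mul_U N (N : ℤ) x
    have e : ((N + 1 : ℕ) : ℤ) - 1 = (N : ℤ) := by push_cast; ring
    rw [e, pow_two, pow_two, h1, h2, Finset.sum_range_succ]
    have e2 : ∀ k : ℕ, ((N + 1 : ℕ) : ℤ) - ((N + 1 : ℕ) : ℤ) + 2 * (k : ℤ) =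
        (N : ℤ) - (N : ℤ) + 2 * (k : ℤ) := by intro k; ring
    congr 1
    · apply Finset.sum_congr rfl
      intro k _
      rw [e2]
    · congr 2
      ring

private lemma sum_Ioo_shift (M : ℕ) (f : ℤ → ℝ) :
    ∑ j ∈ Finset.Ioo (-((M : ℤ) + 1)) ((M : ℤ) + 1), f j =
      ∑ k ∈ Finset.range (2 * M + 1), f ((k : ℤ) - M) := by
  symm
  apply Finset.sum_nbij' (fun k : ℕ => (k : ℤ) - M) (fun j : ℤ => (j + M).toNat)
  · intro k hk
    simp only [Finset.mem_range] at hk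
    simp only [Finset.mem_Ioo]
    omega
  · intro j hj
    simp only [Finset.mem_Ioo] at hj
    simp only [Finset.mem_range]
    omega
  · intro k hk
    simp
  · intro j hj
    simp only [Finset.mem_Ioo] at hj
    omega
  · intro k _
    rfl

theorem U_sq_mul (M : ℕ) (hM : 1 ≤ M) (n : ℤ) (x : ℝ) :
    (Chebyshev.U ℝ ((M : ℤ) - 1)).eval x ^ 2 * (Chebyshev.U ℝ n).eval x =
      ∑ j ∈ Finset.Ioo (-(M : ℤ)) (M : ℤ), ((M : ℝ) - |(j : ℝ)|) * (Chebyshev.U ℝ (n + 2 * j)).eval x := by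
  induction M, hM using Nat.le_induction with
  | base =>
    have h : Finset.Ioo (-((1 : ℕ) : ℤ)) ((1 : ℕ) : ℤ) = {0} := by
      ext j
      simp only [Finset.mem_Ioo, Finset.mem_singleton]
      omega
    rw [h]
    simp
  | succ M hM ih =>
    have e : ((M + 1 : ℕ) : ℤ) - 1 = (M : ℤ) := by push_cast; ring
    rw [e, U_sq_succ, add_mul, ih]
    have e2 : (Chebyshev.U ℝ (2 * (M : ℤ))).eval x * (Chebyshev.U ℝ n).eval x =
        ∑ j ∈ Finset.Ioo (-((M : ℤ) + 1)) ((M : ℤ) + 1), (Chebyshev.U ℝ (n + 2 * j)).eval x := by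
      rw [sum_Ioo_shift]
      have h := U_mul_U (2 * M) n x
      have e3 : ((2 * M : ℕ) : ℤ) = 2 * (M : ℤ) := by push_cast; ring
      rw [e3] at h
      rw [h]
      apply Finset.sum_congr rfl
      intro k _
      congr 2
      ring
    have e4 : ∑ j ∈ Finset.Ioo (-(M : ℤ)) (M : ℤ), ((M : ℝ) - |(j : ℝ)|) *
          (Chebyshev.U ℝ (n + 2 * j)).eval x =
        ∑ j ∈ Finset.Ioo (-((M : ℤ) + 1)) ((M : ℤ) + 1), ((M : ℝ) - |(j : ℝ)|) *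
          (Chebyshev.U ℝ (n + 2 * j)).eval x := by
      apply Finset.sum_subset
      · intro j hj
        simp only [Finset.mem_Ioo] at hj ⊢
        omega
      · intro j hj hj'
        simp only [Finset.mem_Ioo] at hj hj'
        have hj2 : |j| = (M : ℤ) := by
          rcases abs_cases j with ⟨h, _⟩ | ⟨h, _⟩ <;> omega
        have hj3 : |(j : ℝ)| = (M : ℝ) := by
          rw [← Int.cast_abs, hj2]; simp
        rw [hj3]; simp
    rw [e2, e4, ← Finset.sum_add_distrib]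
    have e5 : ((M + 1 : ℕ) : ℤ) = (M : ℤ) + 1 := by push_cast; ring
    rw [e5]
    apply Finset.sum_congr rfl
    intro j _
    push_cast
    ring

private lemma T_even_ge (j : ℕ) (x : ℝ) (hx : |x| ≤ 1) :
    1 - 2 * ((j : ℝ) + 1) ^ 2 * (1 - x ^ 2) ≤ (Chebyshev.T ℝ (2 * ((j : ℤ) + 1))).eval x := by
  have h1 : -1 ≤ x := (abs_le.mp hx).1
  have h2 : x ≤ 1 := (abs_le.mp hx).2
  obtain ⟨θ, rfl⟩ : ∃ θ, x = Real.cos θ := ⟨Real.arccos x, (Real.cos_arccos h1 h2).symm⟩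
  have hU := abs_U_le j (Real.cos θ) hx
  have hs := Chebyshev.U_real_cos θ (j : ℤ)
  rw [Chebyshev.T_real_cos]
  have h3 : Real.cos (((2 * ((j : ℤ) + 1) : ℤ) : ℝ) * θ) =
      1 - 2 * Real.sin ((((j : ℤ) : ℝ) + 1) * θ) ^ 2 := by
    have : ((2 * ((j : ℤ) + 1) : ℤ) : ℝ) * θ = 2 * ((((j : ℤ) : ℝ) + 1) * θ) := by
      push_cast; ring
    rw [this, Real.cos_two_mul, Real.cos_sq']
    ring
  rw [h3, ← hs, mul_pow]
  have h4 : Real.sin θ ^ 2 = 1 - Real.cos θ ^ 2 := Real.sin_sq θ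
  rw [← h4]
  have h5 : (Chebyshev.U ℝ (j : ℤ)).eval (Real.cos θ) ^ 2 ≤ ((j : ℝ) + 1) ^ 2 := by
    rw [← sq_abs]
    exact pow_le_pow_left₀ (abs_nonneg _) hU 2
  nlinarith [mul_le_mul_of_nonneg_right h5 (sq_nonneg (Real.sin θ))]

private lemma U_even_ge (k : ℕ) (x : ℝ) (hx : |x| ≤ 1) :
    (2 * (k : ℝ) + 1) - 4 * (k : ℝ) ^ 3 * (1 - x ^ 2) ≤ (Chebyshev.U ℝ (2 * (k : ℤ))).eval x := by
  induction k with
  | zero => simp
  | succ k ih =>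
    have hT := T_even_ge k x hx
    have h := congrArg (fun p => p.eval x) (Chebyshev.two_mul_T_eq_U_sub_U ℝ (2 * (k : ℤ)))
    simp only [eval_mul, eval_ofNat, eval_sub] at h
    have e : 2 * (k : ℤ) + 2 = 2 * ((k : ℤ) + 1) := by ring
    rw [e] at h
    have e2 : 2 * ((k + 1 : ℕ) : ℤ) = 2 * ((k : ℤ) + 1) := by push_cast; ring
    rw [e2]
    have hs : 0 ≤ 1 - x ^ 2 := by
      rw [abs_le] at hx
      nlinarith [hx.1, hx.2]
    have hk : (0 : ℝ) ≤ k := Nat.cast_nonneg k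
    push_cast
    have h6 : 4 * (k : ℝ) ^ 3 + 4 * ((k : ℝ) + 1) ^ 2 ≤ 4 * ((k : ℝ) + 1) ^ 3 := by
      nlinarith [mul_nonneg hk hk]
    nlinarith [mul_le_mul_of_nonneg_right h6 hs]

private lemma U_sq_ge (M : ℕ) (x : ℝ) (hx : |x| ≤ 1) :
    (M : ℝ) ^ 2 - 2 * (M : ℝ) ^ 4 * (1 - x ^ 2) ≤ (Chebyshev.U ℝ ((M : ℤ) - 1)).eval x ^ 2 := by
  induction M with
  | zero => simp
  | succ M ih =>
    have e : ((M + 1 : ℕ) : ℤ) - 1 = (M : ℤ) := by push_cast; ring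
    rw [e, U_sq_succ]
    have h := U_even_ge M x hx
    have hs : 0 ≤ 1 - x ^ 2 := by
      rw [abs_le] at hx
      nlinarith [hx.1, hx.2]
    have hk : (0 : ℝ) ≤ M := Nat.cast_nonneg M
    push_cast
    have h6 : 2 * (M : ℝ) ^ 4 + 4 * (M : ℝ) ^ 3 ≤ 2 * ((M : ℝ) + 1) ^ 4 := by
      nlinarith [mul_nonneg hk hk, mul_nonneg (mul_nonneg hk hk) hk]
    nlinarith [mul_le_mul_of_nonneg_right h6 hs]

theorem one_sub_le (M : ℕ) (hM : 1 ≤ M) (x : ℝ) (hx : |x| ≤ 1) :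
    1 - ((Chebyshev.U ℝ ((M : ℤ) - 1)).eval x / M) ^ 2 ≤ 2 * (M : ℝ) ^ 2 * (1 - x ^ 2) := by
  have h := U_sq_ge M x hx
  have hM' : (0 : ℝ) < M := by exact_mod_cast hM
  rw [div_pow, sub_le_iff_le_add]
  have h2 : (M : ℝ) ^ 2 * (2 * (M : ℝ) ^ 2 * (1 - x ^ 2) + (Chebyshev.U ℝ ((M : ℤ) - 1)).eval x ^ 2 / (M : ℝ) ^ 2)
      = 2 * (M : ℝ) ^ 4 * (1 - x ^ 2) + (Chebyshev.U ℝ ((M : ℤ) - 1)).eval x ^ 2 := by
    field_simp
  have h3 : (M : ℝ) ^ 2 * 1 ≤ (M : ℝ) ^ 2 * (2 * (M : ℝ) ^ 2 * (1 - x ^ 2) + (Chebyshev.U ℝ ((M : ℤ) - 1)).eval x ^ 2 / (M : ℝ) ^ 2) := by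
    rw [h2]; linarith
  exact le_of_mul_le_mul_left h3 (by positivity)

theorem fejer_compl (M l : ℕ) (hM : 1 ≤ M) (x : ℝ) (hx : |x| ≤ 1) :
    |(Chebyshev.U ℝ (l : ℤ)).eval x| * |1 - ((Chebyshev.U ℝ ((M : ℤ) - 1)).eval x / M) ^ 2| ≤
      2 * (M : ℝ) := by
  have hM' : (0 : ℝ) < M := by exact_mod_cast hM
  have h1 := one_sub_le M hM x hx
  have hF0 : 0 ≤ ((Chebyshev.U ℝ ((M : ℤ) - 1)).eval x / M) ^ 2 := sq_nonneg _
  have hF1 : ((Chebyshev.U ℝ ((M : ℤ) - 1)).eval x / M) ^ 2 ≤ 1 := by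
    obtain ⟨N, rfl⟩ : ∃ N, M = N + 1 := ⟨M - 1, by omega⟩
    have e : ((N + 1 : ℕ) : ℤ) - 1 = (N : ℤ) := by push_cast; ring
    have h := abs_U_le N x hx
    rw [e, ← sq_abs, abs_div]
    have h' : |(((N + 1 : ℕ)) : ℝ)| = (N : ℝ) + 1 := by
      rw [abs_of_pos hM']; push_cast; ring
    rw [h']
    apply pow_le_one₀ (by positivity)
    rw [div_le_one (by positivity)]
    exact h
  rw [abs_of_nonneg (by linarith : 0 ≤ 1 - ((Chebyshev.U ℝ ((M : ℤ) - 1)).eval x / M) ^ 2)]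
  have hx1 : -1 ≤ x := (abs_le.mp hx).1
  have hx2 : x ≤ 1 := (abs_le.mp hx).2
  have hs : |(Chebyshev.U ℝ (l : ℤ)).eval x| * Real.sqrt (1 - x ^ 2) ≤ 1 := by
    have hs1 : Real.sin (Real.arccos x) = Real.sqrt (1 - x ^ 2) := Real.sin_arccos x
    rw [← hs1, ← abs_of_nonneg (Real.sin_nonneg_of_nonneg_of_le_pi (Real.arccos_nonneg x)
      (Real.arccos_le_pi x)), ← abs_mul]
    have h := Chebyshev.U_real_cos (Real.arccos x) (l : ℤ)
    rw [Real.cos_arccos hx1 hx2] at h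
    rw [h]
    exact Real.abs_sin_le_one _
  set s := Real.sqrt (1 - x ^ 2) with hsdef
  have hs2 : s ^ 2 = 1 - x ^ 2 := Real.sq_sqrt (by nlinarith)
  have hs0 : 0 ≤ s := Real.sqrt_nonneg _
  rw [← hs2] at h1
  set u := |(Chebyshev.U ℝ (l : ℤ)).eval x| with hu
  have hu0 : 0 ≤ u := abs_nonneg _
  set F := ((Chebyshev.U ℝ ((M : ℤ) - 1)).eval x / M) ^ 2 with hF
  by_cases hcase : 1 ≤ M * s
  · -- u ≤ M
    have h2 : u ≤ M := by
      calc u = u * 1 := by ring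
        _ ≤ u * (M * s) := by gcongr
        _ = M * (u * s) := by ring
        _ ≤ M * 1 := by gcongr
        _ = M := by ring
    calc u * (1 - F) ≤ u * 1 := by
          apply mul_le_mul_of_nonneg_left (by linarith) hu0
      _ ≤ 2 * M := by linarith
  · push Not at hcase
    calc u * (1 - F) ≤ u * (2 * (M : ℝ) ^ 2 * s ^ 2) := by gcongr
      _ = 2 * M * ((u * s) * (M * s)) := by ring
      _ ≤ 2 * M * (1 * 1) := by
          gcongr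
      _ = 2 * M := by ring

end STZ
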