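import Mathlib

/-!
# STZ: Strichartz estimates on T^n x SU(2)^m with arbitrary bi-invariant metrics

The group SU(2), its normalised Haar measure, and the spectral data of the group
T^n x SU(2)^m.
-/

open MeasureTheory Matrix Complex
open scoped ComplexConjugate

namespace STZ

/-- The group `SU(2)` of unitary `2 x 2` complex matrices of determinant one. -/
abbrev SU2 : Type := Matrix.specialUnitaryGroup (Fin 2) ℂ

lemma su2_coe_inv (g : SU2) : ((g⁻¹ : SU2) : Matrix (Fin 2) (Fin 2) ℂ) = star (g : Matrix (Fin 2) (Fin 2) ℂ) := rfl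

instance : ContinuousInv SU2 := by
  constructor
  refine Continuous.subtype_mk ?_ _
  exact continuous_star.comp continuous_subtype_val

instance : IsTopologicalGroup SU2 where

instance : SecondCountableTopology (Matrix (Fin 2) (Fin 2) ℂ) :=
  inferInstanceAs (SecondCountableTopology (Fin 2 → Fin 2 → ℂ))

instance : SecondCountableTopology SU2 :=
  TopologicalSpace.Subtype.secondCountableTopology _

lemma su2_mul_star (g : SU2) : (g : Matrix (Fin 2) (Fin 2) ℂ) * star (g : Matrix (Fin 2) (Fin 2) ℂ) = 1 :=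
  (Matrix.mem_unitaryGroup_iff.1 (Matrix.mem_specialUnitaryGroup_iff.1 g.2).1)

lemma su2_star_mul (g : SU2) : star (g : Matrix (Fin 2) (Fin 2) ℂ) * (g : Matrix (Fin 2) (Fin 2) ℂ) = 1 :=
  (Matrix.mem_unitaryGroup_iff'.1 (Matrix.mem_specialUnitaryGroup_iff.1 g.2).1)

lemma su2_det (g : SU2) : (g : Matrix (Fin 2) (Fin 2) ℂ).det = 1 :=
  (Matrix.mem_specialUnitaryGroup_iff.1 g.2).2

/-- The second column of a matrix of SU(2): `g 1 1 = conj (g 0 0)`. -/
lemma su2_11 (g : SU2) : g.1 1 1 = conj (g.1 0 0) := by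
  have h1 : star (g : Matrix (Fin 2) (Fin 2) ℂ) = (g : Matrix (Fin 2) (Fin 2) ℂ).adjugate := by
    have h2 : (g : Matrix (Fin 2) (Fin 2) ℂ) * (g : Matrix (Fin 2) (Fin 2) ℂ).adjugate = 1 := by
      rw [Matrix.mul_adjugate, su2_det, one_smul]
    calc star (g : Matrix (Fin 2) (Fin 2) ℂ) = star (g : Matrix (Fin 2) (Fin 2) ℂ) *
          ((g : Matrix (Fin 2) (Fin 2) ℂ) * (g : Matrix (Fin 2) (Fin 2) ℂ).adjugate) := by
            rw [h2, mul_one]
      _ = _ := by rw [← mul_assoc, su2_star_mul, one_mul]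
  have h3 := congrFun (congrFun h1 0) 0
  rw [Matrix.adjugate_fin_two] at h3
  simp [Matrix.star_apply] at h3
  exact h3.symm

/-- `g 0 1 = - conj (g 1 0)`. -/
lemma su2_01 (g : SU2) : g.1 0 1 = -conj (g.1 1 0) := by
  have h1 : star (g : Matrix (Fin 2) (Fin 2) ℂ) = (g : Matrix (Fin 2) (Fin 2) ℂ).adjugate := by
    have h2 : (g : Matrix (Fin 2) (Fin 2) ℂ) * (g : Matrix (Fin 2) (Fin 2) ℂ).adjugate = 1 := by
      rw [Matrix.mul_adjugate, su2_det, one_smul]
    calc star (g : Matrix (Fin 2) (Fin 2) ℂ) = star (g : Matrix (Fin 2) (Fin 2) ℂ) *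
          ((g : Matrix (Fin 2) (Fin 2) ℂ) * (g : Matrix (Fin 2) (Fin 2) ℂ).adjugate) := by
            rw [h2, mul_one]
      _ = _ := by rw [← mul_assoc, su2_star_mul, one_mul]
  have h3 := congrFun (congrFun h1 0) 1
  rw [Matrix.adjugate_fin_two] at h3
  simp [Matrix.star_apply] at h3
  rw [h3]; simp

/-- `|g 0 0|^2 + |g 1 0|^2 = 1`. -/
lemma su2_normSq (g : SU2) : ‖g.1 0 0‖ ^ 2 + ‖g.1 1 0‖ ^ 2 = 1 := by
  have h := congrFun (congrFun (su2_star_mul g) 0) 0
  simp [Matrix.mul_apply, Matrix.star_apply, Fin.sum_univ_two] at h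
  have h1 : ((‖g.1 0 0‖ ^ 2 + ‖g.1 1 0‖ ^ 2 : ℝ) : ℂ) = 1 := by
    push_cast
    rw [← Complex.conj_mul', ← Complex.conj_mul']
    exact h
  exact_mod_cast h1

instance : CompactSpace SU2 := by
  have hclosed : IsClosed {x : Matrix (Fin 2) (Fin 2) ℂ | x ∈ Matrix.specialUnitaryGroup (Fin 2) ℂ} := by
    have h1 : {x : Matrix (Fin 2) (Fin 2) ℂ | x ∈ Matrix.specialUnitaryGroup (Fin 2) ℂ} =
        {x | x * star x = 1} ∩ {x | x.det = 1} := by
      ext x
      simp only [Set.mem_ofPred_eq, Set.mem_inter_iff, Matrix.mem_specialUnitaryGroup_iff,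
        Matrix.mem_unitaryGroup_iff]
    rw [h1]
    refine IsClosed.inter ?_ ?_
    · exact isClosed_eq (continuous_id.mul continuous_star) continuous_const
    · exact isClosed_eq (Continuous.matrix_det continuous_id) continuous_const
  have hsub : {x : Matrix (Fin 2) (Fin 2) ℂ | x ∈ Matrix.specialUnitaryGroup (Fin 2) ℂ} ⊆
      (Set.univ.pi fun _ : Fin 2 => Set.univ.pi fun _ : Fin 2 => Metric.closedBall (0 : ℂ) 1) := by
    intro x hx i _ j _
    have := entry_norm_bound_of_unitary (Matrix.mem_specialUnitaryGroup_iff.1 hx).1 i j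
    simpa using this
  have hK : IsCompact (Set.univ.pi fun _ : Fin 2 => Set.univ.pi fun _ : Fin 2 =>
      Metric.closedBall (0 : ℂ) 1) :=
    isCompact_univ_pi fun _ => isCompact_univ_pi fun _ => isCompact_closedBall _ _
  have : IsCompact {x : Matrix (Fin 2) (Fin 2) ℂ | x ∈ Matrix.specialUnitaryGroup (Fin 2) ℂ} :=
    hK.of_isClosed_subset hclosed hsub
  exact isCompact_iff_compactSpace.1 this

/-- `SU(2)` carries its Borel sigma-algebra. -/
noncomputable instance : MeasurableSpace SU2 := borel SU2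

instance : BorelSpace SU2 := ⟨rfl⟩

/-- The Haar probability measure of `SU(2)`. -/
noncomputable instance : MeasureSpace SU2 := ⟨Measure.haarMeasure ⊤⟩

lemma su2_volume : (volume : Measure SU2) = Measure.haarMeasure ⊤ := rfl

instance : Measure.IsHaarMeasure (volume : Measure SU2) := by
  rw [su2_volume]; infer_instance

instance : IsProbabilityMeasure (volume : Measure SU2) := by
  constructor
  have := Measure.haarMeasure_self (K₀ := (⊤ : TopologicalSpace.PositiveCompacts SU2))
  rw [su2_volume]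
  simpa using this

lemma su2_map_mul_right (g : SU2) :
    Measure.map (fun x : SU2 => x * g) volume = volume := by
  have h1 : Measure.IsHaarMeasure (Measure.map (fun x : SU2 => x * g) volume) := inferInstance
  have h2 : IsProbabilityMeasure (Measure.map (fun x : SU2 => x * g) (volume : Measure SU2)) :=
    Measure.isProbabilityMeasure_map (measurable_mul_const g).aemeasurable
  exact Measure.isHaarMeasure_eq_of_isProbabilityMeasure _ _

instance : Measure.IsMulRightInvariant (volume : Measure SU2) :=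
  ⟨su2_map_mul_right⟩

instance : Measure.IsInvInvariant (volume : Measure SU2) := by
  constructor
  have h0 : Measure.IsMulLeftInvariant (volume : Measure SU2).inv := by
    constructor
    intro g
    unfold Measure.inv
    rw [Measure.map_map (measurable_const_mul g) measurable_inv]
    have h3 : ((fun x : SU2 => g * x) ∘ Inv.inv) = Inv.inv ∘ (fun x : SU2 => x * g⁻¹) := by
      ext1 x
      simp [_root_.mul_inv_rev]
    rw [h3, ← Measure.map_map measurable_inv (measurable_mul_const _), su2_map_mul_right]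
  have h2 : IsProbabilityMeasure (volume : Measure SU2).inv :=
    Measure.isProbabilityMeasure_map measurable_inv.aemeasurable
  have h4 := Measure.isMulInvariant_eq_smul_of_compactSpace (volume : Measure SU2).inv volume
  have h5 : (Measure.haarScalarFactor (volume : Measure SU2).inv volume : ENNReal) = 1 := by
    have h6 := congrArg (fun μ : Measure SU2 => μ Set.univ) h4
    simp only [measure_univ, Measure.smul_apply] at h6
    simpa [ENNReal.smul_def] using h6.symm
  rw [h4]
  have h7 : Measure.haarScalarFactor (volume : Measure SU2).inv volume = 1 := by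
    exact_mod_cast h5
  rw [h7, one_smul]

instance : IsProbabilityMeasure (volume : Measure UnitAddCircle) :=
  ⟨UnitAddCircle.measure_univ⟩

/-- The space `T^n x SU(2)^m`; each circle is `ℝ/ℤ`, with coordinate `(angle)/(2 pi)`. -/
abbrev G (n m : ℕ) : Type := (Fin n → UnitAddCircle) × (Fin m → SU2)

/-- Spectral parameters: `k ∈ ℤ^n` and `ℓ ∈ ℕ^m`. -/
abbrev Idx (n m : ℕ) : Type := (Fin n → ℤ) × (Fin m → ℕ)

/-- The eigenvalue of `- Δ_g` with parameter `(k, ℓ)`:
`∑ k_i^2 / α_i + ∑ ℓ_j (ℓ_j + 2) / (8 β_j)`. -/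
noncomputable def ev {n m : ℕ} (α : Fin n → ℝ) (β : Fin m → ℝ) (l : Idx n m) : ℝ :=
  ∑ i, (l.1 i : ℝ) ^ 2 / α i + ∑ j, (l.2 j : ℝ) * ((l.2 j : ℝ) + 2) / (8 * β j)

/-- The product eigenfunctions `(x, g) ↦ ∏ e^{2 pi i k_i x_i} ∏ (a_jᵀ g_j b_j)^{ℓ_j}`. -/
noncomputable def mono {n m : ℕ} (l : Idx n m) (a b : Fin m → Fin 2 → ℂ) (x : G n m) : ℂ :=
  (∏ i, (fourier (l.1 i) (x.1 i) : ℂ)) * ∏ j, (a j ⬝ᵥ ((x.2 j).1 *ᵥ b j)) ^ l.2 j

/-- The joint eigenspace with parameter `(k, ℓ)`: the span of the product eigenfunctions. -/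
noncomputable def Eig {n m : ℕ} (l : Idx n m) : Submodule ℂ (G n m → ℂ) :=
  Submodule.span ℂ {F | ∃ a b : Fin m → Fin 2 → ℂ, F = mono l a b}

instance (n : ℕ) : IsProbabilityMeasure (volume : Measure (Fin n → UnitAddCircle)) :=
  inferInstanceAs (IsProbabilityMeasure (Measure.pi fun _ => volume))

instance (m : ℕ) : IsProbabilityMeasure (volume : Measure (Fin m → SU2)) :=
  inferInstanceAs (IsProbabilityMeasure (Measure.pi fun _ => volume))

instance (n m : ℕ) : IsProbabilityMeasure (volume : Measure (G n m)) :=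
  inferInstanceAs (IsProbabilityMeasure (Measure.prod volume volume))

section checks
variable (n m : ℕ)
example : CompactSpace (G n m) := inferInstance
example : T2Space (G n m) := inferInstance
example : SecondCountableTopology (G n m) := inferInstance
noncomputable example : MeasureSpace (G n m) := inferInstance
example : BorelSpace (G n m) := inferInstance
example : IsProbabilityMeasure (volume : Measure (G n m)) := inferInstance
end checks

end STZ
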