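import Pool.Agent.STZ.Inst
import Pool.Agent.STZ.Proj
import Pool.Agent.STZ.Cheb

/-!
# STZ/EigLevel: level sets of eigenfunctions on SU(2)

PROOF. Let `F(z) = (U_{M-1}(Re z_{00})/M)²`, `κ(x,y) = kS l x y * F(x y⁻¹)`. By `U_sq_mul`,
`κ = ∑_{|j|<M} a_j kS (l+2j)`, `a_j = (l+1)(M-|j|)/(M² (l+2j+1))`, all indices `l + 2j ≥ 0` because
`4 M ≤ l + 1`, and `0 ≤ a_j ≤ (l+1)/(M (l+1-2M)) ≤ 2/M`.
(1) `form_fejer`: by `inner_P`, `∑_j a_j ∫ P_{l+2j} g conj(P_{l+2j} g) = ∫_x ∫_y κ(x,y) g(y) conj(g x)`;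
`form_le_L2` with `A = 2/M` (`g = h`).
(2) Let `H = f/‖f‖` on `S`, `0` outside; `‖H‖ = 1_S`. `lam |S| ≤ ∫ f conj H = ∫ f conj(P_l H)`
(`inner_mem`) `≤ (∫‖f‖²)^(1/2) (∫ ‖P_l H‖²)^(1/2)`, and
`∫‖P_l H‖² = ∫∫ kS l x y H(y) conj(H x)` (`inner_P`)
`= ∫∫ κ(x,y) H(y) conj(H x) + ∫∫ kS l x y (1 - F(x y⁻¹)) H(y) conj(H x)`
`≤ (2/M) |S| + 2 (l+1) M |S|²` by (1) and `fejer_compl` (`‖kS l x y‖ = (l+1)|U_l|`, `su2_re_le`).
-/

open MeasureTheory Complex
open scoped ComplexConjugate

namespace STZ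

private lemma cs_sq {X : Type*} [MeasurableSpace X] {μ : Measure X} {a b : X → ℝ}
    (ha : Integrable (fun x => a x ^ 2) μ) (hb : Integrable (fun x => b x ^ 2) μ)
    (hab : Integrable (fun x => a x * b x) μ) :
    (∫ x, a x * b x ∂μ) ^ 2 ≤ (∫ x, a x ^ 2 ∂μ) * ∫ x, b x ^ 2 ∂μ := by
  have h : ∀ s : ℝ, 0 ≤ (∫ x, a x ^ 2 ∂μ) * (s * s) + (2 * ∫ x, a x * b x ∂μ) * s +
      ∫ x, b x ^ 2 ∂μ := by
    intro s
    have h1 : ∫ x, (s * a x + b x) ^ 2 ∂μ = (∫ x, a x ^ 2 ∂μ) * (s * s) +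
        (2 * ∫ x, a x * b x ∂μ) * s + ∫ x, b x ^ 2 ∂μ := by
      have h2 : ∀ x, (s * a x + b x) ^ 2 = (s * s) * a x ^ 2 + (2 * s) * (a x * b x) + b x ^ 2 := by
        intro x; ring
      simp only [h2]
      have i1 : Integrable (fun x => (s * s) * a x ^ 2) μ := ha.const_mul _
      have i2 : Integrable (fun x => (2 * s) * (a x * b x)) μ := hab.const_mul _
      have i3 : Integrable (fun x => (s * s) * a x ^ 2 + (2 * s) * (a x * b x)) μ := i1.add i2
      rw [integral_add i3 hb, integral_add i1 i2, integral_const_mul, integral_const_mul]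
      ring
    rw [← h1]
    exact integral_nonneg fun x => sq_nonneg _
  have h3 := discrim_le_zero h
  unfold discrim at h3
  nlinarith [h3]

/-- bounded measurable functions are integrable -/
private lemma int_bdd {g : SU2 → ℂ} {A : ℝ} (hg : Measurable g) (hA : ∀ x, ‖g x‖ ≤ A) :
    Integrable g :=
  Integrable.of_bound hg.aestronglyMeasurable A (ae_of_all _ hA)

private lemma meas_kS (k : ℕ) (x : SU2) : Measurable fun y => kS k x y :=
  ((continuous_kS k).comp (Continuous.prodMk_right x)).measurable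

private lemma norm_kS (k : ℕ) (x y : SU2) : ‖kS k x y‖ ≤ ((k : ℝ) + 1) ^ 2 :=
  su2RK.norm_le k x y

private lemma int_kS_mul (k : ℕ) (x : SU2) {g : SU2 → ℂ} {A : ℝ} (hg : Measurable g)
    (hA : ∀ x, ‖g x‖ ≤ A) : Integrable fun y => kS k x y * g y := by
  refine int_bdd (A := ((k : ℝ) + 1) ^ 2 * A) ((meas_kS k x).mul hg) fun y => ?_
  rw [norm_mul]
  exact mul_le_mul (norm_kS k x y) (hA y) (norm_nonneg _) (by positivity)

private lemma P_eq (k : ℕ) (g : SU2 → ℂ) (x : SU2) : su2RK.P k g x = ∫ y, kS k x y * g y := rfl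

private lemma P_bdd (k : ℕ) {g : SU2 → ℂ} {A : ℝ} (hg : Measurable g)
    (hA : ∀ x, ‖g x‖ ≤ A) : ∃ B, ∀ x, ‖su2RK.P k g x‖ ≤ B := by
  refine ⟨((k : ℝ) + 1) ^ 2 * A, fun x => ?_⟩
  rw [P_eq]
  refine (norm_integral_le_of_norm_le_const (μ := volume) (C := ((k : ℝ) + 1) ^ 2 * A)
    (ae_of_all _ fun y => ?_)).trans ?_
  · rw [norm_mul]
    exact mul_le_mul (norm_kS k x y) (hA y) (norm_nonneg _) (by positivity)
  · simp

private lemma int_P_mul (k : ℕ) {g h : SU2 → ℂ} {A : ℝ} (hg : Measurable g)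
    (hA : ∀ x, ‖g x‖ ≤ A) (hh : Measurable h) (hhA : ∀ x, ‖h x‖ ≤ A) :
    Integrable fun x => su2RK.P k g x * conj (h x) := by
  obtain ⟨B, hB⟩ := P_bdd k hg hA
  refine int_bdd (A := B * A) ((su2RK.P_continuous k hg hA).measurable.mul ?_) fun x => ?_
  · exact (Complex.continuous_conj.measurable).comp hh
  · rw [norm_mul, RCLike.norm_conj]
    exact mul_le_mul (hB x) (hhA x) (norm_nonneg _) ((norm_nonneg _).trans (hB x))

/-- the multiplier of the Fejer kernel -/
private noncomputable def aco (l M k : ℕ) : ℝ :=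
  ((l : ℝ) + 1) * ((M : ℝ) - |((k : ℝ) - l) / 2|) / ((M : ℝ) ^ 2 * ((k : ℝ) + 1))

/-- the frequencies of the Fejer kernel -/
private noncomputable def fset (l M : ℕ) : Finset ℕ :=
  (Finset.Ioo (-(M : ℤ)) (M : ℤ)).image fun j => ((l : ℤ) + 2 * j).toNat

private lemma idx_bounds {l M : ℕ} (hl : 4 * M ≤ l + 1) {j : ℤ}
    (hj : j ∈ Finset.Ioo (-(M : ℤ)) (M : ℤ)) : 0 ≤ (l : ℤ) + 2 * j := by
  rw [Finset.mem_Ioo] at hj
  omega

private lemma fejer_expand (l M : ℕ) (hM : 1 ≤ M) (hl : 4 * M ≤ l + 1) (x y : SU2) :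
    kS l x y * ((((Polynomial.Chebyshev.U ℝ ((M : ℤ) - 1)).eval ((x * y⁻¹).1 0 0).re / M) ^ 2 : ℝ) : ℂ)
      = ∑ k ∈ fset l M, ((aco l M k : ℝ) : ℂ) * kS k x y := by
  have hM0 : (M : ℝ) ≠ 0 := by
    have : (0 : ℝ) < M := by exact_mod_cast hM
    exact this.ne'
  have hinj : Set.InjOn (fun j : ℤ => ((l : ℤ) + 2 * j).toNat)
      (Finset.Ioo (-(M : ℤ)) (M : ℤ) : Finset ℤ) := by
    intro j hj j' hj' h
    have h1 := idx_bounds hl hj
    have h2 := idx_bounds hl hj'
    simp only at h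
    omega
  unfold fset
  rw [Finset.sum_image hinj]
  unfold kS chi
  set c : ℝ := ((x * y⁻¹).1 0 0).re with hc
  have h1 := U_sq_mul M hM (l : ℤ) c
  have h2 : ((l : ℝ) + 1) * (Polynomial.Chebyshev.U ℝ (l : ℤ)).eval c *
      ((Polynomial.Chebyshev.U ℝ ((M : ℤ) - 1)).eval c / M) ^ 2 =
      ((l : ℝ) + 1) / (M : ℝ) ^ 2 * ((Polynomial.Chebyshev.U ℝ ((M : ℤ) - 1)).eval c ^ 2 *
        (Polynomial.Chebyshev.U ℝ (l : ℤ)).eval c) := by
    field_simp
  rw [← Complex.ofReal_mul, h2, h1, Finset.mul_sum]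
  push_cast
  refine Finset.sum_congr rfl fun j hj => ?_
  have h3 := idx_bounds hl hj
  have h4 : ((((l : ℤ) + 2 * j).toNat : ℕ) : ℤ) = (l : ℤ) + 2 * j := Int.toNat_of_nonneg h3
  have h5 : ((((l : ℤ) + 2 * j).toNat : ℕ) : ℝ) = (l : ℝ) + 2 * j := by exact_mod_cast h4
  have h5' : ((((l : ℤ) + 2 * j).toNat : ℕ) : ℂ) = (l : ℂ) + 2 * j := by exact_mod_cast h4
  have h6 : ((l : ℝ) + 2 * j + 1) ≠ 0 := by
    have : (0 : ℝ) ≤ (l : ℝ) + 2 * j := by exact_mod_cast h3
    positivity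
  unfold aco
  rw [h4, h5]
  rw [h5']
  have h7 : |((l : ℝ) + 2 * j - l) / 2| = |(j : ℝ)| := by
    congr 1; ring
  rw [h7]
  have h6' : ((l : ℂ) + 2 * j + 1) ≠ 0 := by exact_mod_cast h6
  have hM0' : (M : ℂ) ≠ 0 := by exact_mod_cast hM0
  push_cast
  field_simp

private lemma aco_le (l M : ℕ) (hM : 1 ≤ M) (hl : 4 * M ≤ l + 1) {k : ℕ} (hk : k ∈ fset l M) :
    ‖((aco l M k : ℝ) : ℂ)‖ ≤ 2 / (M : ℝ) := by
  unfold fset at hk
  rw [Finset.mem_image] at hk
  obtain ⟨j, hj, rfl⟩ := hk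
  have h3 := idx_bounds hl hj
  have h4 : ((((l : ℤ) + 2 * j).toNat : ℕ) : ℤ) = (l : ℤ) + 2 * j := Int.toNat_of_nonneg h3
  have h5 : ((((l : ℤ) + 2 * j).toNat : ℕ) : ℝ) = (l : ℝ) + 2 * j := by exact_mod_cast h4
  rw [Complex.norm_real]
  unfold aco
  rw [h5]
  have h7 : |((l : ℝ) + 2 * j - l) / 2| = |(j : ℝ)| := by
    congr 1; ring
  rw [h7]
  rw [Finset.mem_Ioo] at hj
  have hj1 : -(M : ℝ) < j := by exact_mod_cast hj.1
  have hj2 : (j : ℝ) < M := by exact_mod_cast hj.2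
  have hMp : (0 : ℝ) < M := by exact_mod_cast hM
  have hlM : 4 * (M : ℝ) ≤ (l : ℝ) + 1 := by exact_mod_cast hl
  have hjM : |(j : ℝ)| < M := abs_lt.mpr ⟨hj1, hj2⟩
  have hden : 0 < (l : ℝ) + 2 * j + 1 := by linarith
  have hnum : 0 ≤ (M : ℝ) - |(j : ℝ)| := by linarith
  rw [Real.norm_of_nonneg (by positivity), div_le_div_iff₀ (by positivity) hMp]
  have h8 : (M : ℝ) - |(j : ℝ)| ≤ M := by linarith [abs_nonneg (j : ℝ)]
  have h9 : (l : ℝ) + 1 ≤ 2 * ((l : ℝ) + 2 * j + 1) := by linarith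
  calc ((l : ℝ) + 1) * ((M : ℝ) - |(j : ℝ)|) * M
      ≤ (2 * ((l : ℝ) + 2 * j + 1)) * M * M := by
        apply mul_le_mul_of_nonneg_right _ hMp.le
        exact mul_le_mul h9 h8 hnum (by positivity)
    _ = 2 * ((M : ℝ) ^ 2 * ((l : ℝ) + 2 * j + 1)) := by ring

theorem form_fejer (l M : ℕ) (hM : 1 ≤ M) (hl : 4 * M ≤ l + 1) {g : SU2 → ℂ} (hg : Measurable g)
    {A : ℝ} (hgA : ∀ x, ‖g x‖ ≤ A) :
    ‖∫ x : SU2, ∫ y : SU2, kS l x y *
      ((((Polynomial.Chebyshev.U ℝ ((M : ℤ) - 1)).eval ((x * y⁻¹).1 0 0).re / M) ^ 2 : ℝ) : ℂ) *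
      g y * conj (g x)‖ ≤ 2 / (M : ℝ) * ∫ x, ‖g x‖ ^ 2 := by
  have h1 : ∀ x : SU2, ∫ y : SU2, kS l x y *
      ((((Polynomial.Chebyshev.U ℝ ((M : ℤ) - 1)).eval ((x * y⁻¹).1 0 0).re / M) ^ 2 : ℝ) : ℂ) *
      g y * conj (g x) =
      ∑ k ∈ fset l M, ((aco l M k : ℝ) : ℂ) * (su2RK.P k g x * conj (g x)) := by
    intro x
    simp only [fejer_expand l M hM hl]
    have h2 : ∀ y, (∑ k ∈ fset l M, ((aco l M k : ℝ) : ℂ) * kS k x y) * g y * conj (g x) =
        ∑ k ∈ fset l M, (((aco l M k : ℝ) : ℂ) * conj (g x)) * (kS k x y * g y) := by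
      intro y
      rw [Finset.sum_mul, Finset.sum_mul]
      refine Finset.sum_congr rfl fun k _ => ?_
      ring
    simp only [h2]
    rw [integral_finsetSum _ fun k _ => (int_kS_mul k x hg hgA).const_mul _]
    refine Finset.sum_congr rfl fun k _ => ?_
    rw [integral_const_mul, ← P_eq]
    ring
  simp only [h1]
  rw [integral_finsetSum _ fun k _ => (int_P_mul k hg hgA hg hgA).const_mul _]
  simp only [integral_const_mul]
  have h3 : ∀ k, ∫ x, su2RK.P k g x * conj (g x) = ∫ x, su2RK.P k g x * conj (su2RK.P k g x) :=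
    fun k => (su2RK.inner_P k hg hgA hg hgA).symm
  simp only [h3]
  refine (su2RK.form_le_L2 (fset l M) (fun k => ((aco l M k : ℝ) : ℂ)) (A := 2 / (M : ℝ))
    (fun k hk => aco_le l M hM hl hk) (by positivity) hg hgA hg hgA).trans (le_of_eq ?_)
  have i1 : Integrable fun x => ‖g x‖ ^ 2 := by
    refine Integrable.of_bound (hg.norm.pow_const 2).aestronglyMeasurable (A ^ 2)
      (ae_of_all _ fun x => ?_)
    rw [Real.norm_of_nonneg (by positivity)]
    exact pow_le_pow_left₀ (norm_nonneg _) (hgA x) 2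
  rw [integral_add i1 (integrable_const _), integral_const]
  simp only [probReal_univ, smul_eq_mul, one_mul]
  ring

theorem eig_level (l M : ℕ) (hM : 1 ≤ M) (hl : 4 * M ≤ l + 1) (f : SU2 → ℂ)
    (hf : su2RK.Mem l f) (lam : ℝ) (hlam : 0 < lam) (S : Set SU2) (hS : MeasurableSet S)
    (hS2 : ∀ x ∈ S, lam ≤ ‖f x‖) :
    lam ^ 2 * (volume.real S) ^ 2 ≤ (∫ x, ‖f x‖ ^ 2) *
      (2 * ((l : ℝ) + 1) * M * (volume.real S) ^ 2 + 2 / (M : ℝ) * volume.real S) := by
  have hfc := hf.1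
  have hfm : Measurable f := hfc.measurable
  -- the sign function
  set H : SU2 → ℂ := S.indicator fun x => f x / (‖f x‖ : ℂ) with hH
  have hHm : Measurable H := by
    refine Measurable.indicator ?_ hS
    exact hfm.div (Complex.continuous_ofReal.measurable.comp hfm.norm)
  have hHn : ∀ x, ‖H x‖ = S.indicator (fun _ => (1 : ℝ)) x := by
    intro x
    by_cases hx : x ∈ S
    · have h0 : 0 < ‖f x‖ := hlam.trans_le (hS2 x hx)
      simp only [hH, Set.indicator_of_mem hx]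
      rw [norm_div, Complex.norm_real, norm_norm, div_self h0.ne']
    · simp only [hH, Set.indicator_of_notMem hx, norm_zero]
  have hH1 : ∀ x, ‖H x‖ ≤ 1 := by
    intro x
    rw [hHn]
    by_cases hx : x ∈ S
    · rw [Set.indicator_of_mem hx]
    · rw [Set.indicator_of_notMem hx]
      exact zero_le_one
  have hHi : ∫ x, ‖H x‖ = volume.real S := by
    simp only [hHn]
    rw [integral_indicator_const _ hS]
    simp
  have hHi2 : ∫ x, ‖H x‖ ^ 2 = volume.real S := by
    rw [← hHi]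
    refine integral_congr_ae (ae_of_all _ fun x => ?_)
    simp only [hHn]
    by_cases hx : x ∈ S
    · rw [Set.indicator_of_mem hx]; norm_num
    · rw [Set.indicator_of_notMem hx]; norm_num
  -- boundedness of f
  obtain ⟨Bf, hBf⟩ : ∃ B, ∀ x, ‖f x‖ ≤ B := by
    obtain ⟨B, hB⟩ := (isCompact_univ.image hfc).isBounded.exists_norm_le
    exact ⟨B, fun x => hB _ ⟨x, trivial, rfl⟩⟩
  have hBf0 : 0 ≤ Bf := (norm_nonneg _).trans (hBf 1)
  -- step 1
  have s1 : lam * volume.real S ≤ ‖∫ x, f x * conj (H x)‖ := by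
    have e1 : ∀ x, f x * conj (H x) = ((S.indicator (fun x => ‖f x‖) x : ℝ) : ℂ) := by
      intro x
      by_cases hx : x ∈ S
      · have h0 : 0 < ‖f x‖ := hlam.trans_le (hS2 x hx)
        have h0' : (‖f x‖ : ℂ) ≠ 0 := by exact_mod_cast h0.ne'
        simp only [hH, Set.indicator_of_mem hx]
        rw [map_div₀, Complex.conj_ofReal, mul_div_assoc', Complex.mul_conj', div_eq_iff h0']
        ring
      · simp only [hH, Set.indicator_of_notMem hx, map_zero, mul_zero, Complex.ofReal_zero]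
    simp only [e1]
    rw [integral_complex_ofReal, Complex.norm_real]
    refine le_trans ?_ (le_abs_self _)
    have e2 : lam * volume.real S = ∫ x, S.indicator (fun _ => lam) x := by
      rw [integral_indicator_const _ hS, smul_eq_mul, mul_comm]
    rw [e2]
    refine integral_mono ?_ ?_ fun x => ?_
    · exact (integrable_const lam).indicator hS
    · refine Integrable.indicator ?_ hS
      exact Integrable.of_bound hfm.norm.aestronglyMeasurable Bf (ae_of_all _ fun x => by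
        rw [norm_norm]; exact hBf x)
    · by_cases hx : x ∈ S
      · simp only [Set.indicator_of_mem hx]
        exact hS2 x hx
      · simp only [Set.indicator_of_notMem hx, le_refl]
  -- step 2
  obtain ⟨BP, hBP⟩ := P_bdd l hHm hH1
  have hPc : Continuous (su2RK.P l H) := su2RK.P_continuous l hHm hH1
  have hBP0 : 0 ≤ BP := (norm_nonneg _).trans (hBP 1)
  have s2 : ‖∫ x, f x * conj (H x)‖ ^ 2 ≤ (∫ x, ‖f x‖ ^ 2) * ∫ x, ‖su2RK.P l H x‖ ^ 2 := by
    rw [su2RK.inner_mem l hf hHm hH1]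
    have e1 : ‖∫ x, f x * conj (su2RK.P l H x)‖ ≤ ∫ x, ‖f x‖ * ‖su2RK.P l H x‖ := by
      refine (norm_integral_le_integral_norm _).trans (le_of_eq ?_)
      refine integral_congr_ae (ae_of_all _ fun x => ?_)
      simp only [norm_mul, RCLike.norm_conj]
    refine (pow_le_pow_left₀ (norm_nonneg _) e1 2).trans ?_
    refine cs_sq ?_ ?_ ?_
    · exact Integrable.of_bound (hfm.norm.pow_const 2).aestronglyMeasurable (Bf ^ 2)
        (ae_of_all _ fun x => by
          rw [Real.norm_of_nonneg (by positivity)]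
          exact pow_le_pow_left₀ (norm_nonneg _) (hBf x) 2)
    · exact Integrable.of_bound (hPc.measurable.norm.pow_const 2).aestronglyMeasurable (BP ^ 2)
        (ae_of_all _ fun x => by
          rw [Real.norm_of_nonneg (by positivity)]
          exact pow_le_pow_left₀ (norm_nonneg _) (hBP x) 2)
    · exact Integrable.of_bound (hfm.norm.mul hPc.measurable.norm).aestronglyMeasurable (Bf * BP)
        (ae_of_all _ fun x => by
          rw [Real.norm_of_nonneg (by positivity)]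
          exact mul_le_mul (hBf x) (hBP x) (norm_nonneg _) hBf0)
  -- step 3
  have s3 : ∫ x, ‖su2RK.P l H x‖ ^ 2 ≤
      2 * ((l : ℝ) + 1) * M * (volume.real S) ^ 2 + 2 / (M : ℝ) * volume.real S := by
    have e1 : ((∫ x, ‖su2RK.P l H x‖ ^ 2 : ℝ) : ℂ) = ∫ x, su2RK.P l H x * conj (H x) := by
      rw [← su2RK.inner_P l hHm hH1 hHm hH1, ← integral_complex_ofReal]
      refine integral_congr_ae (ae_of_all _ fun x => ?_)
      simp only [Complex.mul_conj']
      push_cast
      rfl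
    -- the two kernels
    set K1 : SU2 → SU2 → ℂ := fun x y => kS l x y *
      ((((Polynomial.Chebyshev.U ℝ ((M : ℤ) - 1)).eval ((x * y⁻¹).1 0 0).re / M) ^ 2 : ℝ) : ℂ)
      with hK1
    have hcont : Continuous fun p : SU2 × SU2 => ((p.1 * p.2⁻¹).1 0 0).re :=
      Complex.continuous_re.comp ((su2_continuous_entry 0 0).comp
        (continuous_fst.mul continuous_snd.inv))
    have hFc : Continuous fun p : SU2 × SU2 =>
        ((((Polynomial.Chebyshev.U ℝ ((M : ℤ) - 1)).eval ((p.1 * p.2⁻¹).1 0 0).re / M) ^ 2 : ℝ)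
          : ℂ) :=
      Complex.continuous_ofReal.comp
        (((((Polynomial.Chebyshev.U ℝ ((M : ℤ) - 1)).continuous).comp hcont).div_const _).pow 2)
    have hK1c : Continuous fun p : SU2 × SU2 => K1 p.1 p.2 := (continuous_kS l).mul hFc
    have hK2c : Continuous fun p : SU2 × SU2 => kS l p.1 p.2 - K1 p.1 p.2 :=
      (continuous_kS l).sub hK1c
    have bdd : ∀ K : SU2 × SU2 → ℂ, Continuous K → ∃ B, ∀ p, ‖K p‖ ≤ B := by
      intro K hK
      obtain ⟨B, hB⟩ := (isCompact_univ.image hK).isBounded.exists_norm_le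
      exact ⟨B, fun x => hB _ ⟨x, trivial, rfl⟩⟩
    have intP : ∀ K : SU2 × SU2 → ℂ, Continuous K →
        Integrable (fun p : SU2 × SU2 => K p * H p.2 * conj (H p.1))
          ((volume : Measure SU2).prod volume) := by
      intro K hK
      obtain ⟨B, hB⟩ := bdd K hK
      refine Integrable.of_bound (C := B * 1 * 1) ?_ (ae_of_all _ fun p => ?_)
      · refine Measurable.aestronglyMeasurable ?_
        refine (hK.measurable.mul (hHm.comp measurable_snd)).mul ?_
        exact (Complex.continuous_conj.measurable).comp (hHm.comp measurable_fst)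
      · have hB0 : 0 ≤ B := (norm_nonneg _).trans (hB p)
        rw [norm_mul, norm_mul, RCLike.norm_conj]
        exact mul_le_mul (mul_le_mul (hB p) (hH1 _) (norm_nonneg _) hB0) (hH1 _) (norm_nonneg _)
          (by positivity)
    have intY : ∀ K : SU2 × SU2 → ℂ, Continuous K → ∀ x,
        Integrable (fun y : SU2 => K (x, y) * H y * conj (H x)) := by
      intro K hK x
      obtain ⟨B, hB⟩ := bdd K hK
      refine Integrable.of_bound (C := B * 1 * 1) ?_ (ae_of_all _ fun p => ?_)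
      · refine Measurable.aestronglyMeasurable ?_
        exact ((hK.comp (Continuous.prodMk_right x)).measurable.mul hHm).mul_const _
      · have hB0 : 0 ≤ B := (norm_nonneg _).trans (hB (x, p))
        rw [norm_mul, norm_mul, RCLike.norm_conj]
        exact mul_le_mul (mul_le_mul (hB _) (hH1 _) (norm_nonneg _) hB0) (hH1 _) (norm_nonneg _)
          (by positivity)
    have e2 : ∫ x, su2RK.P l H x * conj (H x) =
        (∫ x, ∫ y, K1 x y * H y * conj (H x)) +
        ∫ x, ∫ y, (kS l x y - K1 x y) * H y * conj (H x) := by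
      rw [← integral_add (intP _ hK1c).integral_prod_left (intP _ hK2c).integral_prod_left]
      refine integral_congr_ae (ae_of_all _ fun x => ?_)
      simp only
      rw [← integral_add (intY _ hK1c x) (intY _ hK2c x), P_eq, ← integral_mul_const]
      refine integral_congr_ae (ae_of_all _ fun y => ?_)
      simp only
      ring
    have e3 := form_fejer l M hM hl hHm hH1
    rw [hHi2] at e3
    have e4 : ‖∫ x, ∫ y, (kS l x y - K1 x y) * H y * conj (H x)‖ ≤
        2 * ((l : ℝ) + 1) * M * (volume.real S) ^ 2 := by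
      have e5 : ∀ x y, ‖kS l x y - K1 x y‖ ≤ 2 * ((l : ℝ) + 1) * M := by
        intro x y
        have e6 := fejer_compl M l hM ((x * y⁻¹).1 0 0).re (su2_re_le _)
        have e7 : kS l x y - K1 x y = ((((l : ℝ) + 1) *
            ((Polynomial.Chebyshev.U ℝ (l : ℤ)).eval ((x * y⁻¹).1 0 0).re *
            (1 - ((Polynomial.Chebyshev.U ℝ ((M : ℤ) - 1)).eval ((x * y⁻¹).1 0 0).re / M) ^ 2))
              : ℝ) : ℂ) := by
          simp only [hK1, kS, chi]
          push_cast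
          ring
        rw [e7, Complex.norm_real, norm_mul, norm_mul, Real.norm_of_nonneg (by positivity),
          Real.norm_eq_abs, Real.norm_eq_abs]
        calc ((l : ℝ) + 1) * _ ≤ ((l : ℝ) + 1) * (2 * (M : ℝ)) :=
              mul_le_mul_of_nonneg_left e6 (by positivity)
          _ = 2 * ((l : ℝ) + 1) * M := by ring
      have e8 : ∀ x, ‖∫ y, (kS l x y - K1 x y) * H y * conj (H x)‖ ≤
          2 * ((l : ℝ) + 1) * M * volume.real S * ‖H x‖ := by
        intro x
        refine (norm_integral_le_integral_norm _).trans ?_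
        have e9 : ∫ y, 2 * ((l : ℝ) + 1) * M * ‖H y‖ * ‖H x‖ =
            2 * ((l : ℝ) + 1) * M * volume.real S * ‖H x‖ := by
          rw [integral_mul_const, integral_const_mul, hHi]
        rw [← e9]
        refine integral_mono (intY _ hK2c x).norm ?_ fun y => ?_
        · refine Integrable.mul_const (Integrable.const_mul ?_ _) _
          exact (int_bdd hHm hH1).norm
        · simp only [norm_mul, RCLike.norm_conj]
          exact mul_le_mul_of_nonneg_right (mul_le_mul_of_nonneg_right (e5 x y) (norm_nonneg _))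
            (norm_nonneg _)
      refine (norm_integral_le_integral_norm _).trans ?_
      have e10 : ∫ x, 2 * ((l : ℝ) + 1) * M * volume.real S * ‖H x‖ =
          2 * ((l : ℝ) + 1) * M * (volume.real S) ^ 2 := by
        rw [integral_const_mul, hHi]
        ring
      rw [← e10]
      refine integral_mono ?_ ?_ e8
      · exact (intP _ hK2c).integral_prod_left.norm
      · exact (int_bdd hHm hH1).norm.const_mul _
    have e11 : ‖((∫ x, ‖su2RK.P l H x‖ ^ 2 : ℝ) : ℂ)‖ = ∫ x, ‖su2RK.P l H x‖ ^ 2 := by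
      rw [Complex.norm_real, Real.norm_of_nonneg]
      exact integral_nonneg fun x => by positivity
    rw [← e11, e1, e2]
    refine (norm_add_le _ _).trans ?_
    have e12 : ‖∫ x, ∫ y, K1 x y * H y * conj (H x)‖ ≤ 2 / (M : ℝ) * volume.real S := e3
    linarith
  -- conclusion
  have hV : 0 ≤ volume.real S := measureReal_nonneg
  calc lam ^ 2 * (volume.real S) ^ 2 = (lam * volume.real S) ^ 2 := by ring
    _ ≤ ‖∫ x, f x * conj (H x)‖ ^ 2 := pow_le_pow_left₀ (by positivity) s1 2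
    _ ≤ (∫ x, ‖f x‖ ^ 2) * ∫ x, ‖su2RK.P l H x‖ ^ 2 := s2
    _ ≤ _ := by
        apply mul_le_mul_of_nonneg_left s3
        exact integral_nonneg fun x => by positivity

end STZ
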