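import Pool.Agent.STZ.EigLevel
import Pool.Agent.STZ.Distr

/-!
# STZ/EigLq: L^q bounds for the eigenfunctions of SU(2), q > 4

PROOF. `n = l + 1`, `A² = ∫‖f‖²`; if `A = 0` then `f = 0`. `point_le`: `‖f‖ ≤ n A` (`D l = n²`).
Claim: for all `lam > 0`, `|S| ≤ 64 n A⁴ lam^-4`, `S = {‖f‖ > lam}`. If `lam ≥ n A`, `S = ∅`. If
`lam² < 16 n A²`, Chebyshev's inequality gives `|S| ≤ A² lam^-2 ≤ 16 n A⁴ lam^-4`. Otherwise
`16 n A² ≤ lam² < n² A²`; let `M = ⌊lam²/(4 n A²)⌋ ≥ 4`: then `4 M ≤ lam²/(n A²) ≤ n`,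
`M ≥ lam²/(8 n A²)`, and `2 n M A² ≤ lam²/2`, so `eig_level` gives
`lam² |S|²/2 ≤ A² (2/M) |S|`, `|S| ≤ 4 A²/(M lam²) ≤ 32 n A⁴ lam^-4`.
`weak_strong` with `p0 = 4`, `B = 64 n A⁴`, bound `n A`:
`∫‖f‖^q ≤ q/(q-4) 64 n A⁴ (n A)^(q-4) = C n^(q-3) A^q`.
-/

open MeasureTheory Complex
open scoped ComplexConjugate

namespace STZ

private lemma eiglq_level {f : SU2 → ℂ} {l : ℕ} (hf : su2RK.Mem l f) {A2 : ℝ}
    (hA2 : A2 = ∫ x, ‖f x‖ ^ 2) (hpos : 0 < A2) (hpt : ∀ x, ‖f x‖ ^ 2 ≤ ((l : ℝ) + 1) ^ 2 * A2)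
    (lam : ℝ) (hlam : 0 < lam) :
    (volume : Measure SU2).real {x | lam < ‖f x‖} * lam ^ 4 ≤ 64 * ((l : ℝ) + 1) * A2 ^ 2 := by
  have hn : (1 : ℝ) ≤ (l : ℝ) + 1 := by have := Nat.cast_nonneg (α := ℝ) l; linarith
  obtain ⟨n, hnd⟩ : ∃ n : ℝ, n = (l : ℝ) + 1 := ⟨_, rfl⟩
  rw [← hnd] at hn hpt ⊢
  obtain ⟨m, hm⟩ : ∃ m : ℝ, m = (volume : Measure SU2).real {x | lam < ‖f x‖} := ⟨_, rfl⟩
  have hm0 : 0 ≤ m := by rw [hm]; exact measureReal_nonneg
  rw [← hm]
  have hfc : Continuous f := hf.1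
  by_cases ha : n ^ 2 * A2 ≤ lam ^ 2
  · have hemp : {x | lam < ‖f x‖} = ∅ := by
      ext x
      simp only [Set.mem_ofPred_eq, Set.mem_empty_iff_false, iff_false, not_lt]
      exact le_of_sq_le_sq ((hpt x).trans ha) hlam.le
    have : m = 0 := by rw [hm, hemp]; simp
    rw [this, zero_mul]
    positivity
  · rw [not_le] at ha
    by_cases hb : lam ^ 2 < 16 * n * A2
    · -- Chebyshev
      have hint : Integrable (fun x => ‖f x‖ ^ 2) (volume : Measure SU2) :=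
        (hfc.norm.pow 2).integrable_of_hasCompactSupport (HasCompactSupport.of_compactSpace _)
      have h1 := mul_meas_ge_le_integral_of_nonneg (μ := (volume : Measure SU2))
        (f := fun x => ‖f x‖ ^ 2) (Filter.Eventually.of_forall fun x => by positivity) hint
        (lam ^ 2)
      have h2 : m ≤ (volume : Measure SU2).real {x | lam ^ 2 ≤ ‖f x‖ ^ 2} := by
        rw [hm]
        refine measureReal_mono (fun x hx => ?_)
        exact pow_le_pow_left₀ hlam.le (le_of_lt hx) 2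
      rw [← hA2] at h1
      have h3 : 0 < lam ^ 2 := by positivity
      have h4 : m * lam ^ 2 ≤ A2 := by nlinarith
      calc m * lam ^ 4 = (m * lam ^ 2) * lam ^ 2 := by ring
        _ ≤ A2 * lam ^ 2 := mul_le_mul_of_nonneg_right h4 h3.le
        _ ≤ A2 * (16 * n * A2) := mul_le_mul_of_nonneg_left hb.le hpos.le
        _ ≤ 64 * n * A2 ^ 2 := by nlinarith [mul_pos (by linarith : 0 < n) (pow_pos hpos 2)]
    · rw [not_lt] at hb
      have hn0 : 0 < n := by linarith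
      obtain ⟨x, hx⟩ : ∃ x : ℝ, x = lam ^ 2 / (4 * n * A2) := ⟨_, rfl⟩
      have hx2 : lam ^ 2 = 4 * n * A2 * x := by
        rw [hx]; field_simp
      have hnA : 0 < n * A2 := by positivity
      have hx4 : 4 ≤ x := by
        rw [hx2] at hb
        by_contra hcon
        rw [not_le] at hcon
        nlinarith
      obtain ⟨M, hM⟩ : ∃ M : ℕ, M = ⌊x⌋₊ := ⟨_, rfl⟩
      have hMx : (M : ℝ) ≤ x := by rw [hM]; exact Nat.floor_le (by linarith)
      have hxM : x < (M : ℝ) + 1 := by rw [hM]; exact Nat.lt_floor_add_one x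
      have hM2 : x / 2 ≤ (M : ℝ) := by linarith
      have hM0 : (0 : ℝ) < M := by linarith
      have hM1 : 1 ≤ M := by exact_mod_cast hM0
      have hxn : 4 * x < n := by
        rw [hx2] at ha
        by_contra hcon
        rw [not_lt] at hcon
        nlinarith
      have hMl : 4 * M ≤ l + 1 := by
        have : (4 * M : ℝ) ≤ (l : ℝ) + 1 := by linarith
        exact_mod_cast this
      have hS : MeasurableSet {x | lam < ‖f x‖} :=
        measurableSet_lt measurable_const hfc.norm.measurable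
      have h1 := eig_level l M hM1 hMl f hf lam hlam {x | lam < ‖f x‖} hS
        (fun x hx => le_of_lt hx)
      rw [← hm, ← hA2, ← hnd] at h1
      rcases hm0.eq_or_lt with h0 | h0
      · rw [← h0, zero_mul]; positivity
      · -- `lam^2 m^2 / 2 ≤ (2 A2 / M) m`
        have h2 : 2 * n * M * A2 ≤ lam ^ 2 / 2 := by
          rw [hx2]; nlinarith
        have h3 : lam ^ 2 * m ^ 2 ≤ lam ^ 2 / 2 * m ^ 2 + A2 * (2 / M * m) := by
          calc _ ≤ _ := h1
            _ = 2 * n * M * A2 * m ^ 2 + A2 * (2 / M * m) := by ring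
            _ ≤ _ := by
              have := mul_le_mul_of_nonneg_right h2 (sq_nonneg m)
              linarith
        have h4 : lam ^ 2 / 2 * m ≤ A2 * (2 / M) := by
          have h5 : (lam ^ 2 / 2 * m) * m ≤ (A2 * (2 / M)) * m := by nlinarith
          exact le_of_mul_le_mul_right h5 h0
        have h6 : lam ^ 2 / 2 * m * M ≤ 2 * A2 := by
          have := mul_le_mul_of_nonneg_right h4 hM0.le
          calc _ ≤ _ := this
            _ = 2 * A2 := by field_simp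
        -- `M ≥ x/2 = lam^2/(8 n A2)`
        have h7 : lam ^ 2 ≤ 8 * n * A2 * M := by rw [hx2]; nlinarith
        calc m * lam ^ 4 = (lam ^ 2 * m) * lam ^ 2 := by ring
          _ ≤ (lam ^ 2 * m) * (8 * n * A2 * M) := mul_le_mul_of_nonneg_left h7 (by positivity)
          _ = 16 * n * A2 * (lam ^ 2 / 2 * m * M) := by ring
          _ ≤ 16 * n * A2 * (2 * A2) := mul_le_mul_of_nonneg_left h6 (by positivity)
          _ ≤ 64 * n * A2 ^ 2 := by nlinarith [mul_pos hn0 (pow_pos hpos 2)]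

theorem eig_Lq (q : ℝ) (hq : 4 < q) : ∃ C : ℝ, 0 < C ∧ ∀ (l : ℕ) (f : SU2 → ℂ), su2RK.Mem l f →
    ∫ x, ‖f x‖ ^ q ≤ C * ((l : ℝ) + 1) ^ (q - 3) * (∫ x, ‖f x‖ ^ 2) ^ (q / 2) := by
  refine ⟨q / (q - 4) * 64, by
    have : 0 < q - 4 := by linarith
    have : 0 < q := by linarith
    positivity, fun l f hf => ?_⟩
  obtain ⟨A2, hA2⟩ : ∃ A2 : ℝ, A2 = ∫ x, ‖f x‖ ^ 2 := ⟨_, rfl⟩
  obtain ⟨n, hnd⟩ : ∃ n : ℝ, n = (l : ℝ) + 1 := ⟨_, rfl⟩
  have hn : (1 : ℝ) ≤ n := by rw [hnd]; have := Nat.cast_nonneg (α := ℝ) l; linarith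
  have hn0 : 0 < n := by linarith
  have hA20 : 0 ≤ A2 := by rw [hA2]; exact integral_nonneg fun x => by positivity
  have hpt : ∀ x, ‖f x‖ ^ 2 ≤ n ^ 2 * A2 := by
    intro x
    have h := su2RK.point_le hf x
    rw [← hA2] at h
    rw [hnd]
    exact h
  have hbd : ∀ x, ‖f x‖ ≤ n * A2 ^ (1 / 2 : ℝ) := by
    intro x
    rw [← Real.sqrt_eq_rpow]
    refine le_of_sq_le_sq ?_ (by positivity)
    rw [mul_pow, Real.sq_sqrt hA20]
    exact hpt x
  rw [← hA2, ← hnd]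
  rcases hA20.eq_or_lt with hz | hpos
  · have h0 : ∀ x, ‖f x‖ ^ q = 0 := by
      intro x
      have h1 := hbd x
      rw [← hz, Real.zero_rpow (by norm_num), mul_zero] at h1
      rw [le_antisymm h1 (norm_nonneg _), Real.zero_rpow (by linarith)]
    simp only [h0, integral_zero]
    rw [← hz, Real.zero_rpow (by linarith), mul_zero]
  · have hkey : ∀ lam : ℝ, 0 < lam → (volume : Measure SU2).real {x | lam < ‖f x‖} ≤
        (64 * n * A2 ^ 2) * lam ^ (-(4 : ℝ)) := by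
      intro lam hlam
      have h1 := eiglq_level hf hA2 hpos (by rw [← hnd]; exact hpt) lam hlam
      rw [← hnd] at h1
      have h2 : lam ^ (-(4 : ℝ)) = (lam ^ 4)⁻¹ := by
        rw [Real.rpow_neg hlam.le, ← Real.rpow_natCast lam 4]; norm_num
      rw [h2, ← div_eq_mul_inv, le_div_iff₀ (by positivity)]
      exact h1
    have hA : 0 < A2 ^ (1 / 2 : ℝ) := Real.rpow_pos_of_pos hpos _
    have h9 := weak_strong (volume : Measure SU2) (fun x => ‖f x‖)
      hf.1.norm.measurable (fun x => norm_nonneg _)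
      (n * A2 ^ (1 / 2 : ℝ)) (64 * n * A2 ^ 2) 4 q hbd (by positivity) (by positivity)
      (by norm_num) hq hkey
    refine h9.trans (le_of_eq ?_)
    rw [Real.mul_rpow hn0.le hA.le, ← Real.rpow_mul hpos.le]
    have e1 : n * n ^ (q - 4) = n ^ (q - 3) := by
      nth_rewrite 1 [← Real.rpow_one n]
      rw [← Real.rpow_add hn0]; congr 1; ring
    have e2 : A2 ^ 2 * A2 ^ (1 / 2 * (q - 4)) = A2 ^ (q / 2) := by
      rw [← Real.rpow_natCast A2 2, ← Real.rpow_add hpos]; congr 1; push_cast; ring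
    rw [← e1, ← e2]
    ring

end STZ
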