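import Pool.Agent.STZ.Inst

/-!
# STZ/EigMem: the functions of `Eig l` are reproduced by the kernel `gRK`

PROOF. `Submodule.span_induction`. For `f = mono l a b`: `f` is continuous, and
`∫ z, (∏ kT (l.1 i) (x.1 i) (z.1 i)) * (∏ kS (l.2 j) (x.2 j) (z.2 j)) * mono l a b z` is a product
of integrals (`integral_prod_mul`, `integral_fintype_prod_eq_prod` as in STZ/Inst) which are given
by `torus_repr` and `su2_repr` with equal indices. For sums use additivity of the integral (all
integrands are continuous on the compact space `G n m`, so integrable), and scalars come out.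
-/

open MeasureTheory Complex Matrix
open scoped ComplexConjugate

namespace STZ

lemma eigmem_continuous_mono {n m : ℕ} (l : Idx n m) (a b : Fin m → Fin 2 → ℂ) :
    Continuous (mono l a b) := by
  unfold mono
  refine Continuous.mul ?_ ?_
  · refine continuous_finsetProd _ fun i _ => ?_
    exact (fourier (l.1 i)).continuous.comp ((continuous_apply i).comp continuous_fst)
  · refine continuous_finsetProd _ fun j _ => ?_
    refine Continuous.pow ?_ _
    have h1 : Continuous fun x : G n m => ((x.2 j).1 : Matrix (Fin 2) (Fin 2) ℂ) :=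
      continuous_subtype_val.comp ((continuous_apply j).comp continuous_snd)
    exact Continuous.dotProduct continuous_const (Continuous.matrix_mulVec h1 continuous_const)

lemma eigmem_cont_right {X Λ : Type*} [TopologicalSpace X] [MeasureSpace X] [DecidableEq Λ]
    (R : RK X Λ) (l : Λ) (x : X) : Continuous fun z : X => R.k l x z :=
  (R.cont l).comp (continuous_const.prodMk continuous_id)

lemma eigmem_mono {n m : ℕ} (l : Idx n m) (a b : Fin m → Fin 2 → ℂ) :
    (gRK n m).Mem l (mono l a b) := by
  refine ⟨eigmem_continuous_mono l a b, fun x => ?_⟩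
  have h0 : ∀ z : G n m, (gRK n m).k l x z * mono l a b z =
      (∏ i, (kT (l.1 i) (x.1 i) (z.1 i) * (fourier (l.1 i) (z.1 i) : ℂ))) *
        (∏ j, (kS (l.2 j) (x.2 j) (z.2 j) * (a j ⬝ᵥ ((z.2 j).1 *ᵥ b j)) ^ l.2 j)) := by
    intro z
    rw [Finset.prod_mul_distrib, Finset.prod_mul_distrib]
    show (∏ i, kT (l.1 i) (x.1 i) (z.1 i)) * (∏ j, kS (l.2 j) (x.2 j) (z.2 j)) *
      ((∏ i, (fourier (l.1 i) (z.1 i) : ℂ)) * ∏ j, (a j ⬝ᵥ ((z.2 j).1 *ᵥ b j)) ^ l.2 j) = _
    ring
  simp only [h0]
  have h2 := integral_prod_mul (μ := (volume : Measure (Fin n → UnitAddCircle)))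
    (ν := (volume : Measure (Fin m → SU2)))
    (fun z => ∏ i, (kT (l.1 i) (x.1 i) (z i) * (fourier (l.1 i) (z i) : ℂ)))
    (fun z => ∏ j, (kS (l.2 j) (x.2 j) (z j) * (a j ⬝ᵥ ((z j).1 *ᵥ b j)) ^ l.2 j))
  rw [← Measure.volume_eq_prod] at h2
  rw [h2]
  have h3 := integral_fintype_prod_eq_prod (𝕜 := ℂ) (ι := Fin n) (E := fun _ => UnitAddCircle)
      (μ := fun _ => (volume : Measure UnitAddCircle))
      (fun i z => kT (l.1 i) (x.1 i) z * (fourier (l.1 i) z : ℂ))
  have h4 := integral_fintype_prod_eq_prod (𝕜 := ℂ) (ι := Fin m) (E := fun _ => SU2)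
      (μ := fun _ => (volume : Measure SU2))
      (fun j z => kS (l.2 j) (x.2 j) z * (a j ⬝ᵥ (z.1 *ᵥ b j)) ^ l.2 j)
  rw [volume_pi, volume_pi, h3, h4]
  simp only [torus_repr, su2_repr, if_true]
  rfl

theorem eig_mem {n m : ℕ} (l : Idx n m) (f : G n m → ℂ) (hf : f ∈ Eig l) : (gRK n m).Mem l f := by
  unfold Eig at hf
  induction hf using Submodule.span_induction with
  | mem F hF =>
    obtain ⟨a, b, rfl⟩ := hF
    exact eigmem_mono l a b
  | zero =>
    refine ⟨continuous_const, fun x => ?_⟩
    simp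
  | add F H _ _ h1 h2 =>
    refine ⟨h1.1.add h2.1, fun x => ?_⟩
    have hc := eigmem_cont_right (gRK n m) l x
    have hi1 : Integrable (fun z => (gRK n m).k l x z * F z) :=
      (hc.mul h1.1).integrable_of_hasCompactSupport (HasCompactSupport.of_compactSpace _)
    have hi2 : Integrable (fun z => (gRK n m).k l x z * H z) :=
      (hc.mul h2.1).integrable_of_hasCompactSupport (HasCompactSupport.of_compactSpace _)
    simp only [Pi.add_apply, mul_add]
    rw [integral_add hi1 hi2, h1.2 x, h2.2 x]
  | smul c F _ h1 =>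
    refine ⟨continuous_const.mul h1.1, fun x => ?_⟩
    have h3 : ∀ z : G n m, (gRK n m).k l x z * (c • F) z = c * ((gRK n m).k l x z * F z) := by
      intro z
      simp only [Pi.smul_apply, smul_eq_mul]
      ring
    simp only [h3]
    rw [integral_const_mul, h1.2 x]
    rfl

end STZ
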