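import Mathlib

/-!
# STZ/Fejer: the Fejer kernel of period 1

PROOFS. `e(t) = exp(2 π i t)`.
* `fej_lower`: by periodicity (`fej_add_int`) we may assume `|t| ≤ 1/(2L)`. Geometric sum: for
  `t ≠ 0`, `|∑_{j<L} e(jt)| = |sin(π L t)|/|sin(π t)| ≥ (2/π) π L |t|/(π |t|) = 2L/π`
  (`2/π u ≤ sin u` on `[0,π/2]`, `sin u ≤ u`). So `fej L t ≥ 4 L/π² ≥ L/3` (`π² ≤ 12`). (Any other
  way is fine, e.g. `Re ∑ e((j - (L-1)/2) t) = ∑ cos(2π (j - (L-1)/2) t)` and
  `cos u ≥ 1 - 2u/π`.)
* `fej_form`: `fej L t = (1/L) ∑_{j,j'<L} e((j-j')t)`, so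
  `∫_S∫_S ∑_{i<q} fej L (t - s + i/q) = (1/L) ∑_{j,j'<L} (∑_{i<q} e((j-j') i/q)) ‖Ŝ(j-j')‖²`
  with `Ŝ(k) = ∫_S e(kt) dt`; the inner sum is `q` if `q ∣ j - j'` and `0` otherwise, and every
  `k ∈ (-L,L)` is represented `L - |k| ≤ L` times as `j - j'`. It suffices to have `≤`.
-/

open MeasureTheory Complex
open scoped Real

namespace STZ

/-- The Fejer kernel `(1/L) |∑_{j<L} e^{2 pi i j t}|²`. -/
noncomputable def fej (L : ℕ) (t : ℝ) : ℝ :=
  (1 / (L : ℝ)) * ‖∑ j ∈ Finset.range L, cexp (2 * π * I * ((j : ℝ) * t : ℝ))‖ ^ 2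

/-- Fourier coefficient of the indicator function of `S`. -/
noncomputable def Shat (S : Set ℝ) (k : ℤ) : ℂ := ∫ t in S, cexp (2 * π * I * ((k : ℝ) * t : ℝ))

theorem fej_nonneg (L : ℕ) (t : ℝ) : 0 ≤ fej L t := by
  unfold fej
  positivity

theorem fej_continuous (L : ℕ) : Continuous (fej L) := by
  unfold fej
  fun_prop

theorem fej_add_int (L : ℕ) (t : ℝ) (k : ℤ) : fej L (t + k) = fej L t := by
  unfold fej
  congr 3
  refine Finset.sum_congr rfl fun j _ => ?_
  rw [Complex.exp_eq_exp_iff_exists_int]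
  refine ⟨j * k, ?_⟩
  push_cast
  ring

/-- the exponential of modulus one -/
noncomputable def eX (k : ℤ) (x : ℝ) : ℂ := cexp (2 * π * I * ((k : ℝ) * x : ℝ))

lemma eX_norm (k : ℤ) (x : ℝ) : ‖eX k x‖ = 1 := by
  unfold eX
  rw [show (2 * π * I * ((k : ℝ) * x : ℝ) : ℂ) = ((2 * π * (k * x) : ℝ) : ℂ) * I by
    push_cast; ring]
  exact Complex.norm_exp_ofReal_mul_I _

lemma eX_continuous (k : ℤ) : Continuous (eX k) := by
  unfold eX
  fun_prop

lemma eX_add (k : ℤ) (x y : ℝ) : eX k (x + y) = eX k x * eX k y := by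
  unfold eX
  rw [← Complex.exp_add]
  congr 1
  push_cast
  ring

lemma eX_conj (k : ℤ) (x : ℝ) : (starRingEnd ℂ) (eX k x) = eX k (-x) := by
  unfold eX
  rw [← Complex.exp_conj]
  congr 1
  rw [show (2 * π * I * ((k : ℝ) * x : ℝ) : ℂ) = ((2 * π * (k * x) : ℝ) : ℂ) * I by
    push_cast; ring, map_mul, conj_ofReal, conj_I]
  push_cast
  ring

lemma eX_sub_int (j k : ℤ) (x : ℝ) : eX (j - k) x = eX j x * (starRingEnd ℂ) (eX k x) := by
  rw [eX_conj]
  unfold eX
  rw [← Complex.exp_add]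
  congr 1
  push_cast
  ring

lemma eX_pow (k : ℤ) (x : ℝ) (n : ℕ) : eX k x ^ n = eX k (n * x) := by
  unfold eX
  rw [← Complex.exp_nat_mul]
  congr 1
  push_cast
  ring

/-- the sum over the `q`-th roots -/
lemma sum_eX_div (q : ℕ) (hq : 1 ≤ q) (k : ℤ) :
    ∑ i ∈ Finset.range q, eX k ((i : ℝ) / q) = if (q : ℤ) ∣ k then (q : ℂ) else 0 := by
  have hq0 : (q : ℂ) ≠ 0 := by exact_mod_cast (by omega : q ≠ 0)
  have hq0' : (q : ℝ) ≠ 0 := by exact_mod_cast (by omega : q ≠ 0)
  have h1 : ∀ i ∈ Finset.range q, eX k ((i : ℝ) / q) = eX k (1 / q) ^ i := by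
    intro i _
    rw [eX_pow]
    congr 1
    ring
  rw [Finset.sum_congr rfl h1]
  split_ifs with h
  · obtain ⟨m, rfl⟩ := h
    have : eX (q * m) (1 / q) = 1 := by
      unfold eX
      rw [Complex.exp_eq_one_iff]
      refine ⟨m, ?_⟩
      push_cast
      field_simp
    rw [this]
    simp
  · have hne : eX k (1 / q) ≠ 1 := by
      intro h2
      apply h
      unfold eX at h2
      rw [Complex.exp_eq_one_iff] at h2
      obtain ⟨m, hm⟩ := h2
      refine ⟨m, ?_⟩
      have h3 : (2 * π * I : ℂ) * (((k : ℝ) * (1 / q) : ℝ) : ℂ) = (2 * π * I) * (m : ℂ) := by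
        rw [hm]; ring
      have h4 := mul_left_cancel₀ Complex.two_pi_I_ne_zero h3
      have h5 : (k : ℝ) * (1 / q) = m := by exact_mod_cast h4
      have h6 : (k : ℝ) = q * m := by
        field_simp at h5
        linarith
      exact_mod_cast h6
    rw [geom_sum_eq hne, eX_pow]
    have : eX k (q * (1 / q)) = 1 := by
      unfold eX
      rw [Complex.exp_eq_one_iff]
      refine ⟨k, ?_⟩
      push_cast
      field_simp
    rw [this, sub_self, zero_div]

theorem fej_lower (L : ℕ) (hL : 1 ≤ L) (t : ℝ) (k : ℤ) (ht : |t - k| ≤ 1 / (2 * (L : ℝ))) :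
    (L : ℝ) / 3 ≤ fej L t := by
  have hL0 : (0 : ℝ) < L := by exact_mod_cast hL
  have e0 : fej L t = fej L (t - k) := by
    rw [← fej_add_int L (t - k) k, sub_add_cancel]
  rw [e0]
  set u : ℝ := t - k with hu
  have key : 2 * L / π ≤ ‖∑ j ∈ Finset.range L, cexp (2 * π * I * ((j : ℝ) * u : ℝ))‖ := by
    have hsum : ∑ j ∈ Finset.range L, cexp (2 * π * I * ((j : ℝ) * u : ℝ)) =
        ∑ j ∈ Finset.range L, (cexp (I * ((2 * π * u : ℝ) : ℂ))) ^ j := by
      refine Finset.sum_congr rfl fun j _ => ?_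
      rw [← Complex.exp_nat_mul]
      congr 1
      push_cast
      ring
    rw [hsum]
    by_cases hu0 : u = 0
    · rw [hu0]
      simp only [mul_zero, ofReal_zero, Complex.exp_zero, one_pow, Finset.sum_const,
        Finset.card_range, nsmul_eq_mul, mul_one, Complex.norm_natCast]
      rw [div_le_iff₀ Real.pi_pos]
      nlinarith [Real.pi_gt_three]
    · have hg := geom_sum_mul (cexp (I * ((2 * π * u : ℝ) : ℂ))) L
      have hp : cexp (I * ((2 * π * u : ℝ) : ℂ)) ^ L = cexp (I * ((L * (2 * π * u) : ℝ) : ℂ)) := by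
        rw [← Complex.exp_nat_mul]
        congr 1
        push_cast
        ring
      rw [hp] at hg
      have hn := congrArg norm hg
      rw [norm_mul, Complex.norm_exp_I_mul_ofReal_sub_one, Complex.norm_exp_I_mul_ofReal_sub_one,
        norm_mul, norm_mul, Real.norm_two, Real.norm_eq_abs, Real.norm_eq_abs] at hn
      have a1 : (L : ℝ) * (2 * π * u) / 2 = π * L * u := by ring
      have a2 : 2 * π * u / 2 = π * u := by ring
      rw [a1, a2] at hn
      have hu' : 0 < |u| := abs_pos.2 hu0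
      have b1 : 2 / π * |π * L * u| ≤ |Real.sin (π * L * u)| := by
        apply Real.mul_abs_le_abs_sin
        rw [abs_mul, abs_of_pos (by positivity : 0 < π * (L : ℝ))]
        calc π * L * |u| ≤ π * L * (1 / (2 * (L : ℝ))) :=
              mul_le_mul_of_nonneg_left ht (by positivity)
          _ = π / 2 := by field_simp
      have b2 : |Real.sin (π * u)| ≤ |π * u| := Real.abs_sin_le_abs
      rw [abs_mul, abs_of_pos (by positivity : 0 < π * (L : ℝ))] at b1
      rw [abs_mul, abs_of_pos Real.pi_pos] at b2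
      have b3 : 2 / π * (π * L * |u|) = 2 * L * |u| := by
        field_simp
      rw [b3] at b1
      set Z : ℝ := ‖∑ j ∈ Finset.range L, (cexp (I * ((2 * π * u : ℝ) : ℂ))) ^ j‖ with hZ
      have hZ0 : 0 ≤ Z := norm_nonneg _
      have c1 : 2 * (2 * L * |u|) ≤ Z * (2 * (π * |u|)) := by
        calc 2 * (2 * L * |u|) ≤ 2 * |Real.sin (π * L * u)| := by linarith
          _ = Z * (2 * |Real.sin (π * u)|) := hn.symm
          _ ≤ Z * (2 * (π * |u|)) := by gcongr
      have c2 : (2 * L) * (2 * |u|) ≤ (Z * π) * (2 * |u|) := by linarith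
      have c3 := le_of_mul_le_mul_right c2 (by positivity)
      rw [div_le_iff₀ Real.pi_pos]
      exact c3
  unfold fej
  have hpi : π ^ 2 ≤ 12 := by
    have := Real.pi_lt_d2
    nlinarith [Real.pi_pos]
  calc (L : ℝ) / 3 ≤ 1 / L * (2 * L / π) ^ 2 := by
        rw [div_pow]
        have : 1 / (L : ℝ) * ((2 * L) ^ 2 / π ^ 2) = L * (4 / π ^ 2) := by
          field_simp
          ring
        rw [this]
        have h2 : (1 : ℝ) / 3 ≤ 4 / π ^ 2 := by
          rw [div_le_div_iff₀ (by norm_num) (by positivity)]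
          linarith
        calc (L : ℝ) / 3 = L * (1 / 3) := by ring
          _ ≤ _ := mul_le_mul_of_nonneg_left h2 hL0.le
    _ ≤ _ := by gcongr

/-- the Fejer kernel as a double sum -/
lemma fej_eq (L : ℕ) (x : ℝ) : ((fej L x : ℝ) : ℂ) =
    (1 / (L : ℂ)) * ∑ p ∈ Finset.range L ×ˢ Finset.range L, eX ((p.1 : ℤ) - p.2) x := by
  unfold fej
  push_cast
  congr 1
  rw [← Complex.mul_conj', map_sum, Finset.sum_mul_sum, ← Finset.sum_product']
  refine Finset.sum_congr rfl fun p _ => ?_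
  rw [eX_sub_int]
  unfold eX
  push_cast
  rfl

theorem fej_form (L q : ℕ) (hL : 1 ≤ L) (hq : 1 ≤ q) (S : Set ℝ) (hS : MeasurableSet S)
    (hS1 : S ⊆ Set.Icc 0 1) :
    ∫ t in S, ∫ s in S, ∑ i ∈ Finset.range q, fej L (t - s + (i : ℝ) / q) ≤
      q * ∑ k ∈ (Finset.Icc (-(L : ℤ)) L).filter (fun k => (q : ℤ) ∣ k), ‖Shat S k‖ ^ 2 := by
  have hL0 : (0 : ℝ) < L := by exact_mod_cast hL
  have hfin : IsFiniteMeasure (volume.restrict S) := by
    constructor
    rw [Measure.restrict_apply_univ]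
    exact (measure_mono hS1).trans_lt (by simp)
  set P := Finset.range L ×ˢ Finset.range L with hP
  set cc : ℤ → ℂ := fun k => if (q : ℤ) ∣ k then (q : ℂ) else 0 with hcc
  have hint : ∀ k : ℤ, Integrable (fun x => eX k x) (volume.restrict S) := fun k =>
    Integrable.of_bound (eX_continuous k).aestronglyMeasurable 1
      (Filter.Eventually.of_forall fun x => (eX_norm k x).le)
  have hintc : ∀ k : ℤ, Integrable (fun x => (starRingEnd ℂ) (eX k x)) (volume.restrict S) :=
    fun k => Integrable.of_bound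
      (Complex.continuous_conj.comp (eX_continuous k)).aestronglyMeasurable 1
      (Filter.Eventually.of_forall fun x => by rw [Complex.norm_conj]; exact (eX_norm k x).le)
  -- the integrand
  have h1 : ∀ t s : ℝ, ((∑ i ∈ Finset.range q, fej L (t - s + (i : ℝ) / q) : ℝ) : ℂ) =
      ∑ p ∈ P, (1 / (L : ℂ)) * cc ((p.1 : ℤ) - p.2) * eX ((p.1 : ℤ) - p.2) t *
        (starRingEnd ℂ) (eX ((p.1 : ℤ) - p.2) s) := by
    intro t s
    rw [ofReal_sum]
    simp only [fej_eq]
    rw [← Finset.mul_sum, Finset.sum_comm, Finset.mul_sum]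
    refine Finset.sum_congr rfl fun p _ => ?_
    have h2 : ∀ i ∈ Finset.range q, eX ((p.1 : ℤ) - p.2) (t - s + (i : ℝ) / q) =
        eX ((p.1 : ℤ) - p.2) t * (starRingEnd ℂ) (eX ((p.1 : ℤ) - p.2) s) *
          eX ((p.1 : ℤ) - p.2) ((i : ℝ) / q) := by
      intro i _
      generalize ((p.1 : ℤ) - p.2) = m
      rw [eX_add, show t - s = t + -s from sub_eq_add_neg _ _, eX_add, eX_conj]
    rw [Finset.sum_congr rfl h2, ← Finset.mul_sum, sum_eX_div q hq]
    simp only [hcc]
    ring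
  -- the double integral
  have h3 : ((∫ t in S, ∫ s in S, ∑ i ∈ Finset.range q, fej L (t - s + (i : ℝ) / q) : ℝ) : ℂ) =
      ∑ p ∈ P, (1 / (L : ℂ)) * cc ((p.1 : ℤ) - p.2) *
        ((‖Shat S ((p.1 : ℤ) - p.2)‖ ^ 2 : ℝ) : ℂ) := by
    rw [← integral_complex_ofReal]
    have h4 : ∀ t : ℝ, ((∫ s in S, ∑ i ∈ Finset.range q, fej L (t - s + (i : ℝ) / q) : ℝ) : ℂ) =
        ∑ p ∈ P, (1 / (L : ℂ)) * cc ((p.1 : ℤ) - p.2) *
          (starRingEnd ℂ) (Shat S ((p.1 : ℤ) - p.2)) * eX ((p.1 : ℤ) - p.2) t := by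
      intro t
      rw [← integral_complex_ofReal]
      simp only [h1]
      rw [integral_finsetSum _ fun p _ => (hintc _).const_mul _]
      refine Finset.sum_congr rfl fun p _ => ?_
      rw [integral_const_mul, integral_conj]
      change _ * (starRingEnd ℂ) (Shat S ((p.1 : ℤ) - p.2)) = _
      ring
    simp only [h4]
    rw [integral_finsetSum _ fun p _ => (hint _).const_mul _]
    refine Finset.sum_congr rfl fun p _ => ?_
    rw [integral_const_mul]
    change _ * Shat S ((p.1 : ℤ) - p.2) = _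
    rw [mul_assoc, mul_comm ((starRingEnd ℂ) _), Complex.mul_conj']
    push_cast
    rfl
  -- back to the reals
  set F : ℤ → ℝ := fun k => if (q : ℤ) ∣ k then ‖Shat S k‖ ^ 2 else 0 with hF
  have hF0 : ∀ k, 0 ≤ F k := by
    intro k
    simp only [hF]
    split_ifs <;> positivity
  have h5 : ∫ t in S, ∫ s in S, ∑ i ∈ Finset.range q, fej L (t - s + (i : ℝ) / q) =
      (q / L : ℝ) * ∑ p ∈ P, F ((p.1 : ℤ) - p.2) := by
    have : ((∫ t in S, ∫ s in S, ∑ i ∈ Finset.range q, fej L (t - s + (i : ℝ) / q) : ℝ) : ℂ) =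
        (((q / L : ℝ) * ∑ p ∈ P, F ((p.1 : ℤ) - p.2) : ℝ) : ℂ) := by
      rw [h3, Finset.mul_sum, ofReal_sum]
      refine Finset.sum_congr rfl fun p _ => ?_
      simp only [hcc, hF]
      split_ifs
      · push_cast
        ring
      · simp
    exact_mod_cast this
  rw [h5]
  have h6 : ∑ p ∈ P, F ((p.1 : ℤ) - p.2) ≤ L * ∑ k ∈ Finset.Icc (-(L : ℤ)) L, F k := by
    rw [hP, Finset.sum_product]
    calc ∑ j ∈ Finset.range L, ∑ j' ∈ Finset.range L, F ((j : ℤ) - j')
        ≤ ∑ _j ∈ Finset.range L, ∑ k ∈ Finset.Icc (-(L : ℤ)) L, F k := by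
          refine Finset.sum_le_sum fun j hj => ?_
          rw [Finset.mem_range] at hj
          have hinj : Set.InjOn (fun j' : ℕ => (j : ℤ) - j') (Finset.range L) := by
            intro x _ y _ hxy
            simp only at hxy
            omega
          rw [← Finset.sum_image (f := F) hinj]
          refine Finset.sum_le_sum_of_subset_of_nonneg ?_ fun k _ _ => hF0 k
          intro k hk
          rw [Finset.mem_image] at hk
          obtain ⟨j', hj', rfl⟩ := hk
          rw [Finset.mem_range] at hj'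
          rw [Finset.mem_Icc]
          omega
      _ = L * ∑ k ∈ Finset.Icc (-(L : ℤ)) L, F k := by
          rw [Finset.sum_const, Finset.card_range, nsmul_eq_mul]
  have h7 : ∑ k ∈ Finset.Icc (-(L : ℤ)) L, F k =
      ∑ k ∈ (Finset.Icc (-(L : ℤ)) L).filter (fun k => (q : ℤ) ∣ k), ‖Shat S k‖ ^ 2 := by
    rw [Finset.sum_filter]
  rw [← h7]
  calc (q / L : ℝ) * ∑ p ∈ P, F ((p.1 : ℤ) - p.2)
      ≤ (q / L : ℝ) * (L * ∑ k ∈ Finset.Icc (-(L : ℤ)) L, F k) :=
        mul_le_mul_of_nonneg_left h6 (by positivity)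
    _ = _ := by field_simp

end STZ
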