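import Pool.Agent.STZ.Defs

/-!
# The Schrodinger group and the Sobolev norms on `L²(T^n x SU(2)^m)`
-/

open MeasureTheory Matrix Complex
open scoped ComplexConjugate ENNReal NNReal

namespace STZ

variable {n m : ℕ}

theorem mono_continuous (l : Idx n m) (a b : Fin m → Fin 2 → ℂ) : Continuous (mono l a b) := by
  unfold mono
  refine Continuous.mul (continuous_finsetProd _ fun i _ => ?_)
    (continuous_finsetProd _ fun j _ => Continuous.pow ?_ _)
  · exact (fourier (l.1 i)).continuous.comp ((continuous_apply i).comp continuous_fst)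
  · refine Continuous.dotProduct continuous_const (Continuous.matrix_mulVec ?_ continuous_const)
    exact continuous_subtype_val.comp ((continuous_apply j).comp continuous_snd)

/-- The product eigenfunction `mono l a b` as an element of `L²(T^n x SU(2)^m)`. -/
noncomputable def monoL2 (l : Idx n m) (a b : Fin m → Fin 2 → ℂ) :
    Lp ℂ 2 (volume : Measure (G n m)) :=
  ContinuousMap.toLp 2 volume ℂ (⟨mono l a b, mono_continuous l a b⟩ : C(G n m, ℂ))

/-- The joint eigenspace with parameter `l` as a closed subspace of `L²(T^n x SU(2)^m)`: the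
closed span of the product eigenfunctions `mono l a b`. -/
noncomputable def eigL2 (l : Idx n m) : Submodule ℂ (Lp ℂ 2 (volume : Measure (G n m))) :=
  (Submodule.span ℂ {F | ∃ a b : Fin m → Fin 2 → ℂ, F = monoL2 l a b}).topologicalClosure

/-- The orthogonal projection of `L²(T^n x SU(2)^m)` onto the joint eigenspace `eigL2 l`. -/
noncomputable def proj (l : Idx n m) (f : Lp ℂ 2 (volume : Measure (G n m))) :
    Lp ℂ 2 (volume : Measure (G n m)) :=
  (Submodule.span ℂ {F | ∃ a b : Fin m → Fin 2 → ℂ, F = monoL2 l a b}).topologicalClosure.starProjection f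

/-- The Schrodinger group: `e^{itΔ} f = ∑ e^{- i t ev(l)} proj_l f`, sum in `L²`. -/
noncomputable def schrodinger (α : Fin n → ℝ) (β : Fin m → ℝ) (t : ℝ)
    (f : Lp ℂ 2 (volume : Measure (G n m))) : Lp ℂ 2 (volume : Measure (G n m)) :=
  ∑' l : Idx n m, cexp (-((t * ev α β l : ℝ) : ℂ) * I) • proj l f

/-- The square of the Sobolev norm `‖f‖_{H^s}`: `∑ (1 + ev(l))^s ‖proj_l f‖²`, possibly `∞`. -/
noncomputable def sobolevSq (α : Fin n → ℝ) (β : Fin m → ℝ) (s : ℝ)
    (f : Lp ℂ 2 (volume : Measure (G n m))) : ℝ≥0∞ :=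
  ∑' l : Idx n m, ENNReal.ofReal ((1 + ev α β l) ^ s * ‖proj l f‖ ^ 2)

end STZ
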