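import Pool.Agent.STZ.Main

/-!
# STZ/Interval: the estimate on an arbitrary bounded interval, as iterated integrals
-/

open MeasureTheory Complex
open scoped ComplexConjugate

namespace STZ

theorem strichartz_interval {n m : ℕ} (hr : 1 ≤ n + m) (α : Fin n → ℝ) (β : Fin m → ℝ)
    (hα : ∀ i, 0 < α i) (hβ : ∀ j, 0 < β j) (p : ℝ)
    (hp : 2 + 8 / ((n : ℝ) + m) < p ∨ (1 ≤ m ∧ 4 < p)) (a b : ℝ) (hab : a < b) :
    ∃ C : ℝ, 0 < C ∧ ∀ (F : Finset (Idx n m)) (f : Idx n m → G n m → ℂ),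
      (∀ l ∈ F, f l ∈ Eig l) →
      ∫ t in a..b, ∫ x : G n m,
        ‖∑ l ∈ F, cexp (-((t * ev α β l : ℝ) : ℂ) * I) * f l x‖ ^ p ≤
        C * (∑ l ∈ F, (1 + ev α β l) ^ (((n + 3 * m : ℕ) : ℝ) / 2 - (((n + 3 * m : ℕ) : ℝ) + 2) / p) *
          ∫ x, ‖f l x‖ ^ 2) ^ (p / 2) := by
  obtain ⟨C, hC, hmain⟩ := strichartz_T0 hr α β hα hβ p hp (b - a) (by linarith)
  have hp0 : 0 < p := by
    rcases hp with hp | ⟨_, hp⟩
    · have h1 : (1 : ℝ) ≤ (n : ℝ) + m := by exact_mod_cast hr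
      have : 0 < 8 / ((n : ℝ) + m) := by positivity
      linarith
    · linarith
  refine ⟨C, hC, fun F f hf => ?_⟩
  -- translate the time by `a`
  set f' : Idx n m → G n m → ℂ := fun l x => cexp (-((a * ev α β l : ℝ) : ℂ) * I) * f l x with hf'
  have hphase : ∀ (t : ℝ) (l : Idx n m), ‖cexp (-((t * ev α β l : ℝ) : ℂ) * I)‖ = 1 := by
    intro t l
    rw [show -((t * ev α β l : ℝ) : ℂ) * I = ((-(t * ev α β l) : ℝ) : ℂ) * I by push_cast; ring]
    exact Complex.norm_exp_ofReal_mul_I _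
  have hf'mem : ∀ l ∈ F, f' l ∈ Eig l := by
    intro l hl
    have : f' l = cexp (-((a * ev α β l : ℝ) : ℂ) * I) • f l := by
      ext x; simp [hf']
    rw [this]
    exact (Eig l).smul_mem _ (hf l hl)
  have h1 := hmain F f' hf'mem
  have hcont : ∀ l ∈ F, Continuous (f l) := fun l hl => (eig_mem l (f l) (hf l hl)).1
  have hcont' : ∀ l ∈ F, Continuous (f' l) := fun l hl => (eig_mem l (f' l) (hf'mem l hl)).1
  have hnorm : ∀ l, ∫ x, ‖f' l x‖ ^ 2 = ∫ x, ‖f l x‖ ^ 2 := by
    intro l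
    simp only [hf', norm_mul, hphase, one_mul]
  simp only [hnorm] at h1
  refine le_trans (le_of_eq ?_) h1
  -- the function
  have hev : ∀ s x, evol (ev α β) F f' s x =
      ∑ l ∈ F, cexp (-(((s + a) * ev α β l : ℝ) : ℂ) * I) * f l x := by
    intro s x
    unfold evol
    refine Finset.sum_congr rfl fun l _ => ?_
    simp only [hf']
    rw [← mul_assoc, ← Complex.exp_add]
    congr 2
    push_cast; ring
  have hUcont : Continuous fun q : ℝ × G n m => ‖evol (ev α β) F f' q.1 q.2‖ ^ p := by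
    refine Continuous.rpow_const ?_ fun _ => Or.inr hp0.le
    refine Continuous.norm ?_
    unfold evol
    refine continuous_finsetSum _ fun l hl => ?_
    refine Continuous.mul ?_ ((hcont' l hl).comp continuous_snd)
    fun_prop
  have hint : Integrable (fun q : ℝ × G n m => ‖evol (ev α β) F f' q.1 q.2‖ ^ p)
      (stm (G n m) (b - a)) := by
    have h2 : IntegrableOn (fun q : ℝ × G n m => ‖evol (ev α β) F f' q.1 q.2‖ ^ p)
        (Set.Icc (0 : ℝ) (b - a) ×ˢ Set.univ) ((volume : Measure ℝ).prod volume) :=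
      hUcont.continuousOn.integrableOn_compact (isCompact_Icc.prod isCompact_univ)
    have h3 : stm (G n m) (b - a) = ((volume : Measure ℝ).prod (volume : Measure (G n m))).restrict
        (Set.Icc (0 : ℝ) (b - a) ×ˢ Set.univ) := by
      unfold stm
      rw [← Measure.prod_restrict, Measure.restrict_univ]
    rw [h3]
    exact h2
  have e1 : ∫ q, ‖evol (ev α β) F f' q.1 q.2‖ ^ p ∂(stm (G n m) (b - a)) =
      ∫ s in (0 : ℝ)..(b - a), ∫ x, ‖evol (ev α β) F f' s x‖ ^ p := by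
    rw [intervalIntegral.integral_of_le (by linarith), ← integral_Icc_eq_integral_Ioc]
    exact integral_prod _ hint
  rw [e1]
  have e2 := intervalIntegral.integral_comp_add_right (a := (0 : ℝ)) (b := b - a)
    (fun t => ∫ x : G n m, ‖∑ l ∈ F, cexp (-((t * ev α β l : ℝ) : ℂ) * I) * f l x‖ ^ p) a
  rw [zero_add, sub_add_cancel] at e2
  rw [← e2]
  simp only [hev]

end STZ
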