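import Pool.Agent.STZ.FullSum
import Pool.Agent.STZ.Interval

/-!
# STZ/FullMain: the Strichartz estimate for all `f ∈ L²`
-/

open MeasureTheory Matrix Complex Filter
open scoped ComplexConjugate ENNReal NNReal Topology

namespace STZ

theorem ae_tendsto_of_geometric {X : Type*} [MeasurableSpace X] (μ : Measure X)
    [IsProbabilityMeasure μ] (u : Lp ℂ 2 μ) (v : ℕ → Lp ℂ 2 μ)
    (h : ∀ k, ‖u - v k‖ ≤ (1 / 2 : ℝ) ^ k) :
    ∀ᵐ x ∂μ, Tendsto (fun k => (v k : X → ℂ) x) atTop (𝓝 ((u : X → ℂ) x)) := by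
  have h1 : ∀ k, ∫⁻ x, ‖((u - v k : Lp ℂ 2 μ) : X → ℂ) x‖ₑ ∂μ ≤ ENNReal.ofReal ((1 / 2 : ℝ) ^ k) := by
    intro k
    rw [← eLpNorm_one_eq_lintegral_enorm]
    calc eLpNorm ((u - v k : Lp ℂ 2 μ) : X → ℂ) 1 μ ≤ eLpNorm ((u - v k : Lp ℂ 2 μ) : X → ℂ) 2 μ :=
          eLpNorm_le_eLpNorm_of_exponent_le (by norm_num) (Lp.aestronglyMeasurable _)
      _ = ENNReal.ofReal ‖u - v k‖ := by
          rw [Lp.norm_def, ENNReal.ofReal_toReal (Lp.eLpNorm_ne_top _)]
      _ ≤ _ := ENNReal.ofReal_le_ofReal (h k)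
  have h2 : ∫⁻ x, ∑' k, ‖((u - v k : Lp ℂ 2 μ) : X → ℂ) x‖ₑ ∂μ < ⊤ := by
    rw [lintegral_tsum fun k => (Lp.aestronglyMeasurable _).enorm]
    calc ∑' k, ∫⁻ x, ‖((u - v k : Lp ℂ 2 μ) : X → ℂ) x‖ₑ ∂μ
        ≤ ∑' k : ℕ, ENNReal.ofReal ((1 / 2 : ℝ) ^ k) := ENNReal.tsum_le_tsum h1
      _ = ENNReal.ofReal (∑' k : ℕ, (1 / 2 : ℝ) ^ k) :=
          (ENNReal.ofReal_tsum_of_nonneg (fun k => by positivity) summable_geometric_two).symm
      _ < ⊤ := ENNReal.ofReal_lt_top
  have h3 : ∀ᵐ x ∂μ, ∑' k, ‖((u - v k : Lp ℂ 2 μ) : X → ℂ) x‖ₑ < ⊤ :=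
    ae_lt_top' (AEMeasurable.ennreal_tsum fun k => (Lp.aestronglyMeasurable _).enorm) h2.ne
  have h4 : ∀ᵐ x ∂μ, ∀ k, ((u - v k : Lp ℂ 2 μ) : X → ℂ) x = (u : X → ℂ) x - (v k : X → ℂ) x := by
    rw [ae_all_iff]
    intro k
    exact Lp.coeFn_sub u (v k)
  filter_upwards [h3, h4] with x hx hx2
  have h5 := ENNReal.tendsto_atTop_zero_of_tsum_ne_top hx.ne
  simp only [hx2] at h5
  rw [tendsto_iff_edist_tendsto_0]
  refine h5.congr fun k => ?_
  rw [edist_comm, edist_eq_enorm_sub]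

variable {n m : ℕ}

theorem coeFn_sum_ph (α : Fin n → ℝ) (β : Fin m → ℝ) (t : ℝ) (f : Lp ℂ 2 (volume : Measure (G n m)))
    (h : Idx n m → C(G n m, ℂ)) (hh : ∀ l, toL2 (h l) = proj l f) (F : Finset (Idx n m)) :
    ((∑ l ∈ F, ph α β t l • proj l f : Lp ℂ 2 (volume : Measure (G n m))) : G n m → ℂ) =ᵐ[volume]
      fun x => ∑ l ∈ F, ph α β t l * h l x := by
  have h1 : (∑ l ∈ F, ph α β t l • proj l f : Lp ℂ 2 (volume : Measure (G n m))) =
      toL2 (∑ l ∈ F, ph α β t l • h l) := by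
    rw [map_sum]
    refine Finset.sum_congr rfl fun l _ => ?_
    rw [map_smul, hh]
  rw [h1]
  refine (ContinuousMap.coeFn_toLp volume _).trans ?_
  refine Eventually.of_forall fun x => ?_
  simp only [ContinuousMap.sum_apply, ContinuousMap.smul_apply, smul_eq_mul]

/-- The Strichartz estimate for every `f ∈ L²(T^n x SU(2)^m)`, arbitrary metric coefficients. -/
theorem strichartz_full (hr : 1 ≤ n + m) (α : Fin n → ℝ) (β : Fin m → ℝ)
    (hα : ∀ i, 0 < α i) (hβ : ∀ j, 0 < β j) (p : ℝ)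
    (hp : 2 + 8 / ((n : ℝ) + m) < p ∨ (1 ≤ m ∧ 4 < p)) (a b : ℝ) (hab : a < b) :
    ∃ C : ℝ≥0, ∀ f : Lp ℂ 2 (volume : Measure (G n m)),
      ∫⁻ t in Set.Icc a b, (eLpNorm (schrodinger α β t f) (ENNReal.ofReal p) volume) ^ p ≤
        C * (sobolevSq α β (((n + 3 * m : ℕ) : ℝ) / 2 - (((n + 3 * m : ℕ) : ℝ) + 2) / p) f) ^ (p / 2) := by
  obtain ⟨C, hC, hmain⟩ := strichartz_interval hr α β hα hβ p hp a b hab
  have hp0 : 0 < p := by
    rcases hp with hp | ⟨_, hp⟩
    · have h1 : (1 : ℝ) ≤ (n : ℝ) + m := by exact_mod_cast hr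
      have : 0 < 8 / ((n : ℝ) + m) := by positivity
      linarith
    · linarith
  set s : ℝ := ((n + 3 * m : ℕ) : ℝ) / 2 - (((n + 3 * m : ℕ) : ℝ) + 2) / p with hs
  refine ⟨C.toNNReal, fun f => ?_⟩
  have hrep := fun l : Idx n m => proj_rep l f
  choose h hhE hhp using hrep
  obtain ⟨F, hF⟩ := exists_seq f
  -- the approximating functions
  set w : ℕ → ℝ → G n m → ℂ := fun k t x => ∑ l ∈ F k, ph α β t l * h l x with hw
  have hph_cont : ∀ l, Continuous fun t => ph α β t l := by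
    intro l; unfold ph; fun_prop
  have hwcont : ∀ k, Continuous (Function.uncurry (w k)) := by
    intro k
    have : Function.uncurry (w k) = fun q : ℝ × G n m => ∑ l ∈ F k, ph α β q.1 l * h l q.2 := rfl
    rw [this]
    exact continuous_finsetSum _ fun l _ =>
      ((hph_cont l).comp continuous_fst).mul ((h l).continuous.comp continuous_snd)
  have hae : ∀ t, ∀ᵐ x ∂(volume : Measure (G n m)),
      Tendsto (fun k => w k t x) atTop (𝓝 ((schrodinger α β t f : G n m → ℂ) x)) := by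
    intro t
    have h1 := ae_tendsto_of_geometric volume (schrodinger α β t f)
      (fun k => ∑ l ∈ F k, ph α β t l • proj l f) (fun k => hF k α β t)
    have h2 : ∀ᵐ x ∂(volume : Measure (G n m)), ∀ k,
        ((∑ l ∈ F k, ph α β t l • proj l f : Lp ℂ 2 (volume : Measure (G n m))) : G n m → ℂ) x =
          w k t x := by
      rw [ae_all_iff]
      intro k
      exact coeFn_sum_ph α β t f h hhp (F k)
    filter_upwards [h1, h2] with x hx1 hx2
    simp only [hx2] at hx1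
    exact hx1
  -- Fatou in `x`
  have hpR : (ENNReal.ofReal p).toReal = p := ENNReal.toReal_ofReal hp0.le
  have hpne : ENNReal.ofReal p ≠ 0 := by
    rw [Ne, ENNReal.ofReal_eq_zero, not_le]; exact hp0
  have hx : ∀ t, (eLpNorm (schrodinger α β t f) (ENNReal.ofReal p) volume) ^ p ≤
      liminf (fun k => ∫⁻ x, ‖w k t x‖ₑ ^ p) atTop := by
    intro t
    rw [eLpNorm_eq_lintegral_rpow_enorm_toReal hpne ENNReal.ofReal_ne_top, hpR,
      ← ENNReal.rpow_mul, one_div_mul_cancel hp0.ne', ENNReal.rpow_one]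
    have h1 : ∫⁻ x, ‖(schrodinger α β t f : G n m → ℂ) x‖ₑ ^ p =
        ∫⁻ x, liminf (fun k => ‖w k t x‖ₑ ^ p) atTop := by
      refine lintegral_congr_ae ?_
      filter_upwards [hae t] with x hx
      have h2 : Tendsto (fun k => ‖w k t x‖ₑ ^ p) atTop
          (𝓝 (‖(schrodinger α β t f : G n m → ℂ) x‖ₑ ^ p)) :=
        (ENNReal.continuous_rpow_const.tendsto _).comp hx.enorm
      exact h2.liminf_eq.symm
    rw [h1]
    refine lintegral_liminf_le fun k => ?_
    have h3 : Continuous (w k t) := (hwcont k).comp (by fun_prop : Continuous fun x : G n m => (t, x))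
    exact (h3.measurable.enorm).pow_const _
  -- Fatou in `t`
  have hBmeas : ∀ k, Measurable fun t => ∫⁻ x, ‖w k t x‖ₑ ^ p := by
    intro k
    exact Measurable.lintegral_prod_right' (f := fun (q : ℝ × G n m) => ‖w k q.1 q.2‖ₑ ^ p)
      (((hwcont k).measurable.enorm).pow_const _)
  have ht : ∫⁻ t in Set.Icc a b, (eLpNorm (schrodinger α β t f) (ENNReal.ofReal p) volume) ^ p ≤
      liminf (fun k => ∫⁻ t in Set.Icc a b, ∫⁻ x, ‖w k t x‖ₑ ^ p) atTop :=
    (lintegral_mono hx).trans (lintegral_liminf_le fun k => hBmeas k)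
  refine ht.trans ?_
  -- bound for each `k`
  refine liminf_le_of_le (by isBoundedDefault) fun B hB => ?_
  obtain ⟨k, hk⟩ := hB.exists
  refine hk.trans ?_
  -- convert to real integrals
  have hwx : ∀ t, Continuous fun x => ‖w k t x‖ ^ p := by
    intro t
    have h3 : Continuous (w k t) := (hwcont k).comp (by fun_prop : Continuous fun x : G n m => (t, x))
    exact h3.norm.rpow_const fun _ => Or.inr hp0.le
  have hinner : ∀ t, ∫⁻ x, ‖w k t x‖ₑ ^ p = ENNReal.ofReal (∫ x, ‖w k t x‖ ^ p) := by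
    intro t
    rw [ofReal_integral_eq_lintegral_ofReal]
    · refine lintegral_congr fun x => ?_
      rw [← ENNReal.ofReal_rpow_of_nonneg (norm_nonneg _) hp0.le, ofReal_norm]
    · exact (hwx t).integrable_of_hasCompactSupport (HasCompactSupport.of_compactSpace _)
    · exact Eventually.of_forall fun x => Real.rpow_nonneg (norm_nonneg _) _
  have hcontA : Continuous fun t => ∫ x, ‖w k t x‖ ^ p := by
    have h4 : Continuous (Function.uncurry fun t x => ‖w k t x‖ ^ p) :=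
      (hwcont k).norm.rpow_const fun _ => Or.inr hp0.le
    have h5 := continuous_parametric_integral_of_continuous (μ := (volume : Measure (G n m)))
      (f := fun t x => ‖w k t x‖ ^ p) h4 isCompact_univ
    simpa using h5
  simp only [hinner]
  have houter : ∫⁻ t in Set.Icc a b, ENNReal.ofReal (∫ x, ‖w k t x‖ ^ p) =
      ENNReal.ofReal (∫ t in a..b, ∫ x, ‖w k t x‖ ^ p) := by
    rw [intervalIntegral.integral_of_le hab.le, ← integral_Icc_eq_integral_Ioc,
      ofReal_integral_eq_lintegral_ofReal]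
    · exact (hcontA.continuousOn).integrableOn_Icc
    · exact Eventually.of_forall fun t => integral_nonneg fun x => Real.rpow_nonneg (norm_nonneg _) _
  rw [houter]
  have h6 := hmain (F k) (fun l => h l) (fun l _ => hhE l)
  have h7 : ∀ l, ∫ x, ‖h l x‖ ^ 2 = ‖proj l f‖ ^ 2 := fun l => by
    rw [← norm_sq_toL2, hhp]
  simp only [h7] at h6
  refine (ENNReal.ofReal_le_ofReal h6).trans ?_
  have hev0 : ∀ l : Idx n m, 0 ≤ 1 + ev α β l := by
    intro l
    have h1 : 0 ≤ ∑ i, (l.1 i : ℝ) ^ 2 / α i :=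
      Finset.sum_nonneg fun i _ => div_nonneg (sq_nonneg _) (hα i).le
    have h2 : 0 ≤ ∑ j, (l.2 j : ℝ) * ((l.2 j : ℝ) + 2) / (8 * β j) :=
      Finset.sum_nonneg fun j _ => by have := hβ j; positivity
    unfold ev; linarith
  have hterm : ∀ l : Idx n m, 0 ≤ (1 + ev α β l) ^ s * ‖proj l f‖ ^ 2 := fun l =>
    mul_nonneg (Real.rpow_nonneg (hev0 l) _) (sq_nonneg _)
  rw [ENNReal.ofReal_mul hC.le, ← ENNReal.ofReal_rpow_of_nonneg
    (Finset.sum_nonneg fun l _ => hterm l) (by positivity)]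
  have h8 : ENNReal.ofReal (∑ l ∈ F k, (1 + ev α β l) ^ s * ‖proj l f‖ ^ 2) ≤ sobolevSq α β s f := by
    rw [ENNReal.ofReal_sum_of_nonneg fun l _ => hterm l]
    exact ENNReal.sum_le_tsum _
  have h9 : ENNReal.ofReal C = (C.toNNReal : ℝ≥0∞) := rfl
  rw [h9]
  gcongr

end STZ
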