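import Pool.Agent.STZ.FullDefs
import Pool.Agent.STZ.EigMem
import Pool.Agent.STZ.Basic

/-!
# STZ/FullProj: the projections onto the joint eigenspaces in `L²`
-/

open MeasureTheory Matrix Complex
open scoped ComplexConjugate ENNReal NNReal

namespace STZ

variable {n m : ℕ}

/-- Matrix entries as continuous functions on `G n m`. -/
noncomputable def entryC (j : Fin m) (i k : Fin 2) : C(G n m, ℂ) where
  toFun x := (x.2 j).1 i k
  continuous_toFun := by
    exact (su2_continuous_entry i k).comp ((continuous_apply j).comp continuous_snd)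

/-- Exponentials as continuous functions on `G n m`. -/
noncomputable def expC (k : Fin n → ℤ) : C(G n m, ℂ) where
  toFun x := ∏ i, (fourier (k i) (x.1 i) : ℂ)
  continuous_toFun := continuous_finsetProd _ fun i _ =>
    (fourier (k i)).continuous.comp ((continuous_apply i).comp continuous_fst)

/-- `mono` as a continuous map. -/
noncomputable def monoC (l : Idx n m) (a b : Fin m → Fin 2 → ℂ) : C(G n m, ℂ) :=
  ⟨mono l a b, mono_continuous l a b⟩

theorem monoC_eq (l : Idx n m) (a b : Fin m → Fin 2 → ℂ) :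
    monoC l a b = expC l.1 * ∏ j, (∑ i, ∑ k, (a j i * b j k) • entryC j i k) ^ l.2 j := by
  ext x
  simp only [monoC, mono, ContinuousMap.mul_apply, ContinuousMap.prod_apply,
    ContinuousMap.pow_apply, ContinuousMap.sum_apply, ContinuousMap.smul_apply, expC, entryC,
    ContinuousMap.coe_mk]
  congr 1
  refine Finset.prod_congr rfl fun j _ => ?_
  congr 1
  simp only [dotProduct, mulVec, Finset.mul_sum, smul_eq_mul]
  refine Finset.sum_congr rfl fun i _ => Finset.sum_congr rfl fun k _ => ?_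
  ring

/-- The joint eigenspace as a space of continuous functions. -/
noncomputable def eigC (l : Idx n m) : Submodule ℂ C(G n m, ℂ) :=
  Submodule.span ℂ {h | ∃ a b : Fin m → Fin 2 → ℂ, h = monoC l a b}

theorem fg_prod {ι A : Type*} [CommRing A] [Algebra ℂ A] (s : Finset ι) (W : ι → Submodule ℂ A)
    (hW : ∀ i ∈ s, (W i).FG) : (∏ i ∈ s, W i).FG := by
  classical
  induction s using Finset.induction_on with
  | empty =>
    rw [Finset.prod_empty, Submodule.one_eq_span]
    exact ⟨{1}, by simp⟩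
  | insert i s his ih =>
    rw [Finset.prod_insert his]
    exact Submodule.FG.mul (hW i (Finset.mem_insert_self i s))
      (ih fun j hj => hW j (Finset.mem_insert_of_mem hj))

theorem mem_prod {ι A : Type*} [CommRing A] [Algebra ℂ A] (s : Finset ι) (W : ι → Submodule ℂ A)
    (w : ι → A) (hw : ∀ i ∈ s, w i ∈ W i) : ∏ i ∈ s, w i ∈ ∏ i ∈ s, W i := by
  classical
  induction s using Finset.induction_on with
  | empty =>
    rw [Finset.prod_empty, Finset.prod_empty, Submodule.one_eq_span]
    exact Submodule.mem_span_singleton_self _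
  | insert i s his ih =>
    rw [Finset.prod_insert his, Finset.prod_insert his]
    exact Submodule.mul_mem_mul (hw i (Finset.mem_insert_self i s))
      (ih fun j hj => hw j (Finset.mem_insert_of_mem hj))

theorem eigC_fg (l : Idx n m) : (eigC l).FG := by
  set W : Fin m → Submodule ℂ C(G n m, ℂ) := fun j =>
    Submodule.span ℂ (Set.range fun p : Fin 2 × Fin 2 => entryC j p.1 p.2) with hW
  have hWfg : ∀ j, (W j).FG := fun j => Submodule.fg_span (Set.finite_range _)
  have hbig : (Submodule.span ℂ {(expC l.1 : C(G n m, ℂ))} * ∏ j, W j ^ l.2 j).FG :=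
    Submodule.FG.mul (Submodule.fg_span (Set.finite_singleton _))
      (fg_prod _ _ fun j _ => (hWfg j).pow _)
  have hle : eigC l ≤ Submodule.span ℂ {(expC l.1 : C(G n m, ℂ))} * ∏ j, W j ^ l.2 j := by
    refine Submodule.span_le.2 ?_
    rintro _ ⟨a, b, rfl⟩
    rw [SetLike.mem_coe, monoC_eq]
    refine Submodule.mul_mem_mul (Submodule.mem_span_singleton_self _) ?_
    refine mem_prod _ _ _ fun j _ => Submodule.pow_mem_pow _ ?_ _
    refine Submodule.sum_mem _ fun i _ => Submodule.sum_mem _ fun k _ => Submodule.smul_mem _ _ ?_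
    exact Submodule.subset_span ⟨(i, k), rfl⟩
  exact Submodule.FG.of_le hbig hle

/-- The map from continuous functions to `L²`. -/
noncomputable abbrev toL2 : C(G n m, ℂ) →L[ℂ] Lp ℂ 2 (volume : Measure (G n m)) :=
  ContinuousMap.toLp 2 volume ℂ

theorem span_monoL2 (l : Idx n m) :
    Submodule.span ℂ {F | ∃ a b : Fin m → Fin 2 → ℂ, F = monoL2 l a b} =
      (eigC l).map (toL2 (n := n) (m := m)).toLinearMap := by
  rw [eigC, Submodule.map_span]
  congr 1
  ext F
  constructor
  · rintro ⟨a, b, rfl⟩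
    exact ⟨monoC l a b, ⟨a, b, rfl⟩, rfl⟩
  · rintro ⟨_, ⟨a, b, rfl⟩, rfl⟩
    exact ⟨a, b, rfl⟩

theorem eigL2_eq (l : Idx n m) :
    (Submodule.span ℂ {F | ∃ a b : Fin m → Fin 2 → ℂ, F = monoL2 l a b}).topologicalClosure =
      (eigC l).map (toL2 (n := n) (m := m)).toLinearMap := by
  rw [span_monoL2]
  have h1 : ((eigC l).map (toL2 (n := n) (m := m)).toLinearMap).FG := (eigC_fg l).map _
  have h2 : FiniteDimensional ℂ ((eigC l).map (toL2 (n := n) (m := m)).toLinearMap) :=
    Module.Finite.iff_fg.2 h1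
  exact (Submodule.closed_of_finiteDimensional _).submodule_topologicalClosure_eq

theorem eigC_mem_Eig (l : Idx n m) (h : C(G n m, ℂ)) (hh : h ∈ eigC l) : (h : G n m → ℂ) ∈ Eig l := by
  unfold eigC at hh
  refine Submodule.span_induction (p := fun (h : C(G n m, ℂ)) _ => (h : G n m → ℂ) ∈ Eig l)
    ?_ ?_ ?_ ?_ hh
  · rintro _ ⟨a, b, rfl⟩
    exact Submodule.subset_span ⟨a, b, rfl⟩
  · exact (Eig l).zero_mem
  · intro x y _ _ hx hy
    have : ((x + y : C(G n m, ℂ)) : G n m → ℂ) = (x : G n m → ℂ) + (y : G n m → ℂ) := rfl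
    rw [this]
    exact (Eig l).add_mem hx hy
  · intro c x _ hx
    have : ((c • x : C(G n m, ℂ)) : G n m → ℂ) = c • (x : G n m → ℂ) := rfl
    rw [this]
    exact (Eig l).smul_mem c hx

theorem proj_mem (l : Idx n m) (f : Lp ℂ 2 (volume : Measure (G n m))) :
    proj l f ∈ (Submodule.span ℂ {F | ∃ a b : Fin m → Fin 2 → ℂ, F = monoL2 l a b}).topologicalClosure :=
  Submodule.starProjection_apply_mem _ _

/-- Every projection is represented by a continuous function in the joint eigenspace. -/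
theorem proj_rep (l : Idx n m) (f : Lp ℂ 2 (volume : Measure (G n m))) :
    ∃ h : C(G n m, ℂ), (h : G n m → ℂ) ∈ Eig l ∧ toL2 h = proj l f := by
  have h1 := proj_mem l f
  rw [eigL2_eq] at h1
  obtain ⟨h, hh, hh2⟩ := h1
  exact ⟨h, eigC_mem_Eig l h hh, hh2⟩

theorem inner_toL2 (g h : C(G n m, ℂ)) : inner ℂ (toL2 g) (toL2 h) = ∫ x, h x * conj (g x) := by
  rw [ContinuousMap.inner_toLp]

theorem norm_sq_toL2 (h : C(G n m, ℂ)) : ‖toL2 h‖ ^ 2 = ∫ x, ‖h x‖ ^ 2 := by
  have h1 := inner_toL2 h h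
  have h2 : inner ℂ (toL2 h) (toL2 h) = ((‖toL2 h‖ ^ 2 : ℝ) : ℂ) := by
    rw [inner_self_eq_norm_sq_to_K]; push_cast; rfl
  rw [h2] at h1
  have h3 : ∫ x, h x * conj (h x) = ((∫ x, ‖h x‖ ^ 2 : ℝ) : ℂ) := by
    have h4 : ((∫ x, ‖h x‖ ^ 2 : ℝ) : ℂ) = ∫ x, ((‖h x‖ ^ 2 : ℝ) : ℂ) := integral_ofReal.symm
    rw [h4]
    refine integral_congr_ae (Filter.Eventually.of_forall fun x => ?_)
    show h x * conj (h x) = ((‖h x‖ ^ 2 : ℝ) : ℂ)
    rw [Complex.mul_conj']; push_cast; rfl
  rw [h3] at h1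
  exact_mod_cast h1

theorem inner_proj_ne {l l' : Idx n m} (hl : l ≠ l') (f g : Lp ℂ 2 (volume : Measure (G n m))) :
    inner ℂ (proj l f) (proj l' g) = 0 := by
  obtain ⟨h, hh, hh2⟩ := proj_rep l f
  obtain ⟨k, hk, hk2⟩ := proj_rep l' g
  rw [← hh2, ← hk2, inner_toL2]
  exact (gRK n m).orth (Ne.symm hl) (eig_mem l' k hk) (eig_mem l h hh)

theorem inner_proj_self (l : Idx n m) (f : Lp ℂ 2 (volume : Measure (G n m))) :
    inner ℂ (proj l f) f = ((‖proj l f‖ ^ 2 : ℝ) : ℂ) := by
  have h1 : inner ℂ (proj l f) f = inner ℂ (proj l f) (proj l f) := by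
    unfold proj
    rw [Submodule.inner_starProjection_left_eq_right, Submodule.inner_starProjection_left_eq_right]
    congr 1
    exact (Submodule.starProjection_eq_self_iff.2 (Submodule.starProjection_apply_mem _ _)).symm
  rw [h1, inner_self_eq_norm_sq_to_K]
  push_cast; rfl

end STZ
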