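import Pool.Agent.STZ.FullProj

/-!
# STZ/FullSum: convergence of the spectral series
-/

open MeasureTheory Matrix Complex
open scoped ComplexConjugate ENNReal NNReal

namespace STZ

variable {n m : ℕ}

/-- The phase factor. -/
noncomputable def ph (α : Fin n → ℝ) (β : Fin m → ℝ) (t : ℝ) (l : Idx n m) : ℂ :=
  cexp (-((t * ev α β l : ℝ) : ℂ) * I)

theorem norm_ph (α : Fin n → ℝ) (β : Fin m → ℝ) (t : ℝ) (l : Idx n m) : ‖ph α β t l‖ = 1 := by
  unfold ph
  rw [show -((t * ev α β l : ℝ) : ℂ) * I = ((-(t * ev α β l) : ℝ) : ℂ) * I by push_cast; ring]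
  exact Complex.norm_exp_ofReal_mul_I _

/-- Pythagoras. -/
theorem norm_sq_sum (c : Idx n m → ℂ) (hc : ∀ l, ‖c l‖ = 1) (f : Lp ℂ 2 (volume : Measure (G n m)))
    (F : Finset (Idx n m)) : ‖∑ l ∈ F, c l • proj l f‖ ^ 2 = ∑ l ∈ F, ‖proj l f‖ ^ 2 := by
  classical
  have h1 : inner ℂ (∑ l ∈ F, c l • proj l f) (∑ l ∈ F, c l • proj l f) =
      ((∑ l ∈ F, ‖proj l f‖ ^ 2 : ℝ) : ℂ) := by
    rw [sum_inner]
    push_cast
    refine Finset.sum_congr rfl fun l hl => ?_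
    rw [inner_sum, Finset.sum_eq_single l]
    · rw [inner_smul_left, inner_smul_right, inner_self_eq_norm_sq_to_K, ← mul_assoc,
        Complex.conj_mul', hc]
      push_cast
      simp
    · intro l' _ hne
      rw [inner_smul_left, inner_smul_right, inner_proj_ne hne.symm]; simp
    · intro h; exact absurd hl h
  rw [inner_self_eq_norm_sq_to_K] at h1
  have h2 : ((‖∑ l ∈ F, c l • proj l f‖ ^ 2 : ℝ) : ℂ) = ((∑ l ∈ F, ‖proj l f‖ ^ 2 : ℝ) : ℂ) := by
    rw [← h1]; push_cast; rfl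
  exact_mod_cast h2

theorem bessel_proj (f : Lp ℂ 2 (volume : Measure (G n m))) (F : Finset (Idx n m)) :
    ∑ l ∈ F, ‖proj l f‖ ^ 2 ≤ ‖f‖ ^ 2 := by
  set s := ∑ l ∈ F, (1 : ℂ) • proj l f with hs
  have h1 : ‖s‖ ^ 2 = ∑ l ∈ F, ‖proj l f‖ ^ 2 := norm_sq_sum (fun _ => 1) (fun _ => by simp) f F
  have h2 : inner ℂ s f = ((∑ l ∈ F, ‖proj l f‖ ^ 2 : ℝ) : ℂ) := by
    rw [hs, sum_inner]
    push_cast
    refine Finset.sum_congr rfl fun l _ => ?_
    rw [one_smul, inner_proj_self]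
    push_cast; rfl
  have h3 : ∑ l ∈ F, ‖proj l f‖ ^ 2 ≤ ‖s‖ * ‖f‖ := by
    have h4 := norm_inner_le_norm (𝕜 := ℂ) s f
    rw [h2, Complex.norm_real] at h4
    exact (le_abs_self _).trans h4
  rw [← h1] at h3 ⊢
  rcases eq_or_lt_of_le (norm_nonneg s) with h5 | h5
  · rw [← h5]; nlinarith [sq_nonneg ‖f‖]
  · have h6 : ‖s‖ ≤ ‖f‖ := by nlinarith
    exact pow_le_pow_left₀ h5.le h6 2

theorem summable_proj (f : Lp ℂ 2 (volume : Measure (G n m))) :
    Summable fun l : Idx n m => ‖proj l f‖ ^ 2 :=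
  summable_of_sum_le (fun l => sq_nonneg _) (bessel_proj f)

theorem summable_ph (c : Idx n m → ℂ) (hc : ∀ l, ‖c l‖ = 1)
    (f : Lp ℂ 2 (volume : Measure (G n m))) : Summable fun l => c l • proj l f := by
  rw [summable_iff_vanishing_norm]
  intro ε hε
  obtain ⟨s, hs⟩ := summable_iff_vanishing_norm.1 (summable_proj f) (ε ^ 2) (by positivity)
  refine ⟨s, fun t ht => ?_⟩
  have h1 := hs t ht
  rw [← norm_sq_sum c hc f t, Real.norm_of_nonneg (sq_nonneg _)] at h1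
  exact lt_of_pow_lt_pow_left₀ 2 hε.le h1

/-- The tail bound, uniform in the unimodular coefficients. -/
theorem tail_bound (f : Lp ℂ 2 (volume : Measure (G n m))) (ε : ℝ) (hε : 0 < ε) :
    ∃ F₀ : Finset (Idx n m), ∀ F, F₀ ⊆ F → ∀ c : Idx n m → ℂ, (∀ l, ‖c l‖ = 1) →
      ‖∑' l, c l • proj l f - ∑ l ∈ F, c l • proj l f‖ ≤ ε := by
  obtain ⟨s, hs⟩ := summable_iff_vanishing_norm.1 (summable_proj f) (ε ^ 2) (by positivity)
  refine ⟨s, fun F hF c hc => ?_⟩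
  have hsum := (summable_ph c hc f).hasSum
  have h1 : Filter.Tendsto (fun E : Finset (Idx n m) =>
      ‖∑ l ∈ E, c l • proj l f - ∑ l ∈ F, c l • proj l f‖) Filter.atTop
      (nhds ‖∑' l, c l • proj l f - ∑ l ∈ F, c l • proj l f‖) :=
    (Filter.Tendsto.sub_const hsum _).norm
  refine le_of_tendsto h1 ?_
  filter_upwards [Filter.eventually_ge_atTop F] with E hE
  classical
  have h2 : ∑ l ∈ E, c l • proj l f - ∑ l ∈ F, c l • proj l f = ∑ l ∈ E \ F, c l • proj l f := by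
    rw [← Finset.sum_sdiff hE]; simp
  rw [h2]
  have h3 : Disjoint (E \ F) s := by
    rw [Finset.disjoint_left]
    intro x hx hxs
    exact (Finset.mem_sdiff.1 hx).2 (hF hxs)
  have h4 := hs (E \ F) h3
  rw [← norm_sq_sum c hc f (E \ F), Real.norm_of_nonneg (sq_nonneg _)] at h4
  exact (lt_of_pow_lt_pow_left₀ 2 hε.le h4).le

theorem schrodinger_eq (α : Fin n → ℝ) (β : Fin m → ℝ) (t : ℝ)
    (f : Lp ℂ 2 (volume : Measure (G n m))) :
    schrodinger α β t f = ∑' l, ph α β t l • proj l f := rfl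

/-- A sequence of finite sets with geometrically small tails. -/
theorem exists_seq (f : Lp ℂ 2 (volume : Measure (G n m))) :
    ∃ F : ℕ → Finset (Idx n m), ∀ k, ∀ (α : Fin n → ℝ) (β : Fin m → ℝ) (t : ℝ),
      ‖schrodinger α β t f - ∑ l ∈ F k, ph α β t l • proj l f‖ ≤ (1 / 2 : ℝ) ^ k := by
  have h := fun k : ℕ => tail_bound f ((1 / 2 : ℝ) ^ k) (by positivity)
  choose F hF using h
  exact ⟨F, fun k α β t => hF k (F k) subset_rfl (ph α β t) (norm_ph α β t)⟩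

end STZ
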