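import Pool.Agent.STZ.Kernels

/-!
# STZ/TorusComp: orthogonality of the exponentials

PROOF. `kT k x z * kT k' z y = fourier k x * conj (fourier k z) * fourier k' z * conj (fourier k' y)`
and `∫ conj (fourier k z) * fourier k' z = δ` (Mathlib: `orthonormal_fourier` or
`integral_add_..`; `volume` on `UnitAddCircle` is a probability measure equal to
`AddCircle.haarAddCircle`; see `AddCircle.volume_eq_smul_haarAddCircle`). A direct way: for `j ≠ 0`
the integral `∫ fourier j z` is invariant under translation by `1/(2j)`, which multiplies it by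
`-1` (`fourier_add_half_inv_index`), so it is zero.
-/

open MeasureTheory Complex
open scoped ComplexConjugate

namespace STZ

theorem torus_int (k : ℤ) : ∫ z : UnitAddCircle, (fourier k z : ℂ) = if k = 0 then 1 else 0 := by
  split_ifs with h
  · subst h
    simp
  · have h1 : ∫ z : UnitAddCircle, (fourier k (z + ((1 / 2 / (k : ℝ) : ℝ) : UnitAddCircle)) : ℂ) =
        ∫ z : UnitAddCircle, (fourier k z : ℂ) :=
      integral_add_right_eq_self (fun z : UnitAddCircle => (fourier k z : ℂ)) _
    have h2 : ∀ z : UnitAddCircle,
        (fourier k (z + ((1 / 2 / (k : ℝ) : ℝ) : UnitAddCircle)) : ℂ) = -(fourier k z : ℂ) :=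
      fun z => fourier_add_half_inv_index h one_pos z
    simp only [h2, integral_neg] at h1
    have h3 : (2 : ℂ) * ∫ z : UnitAddCircle, (fourier k z : ℂ) = 0 := by
      linear_combination -h1
    exact (mul_eq_zero.1 h3).resolve_left two_ne_zero

private theorem fourier_sub' (k : ℤ) (x y : UnitAddCircle) :
    (fourier k (x - y) : ℂ) = fourier k x * fourier (-k) y := by
  have h : k • (x - y) = k • x + (-k) • y := by
    rw [smul_sub, neg_smul, sub_eq_add_neg]
  simp only [fourier_apply, h, AddCircle.toCircle_add, Circle.coe_mul]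

theorem torus_comp (k k' : ℤ) (x y : UnitAddCircle) :
    ∫ z : UnitAddCircle, kT k x z * kT k' z y = if k = k' then kT k x y else 0 := by
  have h : ∀ z : UnitAddCircle, kT k x z * kT k' z y =
      (fourier k x * fourier (-k') y : ℂ) * fourier (k' - k) z := by
    intro z
    unfold kT
    rw [fourier_sub', fourier_sub', sub_eq_add_neg k' k, fourier_add]
    ring
  simp only [h]
  rw [integral_const_mul, torus_int]
  by_cases hk : k = k'
  · subst hk
    rw [if_pos (sub_self k), if_pos rfl, mul_one]
    unfold kT
    rw [fourier_sub']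
  · rw [if_neg (sub_ne_zero.2 (Ne.symm hk)), if_neg hk, mul_zero]

theorem torus_repr (k k' : ℤ) (x : UnitAddCircle) :
    ∫ z : UnitAddCircle, kT k x z * (fourier k' z : ℂ) = if k = k' then (fourier k' x : ℂ) else 0 := by
  have h := torus_comp k k' x 0
  have h1 : ∀ z : UnitAddCircle, kT k' z 0 = (fourier k' z : ℂ) := by
    intro z
    unfold kT
    rw [sub_zero]
  simp only [h1] at h
  rw [h]
  by_cases hk : k = k'
  · subst hk
    rw [if_pos rfl, if_pos rfl]
    unfold kT
    rw [sub_zero]
  · rw [if_neg hk, if_neg hk]

end STZ
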