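import Pool.Agent.STZ.SU2Rep
import Pool.Agent.STZ.TorusComp

/-!
# STZ/Inst: the reproducing kernel families of the circle, of SU(2) and of products
-/

open MeasureTheory Complex
open scoped ComplexConjugate

namespace STZ

/-- The reproducing kernel family of the circle. -/
noncomputable def circleRK : RK UnitAddCircle ℤ where
  k := kT
  D := fun _ => 1
  cont := continuous_kT
  herm := kT_herm
  diag := kT_diag
  comp := torus_comp

/-- The reproducing kernel family of `SU(2)`. -/
noncomputable def su2RK : RK SU2 ℕ where
  k := kS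
  D := fun l => ((l : ℝ) + 1) ^ 2
  cont := continuous_kS
  herm := kS_herm
  diag := kS_diag
  comp := su2_comp

section
variable {X Λ X' Λ' : Type*} [TopologicalSpace X] [MeasureSpace X] [DecidableEq Λ]
  [TopologicalSpace X'] [MeasureSpace X'] [DecidableEq Λ']

/-- The product of two reproducing kernel families. -/
noncomputable def RK.prod [SFinite (volume : Measure X)] [SFinite (volume : Measure X')]
    (R : RK X Λ) (R' : RK X' Λ') : RK (X × X') (Λ × Λ') where
  k := fun l x y => R.k l.1 x.1 y.1 * R'.k l.2 x.2 y.2
  D := fun l => R.D l.1 * R'.D l.2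
  cont := fun l => by
    refine Continuous.mul ?_ ?_
    · exact (R.cont l.1).comp
        ((continuous_fst.comp continuous_fst).prodMk (continuous_fst.comp continuous_snd))
    · exact (R'.cont l.2).comp
        ((continuous_snd.comp continuous_fst).prodMk (continuous_snd.comp continuous_snd))
  herm := fun l x y => by
    rw [R.herm l.1 x.1 y.1, R'.herm l.2 x.2 y.2, map_mul]
  diag := fun l x => by
    rw [R.diag, R'.diag]; push_cast; rfl
  comp := fun l l' x y => by
    have h1 : ∀ z : X × X', R.k l.1 x.1 z.1 * R'.k l.2 x.2 z.2 * (R.k l'.1 z.1 y.1 * R'.k l'.2 z.2 y.2)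
        = (R.k l.1 x.1 z.1 * R.k l'.1 z.1 y.1) * (R'.k l.2 x.2 z.2 * R'.k l'.2 z.2 y.2) := by
      intro z; ring
    simp only [h1]
    have h2 := integral_prod_mul (μ := (volume : Measure X)) (ν := (volume : Measure X'))
      (fun z => R.k l.1 x.1 z * R.k l'.1 z y.1) (fun z => R'.k l.2 x.2 z * R'.k l'.2 z y.2)
    rw [← Measure.volume_eq_prod] at h2
    rw [h2, R.comp, R'.comp]
    by_cases h : l = l'
    · subst h; simp
    · rw [if_neg h]
      by_cases h3 : l.1 = l'.1
      · have h4 : l.2 ≠ l'.2 := fun h4 => h (Prod.ext h3 h4)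
        rw [if_neg h4, mul_zero]
      · rw [if_neg h3, zero_mul]

/-- The `n`-th power of a reproducing kernel family. -/
noncomputable def RK.pi [SigmaFinite (volume : Measure X)] (n : ℕ) (R : RK X Λ) :
    RK (Fin n → X) (Fin n → Λ) where
  k := fun l x y => ∏ i, R.k (l i) (x i) (y i)
  D := fun l => ∏ i, R.D (l i)
  cont := fun l => by
    refine continuous_finsetProd _ fun i _ => ?_
    have h1 : Continuous fun p : (Fin n → X) × (Fin n → X) => (p.1 i, p.2 i) :=
      ((continuous_apply i).comp continuous_fst).prodMk ((continuous_apply i).comp continuous_snd)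
    exact (R.cont (l i)).comp h1
  herm := fun l x y => by
    rw [map_prod]
    exact Finset.prod_congr rfl fun i _ => R.herm _ _ _
  diag := fun l x => by
    push_cast
    exact Finset.prod_congr rfl fun i _ => R.diag _ _
  comp := fun l l' x y => by
    simp only [← Finset.prod_mul_distrib]
    have h2 := integral_fintype_prod_eq_prod (𝕜 := ℂ) (ι := Fin n) (E := fun _ => X)
      (μ := fun _ => (volume : Measure X))
      (fun i z => R.k (l i) (x i) z * R.k (l' i) z (y i))
    rw [volume_pi, h2]
    simp only [R.comp]
    by_cases h : l = l'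
    · subst h; simp
    · rw [if_neg h]
      obtain ⟨i, hi⟩ := Function.ne_iff.1 h
      exact Finset.prod_eq_zero (Finset.mem_univ i) (if_neg hi)

end

/-- The reproducing kernel family of `T^n x SU(2)^m`. -/
noncomputable def gRK (n m : ℕ) : RK (G n m) (Idx n m) := (circleRK.pi n).prod (su2RK.pi m)

end STZ
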