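import Pool.Agent.STZ.Inst

/-!
# STZ/KBPi: kernel bounds and dimension bounds for powers

PROOF of `KB_pi`. Given `T0` take `C ≥ 1` larger than the constants of all `KB R (om i) size d 1`,
`i : Fin n` (note that `KB` for a constant implies the same with a larger constant). For `N` use
`s = Fintype.piFinset s_i`, `w l = ∏ w_i (l i)`. By `Finset.prod_univ_sum` the kernel of the power is
the product of the kernels, and `cexp (∑) = ∏ cexp` (`Complex.exp_sum`). For `η` take
`T = ⋃ i, T_i`, `volume (T ∩ ..) ≤ n C N^-2 η^-4`; outside of `T` the kernel is bounded by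
`∏ (C η N^d) = C^n η^n N^(d n)`. So the constant `max 1 (n * C^(n+1))`-like works. The case `n = 0`
is included (the kernel is `1`, `T = ∅`).
PROOF of `DS_pi`: `F ⊆ Fintype.piFinset (fun i => F.image (· i))`, and
`∑_{l ∈ piFinset} ∏ D (l i) = ∏ ∑ D ≤ ∏ (C N^d)`.
-/

open MeasureTheory Complex
open scoped ComplexConjugate

namespace STZ

variable {X Λ : Type*} [TopologicalSpace X] [MeasureSpace X] [DecidableEq Λ]
  [SigmaFinite (volume : Measure X)]

theorem KB_pi (n : ℕ) (R : RK X Λ) (om : Fin n → Λ → ℝ) (size : Λ → ℕ) (d : ℕ)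
    (h : ∀ i, KB R (om i) size d 1) :
    KB (R.pi n) (fun l => ∑ i, om i (l i)) (fun l => Finset.univ.sup fun i => size (l i))
      (n * d) n := by
  intro T0 hT0
  have h1 := fun i => h i T0 hT0
  choose C hC hN' using h1
  have hS : 0 ≤ ∑ i, C i := Finset.sum_nonneg fun i _ => by linarith [hC i]
  obtain ⟨K, hK1, hKi⟩ : ∃ K : ℝ, 1 ≤ K ∧ ∀ i, C i ≤ K :=
    ⟨1 + ∑ i, C i, by linarith, fun i => by
      have := Finset.single_le_sum (f := C) (fun j _ => by linarith [hC j]) (Finset.mem_univ i)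
      linarith⟩
  have hK0 : 0 ≤ K := by linarith
  have hpw : K ^ n ≤ (n + 1 : ℝ) * K ^ (n + 1) := by
    have a : (1 : ℝ) ≤ K ^ n := one_le_pow₀ hK1
    have b : K ^ n ≤ K ^ (n + 1) := pow_le_pow_right₀ hK1 (Nat.le_succ n)
    have c : (0 : ℝ) ≤ n := Nat.cast_nonneg n
    nlinarith
  have hnK : (n : ℝ) * K ≤ (n + 1 : ℝ) * K ^ (n + 1) := by
    have b : K ≤ K ^ (n + 1) := le_self_pow₀ hK1 (Nat.succ_ne_zero n)
    have c : (0 : ℝ) ≤ n := Nat.cast_nonneg n
    nlinarith
  refine ⟨(n + 1 : ℝ) * K ^ (n + 1), by linarith [one_le_pow₀ (n := n) hK1], fun N hN => ?_⟩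
  have h2 := fun i => hN' i N hN
  choose s w hs hw hw1 hη using h2
  have hN0 : (0 : ℝ) ≤ N := Nat.cast_nonneg N
  refine ⟨Fintype.piFinset s, fun l => ∏ i, w i (l i), ?_, ?_, ?_, ?_⟩
  · intro l hl
    rw [Fintype.mem_piFinset]
    intro i
    exact hs i _ (le_trans (Finset.le_sup (f := fun i => size (l i)) (Finset.mem_univ i)) hl)
  · intro l
    refine ⟨Finset.prod_nonneg fun i _ => (hw i _).1, ?_⟩
    refine le_trans ?_ hpw
    calc ∏ i, w i (l i) ≤ ∏ _i : Fin n, K :=
          Finset.prod_le_prod (fun i _ => (hw i _).1) fun i _ => (hw i _).2.trans (hKi i)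
      _ = K ^ n := by simp
  · intro l hl
    show 1 ≤ ∏ i, w i (l i)
    have : ∏ _i : Fin n, (1 : ℝ) ≤ ∏ i, w i (l i) :=
      Finset.prod_le_prod (fun i _ => zero_le_one) fun i _ => hw1 i _
        (le_trans (Finset.le_sup (f := fun i => size (l i)) (Finset.mem_univ i)) hl)
    simpa using this
  · intro η h0 h01
    have h3 := fun i => hη i η h0 h01
    choose T hT hTm hTk using h3
    have e3 : 0 ≤ ((N : ℝ) ^ 2)⁻¹ * (η ^ 4)⁻¹ := by positivity
    refine ⟨⋃ i, T i, MeasurableSet.iUnion hT, ?_, ?_⟩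
    · rw [Set.iUnion_inter]
      refine (measure_iUnion_fintype_le _ _).trans ?_
      calc ∑ i, volume (T i ∩ Set.Icc (-T0) T0)
          ≤ ∑ _i : Fin n, ENNReal.ofReal (K * ((N : ℝ) ^ 2)⁻¹ * (η ^ 4)⁻¹) := by
            refine Finset.sum_le_sum fun i _ => (hTm i).trans (ENNReal.ofReal_le_ofReal ?_)
            rw [mul_assoc, mul_assoc]
            exact mul_le_mul_of_nonneg_right (hKi i) e3
        _ = ENNReal.ofReal (n * (K * ((N : ℝ) ^ 2)⁻¹ * (η ^ 4)⁻¹)) := by
            rw [ENNReal.ofReal_mul (Nat.cast_nonneg n)]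
            simp
        _ ≤ _ := by
            refine ENNReal.ofReal_le_ofReal ?_
            calc (n : ℝ) * (K * ((N : ℝ) ^ 2)⁻¹ * (η ^ 4)⁻¹)
                = ((n : ℝ) * K) * (((N : ℝ) ^ 2)⁻¹ * (η ^ 4)⁻¹) := by ring
              _ ≤ ((n + 1 : ℝ) * K ^ (n + 1)) * (((N : ℝ) ^ 2)⁻¹ * (η ^ 4)⁻¹) :=
                  mul_le_mul_of_nonneg_right hnK e3
              _ = _ := by ring
    · intro t ht htT x y
      simp only [Set.mem_iUnion, not_exists] at htT
      have hk : (R.pi n).ker (fun l => ∑ i, om i (l i)) (Fintype.piFinset s)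
          (fun l => ∏ i, w i (l i)) t x y = ∏ i, R.ker (om i) (s i) (w i) t (x i) (y i) := by
        unfold RK.ker
        rw [Finset.prod_univ_sum]
        refine Finset.sum_congr rfl fun l _ => ?_
        show (((∏ i, w i (l i) : ℝ)) : ℂ) * cexp (-((t * (∑ i, om i (l i)) : ℝ) : ℂ) * I) *
          (∏ i, R.k (l i) (x i) (y i)) = _
        have : cexp (-((t * (∑ i, om i (l i)) : ℝ) : ℂ) * I) =
            ∏ i, cexp (-((t * om i (l i) : ℝ) : ℂ) * I) := by
          rw [← Complex.exp_sum]; congr 1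
          rw [← Finset.sum_mul, Finset.sum_neg_distrib]
          congr 2
          push_cast
          rw [Finset.mul_sum]
        rw [this, Finset.prod_mul_distrib, Finset.prod_mul_distrib]
        push_cast; ring
      rw [hk, norm_prod]
      calc ∏ i, ‖R.ker (om i) (s i) (w i) t (x i) (y i)‖
          ≤ ∏ _i : Fin n, (K * η * (N : ℝ) ^ d) := by
            refine Finset.prod_le_prod (fun i _ => norm_nonneg _) fun i _ => ?_
            refine (hTk i t ht (htT i) (x i) (y i)).trans ?_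
            rw [pow_one]
            have : 0 ≤ η * (N : ℝ) ^ d := by positivity
            calc C i * η * (N : ℝ) ^ d = C i * (η * (N : ℝ) ^ d) := by ring
              _ ≤ K * (η * (N : ℝ) ^ d) := mul_le_mul_of_nonneg_right (hKi i) this
              _ = _ := by ring
        _ = K ^ n * (η ^ n * (N : ℝ) ^ (n * d)) := by
            simp only [Finset.prod_const, Finset.card_univ, Fintype.card_fin]
            rw [mul_pow, mul_pow, ← pow_mul, mul_comm d n]; ring
        _ ≤ ((n + 1 : ℝ) * K ^ (n + 1)) * (η ^ n * (N : ℝ) ^ (n * d)) :=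
            mul_le_mul_of_nonneg_right hpw (by positivity)
        _ = _ := by ring

theorem DS_pi (n : ℕ) (R : RK X Λ) (size : Λ → ℕ) (d : ℕ) (hD : ∀ l, 0 ≤ R.D l)
    (h : DS R size d) :
    DS (R.pi n) (fun l => Finset.univ.sup fun i => size (l i)) (n * d) := by
  obtain ⟨C, hC, h1⟩ := h
  refine ⟨C ^ n, one_le_pow₀ hC, fun N hN F hF => ?_⟩
  have hN0 : (0 : ℝ) ≤ N := Nat.cast_nonneg N
  have hsub : F ⊆ Fintype.piFinset (fun i : Fin n => F.image (fun l => l i)) := by
    intro l hl
    rw [Fintype.mem_piFinset]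
    exact fun i => Finset.mem_image_of_mem (fun l : Fin n → Λ => l i) hl
  have a1 : ∀ i : Fin n, ∑ l ∈ F.image (fun l => l i), R.D l ≤ C * (N : ℝ) ^ d := by
    intro i
    refine h1 N hN _ ?_
    intro l hl
    obtain ⟨p, hp, rfl⟩ := Finset.mem_image.1 hl
    exact le_trans (Finset.le_sup (f := fun i => size (p i)) (Finset.mem_univ i)) (hF p hp)
  calc ∑ l ∈ F, (R.pi n).D l
      ≤ ∑ l ∈ Fintype.piFinset (fun i : Fin n => F.image (fun l => l i)), (R.pi n).D l :=
        Finset.sum_le_sum_of_subset_of_nonneg hsub fun l _ _ => by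
          show 0 ≤ ∏ i, R.D (l i)
          exact Finset.prod_nonneg fun i _ => hD _
    _ = ∏ i : Fin n, ∑ l ∈ F.image (fun l => l i), R.D l := by
        rw [Finset.prod_univ_sum]; rfl
    _ ≤ ∏ _i : Fin n, (C * (N : ℝ) ^ d) :=
        Finset.prod_le_prod (fun i _ => Finset.sum_nonneg fun l _ => hD l) fun i _ => a1 i
    _ = _ := by
        simp only [Finset.prod_const, Finset.card_univ, Fintype.card_fin]
        rw [mul_pow, ← pow_mul, mul_comm d n]

/-- The dimension bound of the circle. -/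
theorem DS_circle : DS circleRK (fun k => k.natAbs) 1 := by
  refine ⟨3, by norm_num, fun N hN F hF => ?_⟩
  have hsub : F ⊆ Finset.Icc (-(N : ℤ)) N := by
    intro k hk
    have := hF k hk
    dsimp only at this
    rw [Finset.mem_Icc]
    constructor <;> omega
  have hcard : F.card ≤ 2 * N + 1 := by
    refine (Finset.card_le_card hsub).trans ?_
    rw [Int.card_Icc]
    omega
  have h1 : ∑ l ∈ F, circleRK.D l = (F.card : ℝ) := by
    show ∑ l ∈ F, (1 : ℝ) = _
    simp
  rw [h1, pow_one]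
  have h2 : (F.card : ℝ) ≤ 2 * N + 1 := by exact_mod_cast hcard
  have h3 : (1 : ℝ) ≤ N := by exact_mod_cast hN
  linarith

/-- The dimension bound of SU(2). -/
theorem DS_su2 : DS su2RK (fun l => l) 3 := by
  refine ⟨8, by norm_num, fun N hN F hF => ?_⟩
  have h3 : (1 : ℝ) ≤ N := by exact_mod_cast hN
  have hsub : F ⊆ Finset.range (N + 1) := by
    intro k hk
    have := hF k hk
    dsimp only at this
    rw [Finset.mem_range]
    omega
  calc ∑ l ∈ F, su2RK.D l ≤ ∑ l ∈ Finset.range (N + 1), ((l : ℝ) + 1) ^ 2 :=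
        Finset.sum_le_sum_of_subset_of_nonneg hsub fun l _ _ => by
          show 0 ≤ ((l : ℝ) + 1) ^ 2
          positivity
    _ ≤ ∑ _l ∈ Finset.range (N + 1), ((N : ℝ) + 1) ^ 2 := by
        refine Finset.sum_le_sum fun l hl => ?_
        have : (l : ℝ) ≤ N := by
          have := Finset.mem_range.1 hl
          exact_mod_cast (by omega : l ≤ N)
        have h0 : (0 : ℝ) ≤ l := Nat.cast_nonneg l
        nlinarith
    _ = ((N : ℝ) + 1) ^ 3 := by
        rw [Finset.sum_const, Finset.card_range, nsmul_eq_mul]; push_cast; ring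
    _ ≤ (2 * (N : ℝ)) ^ 3 := by
        refine pow_le_pow_left₀ (by linarith) (by linarith) 3
    _ = _ := by ring

end STZ
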