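import Pool.Agent.STZ.Inst

/-!
# STZ/KBProd: kernel bounds and dimension bounds for products of two families

PROOF of `KB_prod`. Given `T0`, let `C, C'` be the two constants and use `C C'`. For `N` take
`s ×ˢ s'`, `w (l,l') = w l * w' l'`. The kernel of the product is the product of the kernels
(`Finset.sum_product`, `Finset.sum_mul_sum`; `cexp` of a sum). For `η` take
`T = T₁ ∪ T₂`: measure at most `(C + C') N^-2 η^-4`; so the constant `2 C C'` works
(`C + C' ≤ 2 C C'` as `C, C' ≥ 1`), and outside of `T`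
`‖ker‖ ≤ C η^r N^d * C' η^r' N^d'`. Weights: `0 ≤ w w' ≤ C C'`, and `1 ≤ w w'` for sizes `≤ N`
(`max`). PROOF of `DS_prod`: `F ⊆ F.image Prod.fst ×ˢ F.image Prod.snd`, all `D ≥ 0`
(here by the hypotheses `hD`, `hD'`), so `∑_F D D' ≤ (∑ D)(∑ D') ≤ C C' N^(d+d')`.
-/

open MeasureTheory Complex
open scoped ComplexConjugate

namespace STZ

variable {X Λ X' Λ' : Type*} [TopologicalSpace X] [MeasureSpace X] [DecidableEq Λ]
  [TopologicalSpace X'] [MeasureSpace X'] [DecidableEq Λ']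
  [SFinite (volume : Measure X)] [SFinite (volume : Measure X')]

theorem KB_prod (R : RK X Λ) (R' : RK X' Λ') (om : Λ → ℝ) (om' : Λ' → ℝ) (size : Λ → ℕ)
    (size' : Λ' → ℕ) (d r d' r' : ℕ) (h : KB R om size d r) (h' : KB R' om' size' d' r') :
    KB (R.prod R') (fun l => om l.1 + om' l.2) (fun l => max (size l.1) (size' l.2))
      (d + d') (r + r') := by
  intro T0 hT0
  obtain ⟨C, hC, h1⟩ := h T0 hT0
  obtain ⟨C', hC', h1'⟩ := h' T0 hT0
  refine ⟨2 * C * C', by nlinarith, fun N hN => ?_⟩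
  obtain ⟨s, w, hs, hw, hw1, hη⟩ := h1 N hN
  obtain ⟨s', w', hs', hw', hw1', hη'⟩ := h1' N hN
  refine ⟨s ×ˢ s', fun l => w l.1 * w' l.2, ?_, ?_, ?_, ?_⟩
  · intro l hl
    rw [Finset.mem_product]
    exact ⟨hs _ (le_trans (le_max_left _ _) hl), hs' _ (le_trans (le_max_right _ _) hl)⟩
  · intro l
    have a := hw l.1
    have a' := hw' l.2
    refine ⟨mul_nonneg a.1 a'.1, ?_⟩
    have : w l.1 * w' l.2 ≤ C * C' := mul_le_mul a.2 a'.2 a'.1 (by linarith)
    show w l.1 * w' l.2 ≤ 2 * C * C'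
    nlinarith [a.1, a'.1]
  · intro l hl
    have a := hw1 l.1 (le_trans (le_max_left _ _) hl)
    have a' := hw1' l.2 (le_trans (le_max_right _ _) hl)
    show 1 ≤ w l.1 * w' l.2
    nlinarith
  · intro η h0 h01
    obtain ⟨T, hT, hTm, hTk⟩ := hη η h0 h01
    obtain ⟨T', hT', hTm', hTk'⟩ := hη' η h0 h01
    refine ⟨T ∪ T', hT.union hT', ?_, ?_⟩
    · rw [Set.union_inter_distrib_right]
      refine (measure_union_le _ _).trans ((add_le_add hTm hTm').trans ?_)
      have e1 : 0 ≤ ((N : ℝ) ^ 2)⁻¹ := by positivity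
      have e2 : 0 ≤ (η ^ 4)⁻¹ := by positivity
      rw [← ENNReal.ofReal_add (by positivity) (by positivity)]
      refine ENNReal.ofReal_le_ofReal ?_
      have e3 : 0 ≤ ((N : ℝ) ^ 2)⁻¹ * (η ^ 4)⁻¹ := by positivity
      have e4 : C + C' ≤ 2 * C * C' := by nlinarith
      calc C * ((N : ℝ) ^ 2)⁻¹ * (η ^ 4)⁻¹ + C' * ((N : ℝ) ^ 2)⁻¹ * (η ^ 4)⁻¹
          = (C + C') * (((N : ℝ) ^ 2)⁻¹ * (η ^ 4)⁻¹) := by ring
        _ ≤ (2 * C * C') * (((N : ℝ) ^ 2)⁻¹ * (η ^ 4)⁻¹) := mul_le_mul_of_nonneg_right e4 e3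
        _ = _ := by ring
    · intro t ht htT x y
      rw [Set.mem_union, not_or] at htT
      have k1 := hTk t ht htT.1 x.1 y.1
      have k2 := hTk' t ht htT.2 x.2 y.2
      have hk : (R.prod R').ker (fun l => om l.1 + om' l.2) (s ×ˢ s')
          (fun l => w l.1 * w' l.2) t x y = R.ker om s w t x.1 y.1 * R'.ker om' s' w' t x.2 y.2 := by
        unfold RK.ker
        rw [Finset.sum_mul_sum, Finset.sum_product]
        refine Finset.sum_congr rfl fun i _ => Finset.sum_congr rfl fun j _ => ?_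
        show (((w i * w' j : ℝ)) : ℂ) * cexp (-((t * (om i + om' j) : ℝ) : ℂ) * I) *
          (R.k i x.1 y.1 * R'.k j x.2 y.2) = _
        have : cexp (-((t * (om i + om' j) : ℝ) : ℂ) * I) =
            cexp (-((t * om i : ℝ) : ℂ) * I) * cexp (-((t * om' j : ℝ) : ℂ) * I) := by
          rw [← Complex.exp_add]; congr 1; push_cast; ring
        rw [this]; push_cast; ring
      rw [hk, norm_mul]
      have hN0 : (0 : ℝ) ≤ N := Nat.cast_nonneg N
      calc ‖R.ker om s w t x.1 y.1‖ * ‖R'.ker om' s' w' t x.2 y.2‖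
          ≤ (C * η ^ r * (N : ℝ) ^ d) * (C' * η ^ r' * (N : ℝ) ^ d') :=
            mul_le_mul k1 k2 (norm_nonneg _) (by positivity)
        _ = (C * C') * (η ^ (r + r') * (N : ℝ) ^ (d + d')) := by rw [pow_add, pow_add]; ring
        _ ≤ (2 * C * C') * (η ^ (r + r') * (N : ℝ) ^ (d + d')) :=
            mul_le_mul_of_nonneg_right (by nlinarith) (by positivity)
        _ = _ := by ring

theorem DS_prod (R : RK X Λ) (R' : RK X' Λ') (size : Λ → ℕ)
    (size' : Λ' → ℕ) (d d' : ℕ) (hD : ∀ l, 0 ≤ R.D l) (hD' : ∀ l, 0 ≤ R'.D l)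
    (h : DS R size d) (h' : DS R' size' d') :
    DS (R.prod R') (fun l => max (size l.1) (size' l.2)) (d + d') := by
  obtain ⟨C, hC, h1⟩ := h
  obtain ⟨C', hC', h1'⟩ := h'
  refine ⟨C * C', by nlinarith, fun N hN F hF => ?_⟩
  have hsub : F ⊆ F.image Prod.fst ×ˢ F.image Prod.snd := by
    intro l hl
    rw [Finset.mem_product]
    exact ⟨Finset.mem_image_of_mem _ hl, Finset.mem_image_of_mem _ hl⟩
  have a1 := h1 N hN (F.image Prod.fst) (by
    intro l hl
    obtain ⟨p, hp, rfl⟩ := Finset.mem_image.1 hl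
    exact le_trans (le_max_left _ _) (hF p hp))
  have a2 := h1' N hN (F.image Prod.snd) (by
    intro l hl
    obtain ⟨p, hp, rfl⟩ := Finset.mem_image.1 hl
    exact le_trans (le_max_right _ _) (hF p hp))
  have hN0 : (0 : ℝ) ≤ N := Nat.cast_nonneg N
  calc ∑ l ∈ F, (R.prod R').D l
      ≤ ∑ l ∈ F.image Prod.fst ×ˢ F.image Prod.snd, (R.prod R').D l :=
        Finset.sum_le_sum_of_subset_of_nonneg hsub fun l _ _ => mul_nonneg (hD _) (hD' _)
    _ = (∑ l ∈ F.image Prod.fst, R.D l) * ∑ l ∈ F.image Prod.snd, R'.D l := by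
        rw [Finset.sum_mul_sum, Finset.sum_product]; rfl
    _ ≤ (C * (N : ℝ) ^ d) * (C' * (N : ℝ) ^ d') :=
        mul_le_mul a1 a2 (Finset.sum_nonneg fun l _ => hD' l) (by positivity)
    _ = _ := by rw [pow_add]; ring

end STZ
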