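import Pool.Agent.STZ.Cauchy
import Pool.Agent.STZ.Cheb

/-!
# STZ/SU2Series: the smoothed kernel of SU(2) in terms of theta

PROOF. Let first `|x| < 1`, `x = cos θ`, `sin θ ≠ 0`. `U_l(cos θ) sin θ = sin((l+1)θ)` and
`jacobiTheta₂' (θ/(2π)) τ = ∑_{n ∈ ℤ} 2 π i n e^{i n θ + π i τ n²}`
`= ∑_{n ≥ 1} 2 π i n e^{π i τ n²} (e^{i n θ} - e^{-i n θ}) = - 4 π ∑_{n ≥ 1} n e^{π i τ n²} sin(n θ)`
(`hasSum_jacobiTheta₂'_term`, split ℤ into `0`, positive and negative integers, for instance with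
`HasSum.of_add_one_of_neg_add_one` / `HasSum.int_rec`-like lemmas). So with `n = l + 1` the sum of the
theorem times `sin θ` equals `- jacobiTheta₂' (θ/2π) τ/(4π)`, of norm
`≤ 50 B |sin θ|/(4π Im τ)` by `theta'_sin`; `50/(4π) ≤ 4`.
For `|x| = 1`: the sum is a continuous function of `x ∈ [-1,1]` (`continuous_tsum`-type lemma on
`[-1,1]`: `‖term‖ ≤ (l+1)² e^{-π Im τ (l+1)²}` by `abs_U_le`) and `[-1,1]` is the closure of `(-1,1)`.
-/

open Complex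
open scoped Real

namespace STZ

private noncomputable def ssTerm (τ : ℂ) (x : ℝ) (l : ℕ) : ℂ :=
  ((l : ℂ) + 1) * cexp (π * I * τ * ((l : ℂ) + 1) ^ 2) *
      (((Polynomial.Chebyshev.U ℝ (l : ℤ)).eval x : ℝ) : ℂ)

private lemma ss_norm_exp (τ : ℂ) (l : ℕ) :
    ‖cexp (π * I * τ * ((l : ℂ) + 1) ^ 2)‖ = Real.exp (-π * (τ.im * ((l : ℝ) + 1) ^ 2)) := by
  rw [Complex.norm_exp]
  congr 1
  have h1 : π * I * τ * ((l : ℂ) + 1) ^ 2 = ((π * ((l : ℝ) + 1) ^ 2 : ℝ) : ℂ) * (I * τ) := by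
    push_cast; ring
  rw [h1, Complex.re_ofReal_mul]
  simp
  ring

private lemma ss_summable_bound (τ : ℂ) (hτ : 0 < τ.im) :
    Summable fun l : ℕ => ((l : ℝ) + 1) ^ 2 * Real.exp (-π * (τ.im * ((l : ℝ) + 1) ^ 2)) := by
  have h := summable_pow_mul_jacobiTheta₂_term_bound 0 hτ 2
  have h2 := h.comp_injective (i := fun l : ℕ => ((l : ℤ) + 1)) (by
    intro a b hab
    simpa using hab)
  refine h2.congr ?_
  intro l
  simp only [Function.comp]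
  push_cast
  rw [sq_abs]
  simp

private lemma ss_norm_le (τ : ℂ) (x : ℝ) (hx : |x| ≤ 1) (l : ℕ) :
    ‖ssTerm τ x l‖ ≤ ((l : ℝ) + 1) ^ 2 * Real.exp (-π * (τ.im * ((l : ℝ) + 1) ^ 2)) := by
  unfold ssTerm
  rw [norm_mul, norm_mul, ss_norm_exp, Complex.norm_real, Real.norm_eq_abs]
  have h1 : ‖((l : ℂ) + 1)‖ = (l : ℝ) + 1 := by
    have : ((l : ℂ) + 1) = (((l : ℝ) + 1 : ℝ) : ℂ) := by push_cast; rfl
    rw [this, Complex.norm_real, Real.norm_of_nonneg (by positivity)]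
  rw [h1]
  have h2 := abs_U_le l x hx
  calc ((l : ℝ) + 1) * Real.exp (-π * (τ.im * ((l : ℝ) + 1) ^ 2)) *
        |(Polynomial.Chebyshev.U ℝ (l : ℤ)).eval x|
      ≤ ((l : ℝ) + 1) * Real.exp (-π * (τ.im * ((l : ℝ) + 1) ^ 2)) * ((l : ℝ) + 1) := by
        apply mul_le_mul_of_nonneg_left h2 (by positivity)
    _ = _ := by ring

theorem su2_series_summable (τ : ℂ) (hτ : 0 < τ.im) (x : ℝ) (hx : |x| ≤ 1) :
    Summable fun l : ℕ => ((l : ℂ) + 1) * cexp (π * I * τ * ((l : ℂ) + 1) ^ 2) *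
      (((Polynomial.Chebyshev.U ℝ (l : ℤ)).eval x : ℝ) : ℂ) :=
  Summable.of_norm_bounded (ss_summable_bound τ hτ) (fun l => ss_norm_le τ x hx l)

private lemma ss_theta (τ : ℂ) (hτ : 0 < τ.im) (θ : ℝ) :
    jacobiTheta₂' ((θ / (2 * π) : ℝ) : ℂ) τ =
      -4 * π * Real.sin θ * ∑' l : ℕ, ssTerm τ (Real.cos θ) l := by
  set z : ℂ := ((θ / (2 * π) : ℝ) : ℂ) with hz
  have h1 := (hasSum_jacobiTheta₂'_term z hτ).nat_add_neg
  have h0 : jacobiTheta₂'_term 0 z τ = 0 := by simp [jacobiTheta₂'_term]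
  rw [h0, add_zero] at h1
  have h2 : HasSum (fun n : ℕ => jacobiTheta₂'_term ((n + 1 : ℕ) : ℤ) z τ +
      jacobiTheta₂'_term (-((n + 1 : ℕ) : ℤ)) z τ) (jacobiTheta₂' z τ) := by
    rw [hasSum_nat_add_iff (f := fun n : ℕ => jacobiTheta₂'_term (n : ℤ) z τ +
      jacobiTheta₂'_term (-(n : ℤ)) z τ) 1]
    simpa [h0] using h1
  have h3 : ∀ n : ℕ, jacobiTheta₂'_term ((n + 1 : ℕ) : ℤ) z τ +
      jacobiTheta₂'_term (-((n + 1 : ℕ) : ℤ)) z τ =
      -4 * π * Real.sin θ * ssTerm τ (Real.cos θ) n := by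
    intro n
    unfold ssTerm jacobiTheta₂'_term jacobiTheta₂_term
    have hU := Polynomial.Chebyshev.U_real_cos θ (n : ℤ)
    have hU' : (((Polynomial.Chebyshev.U ℝ (n : ℤ)).eval (Real.cos θ) : ℝ) : ℂ) *
        ((Real.sin θ : ℝ) : ℂ) = Complex.sin (((n : ℂ) + 1) * θ) := by
      rw [← Complex.ofReal_mul, hU]
      push_cast
      rfl
    have e1 : cexp (2 * π * I * (((n + 1 : ℕ) : ℤ) : ℂ) * z + π * I * (((n + 1 : ℕ) : ℤ) : ℂ) ^ 2 * τ) =
        cexp (π * I * τ * ((n : ℂ) + 1) ^ 2) * cexp (((n : ℂ) + 1) * θ * I) := by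
      rw [← Complex.exp_add]
      congr 1
      rw [hz]
      push_cast
      have hpi : (π : ℂ) ≠ 0 := by exact_mod_cast Real.pi_ne_zero
      field_simp
      ring
    have e2 : cexp (2 * π * I * ((-((n + 1 : ℕ) : ℤ) : ℤ) : ℂ) * z +
        π * I * ((-((n + 1 : ℕ) : ℤ) : ℤ) : ℂ) ^ 2 * τ) =
        cexp (π * I * τ * ((n : ℂ) + 1) ^ 2) * cexp (-(((n : ℂ) + 1) * θ) * I) := by
      rw [← Complex.exp_add]
      congr 1
      rw [hz]
      push_cast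
      have hpi : (π : ℂ) ≠ 0 := by exact_mod_cast Real.pi_ne_zero
      field_simp
      ring
    rw [e1, e2]
    have e3 : Complex.sin (((n : ℂ) + 1) * θ) =
        (cexp (-(((n : ℂ) + 1) * θ) * I) - cexp (((n : ℂ) + 1) * θ * I)) * I / 2 := rfl
    have e4 : -4 * (π : ℂ) * ((Real.sin θ : ℝ) : ℂ) * (((n : ℂ) + 1) * cexp (π * I * τ * ((n : ℂ) + 1) ^ 2) *
        (((Polynomial.Chebyshev.U ℝ (n : ℤ)).eval (Real.cos θ) : ℝ) : ℂ)) =
        -4 * π * ((n : ℂ) + 1) * cexp (π * I * τ * ((n : ℂ) + 1) ^ 2) *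
        ((((Polynomial.Chebyshev.U ℝ (n : ℤ)).eval (Real.cos θ) : ℝ) : ℂ) *
        ((Real.sin θ : ℝ) : ℂ)) := by ring
    rw [e4, hU', e3]
    push_cast
    ring
  simp_rw [h3] at h2
  rw [← h2.tsum_eq, tsum_mul_left]

private lemma ss_interior (τ : ℂ) (hτ : 0 < τ.im) (B : ℝ)
    (hB : ∀ z : ℂ, ‖jacobiTheta₂ z τ‖ ≤ B * Real.exp (π * z.im ^ 2 / τ.im)) (x : ℝ)
    (hx : x ∈ Set.Ioo (-1 : ℝ) 1) :
    ‖∑' l : ℕ, ssTerm τ x l‖ ≤ 4 * B / τ.im := by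
  set θ := Real.arccos x with hθ
  have hcos : Real.cos θ = x := Real.cos_arccos hx.1.le hx.2.le
  have hsin : 0 < Real.sin θ := by
    apply Real.sin_pos_of_pos_of_lt_pi
    · exact Real.arccos_pos.mpr hx.2
    · rw [hθ, Real.arccos_lt_pi]
      exact hx.1
  have hB0 : 0 ≤ B := by
    have h := hB 0
    simp only [Complex.zero_im, ne_eq, OfNat.ofNat_ne_zero, not_false_eq_true, zero_pow, mul_zero,
      zero_div, Real.exp_zero, mul_one] at h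
    exact le_trans (norm_nonneg _) h
  have h1 := theta'_sin τ hτ B hB θ
  rw [ss_theta τ hτ θ, hcos] at h1
  have h2 : ‖-4 * (π : ℂ) * ((Real.sin θ : ℝ) : ℂ) * ∑' l : ℕ, ssTerm τ x l‖ =
      4 * π * Real.sin θ * ‖∑' l : ℕ, ssTerm τ x l‖ := by
    rw [norm_mul, norm_mul, norm_mul, Complex.norm_real, Complex.norm_real,
      Real.norm_of_nonneg Real.pi_pos.le, Real.norm_of_nonneg hsin.le]
    simp
  rw [h2, abs_of_pos hsin] at h1
  set N := ‖∑' l : ℕ, ssTerm τ x l‖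
  have h3 : 4 * π * N ≤ 50 * B / τ.im := by
    have : Real.sin θ * (4 * π * N) ≤ Real.sin θ * (50 * B / τ.im) := by linarith
    exact le_of_mul_le_mul_left this hsin
  have hpi : 3.14 < π := Real.pi_gt_d2
  have h4 : 0 ≤ B / τ.im := by positivity
  have h5 : 4 * π * N ≤ 4 * π * (4 * B / τ.im) := by
    have e1 : 4 * π * (4 * B / τ.im) = 16 * π * (B / τ.im) := by ring
    have e2 : 50 * B / τ.im = 50 * (B / τ.im) := by ring
    rw [e1]
    rw [e2] at h3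
    nlinarith
  exact le_of_mul_le_mul_left h5 (by positivity)

theorem su2_series (τ : ℂ) (hτ : 0 < τ.im) (B : ℝ)
    (hB : ∀ z : ℂ, ‖jacobiTheta₂ z τ‖ ≤ B * Real.exp (π * z.im ^ 2 / τ.im)) (x : ℝ)
    (hx : |x| ≤ 1) :
    ‖∑' l : ℕ, ((l : ℂ) + 1) * cexp (π * I * τ * ((l : ℂ) + 1) ^ 2) *
      (((Polynomial.Chebyshev.U ℝ (l : ℤ)).eval x : ℝ) : ℂ)‖ ≤ 4 * B / τ.im := by
  change ‖∑' l : ℕ, ssTerm τ x l‖ ≤ 4 * B / τ.im
  have hcont : ContinuousOn (fun x : ℝ => ∑' l : ℕ, ssTerm τ x l) (Set.Icc (-1) 1) := by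
    apply continuousOn_tsum (u := fun l : ℕ => ((l : ℝ) + 1) ^ 2 *
      Real.exp (-π * (τ.im * ((l : ℝ) + 1) ^ 2)))
    · intro l
      unfold ssTerm
      apply Continuous.continuousOn
      apply Continuous.mul continuous_const
      exact Complex.continuous_ofReal.comp (Polynomial.continuous _)
    · exact ss_summable_bound τ hτ
    · intro l y hy
      exact ss_norm_le τ y (abs_le.mpr hy) l
  have hxI : x ∈ Set.Icc (-1 : ℝ) 1 := abs_le.mp hx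
  have hcl : closure (Set.Ioo (-1 : ℝ) 1) = Set.Icc (-1) 1 := closure_Ioo (by norm_num)
  have hx' : x ∈ closure (Set.Ioo (-1 : ℝ) 1) := by rw [hcl]; exact hxI
  have hcw : ContinuousWithinAt (fun x : ℝ => ‖∑' l : ℕ, ssTerm τ x l‖) (Set.Ioo (-1) 1) x :=
    (hcont.norm x hxI).mono Set.Ioo_subset_Icc_self
  exact ContinuousWithinAt.closure_le hx' hcw continuousWithinAt_const
    (fun y hy => ss_interior τ hτ B hB y hy)

end STZ
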