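import Pool.Agent.STZ.Inst
import Pool.Agent.STZ.Theta2
import Pool.Agent.STZ.Arcs
import Pool.Agent.STZ.SU2Series

/-!
# STZ/KBSU2: the kernel bound of SU(2)

PROOF. `om l = l(l+2)/(8β) = ((l+1)² - 1)/(8β)`. For `N ≥ 1` put `τ = -t/(8πβ) + i/N²`; then
`e^{π i τ (l+1)²} = e^{-i t (l+1)²/(8β)} e^{-π (l+1)²/N²}`. Weights
`w l = e^{4π} e^{-π (l+1)²/N²}`: `w l ≥ 1` for `l ≤ N` since `(l+1)² ≤ (N+1)² ≤ 4N²`, and
`0 ≤ w ≤ e^{4π}`. `s = Finset.range M` with `M > N` and `∑_{l ≥ M} w l (l+1)² ≤ 1` (summable). With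
`x = Re (x y⁻¹)_{00} ∈ [-1,1]` (`su2_re_le`), `kS l x y = (l+1) U_l(x)`,
`ker = e^{4π} e^{i t/(8β)} ∑_{l<M} (l+1) e^{π i τ (l+1)²} U_l(x)`, so by `su2_series` and the tail
bound (`abs_U_le`): `‖ker‖ ≤ 1 + e^{4π} 4 B N²` whenever `‖θ(z,τ)‖ ≤ B exp(π (Im z)²/Im τ)`.
Let `η ∈ (0,1]`. If `N = 1` or `η N < 1` take `T = univ` (measure `2T0 ≤ 2 T0 N^-2 η^-4`).
If `N ≥ 2` and `η N ≥ 1` take `T = arcs a (η^-2) (1/(η²N²))`, `a = -1/(8πβ)`; for `t ∉ T`, as in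
STZ/KBCircle, `B = C0 ‖cτ+d‖^(-1/2) ≤ C0 η N`, so `‖ker‖ ≤ 1 + 4 e^{4π} C0 η N³ ≤ C η N³`.
-/

open MeasureTheory Complex
open scoped ComplexConjugate Real

namespace STZ

private lemma theta_arc {C0 : ℝ} (hC0 : 1 ≤ C0)
    (hth : ∀ τ : ℂ, 0 < τ.im → τ.im < 3 / 4 →
      ∃ c d : ℤ, 0 < c ∧ IsCoprime c d ∧ ∀ z : ℂ, ‖jacobiTheta₂ z τ‖ ≤
        C0 * ‖(c : ℂ) * τ + d‖ ^ (-(1 / 2) : ℝ) * Real.exp (π * z.im ^ 2 / τ.im))
    {N : ℕ} (hN : 2 ≤ N) {η : ℝ} (hη : 0 < η) {a t : ℝ} {τ : ℂ}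
    (hre : τ.re = a * t) (him : τ.im = ((N : ℝ) ^ 2)⁻¹)
    (ht : t ∉ arcs a (η ^ 2)⁻¹ (η ^ 2 * (N : ℝ) ^ 2)⁻¹) (z : ℂ) :
    ‖jacobiTheta₂ z τ‖ ≤ C0 * (η * N) * Real.exp (π * z.im ^ 2 / τ.im) := by
  have hN0 : (2 : ℝ) ≤ N := by exact_mod_cast hN
  have hNp : (0 : ℝ) < N := by linarith
  have h1 : 0 < τ.im := by rw [him]; positivity
  have h2 : τ.im < 3 / 4 := by
    rw [him]
    have h3 : (4 : ℝ) ≤ (N : ℝ) ^ 2 := by nlinarith
    calc ((N : ℝ) ^ 2)⁻¹ ≤ (4 : ℝ)⁻¹ := inv_anti₀ (by norm_num) h3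
      _ < 3 / 4 := by norm_num
  obtain ⟨c, d, hc, -, hcd⟩ := hth τ h1 h2
  refine (hcd z).trans ?_
  have hc' : (0 : ℝ) < c := by exact_mod_cast hc
  have hpos : 0 < (η ^ 2 * (N : ℝ) ^ 2)⁻¹ := by positivity
  have h3 : (η ^ 2 * (N : ℝ) ^ 2)⁻¹ ≤ ‖(c : ℂ) * τ + d‖ := by
    by_cases hcQ : (c : ℝ) ≤ (η ^ 2)⁻¹
    · have h4 : (η ^ 2 * (N : ℝ) ^ 2)⁻¹ < |(c : ℝ) * (a * t) + d| := by
        by_contra h5
        exact ht ⟨c, d, hc, hcQ, not_lt.mp h5⟩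
      refine h4.le.trans ?_
      have h6 : ((c : ℂ) * τ + d).re = (c : ℝ) * (a * t) + d := by
        simp [hre]
      rw [← h6]
      exact Complex.abs_re_le_norm _
    · have hcQ' := not_le.mp hcQ
      have h6 : ((c : ℂ) * τ + d).im = (c : ℝ) * ((N : ℝ) ^ 2)⁻¹ := by
        simp [him]
      have h7 := Complex.abs_im_le_norm ((c : ℂ) * τ + d)
      rw [h6, abs_of_pos (by positivity)] at h7
      refine le_trans ?_ h7
      rw [mul_inv]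
      exact mul_le_mul_of_nonneg_right hcQ'.le (by positivity)
  have h8 : ‖(c : ℂ) * τ + d‖ ^ (-(1 / 2) : ℝ) ≤ η * N := by
    have h9 : ‖(c : ℂ) * τ + d‖ ^ (-(1 / 2) : ℝ) ≤
        ((η ^ 2 * (N : ℝ) ^ 2)⁻¹) ^ (-(1 / 2) : ℝ) :=
      Real.rpow_le_rpow_of_nonpos hpos h3 (by norm_num)
    refine h9.trans (le_of_eq ?_)
    rw [Real.inv_rpow (by positivity), Real.rpow_neg (by positivity), inv_inv, ← mul_pow,
      ← Real.sqrt_eq_rpow, Real.sqrt_sq (by positivity)]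
  exact mul_le_mul_of_nonneg_right (mul_le_mul_of_nonneg_left h8 (by linarith)) (Real.exp_pos _).le

theorem KB_su2 (β : ℝ) (hβ : 0 < β) :
    KB su2RK (fun l : ℕ => (l : ℝ) * ((l : ℝ) + 2) / (8 * β)) (fun l => l) 3 1 := by
  intro T0 hT0
  have hpi := Real.pi_pos
  obtain ⟨C0, hC0, hth⟩ := theta_bound
  set a : ℝ := -(1 / (8 * π * β)) with ha
  have ha0 : a ≠ 0 := by
    rw [ha]
    exact neg_ne_zero.mpr (by positivity)
  obtain ⟨C1, hC1, harc⟩ := arcs_measure a T0 ha0 hT0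
  obtain ⟨A, hA⟩ : ∃ A : ℝ, A = Real.exp (4 * π) := ⟨_, rfl⟩
  have hA1 : 1 ≤ A := by rw [hA]; exact Real.one_le_exp (by positivity)
  have hA0 : 0 < A := by linarith
  have hAC : 0 < 4 * A * C0 := by positivity
  refine ⟨A + 2 * T0 + C1 + (1 + 4 * A * C0), by linarith, fun N hN => ?_⟩
  set C : ℝ := A + 2 * T0 + C1 + (1 + 4 * A * C0) with hC
  have hN1 : (1 : ℝ) ≤ N := by exact_mod_cast hN
  have hNp : (0 : ℝ) < N := by linarith
  set g : ℕ → ℝ := fun l => ((l : ℝ) + 1) ^ 2 *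
    Real.exp (-π * ((l : ℝ) + 1) ^ 2 * ((N : ℝ) ^ 2)⁻¹) with hg
  have hnexp : ∀ (τ : ℂ) (l : ℕ), τ.im = ((N : ℝ) ^ 2)⁻¹ →
      ‖cexp (π * I * τ * ((l : ℂ) + 1) ^ 2)‖ =
        Real.exp (-π * ((l : ℝ) + 1) ^ 2 * ((N : ℝ) ^ 2)⁻¹) := by
    intro τ l hτ
    rw [Complex.norm_exp]
    congr 1
    have h1 : (π * I * τ * ((l : ℂ) + 1) ^ 2) = ((π * ((l : ℝ) + 1) ^ 2 : ℝ) : ℂ) * (I * τ) := by
      push_cast; ring
    rw [h1, Complex.re_ofReal_mul]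
    simp only [Complex.mul_re, Complex.I_re, Complex.I_im, zero_mul, one_mul, zero_sub]
    rw [hτ]
    ring
  have hgs : Summable g := by
    have hi : (((((N : ℝ) ^ 2)⁻¹ : ℝ) : ℂ) * I).im = ((N : ℝ) ^ 2)⁻¹ := by
      rw [Complex.im_ofReal_mul, Complex.I_im, mul_one]
    have h := (su2_series_summable (((((N : ℝ) ^ 2)⁻¹ : ℝ) : ℂ) * I) (by
      rw [hi]; positivity) 1 (by simp)).norm
    refine h.congr fun l => ?_
    rw [norm_mul, norm_mul, hnexp _ l hi, Polynomial.Chebyshev.U_eval_one]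
    have h1 : ‖((l : ℂ) + 1)‖ = (l : ℝ) + 1 := by
      have h2 : ((l : ℂ) + 1) = (((l : ℝ) + 1 : ℝ) : ℂ) := by push_cast; rfl
      rw [h2, Complex.norm_real, Real.norm_of_nonneg (by positivity)]
    have h3 : ‖((((l : ℤ) : ℝ) + 1 : ℝ) : ℂ)‖ = (l : ℝ) + 1 := by
      rw [Complex.norm_real, Int.cast_natCast, Real.norm_of_nonneg (by positivity)]
    rw [h1, h3, hg]
    ring
  obtain ⟨M, hM, hMt⟩ : ∃ M, N + 1 ≤ M ∧ ∑' l, g (l + M) ≤ A⁻¹ := by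
    have h := tendsto_sum_nat_add g
    have h2 := (h.eventually (gt_mem_nhds (show (0 : ℝ) < A⁻¹ by positivity))).and
      (Filter.eventually_ge_atTop (N + 1))
    obtain ⟨M, h3, h4⟩ := h2.exists
    exact ⟨M, h4, h3.le⟩
  have hker : ∀ (t B : ℝ) (τ : ℂ), τ.re = a * t → τ.im = ((N : ℝ) ^ 2)⁻¹ →
      (∀ z : ℂ, ‖jacobiTheta₂ z τ‖ ≤ B * Real.exp (π * z.im ^ 2 / τ.im)) → ∀ x y : SU2,
      ‖su2RK.ker (fun l : ℕ => (l : ℝ) * ((l : ℝ) + 2) / (8 * β)) (Finset.range M)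
        (fun l => A * Real.exp (-π * ((l : ℝ) + 1) ^ 2 * ((N : ℝ) ^ 2)⁻¹)) t x y‖ ≤
        1 + A * (4 * B * (N : ℝ) ^ 2) := by
    intro t B τ hre him hB x y
    have hτ0 : 0 < τ.im := by rw [him]; positivity
    set x0 : ℝ := ((x * y⁻¹).1 0 0).re with hx0
    have hx01 : |x0| ≤ 1 := su2_re_le _
    set f : ℕ → ℂ := fun l => ((l : ℂ) + 1) * cexp (π * I * τ * ((l : ℂ) + 1) ^ 2) *
      (((Polynomial.Chebyshev.U ℝ (l : ℤ)).eval x0 : ℝ) : ℂ) with hf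
    have hfs : Summable f := su2_series_summable τ hτ0 x0 hx01
    have hfn : ∀ l, ‖f l‖ ≤ g l := by
      intro l
      simp only [hf, hg]
      rw [norm_mul, norm_mul, hnexp _ l him]
      have h1 : ‖((l : ℂ) + 1)‖ = (l : ℝ) + 1 := by
        have h2 : ((l : ℂ) + 1) = (((l : ℝ) + 1 : ℝ) : ℂ) := by push_cast; rfl
        rw [h2, Complex.norm_real, Real.norm_of_nonneg (by positivity)]
      have h3 : ‖(((Polynomial.Chebyshev.U ℝ (l : ℤ)).eval x0 : ℝ) : ℂ)‖ ≤ (l : ℝ) + 1 := by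
        rw [Complex.norm_real, Real.norm_eq_abs]
        exact abs_U_le l x0 hx01
      rw [h1]
      calc ((l : ℝ) + 1) * Real.exp (-π * ((l : ℝ) + 1) ^ 2 * ((N : ℝ) ^ 2)⁻¹) *
            ‖(((Polynomial.Chebyshev.U ℝ (l : ℤ)).eval x0 : ℝ) : ℂ)‖
          ≤ ((l : ℝ) + 1) * Real.exp (-π * ((l : ℝ) + 1) ^ 2 * ((N : ℝ) ^ 2)⁻¹) *
            ((l : ℝ) + 1) := mul_le_mul_of_nonneg_left h3 (by positivity)
        _ = _ := by ring
    have hkeq : su2RK.ker (fun l : ℕ => (l : ℝ) * ((l : ℝ) + 2) / (8 * β)) (Finset.range M)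
        (fun l => A * Real.exp (-π * ((l : ℝ) + 1) ^ 2 * ((N : ℝ) ^ 2)⁻¹)) t x y =
        (A : ℂ) * cexp (((t / (8 * β) : ℝ) : ℂ) * I) * ∑ l ∈ Finset.range M, f l := by
      unfold RK.ker
      rw [Finset.mul_sum]
      refine Finset.sum_congr rfl fun l _ => ?_
      have e1 : su2RK.k l x y = ((l : ℂ) + 1) *
          (((Polynomial.Chebyshev.U ℝ (l : ℤ)).eval x0 : ℝ) : ℂ) := by
        change kS l x y = _
        unfold kS chi
        push_cast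
        rfl
      have e2 : cexp (((-π * ((l : ℝ) + 1) ^ 2 * ((N : ℝ) ^ 2)⁻¹ : ℝ) : ℂ)) *
          cexp (-((t * ((l : ℝ) * ((l : ℝ) + 2) / (8 * β)) : ℝ) : ℂ) * I) =
          cexp (((t / (8 * β) : ℝ) : ℂ) * I) * cexp (π * I * τ * ((l : ℂ) + 1) ^ 2) := by
        rw [← Complex.exp_add, ← Complex.exp_add]
        congr 1
        have e3 : τ = ((a * t : ℝ) : ℂ) + ((((N : ℝ) ^ 2)⁻¹ : ℝ) : ℂ) * I := by
          rw [← hre, ← him]
          exact (Complex.re_add_im τ).symm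
        have e4 : (π : ℂ) * ((a * t : ℝ) : ℂ) = -((t / (8 * β) : ℝ) : ℂ) := by
          rw [← Complex.ofReal_mul, ← Complex.ofReal_neg]
          congr 1
          rw [ha]
          field_simp
        have e5 : (π : ℂ) * I * τ * ((l : ℂ) + 1) ^ 2 =
            ((π : ℂ) * ((a * t : ℝ) : ℂ)) * I * ((l : ℂ) + 1) ^ 2 -
            π * ((((N : ℝ) ^ 2)⁻¹ : ℝ) : ℂ) * ((l : ℂ) + 1) ^ 2 := by
          rw [e3]
          linear_combination (π : ℂ) * ((((N : ℝ) ^ 2)⁻¹ : ℝ) : ℂ) * ((l : ℂ) + 1) ^ 2 * Complex.I_sq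
        rw [e5, e4]
        push_cast
        ring
      rw [e1, Complex.ofReal_mul, Complex.ofReal_exp]
      simp only [hf]
      calc (A : ℂ) * cexp (((-π * ((l : ℝ) + 1) ^ 2 * ((N : ℝ) ^ 2)⁻¹ : ℝ) : ℂ)) *
            cexp (-((t * ((l : ℝ) * ((l : ℝ) + 2) / (8 * β)) : ℝ) : ℂ) * I) *
            (((l : ℂ) + 1) * (((Polynomial.Chebyshev.U ℝ (l : ℤ)).eval x0 : ℝ) : ℂ))
          = (A : ℂ) * (cexp (((-π * ((l : ℝ) + 1) ^ 2 * ((N : ℝ) ^ 2)⁻¹ : ℝ) : ℂ)) *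
            cexp (-((t * ((l : ℝ) * ((l : ℝ) + 2) / (8 * β)) : ℝ) : ℂ) * I)) *
            (((l : ℂ) + 1) * (((Polynomial.Chebyshev.U ℝ (l : ℤ)).eval x0 : ℝ) : ℂ)) := by ring
        _ = _ := by rw [e2]; ring
    have hs1 := su2_series τ hτ0 B hB x0 hx01
    have hs2 : ‖∑' l, f (l + M)‖ ≤ A⁻¹ := by
      refine le_trans ?_ hMt
      exact tsum_of_norm_bounded ((summable_nat_add_iff M).2 hgs).hasSum fun l => hfn (l + M)
    have hs3 : ∑ l ∈ Finset.range M, f l = ∑' l, f l - ∑' l, f (l + M) := by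
      rw [← hfs.sum_add_tsum_nat_add M]; ring
    rw [hkeq, norm_mul, norm_mul, Complex.norm_exp_ofReal_mul_I, mul_one, Complex.norm_real,
      Real.norm_of_nonneg hA0.le, hs3]
    have hs4 : ‖∑' l, f l‖ ≤ 4 * B * (N : ℝ) ^ 2 := by
      refine hs1.trans (le_of_eq ?_)
      rw [him]
      field_simp
    calc A * ‖∑' l, f l - ∑' l, f (l + M)‖ ≤ A * (4 * B * (N : ℝ) ^ 2 + A⁻¹) := by
          refine mul_le_mul_of_nonneg_left ?_ hA0.le
          exact (norm_sub_le _ _).trans (add_le_add hs4 hs2)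
      _ = 1 + A * (4 * B * (N : ℝ) ^ 2) := by
          field_simp
          ring
  refine ⟨Finset.range M, fun l => A * Real.exp (-π * ((l : ℝ) + 1) ^ 2 * ((N : ℝ) ^ 2)⁻¹),
    ?_, ?_, ?_, ?_⟩
  · intro l hl
    rw [Finset.mem_range]
    simp only at hl
    omega
  · intro l
    refine ⟨by positivity, ?_⟩
    have h1 : Real.exp (-π * ((l : ℝ) + 1) ^ 2 * ((N : ℝ) ^ 2)⁻¹) ≤ 1 := by
      rw [Real.exp_le_one_iff]
      have : 0 ≤ π * ((l : ℝ) + 1) ^ 2 * ((N : ℝ) ^ 2)⁻¹ := by positivity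
      linarith
    have h2 : A * Real.exp (-π * ((l : ℝ) + 1) ^ 2 * ((N : ℝ) ^ 2)⁻¹) ≤ A * 1 :=
      mul_le_mul_of_nonneg_left h1 hA0.le
    linarith
  · intro l hl
    simp only at hl
    have hl' : (l : ℝ) ≤ N := by exact_mod_cast hl
    simp only
    rw [hA, ← Real.exp_add]
    refine Real.one_le_exp ?_
    have h1 : ((l : ℝ) + 1) ^ 2 ≤ 4 * (N : ℝ) ^ 2 := by nlinarith
    have h2 : ((l : ℝ) + 1) ^ 2 * ((N : ℝ) ^ 2)⁻¹ ≤ 4 := by
      rw [← div_eq_mul_inv, div_le_iff₀ (by positivity)]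
      exact h1
    nlinarith
  · intro η hη hη1
    by_cases hcase : N = 1 ∨ η * N < 1
    · refine ⟨Set.univ, MeasurableSet.univ, ?_, fun t _ ht => absurd (Set.mem_univ t) ht⟩
      rw [Set.univ_inter, Real.volume_Icc]
      refine ENNReal.ofReal_le_ofReal ?_
      have h1 : 1 ≤ ((N : ℝ) ^ 2)⁻¹ * (η ^ 4)⁻¹ := by
        rw [← mul_inv]
        refine (one_le_inv₀ (by positivity)).2 ?_
        rcases hcase with h | h
        · subst h
          have : η ^ 4 ≤ 1 := pow_le_one₀ hη.le hη1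
          simpa using this
        · have h2 : (N : ℝ) ^ 2 * η ^ 4 = (η * N) ^ 2 * η ^ 2 := by ring
          rw [h2]
          have h3 : (η * N) ^ 2 ≤ 1 := pow_le_one₀ (by positivity) h.le
          have h4 : η ^ 2 ≤ 1 := pow_le_one₀ hη.le hη1
          calc (η * N) ^ 2 * η ^ 2 ≤ 1 * 1 := mul_le_mul h3 h4 (by positivity) zero_le_one
            _ = 1 := one_mul 1
      have h2 : 2 * T0 ≤ C := by linarith
      calc T0 - -T0 = 2 * T0 := by ring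
        _ ≤ C * 1 := by linarith
        _ ≤ C * (((N : ℝ) ^ 2)⁻¹ * (η ^ 4)⁻¹) :=
            mul_le_mul_of_nonneg_left h1 (by linarith)
        _ = C * ((N : ℝ) ^ 2)⁻¹ * (η ^ 4)⁻¹ := by ring
    · push Not at hcase
      obtain ⟨hN1', hηN⟩ := hcase
      have hN2 : 2 ≤ N := by omega
      refine ⟨arcs a (η ^ 2)⁻¹ (η ^ 2 * (N : ℝ) ^ 2)⁻¹, measurableSet_arcs _ _ _, ?_,
        fun t _ ht x y => ?_⟩
      · refine (harc _ _ ?_ (by positivity) ?_).trans (ENNReal.ofReal_le_ofReal ?_)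
        · exact (one_le_inv₀ (by positivity)).2 (pow_le_one₀ hη.le hη1)
        · rw [← mul_pow]
          exact inv_le_one_of_one_le₀ (one_le_pow₀ hηN)
        · have h1 : C1 * (η ^ 2)⁻¹ * (η ^ 2 * (N : ℝ) ^ 2)⁻¹ =
              C1 * (((N : ℝ) ^ 2)⁻¹ * (η ^ 4)⁻¹) := by
            rw [← mul_inv, mul_assoc, ← mul_inv]
            congr 2
            ring
          have h2 : C * ((N : ℝ) ^ 2)⁻¹ * (η ^ 4)⁻¹ = C * (((N : ℝ) ^ 2)⁻¹ * (η ^ 4)⁻¹) := by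
            ring
          rw [h1, h2]
          exact mul_le_mul_of_nonneg_right (by linarith) (by positivity)
      · have hr : (((a * t : ℝ) : ℂ) + ((((N : ℝ) ^ 2)⁻¹ : ℝ) : ℂ) * I).re = a * t := by
          rw [Complex.add_re, Complex.ofReal_re, Complex.re_ofReal_mul, Complex.I_re, mul_zero,
            add_zero]
        have hi : (((a * t : ℝ) : ℂ) + ((((N : ℝ) ^ 2)⁻¹ : ℝ) : ℂ) * I).im = ((N : ℝ) ^ 2)⁻¹ := by
          rw [Complex.add_im, Complex.ofReal_im, Complex.im_ofReal_mul, Complex.I_im, mul_one,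
            zero_add]
        have h1 := hker t (C0 * (η * N)) (((a * t : ℝ) : ℂ) + ((((N : ℝ) ^ 2)⁻¹ : ℝ) : ℂ) * I)
          hr hi (fun z => theta_arc hC0 hth hN2 hη hr hi ht z) x y
        refine h1.trans ?_
        have h2 : 1 ≤ η * (N : ℝ) ^ 3 := by
          have h3 : η * (N : ℝ) ^ 3 = (η * N) * (N : ℝ) ^ 2 := by ring
          rw [h3]
          have h4 : (1 : ℝ) ≤ (N : ℝ) ^ 2 := one_le_pow₀ hN1
          nlinarith
        have h3 : A * (4 * (C0 * (η * N)) * (N : ℝ) ^ 2) = (4 * A * C0) * (η * (N : ℝ) ^ 3) := by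
          ring
        rw [h3, pow_one, mul_assoc]
        have h4 : (1 + 4 * A * C0) * (η * (N : ℝ) ^ 3) ≤ C * (η * (N : ℝ) ^ 3) :=
          mul_le_mul_of_nonneg_right (by linarith) (by positivity)
        linarith

end STZ
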