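import Pool.Agent.STZ.RKDefs

/-!
# The kernels of the circle and of SU(2)
-/

open MeasureTheory Complex Matrix
open scoped ComplexConjugate

namespace STZ

/-- The character of the irreducible representation of dimension `l + 1` of `SU(2)`:
`U_l (cos θ)` where the eigenvalues are `e^{± i θ}`, so `cos θ = Re g_{00}`. -/
noncomputable def chi (l : ℕ) (g : SU2) : ℝ := (Polynomial.Chebyshev.U ℝ (l : ℤ)).eval (g.1 0 0).re

/-- The reproducing kernel `(l+1) χ_l(x y⁻¹)` of `SU(2)`. -/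
noncomputable def kS (l : ℕ) (x y : SU2) : ℂ := ((((l : ℝ) + 1) * chi l (x * y⁻¹) : ℝ) : ℂ)

/-- The reproducing kernel `e^{2 pi i k (x - y)}` of the circle. -/
noncomputable def kT (k : ℤ) (x y : UnitAddCircle) : ℂ := fourier k (x - y)

/-- The element `[[a, -conj b], [b, conj a]]` of `SU(2)`. -/
noncomputable def mkSU2 (a b : ℂ) (h : ‖a‖ ^ 2 + ‖b‖ ^ 2 = 1) : SU2 :=
  ⟨!![a, -conj b; b, conj a], by
    have h1 : a * conj a + b * conj b = 1 := by
      rw [Complex.mul_conj', Complex.mul_conj']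
      exact_mod_cast h
    rw [Matrix.mem_specialUnitaryGroup_iff, Matrix.mem_unitaryGroup_iff]
    constructor
    · ext i j
      fin_cases i <;> fin_cases j <;>
        simp [Matrix.mul_apply, Matrix.star_apply, Fin.sum_univ_two] <;>
        first
          | linear_combination h1
          | ring
    · rw [Matrix.det_fin_two]
      simp
      linear_combination h1⟩

@[simp] lemma mkSU2_00 (a b : ℂ) (h : ‖a‖ ^ 2 + ‖b‖ ^ 2 = 1) : (mkSU2 a b h).1 0 0 = a := by
  simp [mkSU2]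
@[simp] lemma mkSU2_10 (a b : ℂ) (h : ‖a‖ ^ 2 + ‖b‖ ^ 2 = 1) : (mkSU2 a b h).1 1 0 = b := by
  simp [mkSU2]
@[simp] lemma mkSU2_01 (a b : ℂ) (h : ‖a‖ ^ 2 + ‖b‖ ^ 2 = 1) : (mkSU2 a b h).1 0 1 = -conj b := by
  simp [mkSU2]
@[simp] lemma mkSU2_11 (a b : ℂ) (h : ‖a‖ ^ 2 + ‖b‖ ^ 2 = 1) : (mkSU2 a b h).1 1 1 = conj a := by
  simp [mkSU2]

/-- The diagonal element `diag(e^{iφ}, e^{-iφ})`. -/
noncomputable def tor (φ : ℝ) : SU2 := mkSU2 (cexp (φ * I)) 0 (by
  rw [Complex.norm_exp_ofReal_mul_I]; simp)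

lemma su2_continuous_entry (i j : Fin 2) : Continuous fun g : SU2 => g.1 i j :=
  (continuous_apply_apply i j).comp continuous_subtype_val

lemma su2_inv_00 (g : SU2) : (g⁻¹).1 0 0 = conj (g.1 0 0) := by
  rw [su2_coe_inv]; simp [Matrix.star_apply]

lemma su2_re_le (g : SU2) : |(g.1 0 0).re| ≤ 1 := by
  have h := su2_normSq g
  have h1 : ‖g.1 0 0‖ ≤ 1 := by nlinarith [norm_nonneg (g.1 0 0), sq_nonneg ‖g.1 1 0‖]
  exact (Complex.abs_re_le_norm _).trans h1

lemma chi_inv (l : ℕ) (g : SU2) : chi l g⁻¹ = chi l g := by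
  unfold chi; rw [su2_inv_00]; simp

lemma continuous_chi (l : ℕ) : Continuous (chi l) := by
  unfold chi
  exact (Polynomial.continuous _).comp (Complex.continuous_re.comp (su2_continuous_entry 0 0))

lemma continuous_kS (l : ℕ) : Continuous fun p : SU2 × SU2 => kS l p.1 p.2 := by
  unfold kS
  refine Complex.continuous_ofReal.comp (continuous_const.mul ((continuous_chi l).comp ?_))
  exact continuous_fst.mul continuous_snd.inv

lemma kS_herm (l : ℕ) (x y : SU2) : kS l y x = conj (kS l x y) := by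
  unfold kS
  rw [Complex.conj_ofReal, ← chi_inv l (x * y⁻¹)]
  simp [_root_.mul_inv_rev]

lemma kS_diag (l : ℕ) (x : SU2) : kS l x x = ((((l : ℝ) + 1) ^ 2 : ℝ) : ℂ) := by
  unfold kS chi
  rw [mul_inv_cancel]
  have : ((1 : SU2).1 0 0).re = 1 := by simp
  rw [this, Polynomial.Chebyshev.U_eval_one]
  push_cast; ring

lemma continuous_kT (k : ℤ) : Continuous fun p : UnitAddCircle × UnitAddCircle => kT k p.1 p.2 := by
  unfold kT
  exact (fourier k).continuous.comp (continuous_fst.sub continuous_snd)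

lemma kT_herm (k : ℤ) (x y : UnitAddCircle) : kT k y x = conj (kT k x y) := by
  unfold kT
  rw [← fourier_neg]
  simp only [fourier_apply]
  rw [← neg_sub x y, smul_neg, neg_smul]

lemma kT_diag (k : ℤ) (x : UnitAddCircle) : kT k x x = ((1 : ℝ) : ℂ) := by
  unfold kT
  simp

end STZ
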