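import Pool.Agent.STZ.SqDual
import Pool.Agent.Pal.Divisor

/-!
# STZ/SqL4: the fourth moment with a loss of N^ε

PROOF. `‖u(t)‖² = ∑_{n,m} c_n conj(c_m) e((n²-m²)t) = ∑_k a_k e(kt)`,
`a_k = ∑_{n²-m²=k} c_n conj(c_m)`, `|k| ≤ N²`. Orthogonality of `e(kt)` on `[0,1]`:
`∫_0^1 ‖u‖⁴ = ∑_k |a_k|²`. `a_0 = ∑|c_n|² = A²` (`n, m ≥ 1`). For `k ≠ 0` the number of pairs
`(n,m)`, `n, m ≥ 1`, with `(n-m)(n+m) = k` is at most `τ(|k|) ≤ C N^ε` (divisor bound
`Pool.Agent.Pal.card_divisors_le_rpow` with exponent `ε/2` and `|k| ≤ N²`), so by Cauchy-Schwarz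
`|a_k|² ≤ C N^ε ∑_{n²-m²=k} |c_n|²|c_m|²`. Sum: `∫ ‖u‖⁴ ≤ A⁴ + C N^ε A⁴`.
-/

open MeasureTheory Complex
open scoped Real ComplexConjugate

namespace STZ

private lemma int_exp_zero (k : ℤ) (hk : k ≠ 0) :
    ∫ t in (0 : ℝ)..1, cexp (2 * π * I * (((k : ℝ) * t : ℝ) : ℂ)) = 0 := by
  have hc : (2 * (π : ℂ) * I * (k : ℂ)) ≠ 0 := by
    have : (π : ℂ) ≠ 0 := by exact_mod_cast Real.pi_ne_zero
    have hk' : (k : ℂ) ≠ 0 := by exact_mod_cast hk
    simp [this, hk', I_ne_zero]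
  have h1 : ∀ t : ℝ, cexp (2 * π * I * (((k : ℝ) * t : ℝ) : ℂ)) =
      cexp ((2 * (π : ℂ) * I * (k : ℂ)) * t) := by
    intro t; congr 1; push_cast; ring
  simp_rw [h1]
  rw [integral_exp_mul_complex hc]
  have h2 : cexp (2 * (π : ℂ) * I * (k : ℂ) * ((1 : ℝ) : ℂ)) = 1 := by
    rw [show 2 * (π : ℂ) * I * (k : ℂ) * ((1 : ℝ) : ℂ) = (k : ℂ) * (2 * π * I) by push_cast; ring]
    exact Complex.exp_int_mul_two_pi_mul_I k
  rw [h2]
  simp

private lemma parseval_fin (K : Finset ℤ) (a : ℤ → ℂ) :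
    ∫ t in Set.Icc (0 : ℝ) 1, ‖∑ k ∈ K, a k * cexp (2 * π * I * (((k : ℝ) * t : ℝ) : ℂ))‖ ^ 2 =
      ∑ k ∈ K, ‖a k‖ ^ 2 := by
  have hconj : ∀ (k : ℤ) (t : ℝ), conj (cexp (2 * π * I * (((k : ℝ) * t : ℝ) : ℂ))) =
      cexp (2 * π * I * ((((-k : ℤ) : ℝ) * t : ℝ) : ℂ)) := by
    intro k t
    rw [← Complex.exp_conj]
    congr 1
    simp only [map_mul, conj_I, conj_ofReal, map_ofNat]
    push_cast
    ring
  have h1 : ∀ t : ℝ,
      (((‖∑ k ∈ K, a k * cexp (2 * π * I * (((k : ℝ) * t : ℝ) : ℂ))‖ ^ 2 : ℝ)) : ℂ) =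
      ∑ k ∈ K, ∑ l ∈ K, (a k * conj (a l)) *
        cexp (2 * π * I * ((((k - l : ℤ) : ℝ) * t : ℝ) : ℂ)) := by
    intro t
    have := Complex.mul_conj' (∑ k ∈ K, a k * cexp (2 * π * I * (((k : ℝ) * t : ℝ) : ℂ)))
    rw [Complex.ofReal_pow, ← this, map_sum, Finset.sum_mul_sum]
    apply Finset.sum_congr rfl; intro k _
    apply Finset.sum_congr rfl; intro l _
    rw [map_mul, hconj]
    rw [show a k * cexp (2 * π * I * (((k : ℝ) * t : ℝ) : ℂ)) *
      (conj (a l) * cexp (2 * π * I * ((((-l : ℤ) : ℝ) * t : ℝ) : ℂ))) =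
      (a k * conj (a l)) * (cexp (2 * π * I * (((k : ℝ) * t : ℝ) : ℂ)) *
      cexp (2 * π * I * ((((-l : ℤ) : ℝ) * t : ℝ) : ℂ))) by ring, ← Complex.exp_add]
    congr 2
    push_cast
    ring
  have h2 : ((∫ t in Set.Icc (0 : ℝ) 1,
      ‖∑ k ∈ K, a k * cexp (2 * π * I * (((k : ℝ) * t : ℝ) : ℂ))‖ ^ 2 : ℝ) : ℂ) =
      ((∑ k ∈ K, ‖a k‖ ^ 2 : ℝ) : ℂ) := by
    rw [← integral_complex_ofReal]
    simp_rw [h1]
    rw [integral_Icc_eq_integral_Ioc, ← intervalIntegral.integral_of_le zero_le_one]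
    rw [intervalIntegral.integral_finsetSum]
    · have : ∀ k ∈ K, ∫ t in (0 : ℝ)..1, ∑ l ∈ K, (a k * conj (a l)) *
          cexp (2 * π * I * ((((k - l : ℤ) : ℝ) * t : ℝ) : ℂ)) = ((‖a k‖ ^ 2 : ℝ) : ℂ) := by
        intro k hk
        rw [intervalIntegral.integral_finsetSum]
        · rw [Finset.sum_eq_single k]
          · rw [intervalIntegral.integral_const_mul]
            simp only [sub_self, Int.cast_zero, zero_mul, ofReal_zero, mul_zero, Complex.exp_zero,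
              intervalIntegral.integral_const, sub_zero, one_smul, mul_one]
            rw [Complex.mul_conj']; push_cast; rfl
          · intro l _ hl
            rw [intervalIntegral.integral_const_mul, int_exp_zero _ (sub_ne_zero.mpr hl.symm),
              mul_zero]
          · intro h; exact absurd hk h
        · intro l _
          apply Continuous.intervalIntegrable
          fun_prop
      rw [Finset.sum_congr rfl this]
      push_cast; rfl
    · intro k _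
      apply Continuous.intervalIntegrable
      fun_prop
  exact_mod_cast h2

private lemma fiber_card (N : ℕ) (k : ℤ) (hk : k ≠ 0) :
    (((Finset.Icc 1 N) ×ˢ (Finset.Icc 1 N)).filter
      (fun p : ℕ × ℕ => ((p.1 : ℤ) ^ 2 - (p.2 : ℤ) ^ 2) = k)).card ≤ k.natAbs.divisors.card := by
  apply Finset.card_le_card_of_injOn (fun p => p.1 + p.2)
  · intro p hp
    simp only [Finset.coe_filter, Finset.mem_product, Finset.mem_Icc] at hp
    obtain ⟨_, hp2⟩ := hp
    simp only [Finset.mem_coe, Nat.mem_divisors]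
    refine ⟨?_, by simpa using hk⟩
    rw [← Int.natCast_dvd_natCast, Int.dvd_natAbs]
    refine ⟨(p.1 : ℤ) - p.2, ?_⟩
    rw [← hp2]; push_cast; ring
  · intro p hp q hq hpq
    simp only [Finset.coe_filter, Finset.mem_product, Finset.mem_Icc] at hp hq
    obtain ⟨⟨hp1, _⟩, hp2⟩ := hp
    obtain ⟨⟨hq1, _⟩, hq2⟩ := hq
    have hs : (p.1 : ℤ) + p.2 = (q.1 : ℤ) + q.2 := by exact_mod_cast hpq
    have hpos : (0 : ℤ) < (q.1 : ℤ) + q.2 := by
      have := hq1.1; omega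
    have hd : (p.1 : ℤ) - p.2 = (q.1 : ℤ) - q.2 := by
      have h1 : ((p.1 : ℤ) + p.2) * ((p.1 : ℤ) - p.2) = ((q.1 : ℤ) + q.2) * ((q.1 : ℤ) - q.2) := by
        linear_combination hp2 - hq2
      rw [hs] at h1
      exact mul_left_cancel₀ hpos.ne' h1
    ext <;> omega

theorem sq_L4 (ε : ℝ) (hε : 0 < ε) : ∃ C : ℝ, 1 ≤ C ∧ ∀ (N : ℕ) (c : ℕ → ℂ), 1 ≤ N →
    ∫ t in Set.Icc (0 : ℝ) 1, ‖sqs N c t‖ ^ 4 ≤
      C * (N : ℝ) ^ ε * (∑ n ∈ Finset.Icc 1 N, ‖c n‖ ^ 2) ^ 2 := by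
  obtain ⟨D, hD, hdiv⟩ := Pool.Agent.Pal.card_divisors_le_rpow (show 0 < ε / 2 by positivity)
  refine ⟨2 * D, by linarith, fun N c hN => ?_⟩
  have hN' : (1 : ℝ) ≤ N := by exact_mod_cast hN
  have hNε : (1 : ℝ) ≤ (N : ℝ) ^ ε := Real.one_le_rpow hN' hε.le
  set P : Finset (ℕ × ℕ) := (Finset.Icc 1 N) ×ˢ (Finset.Icc 1 N) with hP
  set g : ℕ × ℕ → ℤ := fun p => (p.1 : ℤ) ^ 2 - (p.2 : ℤ) ^ 2 with hg
  set K : Finset ℤ := P.image g with hK
  set a : ℤ → ℂ := fun k => ∑ p ∈ P.filter (fun p => g p = k), c p.1 * conj (c p.2) with ha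
  have hmaps : ∀ p ∈ P, g p ∈ K := fun p hp => Finset.mem_image_of_mem g hp
  have hu : ∀ t : ℝ, ‖sqs N c t‖ ^ 4 =
      ‖∑ k ∈ K, a k * cexp (2 * π * I * (((k : ℝ) * t : ℝ) : ℂ))‖ ^ 2 := by
    intro t
    have h1 : sqs N c t * conj (sqs N c t) =
        ∑ k ∈ K, a k * cexp (2 * π * I * (((k : ℝ) * t : ℝ) : ℂ)) := by
      unfold sqs
      rw [map_sum, Finset.sum_mul_sum, ← Finset.sum_product', ← hP,
        ← Finset.sum_fiberwise_of_maps_to hmaps]
      apply Finset.sum_congr rfl; intro k _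
      rw [ha, Finset.sum_mul]
      apply Finset.sum_congr rfl; intro p hp
      have hp2 : g p = k := (Finset.mem_filter.mp hp).2
      rw [map_mul, ← Complex.exp_conj]
      rw [show c p.1 * cexp (2 * π * I * (((p.1 : ℝ) ^ 2 * t : ℝ) : ℂ)) *
        (conj (c p.2) * cexp (conj (2 * π * I * (((p.2 : ℝ) ^ 2 * t : ℝ) : ℂ)))) =
        (c p.1 * conj (c p.2)) * (cexp (2 * π * I * (((p.1 : ℝ) ^ 2 * t : ℝ) : ℂ)) *
        cexp (conj (2 * π * I * (((p.2 : ℝ) ^ 2 * t : ℝ) : ℂ)))) by ring, ← Complex.exp_add]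
      congr 2
      simp only [map_mul, conj_I, conj_ofReal, map_ofNat]
      rw [← hp2, hg]
      push_cast
      ring
    rw [← h1, norm_mul, RCLike.norm_conj]
    ring
  simp_rw [hu]
  rw [parseval_fin]
  set A : ℝ := ∑ n ∈ Finset.Icc 1 N, ‖c n‖ ^ 2 with hA
  have hA0 : 0 ≤ A := Finset.sum_nonneg (fun _ _ => by positivity)
  set w : ℕ × ℕ → ℝ := fun p => ‖c p.1‖ ^ 2 * ‖c p.2‖ ^ 2 with hw
  have hsumw : ∑ p ∈ P, w p = A ^ 2 := by
    rw [sq, hA, Finset.sum_mul_sum, ← Finset.sum_product']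
  have hw0 : ∀ p, 0 ≤ w p := fun p => by positivity
  -- bound for each `k`
  have hk : ∀ k ∈ K, ‖a k‖ ^ 2 ≤ (if k = 0 then A ^ 2 else 0) +
      D * (N : ℝ) ^ ε * ∑ p ∈ P.filter (fun p => g p = k), w p := by
    intro k hkK
    have hnn : 0 ≤ D * (N : ℝ) ^ ε * ∑ p ∈ P.filter (fun p => g p = k), w p := by
      have : 0 ≤ ∑ p ∈ P.filter (fun p => g p = k), w p := Finset.sum_nonneg (fun p _ => hw0 p)
      positivity
    by_cases h0 : k = 0
    · rw [if_pos h0]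
      have : ‖a k‖ ≤ A := by
        subst h0
        have hfil : P.filter (fun p => g p = 0) = (Finset.Icc 1 N).image (fun n => (n, n)) := by
          ext ⟨n, m⟩
          simp only [hP, hg, Finset.mem_filter, Finset.mem_product, Finset.mem_Icc,
            Finset.mem_image, Prod.mk.injEq]
          constructor
          · rintro ⟨⟨⟨h1, h2⟩, h3, h4⟩, h5⟩
            have : (n : ℤ) ^ 2 = (m : ℤ) ^ 2 := by linarith
            have h6 : n = m := by
              have h7 : n ^ 2 = m ^ 2 := by exact_mod_cast this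
              exact Nat.pow_left_injective (n := 2) (by norm_num) h7
            exact ⟨n, ⟨h1, h2⟩, rfl, h6⟩
          · rintro ⟨j, ⟨h1, h2⟩, rfl, rfl⟩
            exact ⟨⟨⟨h1, h2⟩, h1, h2⟩, by ring⟩
        rw [ha]
        simp only
        rw [hfil, Finset.sum_image (fun x _ y _ h => (Prod.mk.inj h).1)]
        refine (norm_sum_le _ _).trans ?_
        rw [hA]
        apply Finset.sum_le_sum
        intro n _
        rw [norm_mul, RCLike.norm_conj]
        exact (sq _).ge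
      calc ‖a k‖ ^ 2 ≤ A ^ 2 := by gcongr
        _ ≤ _ := by linarith
    · rw [if_neg h0, zero_add]
      have hcs : ‖a k‖ ^ 2 ≤ ((P.filter (fun p => g p = k)).card : ℝ) *
          ∑ p ∈ P.filter (fun p => g p = k), w p := by
        have h1 : ‖a k‖ ≤ ∑ p ∈ P.filter (fun p => g p = k), ‖c p.1‖ * ‖c p.2‖ := by
          refine (norm_sum_le _ _).trans (le_of_eq ?_)
          apply Finset.sum_congr rfl; intro p _
          rw [norm_mul, RCLike.norm_conj]
        calc ‖a k‖ ^ 2 ≤ (∑ p ∈ P.filter (fun p => g p = k), ‖c p.1‖ * ‖c p.2‖) ^ 2 := by gcongr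
          _ ≤ ((P.filter (fun p => g p = k)).card : ℝ) *
              ∑ p ∈ P.filter (fun p => g p = k), (‖c p.1‖ * ‖c p.2‖) ^ 2 :=
                sq_sum_le_card_mul_sum_sq
          _ = _ := by
            congr 1
            apply Finset.sum_congr rfl; intro p _
            rw [hw]; ring
      refine hcs.trans ?_
      apply mul_le_mul_of_nonneg_right _ (Finset.sum_nonneg (fun p _ => hw0 p))
      have hkabs : 1 ≤ k.natAbs := Int.natAbs_pos.mpr h0
      have hkN : (k.natAbs : ℝ) ≤ (N : ℝ) ^ 2 := by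
        obtain ⟨p, hpP, hpk⟩ := Finset.mem_image.mp hkK
        simp only [hP, Finset.mem_product, Finset.mem_Icc] at hpP
        obtain ⟨⟨h1, h2⟩, h3, h4⟩ := hpP
        have h1' : (1 : ℤ) ≤ p.1 := by exact_mod_cast h1
        have h2' : (p.1 : ℤ) ≤ N := by exact_mod_cast h2
        have h3' : (1 : ℤ) ≤ p.2 := by exact_mod_cast h3
        have h4' : (p.2 : ℤ) ≤ N := by exact_mod_cast h4
        have habs : |k| ≤ (N : ℤ) ^ 2 := by
          rw [← hpk, hg, abs_le]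
          constructor <;> nlinarith
        have : ((k.natAbs : ℤ)) ≤ (N : ℤ) ^ 2 := by rw [Int.natCast_natAbs]; exact habs
        exact_mod_cast this
      calc ((P.filter (fun p => g p = k)).card : ℝ) ≤ (k.natAbs.divisors.card : ℝ) := by
            have hfc := fiber_card N k h0
            exact Nat.cast_le.mpr hfc
        _ ≤ D * (k.natAbs : ℝ) ^ (ε / 2) := hdiv _ hkabs
        _ ≤ D * ((N : ℝ) ^ 2) ^ (ε / 2) := by
          gcongr
        _ = D * (N : ℝ) ^ ε := by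
          congr 1
          rw [← Real.rpow_natCast, ← Real.rpow_mul (by positivity)]
          congr 1
          push_cast; ring
  have hfib : ∑ k ∈ K, ∑ p ∈ P.filter (fun p => g p = k), w p = A ^ 2 := by
    rw [Finset.sum_fiberwise_of_maps_to hmaps, hsumw]
  calc ∑ k ∈ K, ‖a k‖ ^ 2 ≤ ∑ k ∈ K, ((if k = 0 then A ^ 2 else 0) +
      D * (N : ℝ) ^ ε * ∑ p ∈ P.filter (fun p => g p = k), w p) := Finset.sum_le_sum hk
    _ = (∑ k ∈ K, if k = 0 then A ^ 2 else 0) + D * (N : ℝ) ^ ε * A ^ 2 := by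
      rw [Finset.sum_add_distrib, ← Finset.mul_sum, hfib]
    _ ≤ A ^ 2 + D * (N : ℝ) ^ ε * A ^ 2 := by
      gcongr
      rw [Finset.sum_ite_eq']
      split_ifs
      · exact le_rfl
      · positivity
    _ ≤ 2 * D * (N : ℝ) ^ ε * A ^ 2 := by
      have : 1 ≤ D * (N : ℝ) ^ ε := by nlinarith
      nlinarith [sq_nonneg A]

end STZ
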