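import Pool.Agent.STZ.SqLarge
import Pool.Agent.STZ.SqL4
import Pool.Agent.STZ.Distr

/-!
# STZ/LamQ: the Λ(q) property of the squares (Bourgain), q > 4

PROOF. `lam_sq`: `p0 = (4+q)/2 ∈ (4,q)`, `A² = ∑|c_n|²`, `A > 0`. For every `lam > 0`:
`|{‖u‖ > lam}| ≤ C N^(p0/2-2) A^p0 lam^(-p0)`. If `lam ≥ K N^(1/4) A` this is `sq_large` (for `N ≥ 2`).
Otherwise by Chebyshev and `sq_L4` with `ε = (p0-4)/4`:
`|{‖u‖ > lam}| ≤ C N^ε A⁴ lam^-4 = C N^ε A⁴ lam^(p0-4) lam^(-p0) ≤ C K^(p0-4) N^(ε + (p0-4)/4) A^p0 lam^(-p0)`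
and `ε + (p0-4)/4 = (p0-4)/2 = p0/2 - 2`. (For `N = 1` the function is constant of modulus
`|c_1|`, everything is trivial; or treat `N = 1` with the second case for all `lam`, noting that
the set is empty for `lam ≥ A N^(1/2)`.) Then `weak_strong` with the bound `‖u‖ ≤ N^(1/2) A`:
`∫ ‖u‖^q ≤ C N^(p0/2-2) A^p0 (N^(1/2) A)^(q-p0) = C N^(q/2-2) A^q`.
-/

open MeasureTheory Complex
open scoped Real

namespace STZ

private lemma lamq_cont (N : ℕ) (c : ℕ → ℂ) : Continuous (sqs N c) := by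
  unfold sqs
  refine continuous_finsetSum _ fun n _ => ?_
  refine continuous_const.mul (Complex.continuous_exp.comp ?_)
  exact continuous_const.mul (Complex.continuous_ofReal.comp (continuous_const.mul continuous_id))

private lemma lamq_bound (N : ℕ) (c : ℕ → ℂ) (t : ℝ) :
    ‖sqs N c t‖ ≤ (N : ℝ) ^ (1 / 2 : ℝ) * (∑ n ∈ Finset.Icc 1 N, ‖c n‖ ^ 2) ^ (1 / 2 : ℝ) := by
  have h1 : ‖sqs N c t‖ ≤ ∑ n ∈ Finset.Icc 1 N, ‖c n‖ := by
    unfold sqs
    refine (norm_sum_le _ _).trans (Finset.sum_le_sum fun n _ => ?_)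
    rw [norm_mul, show (2 * π * I * (((n : ℝ) ^ 2 * t : ℝ) : ℂ)) =
      ((2 * π * ((n : ℝ) ^ 2 * t) : ℝ) : ℂ) * I by push_cast; ring,
      Complex.norm_exp_ofReal_mul_I, mul_one]
  have h2 : (∑ n ∈ Finset.Icc 1 N, ‖c n‖) ^ 2 ≤ N * ∑ n ∈ Finset.Icc 1 N, ‖c n‖ ^ 2 := by
    have := sq_sum_le_card_mul_sum_sq (s := Finset.Icc 1 N) (f := fun n => ‖c n‖)
    simpa using this
  rw [← Real.sqrt_eq_rpow, ← Real.sqrt_eq_rpow, ← Real.sqrt_mul (by positivity)]
  exact h1.trans (Real.le_sqrt_of_sq_le h2)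

private lemma lamq_cheb {v : ℝ → ℝ} (hv : Continuous v) (hv0 : ∀ t, 0 ≤ v t) (lam : ℝ)
    (hlam : 0 < lam) :
    (volume.restrict (Set.Icc (0 : ℝ) 1)).real {t | lam < v t} * lam ^ 4 ≤
      ∫ t in Set.Icc (0 : ℝ) 1, v t ^ 4 := by
  have hint : Integrable (fun t => v t ^ 4) (volume.restrict (Set.Icc (0 : ℝ) 1)) :=
    (hv.pow 4).continuousOn.integrableOn_compact isCompact_Icc
  have h1 := mul_meas_ge_le_integral_of_nonneg (μ := volume.restrict (Set.Icc (0 : ℝ) 1))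
    (f := fun t => v t ^ 4) (Filter.Eventually.of_forall fun t => pow_nonneg (hv0 t) 4) hint
    (lam ^ 4)
  have h2 : (volume.restrict (Set.Icc (0 : ℝ) 1)).real {t | lam < v t} ≤
      (volume.restrict (Set.Icc (0 : ℝ) 1)).real {t | lam ^ 4 ≤ v t ^ 4} := by
    refine measureReal_mono (fun t ht => ?_)
    exact pow_le_pow_left₀ hlam.le (le_of_lt ht) 4
  have h3 : 0 ≤ lam ^ 4 := by positivity
  nlinarith

theorem lam_sq (q : ℝ) (hq : 4 < q) : ∃ C : ℝ, 0 < C ∧ ∀ (N : ℕ) (c : ℕ → ℂ), 1 ≤ N →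
    ∫ t in Set.Icc (0 : ℝ) 1, ‖sqs N c t‖ ^ q ≤
      C * (N : ℝ) ^ (q / 2 - 2) * (∑ n ∈ Finset.Icc 1 N, ‖c n‖ ^ 2) ^ (q / 2) := by
  obtain ⟨p0, hp0⟩ : ∃ p0 : ℝ, p0 = (4 + q) / 2 := ⟨_, rfl⟩
  have hp4 : 4 < p0 := by linarith
  have hpq : p0 < q := by linarith
  obtain ⟨C1, K, hC1, hK, hlarge⟩ := sq_large p0 hp4
  obtain ⟨C2, hC2, hL4⟩ := sq_L4 ((p0 - 4) / 4) (by linarith)
  obtain ⟨C', hC'⟩ : ∃ C' : ℝ, C' = C1 + C2 * K ^ (p0 - 4) := ⟨_, rfl⟩
  have hKp : 0 < K ^ (p0 - 4) := Real.rpow_pos_of_pos (by linarith) _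
  have hC'1 : C1 ≤ C' := by rw [hC']; nlinarith [mul_pos (by linarith : 0 < C2) hKp]
  have hC'2 : C2 * K ^ (p0 - 4) ≤ C' := by rw [hC']; linarith
  have hC'0 : 0 < C' := by linarith
  refine ⟨q / (q - p0) * C', by
    have : 0 < q - p0 := by linarith
    have : 0 < q := by linarith
    positivity, fun N c hN => ?_⟩
  have hN0 : (0 : ℝ) < N := by exact_mod_cast hN
  have hN1 : (1 : ℝ) ≤ N := by exact_mod_cast hN
  obtain ⟨A2, hA2⟩ : ∃ A2 : ℝ, A2 = ∑ n ∈ Finset.Icc 1 N, ‖c n‖ ^ 2 := ⟨_, rfl⟩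
  have hbd : ∀ t, ‖sqs N c t‖ ≤ (N : ℝ) ^ (1 / 2 : ℝ) * A2 ^ (1 / 2 : ℝ) := by
    intro t; rw [hA2]; exact lamq_bound N c t
  have hA20 : 0 ≤ A2 := by rw [hA2]; positivity
  rw [← hA2]
  rcases hA20.eq_or_lt with hz | hpos
  · -- everything vanishes
    have h0 : ∀ t, ‖sqs N c t‖ ^ q = 0 := by
      intro t
      have h1 := hbd t
      rw [← hz, Real.zero_rpow (by norm_num), mul_zero] at h1
      have h2 : ‖sqs N c t‖ = 0 := le_antisymm h1 (norm_nonneg _)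
      rw [h2, Real.zero_rpow (by linarith)]
    simp only [h0, integral_zero]
    rw [← hz, Real.zero_rpow (by linarith), mul_zero]
  · have hA : 0 < A2 ^ (1 / 2 : ℝ) := Real.rpow_pos_of_pos hpos _
    have hkey : ∀ lam : ℝ, 0 < lam →
        (volume.restrict (Set.Icc (0 : ℝ) 1)).real {t | lam < ‖sqs N c t‖} ≤
          (C' * (N : ℝ) ^ (p0 / 2 - 2) * A2 ^ (p0 / 2)) * lam ^ (-p0) := by
      intro lam hlam
      have hrhs : 0 ≤ (N : ℝ) ^ (p0 / 2 - 2) * A2 ^ (p0 / 2) * lam ^ (-p0) := by positivity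
      by_cases hcase : K * (N : ℝ) ^ (1 / 4 : ℝ) * A2 ^ (1 / 2 : ℝ) ≤ lam
      · rcases Nat.lt_or_ge N 2 with hN2 | hN2
        · have hN1' : N = 1 := by omega
          have hemp : {t | lam < ‖sqs N c t‖} = ∅ := by
            ext t
            simp only [Set.mem_ofPred_eq, Set.mem_empty_iff_false, iff_false, not_lt]
            have h1 := hbd t
            subst hN1'
            simp only [Nat.cast_one, Real.one_rpow, one_mul, mul_one] at h1 hcase
            nlinarith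
          rw [hemp]
          simp only [measureReal_empty]
          positivity
        · have h1 := hlarge N c lam hN2 hlam (by rw [← hA2]; exact hcase)
          rw [← hA2] at h1
          have h2 : (volume.restrict (Set.Icc (0 : ℝ) 1)).real {t | lam < ‖sqs N c t‖} ≤
              volume.real {t : ℝ | t ∈ Set.Icc 0 1 ∧ lam ≤ ‖sqs N c t‖} := by
            rw [measureReal_restrict_apply
              (measurableSet_lt measurable_const (lamq_cont N c).norm.measurable)]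
            refine measureReal_mono (fun t ht => ⟨ht.2, le_of_lt ht.1⟩) ?_
            refine ((measure_mono (fun t ht => ht.1)).trans_lt
              (isCompact_Icc (a := (0 : ℝ)) (b := 1)).measure_lt_top).ne
          calc _ ≤ _ := h2
            _ ≤ _ := h1
            _ = C1 * ((N : ℝ) ^ (p0 / 2 - 2) * A2 ^ (p0 / 2) * lam ^ (-p0)) := by ring
            _ ≤ C' * ((N : ℝ) ^ (p0 / 2 - 2) * A2 ^ (p0 / 2) * lam ^ (-p0)) :=
                mul_le_mul_of_nonneg_right hC'1 hrhs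
            _ = _ := by ring
      · rw [not_le] at hcase
        have h1 := lamq_cheb (lamq_cont N c).norm (fun t => norm_nonneg _) lam hlam
        have h2 := hL4 N c hN
        rw [← hA2] at h2
        have h3 : lam ^ (p0 - 4) ≤ K ^ (p0 - 4) * (N : ℝ) ^ ((p0 - 4) / 4) * A2 ^ ((p0 - 4) / 2) := by
          calc lam ^ (p0 - 4) ≤ (K * (N : ℝ) ^ (1 / 4 : ℝ) * A2 ^ (1 / 2 : ℝ)) ^ (p0 - 4) :=
                Real.rpow_le_rpow hlam.le hcase.le (by linarith)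
            _ = K ^ (p0 - 4) * (N : ℝ) ^ ((p0 - 4) / 4) * A2 ^ ((p0 - 4) / 2) := by
                rw [Real.mul_rpow (by positivity) hA.le, Real.mul_rpow (by linarith) (by positivity),
                  ← Real.rpow_mul hN0.le, ← Real.rpow_mul hpos.le]
                rw [show (1 / 4 : ℝ) * (p0 - 4) = (p0 - 4) / 4 by ring,
                  show (1 / 2 : ℝ) * (p0 - 4) = (p0 - 4) / 2 by ring]
        have h4 : lam ^ (-p0) * lam ^ (p0 - 4) * lam ^ 4 = 1 := by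
          rw [← Real.rpow_natCast lam 4, ← Real.rpow_add hlam, ← Real.rpow_add hlam]
          have : -p0 + (p0 - 4) + ((4 : ℕ) : ℝ) = 0 := by push_cast; ring
          rw [this, Real.rpow_zero]
        have h5 : (N : ℝ) ^ ((p0 - 4) / 4) * (N : ℝ) ^ ((p0 - 4) / 4) = (N : ℝ) ^ (p0 / 2 - 2) := by
          rw [← Real.rpow_add hN0]; congr 1; ring
        have h6 : A2 ^ 2 * A2 ^ ((p0 - 4) / 2) = A2 ^ (p0 / 2) := by
          rw [← Real.rpow_natCast A2 2, ← Real.rpow_add hpos]; congr 1; push_cast; ring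
        have h7 : 0 < lam ^ 4 := by positivity
        have h8 : (volume.restrict (Set.Icc (0 : ℝ) 1)).real {t | lam < ‖sqs N c t‖} * lam ^ 4 ≤
            (C' * (N : ℝ) ^ (p0 / 2 - 2) * A2 ^ (p0 / 2)) * lam ^ (-p0) * lam ^ 4 := by
          calc _ ≤ _ := h1
            _ ≤ C2 * (N : ℝ) ^ ((p0 - 4) / 4) * A2 ^ 2 := h2
            _ = C2 * (N : ℝ) ^ ((p0 - 4) / 4) * A2 ^ 2 *
                  (lam ^ (-p0) * lam ^ (p0 - 4) * lam ^ 4) := by rw [h4, mul_one]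
            _ = (C2 * (N : ℝ) ^ ((p0 - 4) / 4) * A2 ^ 2 * (lam ^ (-p0) * lam ^ 4)) *
                  lam ^ (p0 - 4) := by ring
            _ ≤ (C2 * (N : ℝ) ^ ((p0 - 4) / 4) * A2 ^ 2 * (lam ^ (-p0) * lam ^ 4)) *
                  (K ^ (p0 - 4) * (N : ℝ) ^ ((p0 - 4) / 4) * A2 ^ ((p0 - 4) / 2)) :=
                mul_le_mul_of_nonneg_left h3 (by positivity)
            _ = (C2 * K ^ (p0 - 4)) * (((N : ℝ) ^ ((p0 - 4) / 4) * (N : ℝ) ^ ((p0 - 4) / 4)) *
                  (A2 ^ 2 * A2 ^ ((p0 - 4) / 2)) * (lam ^ (-p0) * lam ^ 4)) := by ring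
            _ = (C2 * K ^ (p0 - 4)) * ((N : ℝ) ^ (p0 / 2 - 2) * A2 ^ (p0 / 2) *
                  (lam ^ (-p0) * lam ^ 4)) := by rw [h5, h6]
            _ ≤ C' * ((N : ℝ) ^ (p0 / 2 - 2) * A2 ^ (p0 / 2) * (lam ^ (-p0) * lam ^ 4)) :=
                mul_le_mul_of_nonneg_right hC'2 (by positivity)
            _ = _ := by ring
        exact le_of_mul_le_mul_right h8 h7
    have h9 := weak_strong (volume.restrict (Set.Icc (0 : ℝ) 1)) (fun t => ‖sqs N c t‖)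
      (lamq_cont N c).norm.measurable (fun t => norm_nonneg _)
      ((N : ℝ) ^ (1 / 2 : ℝ) * A2 ^ (1 / 2 : ℝ)) (C' * (N : ℝ) ^ (p0 / 2 - 2) * A2 ^ (p0 / 2))
      p0 q hbd (by positivity) (by positivity) (by linarith) hpq hkey
    refine h9.trans (le_of_eq ?_)
    rw [Real.mul_rpow (by positivity) hA.le, ← Real.rpow_mul hN0.le, ← Real.rpow_mul hpos.le]
    have e1 : (N : ℝ) ^ (p0 / 2 - 2) * (N : ℝ) ^ (1 / 2 * (q - p0)) = (N : ℝ) ^ (q / 2 - 2) := by
      rw [← Real.rpow_add hN0]; congr 1; ring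
    have e2 : A2 ^ (p0 / 2) * A2 ^ (1 / 2 * (q - p0)) = A2 ^ (q / 2) := by
      rw [← Real.rpow_add hpos]; congr 1; ring
    rw [← e1, ← e2]
    ring

end STZ
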