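import Pool.Agent.STZ.LamQ

/-!
# STZ/LamSU2: the Λ(q) estimate in the time variable of SU(2)

PROOF. `l(l+2) = n² - 1` with `n = l + 1 ≤ N + 1 ≤ 2N`. With `b = 1/(16 π β)` one has
`e^{-i t l(l+2)/(8β)} = e^{i t/(8β)} e(-n² b t)`, `e(x) = exp(2 π i x)`, so the modulus of the sum at
`t` is `‖sqs (2N) c' (-b t)‖`, `c' n = c (n-1)` if `n - 1 ∈ F`, else `0`. Change variables `s = -b t`:
`∫_0^{T0} ‖..‖^q dt = b⁻¹ ∫_{-bT0}^0 ‖sqs (2N) c' s‖^q ds ≤ b⁻¹ (⌈b T0⌉) ∫_0^1 ‖sqs (2N) c' s‖^q ds`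
(periodicity: `sqs` has period `1`; e.g. `Function.Periodic.intervalIntegral_add_eq` and
`∫_{-k}^0 = k ∫_0^1` for the natural number `k = ⌈b T0⌉`). Then `lam_sq` with `2N`:
`(2N)^(q/2-2) = 2^(q/2-2) N^(q/2-2)`.
-/

open MeasureTheory Complex
open scoped Real

namespace STZ

private lemma lamsu2_cont (N : ℕ) (c : ℕ → ℂ) : Continuous (sqs N c) := by
  unfold sqs
  refine continuous_finsetSum _ fun n _ => ?_
  refine continuous_const.mul (Complex.continuous_exp.comp ?_)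
  exact continuous_const.mul (Complex.continuous_ofReal.comp (continuous_const.mul continuous_id))

private lemma lamsu2_periodic (N : ℕ) (c : ℕ → ℂ) : Function.Periodic (sqs N c) 1 := by
  intro t
  unfold sqs
  refine Finset.sum_congr rfl fun n _ => ?_
  congr 1
  have h : 2 * π * I * (((n : ℝ) ^ 2 * (t + 1) : ℝ) : ℂ) =
      2 * π * I * (((n : ℝ) ^ 2 * t : ℝ) : ℂ) + ((n ^ 2 : ℕ) : ℂ) * (2 * π * I) := by
    push_cast; ring
  rw [h, Complex.exp_add, Complex.exp_nat_mul_two_pi_mul_I, mul_one]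

/-- Reindexing of a sum over `F` by `n = l + 1`. -/
private lemma lamsu2_reindex {M : Type*} [AddCommMonoid M] (N : ℕ) (hN : 1 ≤ N) (F : Finset ℕ)
    (hF : ∀ l ∈ F, l ≤ N) (c : ℕ → ℂ) (g : ℕ → ℂ → M) (hg : ∀ n, g n 0 = 0) :
    ∑ n ∈ Finset.Icc 1 (2 * N), g n (if n - 1 ∈ F then c (n - 1) else 0) =
      ∑ l ∈ F, g (l + 1) (c l) := by
  have h1 : ∑ n ∈ F.map (addRightEmbedding 1), g n (if n - 1 ∈ F then c (n - 1) else 0) =
      ∑ l ∈ F, g (l + 1) (c l) := by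
    rw [Finset.sum_map]
    refine Finset.sum_congr rfl fun l hl => ?_
    simp [hl]
  rw [← h1]
  symm
  refine Finset.sum_subset ?_ ?_
  · intro n hn
    rw [Finset.mem_map] at hn
    obtain ⟨l, hl, rfl⟩ := hn
    have := hF l hl
    simp only [addRightEmbedding_apply, Finset.mem_Icc]
    omega
  · intro n hn hn2
    rw [Finset.mem_Icc] at hn
    have h3 : n - 1 ∉ F := by
      intro h4
      apply hn2
      rw [Finset.mem_map]
      exact ⟨n - 1, h4, by simp only [addRightEmbedding_apply]; omega⟩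
    rw [if_neg h3, hg]

theorem lam_su2 (β T0 q : ℝ) (hβ : 0 < β) (hT0 : 0 < T0) (hq : 4 < q) : ∃ C : ℝ, 0 < C ∧
    ∀ (N : ℕ), 1 ≤ N → ∀ (F : Finset ℕ), (∀ l ∈ F, l ≤ N) → ∀ c : ℕ → ℂ,
      ∫ t in Set.Icc (0 : ℝ) T0,
        ‖∑ l ∈ F, cexp (-((t * ((l : ℝ) * ((l : ℝ) + 2) / (8 * β)) : ℝ) : ℂ) * I) * c l‖ ^ q ≤
      C * (N : ℝ) ^ (q / 2 - 2) * (∑ l ∈ F, ‖c l‖ ^ 2) ^ (q / 2) := by
  obtain ⟨C1, hC1, hlam⟩ := lam_sq q hq
  obtain ⟨b, hb⟩ : ∃ b : ℝ, b = 1 / (16 * π * β) := ⟨_, rfl⟩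
  have hb0 : 0 < b := by rw [hb]; have := Real.pi_pos; positivity
  obtain ⟨k, hk⟩ : ∃ k : ℕ, k = ⌈b * T0⌉₊ := ⟨_, rfl⟩
  have hk0 : 0 < k := by rw [hk]; exact Nat.ceil_pos.2 (by positivity)
  have hk1 : b * T0 ≤ k := by rw [hk]; exact Nat.le_ceil _
  have hkr : (0 : ℝ) < k := by exact_mod_cast hk0
  refine ⟨b⁻¹ * (k * (C1 * 2 ^ (q / 2 - 2))), by positivity, fun N hN F hF c => ?_⟩
  have hN0 : (0 : ℝ) < N := by exact_mod_cast hN
  obtain ⟨c', hc'⟩ : ∃ c' : ℕ → ℂ, c' = fun n => if n - 1 ∈ F then c (n - 1) else 0 := ⟨_, rfl⟩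
  have hsum : ∑ n ∈ Finset.Icc 1 (2 * N), ‖c' n‖ ^ 2 = ∑ l ∈ F, ‖c l‖ ^ 2 := by
    rw [hc']
    exact lamsu2_reindex N hN F hF c (fun _ z => ‖z‖ ^ 2) (fun _ => by simp)
  have hsqs : ∀ t : ℝ,
      ‖∑ l ∈ F, cexp (-((t * ((l : ℝ) * ((l : ℝ) + 2) / (8 * β)) : ℝ) : ℂ) * I) * c l‖ =
        ‖sqs (2 * N) c' (-b * t)‖ := by
    intro t
    have h1 : sqs (2 * N) c' (-b * t) =
        ∑ l ∈ F, c l * cexp (2 * π * I * ((((l + 1 : ℕ) : ℝ) ^ 2 * (-b * t) : ℝ) : ℂ)) := by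
      unfold sqs
      rw [hc']
      exact lamsu2_reindex N hN F hF c
        (fun n z => z * cexp (2 * π * I * (((n : ℝ) ^ 2 * (-b * t) : ℝ) : ℂ))) (fun _ => by simp)
    have h2 : ∑ l ∈ F, cexp (-((t * ((l : ℝ) * ((l : ℝ) + 2) / (8 * β)) : ℝ) : ℂ) * I) * c l =
        cexp (((t / (8 * β) : ℝ) : ℂ) * I) * sqs (2 * N) c' (-b * t) := by
      rw [h1, Finset.mul_sum]
      refine Finset.sum_congr rfl fun l _ => ?_
      have h3 : -((t * ((l : ℝ) * ((l : ℝ) + 2) / (8 * β)) : ℝ) : ℂ) * I =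
          ((t / (8 * β) : ℝ) : ℂ) * I +
            2 * π * I * ((((l + 1 : ℕ) : ℝ) ^ 2 * (-b * t) : ℝ) : ℂ) := by
        have h4 : (-(t * ((l : ℝ) * ((l : ℝ) + 2) / (8 * β))) : ℝ) =
            t / (8 * β) + 2 * π * (((l + 1 : ℕ) : ℝ) ^ 2 * (-b * t)) := by
          rw [hb]
          have := Real.pi_ne_zero
          push_cast
          field_simp
          ring
        have h5 := congrArg (fun x : ℝ => (x : ℂ) * I) h4
        push_cast at h5 ⊢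
        linear_combination h5
      rw [h3, Complex.exp_add]
      ring
    rw [h2, norm_mul, Complex.norm_exp_ofReal_mul_I, one_mul]
  simp only [hsqs]
  obtain ⟨φ, hφ⟩ : ∃ φ : ℝ → ℝ, φ = fun s => ‖sqs (2 * N) c' s‖ ^ q := ⟨_, rfl⟩
  have hφc : Continuous φ := by
    rw [hφ]
    exact (lamsu2_cont _ _).norm.rpow_const fun _ => Or.inr (by linarith)
  have hφp : Function.Periodic φ 1 := by
    intro s
    rw [hφ]
    simp only
    rw [lamsu2_periodic (2 * N) c' s]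
  have hφ0 : ∀ s, 0 ≤ φ s := fun s => by rw [hφ]; positivity
  have hint : ∀ t₁ t₂, IntervalIntegrable φ volume t₁ t₂ := fun t₁ t₂ =>
    hφc.intervalIntegrable t₁ t₂
  have e1 : ∫ t in Set.Icc (0 : ℝ) T0, ‖sqs (2 * N) c' (-b * t)‖ ^ q =
      ∫ t in (0 : ℝ)..T0, φ (-b * t) := by
    rw [integral_Icc_eq_integral_Ioc, intervalIntegral.integral_of_le hT0.le, hφ]
  have e2 : ∫ t in (0 : ℝ)..T0, φ (-b * t) = b⁻¹ * ∫ s in (-(b * T0))..0, φ s := by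
    rw [intervalIntegral.integral_comp_mul_left φ (by linarith : -b ≠ 0)]
    rw [mul_zero, intervalIntegral.integral_symm, smul_eq_mul, inv_neg]
    rw [show -b * T0 = -(b * T0) by ring]
    ring
  have e3 : ∫ s in (-(b * T0))..0, φ s ≤ ∫ s in (-(k : ℝ))..0, φ s := by
    refine intervalIntegral.integral_mono_interval (by linarith) ?_ le_rfl
      (Filter.Eventually.of_forall hφ0) (hint _ _)
    have : 0 < b * T0 := by positivity
    linarith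
  have e4 : ∫ s in (-(k : ℝ))..0, φ s = k * ∫ s in (0 : ℝ)..1, φ s := by
    have h1 := hφp.intervalIntegral_add_zsmul_eq (k : ℤ) (-(k : ℝ)) hint
    have h2 := hφp.intervalIntegral_add_eq (-(k : ℝ)) 0
    rw [h2] at h1
    have h3 : -(k : ℝ) + ((k : ℤ) • (1 : ℝ)) = 0 := by simp
    rw [h3, zero_add] at h1
    rw [h1]
    simp
  have e5 : ∫ s in (0 : ℝ)..1, φ s ≤
      C1 * ((2 * N : ℕ) : ℝ) ^ (q / 2 - 2) * (∑ l ∈ F, ‖c l‖ ^ 2) ^ (q / 2) := by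
    have h1 := hlam (2 * N) c' (by omega)
    rw [hsum] at h1
    rw [intervalIntegral.integral_of_le zero_le_one, ← integral_Icc_eq_integral_Ioc, hφ]
    exact h1
  have e6 : ((2 * N : ℕ) : ℝ) ^ (q / 2 - 2) = 2 ^ (q / 2 - 2) * (N : ℝ) ^ (q / 2 - 2) := by
    push_cast
    exact Real.mul_rpow (by norm_num) hN0.le
  rw [e1, e2]
  calc b⁻¹ * ∫ s in (-(b * T0))..0, φ s ≤ b⁻¹ * (k * (C1 * ((2 * N : ℕ) : ℝ) ^ (q / 2 - 2) *
        (∑ l ∈ F, ‖c l‖ ^ 2) ^ (q / 2))) := by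
        refine mul_le_mul_of_nonneg_left ?_ (by positivity)
        rw [e4] at e3
        exact e3.trans (mul_le_mul_of_nonneg_left e5 hkr.le)
    _ = _ := by rw [e6]; ring

end STZ
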