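import Pool.Agent.STZ.Proj

/-!
# STZ/LargeValues: the large values estimate

PROOF. Write `u(t,x) = evol om F f t x`, `μ = stm X T0`, `|S| = μ.real S`,
`A² = ∑_{l ∈ F} ∫ ‖f l‖²`. On `S` we have `u ≠ 0`; put `H(t,x) = u(t,x)/‖u(t,x)‖` on `S`, `0` outside
(measurable, `‖H‖ = 1_S`), `H_t = H(t, .)`, `m(t) = ∫ ‖H_t‖ = ∫ ‖H_t‖²`, so `∫_0^{T0} m = |S|`.
(1) `lam |S| ≤ ∫_S ‖u‖ = ∫ u conj H = ∑_l ∫_t e^{- i t om l} ∫_x f_l conj(H_t)`
`= ∑_l ∫_t e^{-i t om l} ∫_x f_l conj(P_l H_t)` (`inner_mem`) `= ∑_l ∫_x f_l conj(B_l)`,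
`B_l(x) = ∫_t e^{i t om l} P_l H_t(x) dt`. Cauchy-Schwarz: `(lam |S|)² ≤ A² ∑_{l ∈ F} ∫ ‖B_l‖²`
`≤ A² ∑_{l ∈ s} w_l ∫ ‖B_l‖²` (since `w ≥ 1` on `F`, `F ⊆ s`, `w ≥ 0`).
(2) `w_l ∫ ‖B_l‖² = ∫_t ∫_{t'} w_l e^{i (t-t') om l} ∫_x P_l H_t conj(P_l H_t')`. So the sum is
`∫_t ∫_t' Q(t,t')`, `Q(t,t') = ∑_{l ∈ s} w_l e^{-i (t'-t) om l} ∫ P_l H_t conj(P_l H_t')`.
If `t' - t ∉ T` then `‖Q‖ ≤ κ m(t) m(t')` by `form_le_L1` and `hK` at the time `t' - t`
(`|t'-t| ≤ T0`). In any case `‖Q‖ ≤ W (m(t) + m(t'))/2` by `form_le_L2` (used for `t' - t ∈ T`).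
(3) Integrate: `∫∫ κ m m = κ |S|²` and
`∫_t∫_t' 1_T(t'-t) (m(t)+m(t'))/2 ≤ volume(T ∩ [-T0,T0]) |S|`.
Suggestion: to avoid Fubini with `B_l`, one may prove (1)-(2) for each `l` separately.
-/

open MeasureTheory Complex
open scoped ComplexConjugate

namespace STZ

/-- Cauchy-Schwarz for nonnegative bounded measurable functions. -/
theorem cs_nonneg {Ω : Type*} [MeasurableSpace Ω] (μ : Measure Ω) [IsFiniteMeasure μ]
    (f g : Ω → ℝ) (hf : Measurable f) (hg : Measurable g) (hf0 : ∀ x, 0 ≤ f x)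
    (hg0 : ∀ x, 0 ≤ g x) (M : ℝ) (hfM : ∀ x, f x ≤ M) (hgM : ∀ x, g x ≤ M) :
    (∫ x, f x * g x ∂μ) ^ 2 ≤ (∫ x, f x ^ 2 ∂μ) * ∫ x, g x ^ 2 ∂μ := by
  have hfL : MemLp f (ENNReal.ofReal 2) μ :=
    MemLp.of_bound hf.aestronglyMeasurable M (Filter.Eventually.of_forall fun x => by
      rw [Real.norm_of_nonneg (hf0 x)]; exact hfM x)
  have hgL : MemLp g (ENNReal.ofReal 2) μ :=
    MemLp.of_bound hg.aestronglyMeasurable M (Filter.Eventually.of_forall fun x => by
      rw [Real.norm_of_nonneg (hg0 x)]; exact hgM x)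
  have hpq : Real.HolderConjugate 2 2 := by
    rw [Real.holderConjugate_iff]; norm_num
  have h := integral_mul_le_Lp_mul_Lq_of_nonneg hpq (Filter.Eventually.of_forall hf0)
    (Filter.Eventually.of_forall hg0) hfL hgL
  have e1 : ∀ x : ℝ, x ^ (2 : ℝ) = x ^ (2 : ℕ) := fun x => by
    rw [← Real.rpow_natCast]; norm_num
  simp only [e1] at h
  have h0 : 0 ≤ ∫ x, f x * g x ∂μ := integral_nonneg fun x => mul_nonneg (hf0 x) (hg0 x)
  have hA : 0 ≤ ∫ x, f x ^ 2 ∂μ := integral_nonneg fun x => sq_nonneg _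
  have hB : 0 ≤ ∫ x, g x ^ 2 ∂μ := integral_nonneg fun x => sq_nonneg _
  rw [← Real.sqrt_eq_rpow, ← Real.sqrt_eq_rpow] at h
  calc (∫ x, f x * g x ∂μ) ^ 2 ≤ (√(∫ x, f x ^ 2 ∂μ) * √(∫ x, g x ^ 2 ∂μ)) ^ 2 :=
        pow_le_pow_left₀ h0 h 2
    _ = _ := by rw [mul_pow, Real.sq_sqrt hA, Real.sq_sqrt hB]

theorem integrable_of_bdd {Ω E : Type*} [MeasurableSpace Ω] [NormedAddCommGroup E] (μ : Measure Ω)
    [IsFiniteMeasure μ] {f : Ω → E} (hf : AEStronglyMeasurable f μ) (M : ℝ)
    (hM : ∀ x, ‖f x‖ ≤ M) : Integrable f μ :=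
  Integrable.of_bound hf M (Filter.Eventually.of_forall hM)

/-- The bilinear step. -/
theorem dual_aux {T X : Type*} [MeasurableSpace T] [MeasurableSpace X] (ν : Measure T)
    (ρ : Measure X) [IsFiniteMeasure ν] [IsFiniteMeasure ρ] (a : T → ℂ) (ha : Measurable a)
    (haM : ∀ t, ‖a t‖ ≤ 1) (G : T → X → ℂ) (hG : Measurable (Function.uncurry G)) (M : ℝ)
    (hM : 0 ≤ M)
    (hGM : ∀ t x, ‖G t x‖ ≤ M) (f : X → ℂ) (hf : Measurable f) (hfM : ∀ x, ‖f x‖ ≤ M) :
    ‖∫ t, a t * ∫ x, f x * conj (G t x) ∂ρ ∂ν‖ ^ 2 ≤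
      (∫ x, ‖f x‖ ^ 2 ∂ρ) * ∫ x, ‖∫ t, conj (a t) * G t x ∂ν‖ ^ 2 ∂ρ := by
  have hmeas2 : Measurable fun p : T × X => a p.1 * (f p.2 * conj (G p.1 p.2)) := by
    refine (ha.comp measurable_fst).mul ((hf.comp measurable_snd).mul ?_)
    exact Complex.continuous_conj.measurable.comp hG
  have hbd2 : ∀ p : T × X, ‖a p.1 * (f p.2 * conj (G p.1 p.2))‖ ≤ 1 * (M * M) := by
    intro p
    rw [norm_mul, norm_mul, RCLike.norm_conj]
    refine mul_le_mul (haM _) (mul_le_mul (hfM _) (hGM _ _) (norm_nonneg _) hM) (by positivity)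
      zero_le_one
  have hint : Integrable (fun p : T × X => a p.1 * (f p.2 * conj (G p.1 p.2))) (ν.prod ρ) :=
    integrable_of_bdd _ hmeas2.aestronglyMeasurable _ hbd2
  have e1 : ∫ t, a t * ∫ x, f x * conj (G t x) ∂ρ ∂ν =
      ∫ x, f x * conj (∫ t, conj (a t) * G t x ∂ν) ∂ρ := by
    calc ∫ t, a t * ∫ x, f x * conj (G t x) ∂ρ ∂ν
        = ∫ t, ∫ x, a t * (f x * conj (G t x)) ∂ρ ∂ν := by
          refine integral_congr_ae (Filter.Eventually.of_forall fun t => ?_)
          exact (integral_const_mul _ _).symm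
      _ = ∫ x, ∫ t, a t * (f x * conj (G t x)) ∂ν ∂ρ := integral_integral_swap hint
      _ = _ := by
          refine integral_congr_ae (Filter.Eventually.of_forall fun x => ?_)
          show ∫ t, a t * (f x * conj (G t x)) ∂ν = f x * conj (∫ t, conj (a t) * G t x ∂ν)
          rw [← integral_conj, ← integral_const_mul]
          refine integral_congr_ae (Filter.Eventually.of_forall fun t => ?_)
          simp only [map_mul, Complex.conj_conj]
          ring
  have hBmeas : Measurable fun x => ∫ t, conj (a t) * G t x ∂ν := by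
    have h1 : StronglyMeasurable fun p : X × T => conj (a p.2) * G p.2 p.1 := by
      refine Measurable.stronglyMeasurable ?_
      refine (Complex.continuous_conj.measurable.comp (ha.comp measurable_snd)).mul ?_
      exact hG.comp (measurable_snd.prodMk measurable_fst)
    exact (h1.integral_prod_right (ν := ν)).measurable
  have hBbd : ∀ x, ‖∫ t, conj (a t) * G t x ∂ν‖ ≤ M * ν.real Set.univ := by
    intro x
    refine norm_integral_le_of_norm_le_const (Filter.Eventually.of_forall fun t => ?_)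
    rw [norm_mul, RCLike.norm_conj]
    calc ‖a t‖ * ‖G t x‖ ≤ 1 * M := mul_le_mul (haM t) (hGM t x) (norm_nonneg _) zero_le_one
      _ = M := one_mul M
  rw [e1]
  have h2 : ‖∫ x, f x * conj (∫ t, conj (a t) * G t x ∂ν) ∂ρ‖ ≤
      ∫ x, ‖f x‖ * ‖∫ t, conj (a t) * G t x ∂ν‖ ∂ρ := by
    refine (norm_integral_le_integral_norm _).trans (le_of_eq ?_)
    refine integral_congr_ae (Filter.Eventually.of_forall fun x => ?_)
    simp only [norm_mul, RCLike.norm_conj]
  have h3 := cs_nonneg ρ (fun x => ‖f x‖) (fun x => ‖∫ t, conj (a t) * G t x ∂ν‖)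
    hf.norm hBmeas.norm (fun x => norm_nonneg _) (fun x => norm_nonneg _)
    (max M (M * ν.real Set.univ)) (fun x => (hfM x).trans (le_max_left _ _))
    (fun x => (hBbd x).trans (le_max_right _ _))
  exact (pow_le_pow_left₀ (norm_nonneg _) h2 2).trans h3

theorem expand_aux {T X : Type*} [MeasurableSpace T] [MeasurableSpace X] (ν : Measure T)
    (ρ : Measure X) [IsFiniteMeasure ν] [IsFiniteMeasure ρ] (a : T → ℂ) (ha : Measurable a)
    (haM : ∀ t, ‖a t‖ ≤ 1) (G : T → X → ℂ) (hG : Measurable (Function.uncurry G)) (M : ℝ)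
    (hM : 0 ≤ M)
    (hGM : ∀ t x, ‖G t x‖ ≤ M) :
    ((∫ x, ‖∫ t, conj (a t) * G t x ∂ν‖ ^ 2 ∂ρ : ℝ) : ℂ) =
      ∫ p : T × T, conj (a p.1) * a p.2 * ∫ x, G p.1 x * conj (G p.2 x) ∂ρ ∂(ν.prod ν) := by
  have hmeas : Measurable fun q : X × (T × T) =>
      conj (a q.2.1) * G q.2.1 q.1 * (a q.2.2 * conj (G q.2.2 q.1)) := by
    have h1 : Measurable fun q : X × (T × T) => q.2.1 := measurable_snd.fst
    have h2 : Measurable fun q : X × (T × T) => q.2.2 := measurable_snd.snd
    refine Measurable.mul (Measurable.mul ?_ ?_) (Measurable.mul ?_ ?_)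
    · exact Complex.continuous_conj.measurable.comp (ha.comp h1)
    · exact hG.comp (h1.prodMk measurable_fst)
    · exact ha.comp h2
    · exact Complex.continuous_conj.measurable.comp (hG.comp (h2.prodMk measurable_fst))
  have hbd : ∀ q : X × (T × T),
      ‖conj (a q.2.1) * G q.2.1 q.1 * (a q.2.2 * conj (G q.2.2 q.1))‖ ≤ (1 * M) * (1 * M) := by
    intro q
    rw [norm_mul, norm_mul, norm_mul, RCLike.norm_conj, RCLike.norm_conj]
    refine mul_le_mul (mul_le_mul (haM _) (hGM _ _) (norm_nonneg _) zero_le_one)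
      (mul_le_mul (haM _) (hGM _ _) (norm_nonneg _) zero_le_one) (by positivity) (by positivity)
  have hint : Integrable (fun q : X × (T × T) =>
      conj (a q.2.1) * G q.2.1 q.1 * (a q.2.2 * conj (G q.2.2 q.1))) (ρ.prod (ν.prod ν)) :=
    integrable_of_bdd _ hmeas.aestronglyMeasurable _ hbd
  calc ((∫ x, ‖∫ t, conj (a t) * G t x ∂ν‖ ^ 2 ∂ρ : ℝ) : ℂ)
      = ∫ x, ((‖∫ t, conj (a t) * G t x ∂ν‖ ^ 2 : ℝ) : ℂ) ∂ρ := (integral_ofReal).symm
    _ = ∫ x, ∫ p : T × T, conj (a p.1) * G p.1 x * (a p.2 * conj (G p.2 x)) ∂(ν.prod ν) ∂ρ := by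
        refine integral_congr_ae (Filter.Eventually.of_forall fun x => ?_)
        show ((‖∫ t, conj (a t) * G t x ∂ν‖ ^ 2 : ℝ) : ℂ) =
          ∫ p : T × T, conj (a p.1) * G p.1 x * (a p.2 * conj (G p.2 x)) ∂(ν.prod ν)
        rw [integral_prod_mul (fun t => conj (a t) * G t x) (fun t => a t * conj (G t x))]
        have e2 : ∫ t, a t * conj (G t x) ∂ν = conj (∫ t, conj (a t) * G t x ∂ν) := by
          rw [← integral_conj]
          refine integral_congr_ae (Filter.Eventually.of_forall fun t => ?_)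
          simp only [map_mul, Complex.conj_conj]
        rw [e2, Complex.mul_conj']
        push_cast
        rfl
    _ = ∫ p : T × T, ∫ x, conj (a p.1) * G p.1 x * (a p.2 * conj (G p.2 x)) ∂ρ ∂(ν.prod ν) :=
        integral_integral_swap hint
    _ = _ := by
        refine integral_congr_ae (Filter.Eventually.of_forall fun p => ?_)
        show ∫ x, conj (a p.1) * G p.1 x * (a p.2 * conj (G p.2 x)) ∂ρ =
          conj (a p.1) * a p.2 * ∫ x, G p.1 x * conj (G p.2 x) ∂ρ
        rw [← integral_const_mul]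
        refine integral_congr_ae (Filter.Eventually.of_forall fun x => ?_)
        ring

variable {X Λ : Type*} [TopologicalSpace X] [CompactSpace X] [T2Space X]
  [SecondCountableTopology X] [MeasureSpace X] [BorelSpace X]
  [IsProbabilityMeasure (volume : Measure X)] [DecidableEq Λ]

theorem large_values (R : RK X Λ) (om : Λ → ℝ) (F s : Finset Λ) (hF : F ⊆ s) (w : Λ → ℝ)
    (W κ T0 lam : ℝ) (hw0 : ∀ l, 0 ≤ w l) (hwW : ∀ l, w l ≤ W) (hw1 : ∀ l ∈ F, 1 ≤ w l)
    (hκ : 0 ≤ κ) (hT0 : 0 < T0) (hlam : 0 < lam) (T : Set ℝ) (hT : MeasurableSet T)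
    (hK : ∀ t : ℝ, |t| ≤ T0 → t ∉ T → ∀ x y, ‖R.ker om s w t x y‖ ≤ κ)
    (f : Λ → X → ℂ) (hf : ∀ l ∈ F, R.Mem l (f l))
    (S : Set (ℝ × X)) (hS : MeasurableSet S)
    (hS2 : ∀ p ∈ S, lam ≤ ‖evol om F f p.1 p.2‖) :
    lam ^ 2 * (stm X T0).real S ^ 2 ≤ (∑ l ∈ F, ∫ x, ‖f l x‖ ^ 2) *
      (κ * (stm X T0).real S ^ 2 +
        W * (volume (T ∩ Set.Icc (-T0) T0)).toReal * (stm X T0).real S) := by
  classical
  set ν : Measure ℝ := volume.restrict (Set.Icc (0 : ℝ) T0) with hν
  have hνfin : IsFiniteMeasure ν := by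
    rw [hν]; infer_instance
  set ρ : Measure X := volume with hρ
  have hμ : stm X T0 = ν.prod ρ := rfl
  set u : ℝ → X → ℂ := fun t x => evol om F f t x with hu
  have hu_meas : Measurable (Function.uncurry u) := by
    have : Continuous (Function.uncurry u) := by
      have h1 : Function.uncurry u = fun p : ℝ × X =>
          ∑ l ∈ F, cexp (-((p.1 * om l : ℝ) : ℂ) * I) * f l p.2 := by
        ext p; rfl
      rw [h1]
      refine continuous_finsetSum _ fun l hl => ?_
      refine Continuous.mul ?_ ((hf l hl).1.comp continuous_snd)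
      fun_prop
    exact this.measurable
  set H : ℝ → X → ℂ := fun t x => if (t, x) ∈ S then u t x / ‖u t x‖ else 0 with hHdef
  have hH_meas : Measurable (Function.uncurry H) := by
    have h1 : Function.uncurry H = fun p : ℝ × X =>
        if p ∈ S then Function.uncurry u p / ((‖Function.uncurry u p‖ : ℝ) : ℂ) else 0 := by
      ext p; rfl
    rw [h1]
    refine Measurable.ite hS ?_ measurable_const
    exact hu_meas.div (Complex.measurable_ofReal.comp hu_meas.norm)
  have hH_norm : ∀ t x, ‖H t x‖ = if (t, x) ∈ S then 1 else 0 := by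
    intro t x
    simp only [hHdef]
    split_ifs with h
    · have h1 : 0 < ‖u t x‖ := lt_of_lt_of_le hlam (hS2 (t, x) h)
      rw [norm_div, Complex.norm_real, norm_norm, div_self h1.ne']
    · simp
  have hH_le : ∀ t x, ‖H t x‖ ≤ 1 := by
    intro t x; rw [hH_norm]; split_ifs <;> norm_num
  have hH_sq : ∀ t x, ‖H t x‖ ^ 2 = ‖H t x‖ := by
    intro t x; rw [hH_norm]; split_ifs <;> norm_num
  have hHt_meas : ∀ t, Measurable (H t) := fun t => hH_meas.comp measurable_prodMk_left
  set m : ℝ → ℝ := fun t => ∫ x, ‖H t x‖ ∂ρ with hm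
  have hm_meas : Measurable m := by
    have h1 : StronglyMeasurable (Function.uncurry fun t x => ‖H t x‖) :=
      (Measurable.norm hH_meas).stronglyMeasurable
    exact (h1.integral_prod_right (ν := ρ)).measurable
  have hm0 : ∀ t, 0 ≤ m t := fun t => integral_nonneg fun x => norm_nonneg _
  have hm1 : ∀ t, m t ≤ 1 := by
    intro t
    have h1 : ‖∫ x, ‖H t x‖ ∂ρ‖ ≤ 1 * ρ.real Set.univ :=
      norm_integral_le_of_norm_le_const (Filter.Eventually.of_forall fun x => by
        rw [norm_norm]; exact hH_le t x)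
    have h2 : ρ.real Set.univ = 1 := by simp [hρ]
    rw [h2, mul_one] at h1
    exact (le_abs_self _).trans h1
  have hmsq : ∀ t, ∫ x, ‖H t x‖ ^ 2 ∂ρ = m t := by
    intro t; simp only [hH_sq, hm]
  set s0 : ℝ := (stm X T0).real S with hs0
  have hm_int : Integrable m ν := integrable_of_bdd ν hm_meas.aestronglyMeasurable 1 (fun t => by
    rw [Real.norm_of_nonneg (hm0 t)]; exact hm1 t)
  have hHn_int : Integrable (fun p : ℝ × X => ‖H p.1 p.2‖) (ν.prod ρ) :=
    integrable_of_bdd _ (Measurable.norm hH_meas).aestronglyMeasurable 1 (fun p => by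
      rw [norm_norm]; exact hH_le _ _)
  have hs_eq : s0 = ∫ t, m t ∂ν := by
    have h1 : ∫ p : ℝ × X, ‖H p.1 p.2‖ ∂(ν.prod ρ) = ∫ t, m t ∂ν := integral_prod _ hHn_int
    rw [← h1, hs0, hμ]
    have h2 : (fun p : ℝ × X => ‖H p.1 p.2‖) = S.indicator fun _ => (1 : ℝ) := by
      ext p
      rw [hH_norm]
      by_cases hp : p ∈ S
      · rw [if_pos hp, Set.indicator_of_mem hp]
      · rw [if_neg hp, Set.indicator_of_notMem hp]
    rw [h2, integral_indicator_const _ hS]
    simp
  have hs0' : 0 ≤ s0 := measureReal_nonneg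
  have hDl : ∀ l x, ‖R.k l x x‖ = |R.D l| := by
    intro l x; rw [R.diag]; simp
  -- the functions g l
  set g : Λ → ℝ → X → ℂ := fun l t x => R.P l (H t) x with hg
  have hg_meas : ∀ l, Measurable (Function.uncurry (g l)) := by
    intro l
    have h1 : StronglyMeasurable fun q : (ℝ × X) × X => R.k l q.1.2 q.2 * H q.1.1 q.2 := by
      refine Measurable.stronglyMeasurable ?_
      refine Measurable.mul ?_ ?_
      · exact (R.cont l).measurable.comp (measurable_fst.snd.prodMk measurable_snd)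
      · exact hH_meas.comp (measurable_fst.fst.prodMk measurable_snd)
    exact (h1.integral_prod_right (ν := ρ)).measurable
  have hg_bd : ∀ l t x, ‖g l t x‖ ≤ R.D l := by
    intro l t x
    have h1 : ‖∫ z, R.k l x z * H t z ∂ρ‖ ≤ R.D l * ρ.real Set.univ :=
      norm_integral_le_of_norm_le_const (Filter.Eventually.of_forall fun z => by
        rw [norm_mul]
        calc ‖R.k l x z‖ * ‖H t z‖ ≤ R.D l * 1 :=
              mul_le_mul (R.norm_le l x z) (hH_le t z) (norm_nonneg _) (R.D_nonneg l)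
          _ = R.D l := mul_one _)
    have h2 : ρ.real Set.univ = 1 := by simp [hρ]
    rw [h2, mul_one] at h1
    exact h1
  -- the phases
  set a : Λ → ℝ → ℂ := fun l t => cexp (-((t * om l : ℝ) : ℂ) * I) with ha
  have ha_meas : ∀ l, Measurable (a l) := by
    intro l
    have : Continuous (a l) := by
      simp only [ha]; fun_prop
    exact this.measurable
  have ha_norm : ∀ l t, ‖a l t‖ = 1 := by
    intro l t
    simp only [ha]
    rw [show -((t * om l : ℝ) : ℂ) * I = ((-(t * om l) : ℝ) : ℂ) * I by push_cast; ring]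
    exact Complex.norm_exp_ofReal_mul_I _
  -- bounds for the f l
  have hf_bd : ∀ l ∈ F, ∃ M : ℝ, ∀ x, ‖f l x‖ ≤ M := by
    intro l hl
    obtain ⟨M, hM⟩ := (isCompact_range (hf l hl).1.norm).bddAbove
    exact ⟨M, fun x => hM ⟨x, rfl⟩⟩
  -- Step 1
  set c : Λ → ℂ := fun l => ∫ t, a l t * ∫ x, f l x * conj (g l t x) ∂ρ ∂ν with hc
  have step1 : lam * s0 ≤ ‖∑ l ∈ F, c l‖ := by
    have e1 : ∀ l ∈ F, c l = ∫ p : ℝ × X, a l p.1 * (f l p.2 * conj (H p.1 p.2)) ∂(ν.prod ρ) := by
      intro l hl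
      obtain ⟨M, hM⟩ := hf_bd l hl
      have hmeas2 : Measurable fun p : ℝ × X => a l p.1 * (f l p.2 * conj (H p.1 p.2)) := by
        refine ((ha_meas l).comp measurable_fst).mul
          (((hf l hl).1.measurable.comp measurable_snd).mul ?_)
        exact Complex.continuous_conj.measurable.comp hH_meas
      have hint : Integrable (fun p : ℝ × X => a l p.1 * (f l p.2 * conj (H p.1 p.2)))
          (ν.prod ρ) := by
        refine integrable_of_bdd _ hmeas2.aestronglyMeasurable M (fun p => ?_)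
        rw [norm_mul, norm_mul, ha_norm, RCLike.norm_conj, one_mul]
        calc ‖f l p.2‖ * ‖H p.1 p.2‖ ≤ ‖f l p.2‖ * 1 :=
              mul_le_mul_of_nonneg_left (hH_le _ _) (norm_nonneg _)
          _ ≤ M := by rw [mul_one]; exact hM _
      rw [integral_prod _ hint]
      simp only [hc]
      refine integral_congr_ae (Filter.Eventually.of_forall fun t => ?_)
      show a l t * ∫ x, f l x * conj (g l t x) ∂ρ =
        ∫ x, a l t * (f l x * conj (H t x)) ∂ρ
      rw [integral_const_mul]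
      congr 1
      exact (R.inner_mem l (hf l hl) (hHt_meas t) (hH_le t)).symm
    have e2 : ∑ l ∈ F, c l = ∫ p : ℝ × X, u p.1 p.2 * conj (H p.1 p.2) ∂(ν.prod ρ) := by
      rw [Finset.sum_congr rfl e1, ← integral_finsetSum]
      · refine integral_congr_ae (Filter.Eventually.of_forall fun p => ?_)
        show ∑ l ∈ F, a l p.1 * (f l p.2 * conj (H p.1 p.2)) = u p.1 p.2 * conj (H p.1 p.2)
        simp only [hu, evol, Finset.sum_mul, ha]
        refine Finset.sum_congr rfl fun l _ => ?_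
        ring
      · intro l hl
        obtain ⟨M, hM⟩ := hf_bd l hl
        have hmeas2 : Measurable fun p : ℝ × X => a l p.1 * (f l p.2 * conj (H p.1 p.2)) := by
          refine ((ha_meas l).comp measurable_fst).mul
            (((hf l hl).1.measurable.comp measurable_snd).mul ?_)
          exact Complex.continuous_conj.measurable.comp hH_meas
        refine integrable_of_bdd _ hmeas2.aestronglyMeasurable M (fun p => ?_)
        rw [norm_mul, norm_mul, ha_norm, RCLike.norm_conj, one_mul]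
        calc ‖f l p.2‖ * ‖H p.1 p.2‖ ≤ ‖f l p.2‖ * 1 :=
              mul_le_mul_of_nonneg_left (hH_le _ _) (norm_nonneg _)
          _ ≤ M := by rw [mul_one]; exact hM _
    have e3 : ∀ p : ℝ × X, u p.1 p.2 * conj (H p.1 p.2) =
        ((if p ∈ S then ‖u p.1 p.2‖ else 0 : ℝ) : ℂ) := by
      intro p
      simp only [hHdef]
      by_cases hp : p ∈ S
      · have h1 : 0 < ‖u p.1 p.2‖ := lt_of_lt_of_le hlam (hS2 p hp)
        have h2 : ((p.1, p.2) : ℝ × X) ∈ S := hp
        rw [if_pos hp, if_pos h2, map_div₀, Complex.conj_ofReal, mul_div_assoc',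
          Complex.mul_conj', ]
        have h3 : ((‖u p.1 p.2‖ : ℝ) : ℂ) ≠ 0 := by exact_mod_cast h1.ne'
        field_simp
      · have h2 : ((p.1, p.2) : ℝ × X) ∉ S := hp
        rw [if_neg hp, if_neg h2]; simp
    rw [e2]
    simp only [e3]
    have e4 : ∫ p : ℝ × X, ((if p ∈ S then ‖u p.1 p.2‖ else 0 : ℝ) : ℂ) ∂(ν.prod ρ) =
        ((∫ p : ℝ × X, (if p ∈ S then ‖u p.1 p.2‖ else 0 : ℝ) ∂(ν.prod ρ) : ℝ) : ℂ) :=
      integral_ofReal
    rw [e4, Complex.norm_real, Real.norm_eq_abs]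
    refine le_trans ?_ (le_abs_self _)
    have hmeas3 : Measurable fun p : ℝ × X => (if p ∈ S then ‖u p.1 p.2‖ else 0 : ℝ) :=
      Measurable.ite hS (Measurable.norm hu_meas) measurable_const
    -- bound for u
    have hu_bd : ∃ M : ℝ, ∀ p : ℝ × X, ‖u p.1 p.2‖ ≤ M := by
      have h4 : ∀ l : Λ, ∃ M : ℝ, l ∈ F → ∀ x, ‖f l x‖ ≤ M := by
        intro l
        by_cases hl : l ∈ F
        · obtain ⟨M, hM⟩ := hf_bd l hl
          exact ⟨M, fun _ => hM⟩
        · exact ⟨0, fun h => absurd h hl⟩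
      choose Mf hMf using h4
      refine ⟨∑ l ∈ F, Mf l, fun p => ?_⟩
      simp only [hu, evol]
      refine (norm_sum_le _ _).trans (Finset.sum_le_sum fun l hl => ?_)
      rw [norm_mul]
      have := ha_norm l p.1
      simp only [ha] at this
      rw [this, one_mul]
      exact hMf l hl _
    obtain ⟨M, hM⟩ := hu_bd
    calc lam * s0 = ∫ p : ℝ × X, lam * ‖H p.1 p.2‖ ∂(ν.prod ρ) := by
          rw [integral_const_mul, integral_prod _ hHn_int, hs_eq]
      _ ≤ _ := by
          refine integral_mono (hHn_int.const_mul lam) ?_ (fun p => ?_)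
          · refine integrable_of_bdd _ hmeas3.aestronglyMeasurable M (fun p => ?_)
            show ‖(if p ∈ S then ‖u p.1 p.2‖ else 0 : ℝ)‖ ≤ M
            split_ifs with hp
            · rw [norm_norm]; exact hM p
            · rw [norm_zero]; exact (norm_nonneg _).trans (hM p)
          · show lam * ‖H p.1 p.2‖ ≤ (if p ∈ S then ‖u p.1 p.2‖ else 0 : ℝ)
            rw [hH_norm]
            by_cases hp : p ∈ S
            · have h2 : ((p.1, p.2) : ℝ × X) ∈ S := hp
              rw [if_pos hp, if_pos h2, mul_one]; exact hS2 p hp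
            · have h2 : ((p.1, p.2) : ℝ × X) ∉ S := hp
              rw [if_neg hp, if_neg h2, mul_zero]
  -- Step 2 : B l
  set Bn : Λ → ℝ := fun l => ∫ x, ‖∫ t, conj (a l t) * g l t x ∂ν‖ ^ 2 ∂ρ with hBn
  have hBn0 : ∀ l, 0 ≤ Bn l := fun l => integral_nonneg fun x => sq_nonneg _
  have step2 : ∀ l ∈ F, ‖c l‖ ^ 2 ≤ (∫ x, ‖f l x‖ ^ 2 ∂ρ) * Bn l := by
    intro l hl
    obtain ⟨M, hM⟩ := hf_bd l hl
    refine dual_aux ν ρ (a l) (ha_meas l) (fun t => (ha_norm l t).le) (g l) (hg_meas l)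
      (max (max M (R.D l)) 0) (le_max_right _ _) (fun t x => ?_) (f l) (hf l hl).1.measurable
      (fun x => ?_)
    · exact (hg_bd l t x).trans ((le_max_right _ _).trans (le_max_left _ _))
    · exact (hM x).trans ((le_max_left _ _).trans (le_max_left _ _))
  have step3 : ‖∑ l ∈ F, c l‖ ^ 2 ≤ (∑ l ∈ F, ∫ x, ‖f l x‖ ^ 2 ∂ρ) * ∑ l ∈ F, Bn l := by
    have h1 : ‖∑ l ∈ F, c l‖ ≤ ∑ l ∈ F, √(∫ x, ‖f l x‖ ^ 2 ∂ρ) * √(Bn l) := by
      refine (norm_sum_le _ _).trans (Finset.sum_le_sum fun l hl => ?_)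
      rw [← Real.sqrt_mul (integral_nonneg fun x => sq_nonneg _)]
      exact Real.le_sqrt_of_sq_le (step2 l hl)
    have h2 := Finset.sum_mul_sq_le_sq_mul_sq F (fun l => √(∫ x, ‖f l x‖ ^ 2 ∂ρ))
      (fun l => √(Bn l))
    have h3 : ∑ l ∈ F, √(∫ x, ‖f l x‖ ^ 2 ∂ρ) ^ 2 = ∑ l ∈ F, ∫ x, ‖f l x‖ ^ 2 ∂ρ :=
      Finset.sum_congr rfl fun l _ => Real.sq_sqrt (integral_nonneg fun x => sq_nonneg _)
    have h4 : ∑ l ∈ F, √(Bn l) ^ 2 = ∑ l ∈ F, Bn l :=
      Finset.sum_congr rfl fun l _ => Real.sq_sqrt (hBn0 l)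
    rw [h3, h4] at h2
    exact (pow_le_pow_left₀ (norm_nonneg _) h1 2).trans h2
  have step4 : ∑ l ∈ F, Bn l ≤ ∑ l ∈ s, w l * Bn l := by
    calc ∑ l ∈ F, Bn l ≤ ∑ l ∈ F, w l * Bn l :=
          Finset.sum_le_sum fun l hl => le_mul_of_one_le_left (hBn0 l) (hw1 l hl)
      _ ≤ _ := Finset.sum_le_sum_of_subset_of_nonneg hF fun l _ _ => mul_nonneg (hw0 l) (hBn0 l)
  -- the form Q
  set Q : ℝ × ℝ → ℂ := fun p => ∑ l ∈ s, ((w l : ℝ) : ℂ) * (conj (a l p.1) * a l p.2) *
    ∫ x, g l p.1 x * conj (g l p.2 x) ∂ρ with hQ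
  have hQint_l : ∀ l, Integrable (fun p : ℝ × ℝ => conj (a l p.1) * a l p.2 *
      ∫ x, g l p.1 x * conj (g l p.2 x) ∂ρ) (ν.prod ν) := by
    intro l
    have hm1 : Measurable fun p : ℝ × ℝ => ∫ x, g l p.1 x * conj (g l p.2 x) ∂ρ := by
      have h1 : StronglyMeasurable fun q : (ℝ × ℝ) × X => g l q.1.1 q.2 * conj (g l q.1.2 q.2) := by
        refine Measurable.stronglyMeasurable (Measurable.mul ?_ ?_)
        · exact (hg_meas l).comp (measurable_fst.fst.prodMk measurable_snd)
        · exact Complex.continuous_conj.measurable.comp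
            ((hg_meas l).comp (measurable_fst.snd.prodMk measurable_snd))
      exact (h1.integral_prod_right (ν := ρ)).measurable
    have hm2 : Measurable fun p : ℝ × ℝ => conj (a l p.1) * a l p.2 *
        ∫ x, g l p.1 x * conj (g l p.2 x) ∂ρ := by
      refine Measurable.mul (Measurable.mul ?_ ?_) hm1
      · exact Complex.continuous_conj.measurable.comp ((ha_meas l).comp measurable_fst)
      · exact (ha_meas l).comp measurable_snd
    refine integrable_of_bdd _ hm2.aestronglyMeasurable (R.D l * R.D l * ρ.real Set.univ) (fun p => ?_)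
    rw [norm_mul, norm_mul, RCLike.norm_conj, ha_norm, ha_norm, one_mul, one_mul]
    refine norm_integral_le_of_norm_le_const (Filter.Eventually.of_forall fun x => ?_)
    rw [norm_mul, RCLike.norm_conj]
    exact mul_le_mul (hg_bd l _ _) (hg_bd l _ _) (norm_nonneg _) (R.D_nonneg l)
  have step5 : ((∑ l ∈ s, w l * Bn l : ℝ) : ℂ) = ∫ p, Q p ∂(ν.prod ν) := by
    push_cast
    have h1 : ∀ l ∈ s, ((w l : ℝ) : ℂ) * ((Bn l : ℝ) : ℂ) = ∫ p : ℝ × ℝ, ((w l : ℝ) : ℂ) *
        (conj (a l p.1) * a l p.2 * ∫ x, g l p.1 x * conj (g l p.2 x) ∂ρ) ∂(ν.prod ν) := by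
      intro l _
      rw [integral_const_mul]
      congr 1
      exact expand_aux ν ρ (a l) (ha_meas l) (fun t => (ha_norm l t).le) (g l) (hg_meas l)
        (R.D l) (R.D_nonneg l) (hg_bd l)
    rw [Finset.sum_congr rfl h1, ← integral_finsetSum]
    · refine integral_congr_ae (Filter.Eventually.of_forall fun p => ?_)
      simp only [hQ]
      refine Finset.sum_congr rfl fun l _ => ?_
      ring
    · intro l _
      exact (hQint_l l).const_mul _
  -- pointwise bounds for Q
  have hcoef : ∀ (p : ℝ × ℝ) l, ((w l : ℝ) : ℂ) * (conj (a l p.1) * a l p.2) =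
      ((w l : ℝ) : ℂ) * cexp (-(((p.2 - p.1) * om l : ℝ) : ℂ) * I) := by
    intro p l
    congr 1
    simp only [ha]
    rw [← Complex.exp_conj, ← Complex.exp_add]
    congr 1
    simp only [map_mul, map_neg, Complex.conj_ofReal, Complex.conj_I]
    push_cast
    ring
  have hQ1 : ∀ p : ℝ × ℝ, ‖Q p‖ ≤ |W| * ((m p.1 + m p.2) / 2) := by
    intro p
    have h1 := R.form_le_L2 s (fun l => ((w l : ℝ) : ℂ) * (conj (a l p.1) * a l p.2))
      (A := |W|) (M := 1) (fun l _ => by
        rw [norm_mul, norm_mul, RCLike.norm_conj, ha_norm, ha_norm, Complex.norm_real,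
          Real.norm_of_nonneg (hw0 l)]
        have := (hwW l).trans (le_abs_self W)
        simpa using this) (abs_nonneg W) (hHt_meas p.1) (hH_le p.1) (hHt_meas p.2) (hH_le p.2)
    have h3 : ∫ x : X, ‖H p.2 x‖ ^ 2 = m p.2 := hmsq p.2
    have h2 : ∫ x : X, (‖H p.1 x‖ ^ 2 + ∫ x : X, ‖H p.2 x‖ ^ 2) = m p.1 + m p.2 := by
      have h4 : Integrable (fun x : X => ‖H p.1 x‖ ^ 2) (volume : Measure X) :=
        integrable_of_bdd _ ((hHt_meas p.1).norm.pow_const 2).aestronglyMeasurable 1 (fun x => by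
          rw [hH_sq, norm_norm]; exact hH_le _ _)
      rw [h3, integral_add h4 (integrable_const _)]
      have h5 : ∫ x : X, ‖H p.1 x‖ ^ 2 = m p.1 := hmsq p.1
      rw [h5]
      simp
    rw [h2] at h1
    exact h1
  have hQ2 : ∀ p : ℝ × ℝ, |p.2 - p.1| ≤ T0 → p.2 - p.1 ∉ T → ‖Q p‖ ≤ κ * m p.1 * m p.2 := by
    intro p hp1 hp2
    have h1 := R.form_le_L1 s (fun l => ((w l : ℝ) : ℂ) * (conj (a l p.1) * a l p.2))
      (κ := κ) (M := 1) hκ (fun x y => by
        have h2 := hK (p.2 - p.1) hp1 hp2 x y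
        unfold RK.ker at h2
        simpa only [hcoef] using h2) (hHt_meas p.1) (hH_le p.1) (hHt_meas p.2) (hH_le p.2)
    exact h1
  -- the set of bad pairs
  set E : Set (ℝ × ℝ) := {p | p.2 - p.1 ∈ T} with hE
  have hE_meas : MeasurableSet E := (measurable_snd.sub measurable_fst) hT
  set τ : ℝ := (volume (T ∩ Set.Icc (-T0) T0)).toReal with hτ
  have hTfin : volume (T ∩ Set.Icc (-T0) T0) ≠ ⊤ := by
    refine ne_top_of_le_ne_top ?_ (measure_mono Set.inter_subset_right)
    simp
  set em : ℝ × ℝ → ℝ := fun p => E.indicator (fun p => (m p.1 + m p.2) / 2) p with hem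
  have hmm_meas : Measurable fun p : ℝ × ℝ => (m p.1 + m p.2) / 2 :=
    ((hm_meas.comp measurable_fst).add (hm_meas.comp measurable_snd)).div_const 2
  have hem_meas : Measurable em := hmm_meas.indicator hE_meas
  have hbase : Integrable (fun p : ℝ × ℝ => κ * m p.1 * m p.2) (ν.prod ν) := by
    refine integrable_of_bdd _ ?_ κ (fun p => ?_)
    · exact ((measurable_const.mul (hm_meas.comp measurable_fst)).mul
        (hm_meas.comp measurable_snd)).aestronglyMeasurable
    · rw [Real.norm_of_nonneg (mul_nonneg (mul_nonneg hκ (hm0 _)) (hm0 _))]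
      calc κ * m p.1 * m p.2 ≤ κ * 1 * 1 := by
            refine mul_le_mul (mul_le_mul_of_nonneg_left (hm1 _) hκ) (hm1 _) (hm0 _) (by simpa using hκ)
        _ = κ := by ring
  have hem_int : Integrable em (ν.prod ν) := by
    refine integrable_of_bdd _ hem_meas.aestronglyMeasurable 1 (fun p => ?_)
    simp only [hem]
    by_cases hp : p ∈ E
    · rw [Set.indicator_of_mem hp, Real.norm_of_nonneg (by have := hm0 p.1; have := hm0 p.2; positivity)]
      have := hm1 p.1; have := hm1 p.2; linarith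
    · rw [Set.indicator_of_notMem hp]; simp
  have step6 : ‖∫ p, Q p ∂(ν.prod ν)‖ ≤
      κ * s0 ^ 2 + |W| * ∫ p, em p ∂(ν.prod ν) := by
    calc ‖∫ p, Q p ∂(ν.prod ν)‖ ≤ ∫ p, (κ * m p.1 * m p.2 + |W| * em p) ∂(ν.prod ν) := by
          refine norm_integral_le_of_norm_le (hbase.add (hem_int.const_mul _)) ?_
          have hae : ∀ᵐ p ∂(ν.prod ν), p ∈ (Set.Icc (0 : ℝ) T0) ×ˢ (Set.Icc (0 : ℝ) T0) := by
            rw [hν, Measure.prod_restrict]
            exact ae_restrict_mem (measurableSet_Icc.prod measurableSet_Icc)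
          filter_upwards [hae] with p hp
          have hnn : 0 ≤ κ * m p.1 * m p.2 := mul_nonneg (mul_nonneg hκ (hm0 _)) (hm0 _)
          by_cases hpE : p ∈ E
          · have h1 := hQ1 p
            simp only [hem, Set.indicator_of_mem hpE]
            linarith
          · have h1 := hQ2 p (by
              rw [abs_le]
              obtain ⟨⟨h1, h2⟩, ⟨h3, h4⟩⟩ := hp
              constructor <;> linarith) hpE
            simp only [hem, Set.indicator_of_notMem hpE]
            linarith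
      _ = _ := by
          rw [integral_add hbase (hem_int.const_mul _), integral_const_mul]
          congr 1
          have h1 : ∀ p : ℝ × ℝ, κ * m p.1 * m p.2 = (κ * m p.1) * m p.2 := fun p => rfl
          rw [integral_prod_mul (fun t => κ * m t) m, integral_const_mul, ← hs_eq]
          ring
  have step7 : ∫ p, em p ∂(ν.prod ν) ≤ τ * s0 := by
    have hslice1 : ∀ t ∈ Set.Icc (0 : ℝ) T0, (ν {t' | t' - t ∈ T}).toReal ≤ τ := by
      intro t ht
      rw [hτ]
      refine ENNReal.toReal_mono hTfin ?_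
      have hmeas : MeasurableSet {t' : ℝ | t' - t ∈ T} := (measurable_id.sub_const t) hT
      rw [hν, Measure.restrict_apply hmeas]
      have h1 : {t' : ℝ | t' - t ∈ T} ∩ Set.Icc 0 T0 ⊆
          (fun x => x - t) ⁻¹' (T ∩ Set.Icc (-T0) T0) := by
        rintro t' ⟨h1, h2⟩
        refine ⟨h1, ?_, ?_⟩
        · have := ht.2; have := h2.1; show -T0 ≤ t' - t; linarith
        · have := ht.1; have := h2.2; show t' - t ≤ T0; linarith
      refine (measure_mono h1).trans (le_of_eq ?_)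
      exact (measurePreserving_sub_right volume t).measure_preimage
        (hT.inter measurableSet_Icc).nullMeasurableSet
    have hslice2 : ∀ t ∈ Set.Icc (0 : ℝ) T0, (ν {t' | t - t' ∈ T}).toReal ≤ τ := by
      intro t ht
      rw [hτ]
      refine ENNReal.toReal_mono hTfin ?_
      have hmeas : MeasurableSet {t' : ℝ | t - t' ∈ T} := (measurable_const.sub measurable_id) hT
      rw [hν, Measure.restrict_apply hmeas]
      have h1 : {t' : ℝ | t - t' ∈ T} ∩ Set.Icc 0 T0 ⊆
          (fun x => t - x) ⁻¹' (T ∩ Set.Icc (-T0) T0) := by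
        rintro t' ⟨h1, h2⟩
        refine ⟨h1, ?_, ?_⟩
        · have := ht.1; have := h2.2; show -T0 ≤ t - t'; linarith
        · have := ht.2; have := h2.1; show t - t' ≤ T0; linarith
      refine (measure_mono h1).trans (le_of_eq ?_)
      exact ((volume : Measure ℝ).measurePreserving_sub_left t).measure_preimage
        (hT.inter measurableSet_Icc).nullMeasurableSet
    set e1 : ℝ × ℝ → ℝ := fun p => E.indicator (fun p => m p.1) p with he1
    set e2 : ℝ × ℝ → ℝ := fun p => E.indicator (fun p => m p.2) p with he2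
    have he1_int : Integrable e1 (ν.prod ν) := by
      refine integrable_of_bdd _ ((hm_meas.comp measurable_fst).indicator hE_meas).aestronglyMeasurable
        1 (fun p => ?_)
      simp only [he1]
      by_cases hp : p ∈ E
      · rw [Set.indicator_of_mem hp, Real.norm_of_nonneg (hm0 _)]; exact hm1 _
      · rw [Set.indicator_of_notMem hp]; simp
    have he2_int : Integrable e2 (ν.prod ν) := by
      refine integrable_of_bdd _ ((hm_meas.comp measurable_snd).indicator hE_meas).aestronglyMeasurable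
        1 (fun p => ?_)
      simp only [he2]
      by_cases hp : p ∈ E
      · rw [Set.indicator_of_mem hp, Real.norm_of_nonneg (hm0 _)]; exact hm1 _
      · rw [Set.indicator_of_notMem hp]; simp
    have hsum : ∀ p, em p = (1 / 2 : ℝ) * (e1 p + e2 p) := by
      intro p
      simp only [hem, he1, he2]
      by_cases hp : p ∈ E
      · rw [Set.indicator_of_mem hp, Set.indicator_of_mem hp, Set.indicator_of_mem hp]; ring
      · rw [Set.indicator_of_notMem hp, Set.indicator_of_notMem hp, Set.indicator_of_notMem hp]; ring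
    have hI1 : ∫ p, e1 p ∂(ν.prod ν) ≤ τ * s0 := by
      rw [integral_prod _ he1_int, hs_eq, ← integral_const_mul]
      refine integral_mono_ae ?_ (hm_int.const_mul τ) ?_
      · exact he1_int.integral_prod_left
      · have hae : ∀ᵐ t ∂ν, t ∈ Set.Icc (0 : ℝ) T0 := ae_restrict_mem measurableSet_Icc
        filter_upwards [hae] with t ht
        have hmeas : MeasurableSet {t' : ℝ | t' - t ∈ T} := (measurable_id.sub_const t) hT
        have h1 : ∀ t', e1 (t, t') = {t' : ℝ | t' - t ∈ T}.indicator (fun _ => m t) t' := by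
          intro t'
          simp only [he1, Set.indicator_apply]
          rfl
        simp only [h1]
        rw [integral_indicator_const _ hmeas, smul_eq_mul]
        exact mul_le_mul_of_nonneg_right (hslice1 t ht) (hm0 t)
    have hI2 : ∫ p, e2 p ∂(ν.prod ν) ≤ τ * s0 := by
      rw [integral_prod_symm _ he2_int, hs_eq, ← integral_const_mul]
      refine integral_mono_ae ?_ (hm_int.const_mul τ) ?_
      · exact he2_int.integral_prod_right
      · have hae : ∀ᵐ t ∂ν, t ∈ Set.Icc (0 : ℝ) T0 := ae_restrict_mem measurableSet_Icc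
        filter_upwards [hae] with t ht
        have hmeas : MeasurableSet {t' : ℝ | t - t' ∈ T} := (measurable_const.sub measurable_id) hT
        have h1 : ∀ t', e2 (t', t) = {t' : ℝ | t - t' ∈ T}.indicator (fun _ => m t) t' := by
          intro t'
          simp only [he2, Set.indicator_apply]
          rfl
        simp only [h1]
        rw [integral_indicator_const _ hmeas, smul_eq_mul]
        exact mul_le_mul_of_nonneg_right (hslice2 t ht) (hm0 t)
    simp only [hsum]
    rw [integral_const_mul, integral_add he1_int he2_int]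
    linarith
  -- if Λ is empty on s then everything is zero: |W| versus W
  rcases F.eq_empty_or_nonempty with hFe | ⟨l0, hl0⟩
  · have hs00 : s0 = 0 := by
      have : S = ∅ := by
        ext p
        constructor
        · intro hp
          have h1 := hS2 p hp
          rw [hFe] at h1
          simp [evol] at h1
          linarith
        · intro hp; exact absurd hp (Set.notMem_empty p)
      rw [hs0, this]; simp
    rw [hs00]; simp
  · have hW0 : 0 ≤ W := le_trans (hw0 l0) (hwW l0)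
    have hWabs : |W| = W := abs_of_nonneg hW0
    have hfin : ∑ l ∈ s, w l * Bn l ≤ κ * s0 ^ 2 + W * τ * s0 := by
      have h1 : ∑ l ∈ s, w l * Bn l ≤ ‖((∑ l ∈ s, w l * Bn l : ℝ) : ℂ)‖ := by
        rw [Complex.norm_real]; exact le_abs_self _
      rw [step5] at h1
      refine h1.trans (step6.trans ?_)
      rw [hWabs]
      have := mul_le_mul_of_nonneg_left step7 hW0
      linarith
    have hA : 0 ≤ ∑ l ∈ F, ∫ x, ‖f l x‖ ^ 2 ∂ρ :=
      Finset.sum_nonneg fun l _ => integral_nonneg fun x => sq_nonneg _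
    calc lam ^ 2 * s0 ^ 2 = (lam * s0) ^ 2 := by ring
      _ ≤ ‖∑ l ∈ F, c l‖ ^ 2 := pow_le_pow_left₀ (mul_nonneg hlam.le hs0') step1 2
      _ ≤ (∑ l ∈ F, ∫ x, ‖f l x‖ ^ 2 ∂ρ) * ∑ l ∈ F, Bn l := step3
      _ ≤ (∑ l ∈ F, ∫ x, ‖f l x‖ ^ 2 ∂ρ) * (κ * s0 ^ 2 + W * τ * s0) :=
          mul_le_mul_of_nonneg_left (step4.trans hfin) hA

end STZ
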