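import Pool.Agent.STZ.Sect
import Pool.Agent.STZ.Mink
import Pool.Agent.STZ.LamSU2
import Pool.Agent.STZ.EigLq

/-!
# STZ/PartA: the localised Strichartz estimate on SU(2) x Y for all q > 4

PROOF. `om (l,l') = l(l+2)/(8β) + omY l'`. Fix `T0`, `N`, `F`, `f`. Let `L = F.image Prod.fst`
(all `l ≤ N`), `h_l(x,y) = ∑_{l' : (l,l') ∈ F} f_{(l,l')}(x,y)` (sum over `F.filter (·.1 = l)`),
`u(t,x,y) = evol`, `v(t,x,y) = ∑_{l ∈ L} e^{-i t l(l+2)/(8β)} h_l(x,y)`, `A² = ∑_F ∫‖f‖²`.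
Step 1. For fixed `(t,x)`: `u(t,x,.) = ∑_{l'} e^{-i t omY l'} g_{l'}`, `v(t,x,.) = ∑_{l'} g_{l'}`,
`g_{l'}(y) = ∑_{l : (l,l') ∈ F} e^{-i t l(l+2)/(8β)} f_{(l,l')}(x,y) ∈ E_{l'}(Y)` (`sect_snd`, `mem_smul`,
`mem_sum`). `parseval`: `I(t,x) := ∫_Y ‖u(t,x,y)‖² dy = ∑ ∫‖g_{l'}‖² = ∫_Y ‖v(t,x,y)‖² dy`.
Step 2. `bernstein` and `DS`: `‖u(t,x,y)‖² ≤ C N^dY I(t,x)`, so
`∫_Y ‖u‖^q dy ≤ (C N^dY)^((q-2)/2) I(t,x)^(q/2)`.
Step 3. For fixed `x`, `mink_real` (one index, `r = q/2`, `h(t,y) = ‖v(t,x,y)‖²`) and `lam_su2`: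
`∫_0^T0 I^(q/2) dt ≤ (∫_Y (∫_0^T0 ‖v(t,x,y)‖^q dt)^(2/q) dy)^(q/2)`
`≤ C N^(q/2-2) (∫_Y ∑_l ‖h_l(x,y)‖² dy)^(q/2)`.
Step 4. `mink_real` in `x` with the index set `L` and `eig_Lq` (`sect_fst`, `mem_sum`, `l + 1 ≤ 2N`):
`∫_X (∑_l ∫_Y ‖h_l‖² dy)^(q/2) dx ≤ (∑_l ∫_Y (∫_X ‖h_l(x,y)‖^q dx)^(2/q) dy)^(q/2)`
`≤ C N^(q-3) (∑_l ∫_Y∫_X ‖h_l‖² dx dy)^(q/2)`.
Step 5. `∑_l ∫∫‖h_l‖² = ∑_l ∫_X ∑_{l'} ∫_Y ‖f_{(l,l')}‖² = A²` (`parseval` on `Y` for each `x`).
Exponent: `dY (q-2)/2 + q/2 - 2 + q - 3 = (3+dY) q/2 - (3+dY) - 2`.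
-/

open MeasureTheory Complex
open scoped ComplexConjugate

namespace STZ

variable {Y Λ' : Type*}
  [TopologicalSpace Y] [CompactSpace Y] [T2Space Y]
  [SecondCountableTopology Y] [MeasureSpace Y] [BorelSpace Y]
  [IsProbabilityMeasure (volume : Measure Y)] [DecidableEq Λ']

theorem integrable_of_bdd' {Ω E : Type*} [MeasurableSpace Ω] [NormedAddCommGroup E] (μ : Measure Ω)
    [IsFiniteMeasure μ] {f : Ω → E} (hf : AEStronglyMeasurable f μ) (M : ℝ)
    (hM : ∀ x, ‖f x‖ ≤ M) : Integrable f μ :=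
  Integrable.of_bound hf M (Filter.Eventually.of_forall hM)

theorem bdd_of_continuous {Z : Type*} [TopologicalSpace Z] [CompactSpace Z] {f : Z → ℂ}
    (hf : Continuous f) : ∃ M : ℝ, 0 ≤ M ∧ ∀ x, ‖f x‖ ≤ M := by
  obtain ⟨M, hM⟩ := (isCompact_range hf.norm).bddAbove
  exact ⟨max M 0, le_max_right _ _, fun x => (hM ⟨x, rfl⟩).trans (le_max_left _ _)⟩

/-- Steps 1 and 2. -/
theorem partA_step12 (R' : RK Y Λ') (L' : Finset Λ') (g : Λ' → Y → ℂ)
    (hg : ∀ l ∈ L', R'.Mem l (g l)) (e : Λ' → ℂ) (he : ∀ l, ‖e l‖ = 1) (K : ℝ)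
    (hK : ∑ l ∈ L', R'.D l ≤ K) (q : ℝ) (hq : 2 < q) :
    ∫ y, ‖∑ l ∈ L', e l * g l y‖ ^ q ≤
      K ^ ((q - 2) / 2) * (∫ y, ‖∑ l ∈ L', g l y‖ ^ 2) ^ (q / 2) := by
  have h1 : ∫ y, ‖∑ l ∈ L', g l y‖ ^ 2 = ∑ l ∈ L', ∫ y, ‖g l y‖ ^ 2 := R'.parseval L' g hg
  have h2 : ∫ y, ‖∑ l ∈ L', e l * g l y‖ ^ 2 = ∑ l ∈ L', ∫ y, ‖g l y‖ ^ 2 := by
    rw [R'.parseval L' (fun l y => e l * g l y) (fun l hl => R'.mem_smul (hg l hl) (e l))]
    refine Finset.sum_congr rfl fun l _ => ?_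
    simp only [norm_mul, he, one_mul]
  set A : ℝ := ∑ l ∈ L', ∫ y, ‖g l y‖ ^ 2 with hA
  have hA0 : 0 ≤ A := Finset.sum_nonneg fun l _ => integral_nonneg fun y => sq_nonneg _
  have hK0 : 0 ≤ K := (Finset.sum_nonneg fun l _ => R'.D_nonneg l).trans hK
  have h3 : ∀ y, ‖∑ l ∈ L', e l * g l y‖ ^ 2 ≤ K * A := by
    intro y
    have h4 := R'.bernstein L' (fun l y => e l * g l y) (fun l hl => R'.mem_smul (hg l hl) (e l)) y
    have h5 : ∑ l ∈ L', ∫ y, ‖e l * g l y‖ ^ 2 = A := by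
      refine Finset.sum_congr rfl fun l _ => ?_
      simp only [norm_mul, he, one_mul]
    rw [h5] at h4
    exact h4.trans (mul_le_mul_of_nonneg_right hK hA0)
  have hcont : Continuous fun y => ∑ l ∈ L', e l * g l y :=
    continuous_finsetSum _ fun l hl => continuous_const.mul (hg l hl).1
  obtain ⟨M, hM0, hM⟩ := bdd_of_continuous hcont
  rw [h1]
  calc ∫ y, ‖∑ l ∈ L', e l * g l y‖ ^ q
      ≤ ∫ y, (K * A) ^ ((q - 2) / 2) * ‖∑ l ∈ L', e l * g l y‖ ^ 2 := by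
        refine integral_mono ?_ ?_ (fun y => ?_)
        · refine integrable_of_bdd' _ ?_ (M ^ q) (fun y => ?_)
          · exact (hcont.norm.rpow_const fun _ => Or.inr (by linarith)).aestronglyMeasurable
          · rw [Real.norm_of_nonneg (Real.rpow_nonneg (norm_nonneg _) _)]
            exact Real.rpow_le_rpow (norm_nonneg _) (hM y) (by linarith)
        · refine integrable_of_bdd' _ ?_ ((K * A) ^ ((q - 2) / 2) * M ^ 2) (fun y => ?_)
          · exact (continuous_const.mul (hcont.norm.pow 2)).aestronglyMeasurable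
          · rw [Real.norm_of_nonneg (mul_nonneg (Real.rpow_nonneg (mul_nonneg hK0 hA0) _) (sq_nonneg _))]
            exact mul_le_mul_of_nonneg_left (pow_le_pow_left₀ (norm_nonneg _) (hM y) 2)
              (Real.rpow_nonneg (mul_nonneg hK0 hA0) _)
        · show ‖∑ l ∈ L', e l * g l y‖ ^ q ≤ (K * A) ^ ((q - 2) / 2) * ‖∑ l ∈ L', e l * g l y‖ ^ 2
          have h6 : ‖∑ l ∈ L', e l * g l y‖ ^ q =
              (‖∑ l ∈ L', e l * g l y‖ ^ 2) ^ ((q - 2) / 2) * ‖∑ l ∈ L', e l * g l y‖ ^ 2 := by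
            rcases eq_or_lt_of_le (norm_nonneg (∑ l ∈ L', e l * g l y)) with h | h
            · rw [← h, Real.zero_rpow (by linarith)]; simp
            · rw [← Real.rpow_natCast, ← Real.rpow_mul h.le, ← Real.rpow_add h]
              congr 1
              push_cast; ring
          rw [h6]
          exact mul_le_mul_of_nonneg_right (Real.rpow_le_rpow (sq_nonneg _) (h3 y) (by linarith))
            (sq_nonneg _)
    _ = K ^ ((q - 2) / 2) * A ^ (q / 2) := by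
        rw [integral_const_mul, h2, Real.mul_rpow hK0 hA0, mul_assoc]
        congr 1
        rcases eq_or_lt_of_le hA0 with h | h
        · rw [← h, mul_zero, Real.zero_rpow (by linarith)]
        · rw [← Real.rpow_add_one h.ne']
          congr 1; ring

/-- Step 3. -/
theorem partA_step3 (ν : Measure ℝ) [IsFiniteMeasure ν] (q K : ℝ) (hq : 4 < q) (hK : 0 ≤ K)
    (L : Finset ℕ) (e : ℝ → ℕ → ℂ) (hec : ∀ l, Continuous fun t => e t l)
    (he : ∀ t l, ‖e t l‖ = 1)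
    (hlam : ∀ c : ℕ → ℂ, ∫ t, ‖∑ l ∈ L, e t l * c l‖ ^ q ∂ν ≤ K * (∑ l ∈ L, ‖c l‖ ^ 2) ^ (q / 2))
    (H : ℕ → Y → ℂ) (hH : ∀ l ∈ L, Continuous (H l)) :
    ∫ t, (∫ y, ‖∑ l ∈ L, e t l * H l y‖ ^ 2) ^ (q / 2) ∂ν ≤
      K * (∑ l ∈ L, ∫ y, ‖H l y‖ ^ 2) ^ (q / 2) := by
  classical
  have hb : ∀ l : ℕ, ∃ M : ℝ, 0 ≤ M ∧ (l ∈ L → ∀ y, ‖H l y‖ ≤ M) := by
    intro l
    by_cases hl : l ∈ L
    · obtain ⟨M, h0, hM⟩ := bdd_of_continuous (hH l hl)
      exact ⟨M, h0, fun _ => hM⟩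
    · exact ⟨0, le_rfl, fun h => absurd h hl⟩
  choose Mf hMf0 hMf using hb
  set M : ℝ := ∑ l ∈ L, Mf l with hM
  have hM0 : 0 ≤ M := Finset.sum_nonneg fun l _ => hMf0 l
  have hvbd : ∀ t y, ‖∑ l ∈ L, e t l * H l y‖ ≤ M := by
    intro t y
    refine (norm_sum_le _ _).trans (Finset.sum_le_sum fun l hl => ?_)
    rw [norm_mul, he, one_mul]; exact hMf l hl y
  have hvcont : Continuous fun p : ℝ × Y => ∑ l ∈ L, e p.1 l * H l p.2 :=
    continuous_finsetSum _ fun l hl =>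
      ((hec l).comp continuous_fst).mul ((hH l hl).comp continuous_snd)
  have h1 := mink_real ν (volume : Measure Y) (Finset.univ : Finset Unit)
    (fun _ t y => ‖∑ l ∈ L, e t l * H l y‖ ^ 2)
    (fun _ _ => by
      have : Continuous fun p : ℝ × Y => ‖∑ l ∈ L, e p.1 l * H l p.2‖ ^ 2 := hvcont.norm.pow 2
      exact this.measurable)
    (fun _ t y => sq_nonneg _) (M ^ 2)
    (fun _ _ t y => pow_le_pow_left₀ (norm_nonneg _) (hvbd t y) 2) (q / 2) (by linarith)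
  simp only [Finset.univ_unique, Finset.sum_singleton] at h1
  refine h1.trans ?_
  have hr : 0 < q / 2 := by linarith
  have h2 : ∀ y, (∫ t, (‖∑ l ∈ L, e t l * H l y‖ ^ 2) ^ (q / 2) ∂ν) ^ (1 / (q / 2)) ≤
      K ^ (1 / (q / 2)) * ∑ l ∈ L, ‖H l y‖ ^ 2 := by
    intro y
    have e1 : ∀ t, (‖∑ l ∈ L, e t l * H l y‖ ^ 2) ^ (q / 2) = ‖∑ l ∈ L, e t l * H l y‖ ^ q := by
      intro t
      rw [← Real.rpow_natCast, ← Real.rpow_mul (norm_nonneg _)]
      congr 1; push_cast; ring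
    simp only [e1]
    have hS0 : 0 ≤ ∑ l ∈ L, ‖H l y‖ ^ 2 := Finset.sum_nonneg fun l _ => sq_nonneg _
    calc (∫ t, ‖∑ l ∈ L, e t l * H l y‖ ^ q ∂ν) ^ (1 / (q / 2))
        ≤ (K * (∑ l ∈ L, ‖H l y‖ ^ 2) ^ (q / 2)) ^ (1 / (q / 2)) :=
          Real.rpow_le_rpow (integral_nonneg fun t => Real.rpow_nonneg (norm_nonneg _) _)
            (hlam fun l => H l y) (by positivity)
      _ = _ := by
          rw [Real.mul_rpow hK (Real.rpow_nonneg hS0 _), ← Real.rpow_mul hS0,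
            mul_one_div_cancel hr.ne', Real.rpow_one]
  have hSint : ∀ l ∈ L, Integrable (fun y => ‖H l y‖ ^ 2) (volume : Measure Y) := by
    intro l hl
    refine integrable_of_bdd' _ ((hH l hl).norm.pow 2).aestronglyMeasurable (Mf l ^ 2) (fun y => ?_)
    rw [Real.norm_of_nonneg (sq_nonneg _)]
    exact pow_le_pow_left₀ (norm_nonneg _) (hMf l hl y) 2
  have h3 : ∫ y, (∫ t, (‖∑ l ∈ L, e t l * H l y‖ ^ 2) ^ (q / 2) ∂ν) ^ (1 / (q / 2)) ≤
      K ^ (1 / (q / 2)) * ∑ l ∈ L, ∫ y, ‖H l y‖ ^ 2 := by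
    calc ∫ y, (∫ t, (‖∑ l ∈ L, e t l * H l y‖ ^ 2) ^ (q / 2) ∂ν) ^ (1 / (q / 2))
        ≤ ∫ y, K ^ (1 / (q / 2)) * ∑ l ∈ L, ‖H l y‖ ^ 2 := by
          refine integral_mono_of_nonneg ?_ ?_ ?_
          · exact Filter.Eventually.of_forall fun y => Real.rpow_nonneg
              (integral_nonneg fun t => Real.rpow_nonneg (sq_nonneg _) _) _
          · exact (integrable_finsetSum _ hSint).const_mul _
          · exact Filter.Eventually.of_forall h2
      _ = _ := by rw [integral_const_mul, integral_finsetSum _ hSint]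
  calc (∫ y, (∫ t, (‖∑ l ∈ L, e t l * H l y‖ ^ 2) ^ (q / 2) ∂ν) ^ (1 / (q / 2))) ^ (q / 2)
      ≤ (K ^ (1 / (q / 2)) * ∑ l ∈ L, ∫ y, ‖H l y‖ ^ 2) ^ (q / 2) := by
        refine Real.rpow_le_rpow (integral_nonneg fun y => Real.rpow_nonneg
          (integral_nonneg fun t => Real.rpow_nonneg (sq_nonneg _) _) _) h3 hr.le
    _ = _ := by
        have hS0 : 0 ≤ ∑ l ∈ L, ∫ y, ‖H l y‖ ^ 2 :=
          Finset.sum_nonneg fun l _ => integral_nonneg fun y => sq_nonneg _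
        rw [Real.mul_rpow (Real.rpow_nonneg hK _) hS0, ← Real.rpow_mul hK,
          one_div_mul_cancel hr.ne', Real.rpow_one]

/-- Step 4. -/
theorem partA_step4 (q K : ℝ) (hq : 4 < q) (hK : 0 ≤ K) (L : Finset ℕ)
    (h : ℕ → SU2 → Y → ℂ) (hc : ∀ l ∈ L, Continuous fun p : SU2 × Y => h l p.1 p.2)
    (hE : ∀ l ∈ L, ∀ y, ∫ x, ‖h l x y‖ ^ q ≤ K * (∫ x, ‖h l x y‖ ^ 2) ^ (q / 2)) :
    ∫ x, (∑ l ∈ L, ∫ y, ‖h l x y‖ ^ 2) ^ (q / 2) ≤
      K * (∑ l ∈ L, ∫ y, ∫ x, ‖h l x y‖ ^ 2) ^ (q / 2) := by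
  classical
  have hb : ∀ l : ℕ, ∃ M : ℝ, 0 ≤ M ∧ (l ∈ L → ∀ x y, ‖h l x y‖ ≤ M) := by
    intro l
    by_cases hl : l ∈ L
    · obtain ⟨M, h0, hM⟩ := bdd_of_continuous (hc l hl)
      exact ⟨M, h0, fun _ x y => hM (x, y)⟩
    · exact ⟨0, le_rfl, fun h => absurd h hl⟩
  choose Mf hMf0 hMf using hb
  set M : ℝ := ∑ l ∈ L, Mf l with hM
  have hM0 : 0 ≤ M := Finset.sum_nonneg fun l _ => hMf0 l
  have hMl : ∀ l ∈ L, Mf l ≤ M := fun l hl =>
    Finset.single_le_sum (fun l _ => hMf0 l) hl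
  have h1 := mink_real (volume : Measure SU2) (volume : Measure Y) L
    (fun l x y => ‖h l x y‖ ^ 2)
    (fun l hl => by
      have : Continuous fun p : SU2 × Y => ‖h l p.1 p.2‖ ^ 2 := (hc l hl).norm.pow 2
      exact this.measurable)
    (fun _ x y => sq_nonneg _) (M ^ 2)
    (fun l hl x y => pow_le_pow_left₀ (norm_nonneg _) ((hMf l hl x y).trans (hMl l hl)) 2)
    (q / 2) (by linarith)
  refine h1.trans ?_
  have hr : 0 < q / 2 := by linarith
  have hxint : ∀ l ∈ L, ∀ y, Integrable (fun x => ‖h l x y‖ ^ 2) (volume : Measure SU2) := by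
    intro l hl y
    have hcy : Continuous fun x => h l x y := (hc l hl).comp (by fun_prop : Continuous fun x : SU2 => (x, y))
    refine integrable_of_bdd' _ (hcy.norm.pow 2).aestronglyMeasurable (Mf l ^ 2) (fun x => ?_)
    rw [Real.norm_of_nonneg (sq_nonneg _)]
    exact pow_le_pow_left₀ (norm_nonneg _) (hMf l hl x y) 2
  have hpint : ∀ l ∈ L, Integrable (fun p : Y × SU2 => ‖h l p.2 p.1‖ ^ 2)
      ((volume : Measure Y).prod (volume : Measure SU2)) := by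
    intro l hl
    have hcy : Continuous fun p : Y × SU2 => h l p.2 p.1 :=
      (hc l hl).comp (continuous_snd.prodMk continuous_fst)
    refine integrable_of_bdd' _ (hcy.norm.pow 2).aestronglyMeasurable (Mf l ^ 2) (fun p => ?_)
    rw [Real.norm_of_nonneg (sq_nonneg _)]
    exact pow_le_pow_left₀ (norm_nonneg _) (hMf l hl _ _) 2
  have h2 : ∀ l ∈ L, ∀ y, (∫ x, (‖h l x y‖ ^ 2) ^ (q / 2)) ^ (1 / (q / 2)) ≤
      K ^ (1 / (q / 2)) * ∫ x, ‖h l x y‖ ^ 2 := by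
    intro l hl y
    have e1 : ∀ x, (‖h l x y‖ ^ 2) ^ (q / 2) = ‖h l x y‖ ^ q := by
      intro x
      rw [← Real.rpow_natCast, ← Real.rpow_mul (norm_nonneg _)]
      congr 1; push_cast; ring
    simp only [e1]
    have hS0 : 0 ≤ ∫ x, ‖h l x y‖ ^ 2 := integral_nonneg fun x => sq_nonneg _
    calc (∫ x, ‖h l x y‖ ^ q) ^ (1 / (q / 2))
        ≤ (K * (∫ x, ‖h l x y‖ ^ 2) ^ (q / 2)) ^ (1 / (q / 2)) :=
          Real.rpow_le_rpow (integral_nonneg fun t => Real.rpow_nonneg (norm_nonneg _) _)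
            (hE l hl y) (by positivity)
      _ = _ := by
          rw [Real.mul_rpow hK (Real.rpow_nonneg hS0 _), ← Real.rpow_mul hS0,
            mul_one_div_cancel hr.ne', Real.rpow_one]
  have h3 : ∀ l ∈ L, ∫ y, (∫ x, (‖h l x y‖ ^ 2) ^ (q / 2)) ^ (1 / (q / 2)) ≤
      K ^ (1 / (q / 2)) * ∫ y, ∫ x, ‖h l x y‖ ^ 2 := by
    intro l hl
    rw [← integral_const_mul]
    refine integral_mono_of_nonneg ?_ ?_ ?_
    · exact Filter.Eventually.of_forall fun y => Real.rpow_nonneg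
        (integral_nonneg fun t => Real.rpow_nonneg (sq_nonneg _) _) _
    · exact ((hpint l hl).integral_prod_left).const_mul _
    · exact Filter.Eventually.of_forall (h2 l hl)
  calc (∑ l ∈ L, ∫ y, (∫ x, (‖h l x y‖ ^ 2) ^ (q / 2)) ^ (1 / (q / 2))) ^ (q / 2)
      ≤ (K ^ (1 / (q / 2)) * ∑ l ∈ L, ∫ y, ∫ x, ‖h l x y‖ ^ 2) ^ (q / 2) := by
        refine Real.rpow_le_rpow (Finset.sum_nonneg fun l _ => integral_nonneg fun y =>
          Real.rpow_nonneg (integral_nonneg fun t => Real.rpow_nonneg (sq_nonneg _) _) _) ?_ hr.le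
        rw [Finset.mul_sum]
        exact Finset.sum_le_sum h3
    _ = _ := by
        have hS0 : 0 ≤ ∑ l ∈ L, ∫ y, ∫ x, ‖h l x y‖ ^ 2 :=
          Finset.sum_nonneg fun l _ => integral_nonneg fun y => integral_nonneg fun x => sq_nonneg _
        rw [Real.mul_rpow (Real.rpow_nonneg hK _) hS0, ← Real.rpow_mul hK,
          one_div_mul_cancel hr.ne', Real.rpow_one]

/-- The measure theoretic part of the chain. -/
theorem chain_aux {Z W : Type*} [MeasurableSpace Z] [MeasurableSpace W] (ν : Measure ℝ)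
    [IsFiniteMeasure ν] (ρ : Measure Z) [IsFiniteMeasure ρ] (σ : Measure W) [IsFiniteMeasure σ]
    (U : ℝ → Z × W → ℝ) (hUm : Measurable (Function.uncurry U)) (hU0 : ∀ t z, 0 ≤ U t z)
    (B : ℝ) (hUB : ∀ t z, U t z ≤ B) (I : ℝ → Z → ℝ) (hIm : Measurable (Function.uncurry I))
    (hI0 : ∀ t x, 0 ≤ I t x) (B' : ℝ) (hIB : ∀ t x, I t x ≤ B') (K : ℝ) (hK : 0 ≤ K)
    (h12 : ∀ t x, ∫ y, U t (x, y) ∂σ ≤ K * I t x) (J : Z → ℝ) (hJm : Measurable J)
    (hJ0 : ∀ x, 0 ≤ J x) (B'' : ℝ) (hJB : ∀ x, J x ≤ B'') (h3 : ∀ x, ∫ t, I t x ∂ν ≤ J x) :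
    ∫ p, U p.1 p.2 ∂(ν.prod (ρ.prod σ)) ≤ K * ∫ x, J x ∂ρ := by
  have hI_int : Integrable (Function.uncurry I) (ν.prod ρ) := by
    refine integrable_of_bdd' _ hIm.aestronglyMeasurable B' (fun p => ?_)
    rw [show Function.uncurry I p = I p.1 p.2 from rfl, Real.norm_of_nonneg (hI0 _ _)]
    exact hIB _ _
  have hU_int : Integrable (Function.uncurry U) (ν.prod (ρ.prod σ)) := by
    refine integrable_of_bdd' _ hUm.aestronglyMeasurable B (fun p => ?_)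
    rw [show Function.uncurry U p = U p.1 p.2 from rfl, Real.norm_of_nonneg (hU0 _ _)]
    exact hUB _ _
  have hUt_int : ∀ t, Integrable (U t) (ρ.prod σ) := by
    intro t
    have hm : Measurable (U t) := hUm.comp measurable_prodMk_left
    refine integrable_of_bdd' _ hm.aestronglyMeasurable B (fun p => ?_)
    rw [Real.norm_of_nonneg (hU0 _ _)]
    exact hUB _ _
  have hIt_int : ∀ t, Integrable (I t) ρ := by
    intro t
    have hm : Measurable (I t) := hIm.comp measurable_prodMk_left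
    refine integrable_of_bdd' _ hm.aestronglyMeasurable B' (fun p => ?_)
    rw [Real.norm_of_nonneg (hI0 _ _)]
    exact hIB _ _
  have hJ_int : Integrable J ρ := by
    refine integrable_of_bdd' _ hJm.aestronglyMeasurable B'' (fun p => ?_)
    rw [Real.norm_of_nonneg (hJ0 _)]
    exact hJB _
  have e1 : ∫ p, U p.1 p.2 ∂(ν.prod (ρ.prod σ)) = ∫ t, ∫ z, U t z ∂(ρ.prod σ) ∂ν :=
    integral_prod _ hU_int
  have e2 : ∀ t, ∫ z, U t z ∂(ρ.prod σ) ≤ K * ∫ x, I t x ∂ρ := by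
    intro t
    rw [integral_prod _ (hUt_int t), ← integral_const_mul]
    refine integral_mono_of_nonneg ?_ ((hIt_int t).const_mul K) ?_
    · exact Filter.Eventually.of_forall fun x => integral_nonneg fun y => hU0 _ _
    · exact Filter.Eventually.of_forall fun x => h12 t x
  have e3 : ∫ t, ∫ z, U t z ∂(ρ.prod σ) ∂ν ≤ K * ∫ t, ∫ x, I t x ∂ρ ∂ν := by
    rw [← integral_const_mul]
    refine integral_mono_of_nonneg ?_ (hI_int.integral_prod_left.const_mul K) ?_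
    · exact Filter.Eventually.of_forall fun x => integral_nonneg fun y => hU0 _ _
    · exact Filter.Eventually.of_forall e2
  have e4 : ∫ t, ∫ x, I t x ∂ρ ∂ν = ∫ x, ∫ t, I t x ∂ν ∂ρ := integral_integral_swap hI_int
  have e5 : ∫ x, ∫ t, I t x ∂ν ∂ρ ≤ ∫ x, J x ∂ρ := by
    refine integral_mono_of_nonneg ?_ hJ_int ?_
    · exact Filter.Eventually.of_forall fun x => integral_nonneg fun t => hI0 _ _
    · exact Filter.Eventually.of_forall h3
  rw [e1]
  refine e3.trans ?_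
  rw [e4]
  exact mul_le_mul_of_nonneg_left e5 hK

theorem BE_su2_prod (β : ℝ) (hβ : 0 < β) (R' : RK Y Λ') (omY : Λ' → ℝ) (sizeY : Λ' → ℕ) (dY : ℕ)
    (hD : DS R' sizeY dY) (q : ℝ) (hq : 4 < q) :
    BE (su2RK.prod R') (fun l => (l.1 : ℝ) * ((l.1 : ℝ) + 2) / (8 * β) + omY l.2)
      (fun l => max l.1 (sizeY l.2)) (3 + dY) q := by
  classical
  intro T0 hT0
  obtain ⟨C1, hC1, hD1⟩ := hD
  obtain ⟨C2, hC2, hlam⟩ := lam_su2 β T0 q hβ hT0 hq
  obtain ⟨C3, hC3, heig⟩ := eig_Lq q hq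
  refine ⟨C1 ^ ((q - 2) / 2) * C2 * (C3 * 2 ^ (q - 3)), by positivity, fun N hN F hF f hf => ?_⟩
  have hN0 : (0 : ℝ) < N := by exact_mod_cast hN
  set om : ℕ × Λ' → ℝ := fun l => (l.1 : ℝ) * ((l.1 : ℝ) + 2) / (8 * β) + omY l.2 with hom
  set L : Finset ℕ := F.image Prod.fst with hL
  set L' : Finset Λ' := F.image Prod.snd with hL'
  have hFL : F ⊆ L ×ˢ L' := fun p hp =>
    Finset.mem_product.2 ⟨Finset.mem_image_of_mem _ hp, Finset.mem_image_of_mem _ hp⟩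
  have hLN : ∀ l ∈ L, l ≤ N := by
    intro l hl
    obtain ⟨p, hp, rfl⟩ := Finset.mem_image.1 hl
    exact (le_max_left _ _).trans (hF p hp)
  have hLN' : ∀ l ∈ L', sizeY l ≤ N := by
    intro l hl
    obtain ⟨p, hp, rfl⟩ := Finset.mem_image.1 hl
    exact (le_max_right _ _).trans (hF p hp)
  set f' : ℕ × Λ' → SU2 × Y → ℂ := fun p => if p ∈ F then f p else fun _ => 0 with hf'def
  have hf' : ∀ p, (su2RK.prod R').Mem p (f' p) := by
    intro p
    simp only [hf'def]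
    by_cases hp : p ∈ F
    · rw [if_pos hp]; exact hf p hp
    · rw [if_neg hp]
      exact ⟨continuous_const, fun x => by simp⟩
  have hf'F : ∀ p ∈ F, f' p = f p := fun p hp => by simp only [hf'def]; rw [if_pos hp]
  have hf'n : ∀ p, p ∉ F → f' p = fun _ => 0 := fun p hp => by simp only [hf'def]; rw [if_neg hp]
  have hcont : ∀ p, Continuous (f' p) := fun p => (hf' p).1
  -- the phases
  set e : ℝ → ℕ → ℂ := fun t l =>
    cexp (-((t * ((l : ℝ) * ((l : ℝ) + 2) / (8 * β)) : ℝ) : ℂ) * I) with he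
  set e' : ℝ → Λ' → ℂ := fun t l => cexp (-((t * omY l : ℝ) : ℂ) * I) with he'
  have henorm : ∀ t l, ‖e t l‖ = 1 := by
    intro t l
    simp only [he]
    rw [show -((t * ((l : ℝ) * ((l : ℝ) + 2) / (8 * β)) : ℝ) : ℂ) * I =
      ((-(t * ((l : ℝ) * ((l : ℝ) + 2) / (8 * β))) : ℝ) : ℂ) * I by push_cast; ring]
    exact Complex.norm_exp_ofReal_mul_I _
  have he'norm : ∀ t l, ‖e' t l‖ = 1 := by
    intro t l
    simp only [he']
    rw [show -((t * omY l : ℝ) : ℂ) * I = ((-(t * omY l) : ℝ) : ℂ) * I by push_cast; ring]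
    exact Complex.norm_exp_ofReal_mul_I _
  have hecont : ∀ l, Continuous fun t => e t l := by
    intro l; simp only [he]; fun_prop
  have he'cont : ∀ l, Continuous fun t => e' t l := by
    intro l; simp only [he']; fun_prop
  -- sums over the rectangle
  have hrect : ∀ (φ : ℕ × Λ' → SU2 × Y → ℂ → ℂ) (z : SU2 × Y), (∀ p, φ p z 0 = 0) →
      ∑ p ∈ F, φ p z (f p z) = ∑ l' ∈ L', ∑ l ∈ L, φ (l, l') z (f' (l, l') z) := by
    intro φ z hφ
    rw [Finset.sum_comm, ← Finset.sum_product (f := fun p => φ p z (f' p z))]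
    rw [← Finset.sum_subset hFL (f := fun p => φ p z (f' p z))]
    · exact Finset.sum_congr rfl fun p hp => by rw [hf'F p hp]
    · intro p _ hp
      rw [hf'n p hp]; exact hφ p
  have hu : ∀ t x y, evol om F f t (x, y) =
      ∑ l' ∈ L', e' t l' * ∑ l ∈ L, e t l * f' (l, l') (x, y) := by
    intro t x y
    unfold evol
    rw [hrect (fun p _ w => cexp (-((t * om p : ℝ) : ℂ) * I) * w) (x, y) (fun p => mul_zero _)]
    refine Finset.sum_congr rfl fun l' _ => ?_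
    rw [Finset.mul_sum]
    refine Finset.sum_congr rfl fun l _ => ?_
    simp only [he, he', hom]
    rw [← mul_assoc, ← Complex.exp_add]
    congr 2
    push_cast; ring
  -- sections
  have hsec : ∀ l l' x, R'.Mem l' (fun y => f' (l, l') (x, y)) := fun l l' x =>
    sect_snd su2RK R' (l, l') (f' (l, l')) (hf' (l, l')) x
  have hsec1 : ∀ l l' y, su2RK.Mem l (fun x => f' (l, l') (x, y)) := fun l l' y =>
    sect_fst su2RK R' (l, l') (f' (l, l')) (hf' (l, l')) y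
  set h : ℕ → SU2 → Y → ℂ := fun l x y => ∑ l' ∈ L', f' (l, l') (x, y) with hh
  have hhcont : ∀ l, Continuous fun p : SU2 × Y => h l p.1 p.2 := by
    intro l
    exact continuous_finsetSum _ fun l' _ => hcont (l, l')
  have hhmem : ∀ l y, su2RK.Mem l (fun x => h l x y) := fun l y =>
    su2RK.mem_sum l L' (fun l' x => f' (l, l') (x, y)) (fun l' _ => hsec1 l l' y)
  -- Step 1, 2
  have hS12 : ∀ t x, ∫ y, ‖evol om F f t (x, y)‖ ^ q ≤
      (C1 * (N : ℝ) ^ dY) ^ ((q - 2) / 2) * (∫ y, ‖∑ l ∈ L, e t l * h l x y‖ ^ 2) ^ (q / 2) := by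
    intro t x
    have h1 := partA_step12 R' L' (fun l' y => ∑ l ∈ L, e t l * f' (l, l') (x, y))
      (fun l' _ => R'.mem_sum l' L (fun l y => e t l * f' (l, l') (x, y))
        (fun l _ => R'.mem_smul (hsec l l' x) (e t l))) (e' t) (he'norm t)
      (C1 * (N : ℝ) ^ dY) (hD1 N hN L' hLN') q (by linarith)
    have h2 : ∀ y, ∑ l' ∈ L', ∑ l ∈ L, e t l * f' (l, l') (x, y) = ∑ l ∈ L, e t l * h l x y := by
      intro y
      rw [Finset.sum_comm]
      refine Finset.sum_congr rfl fun l _ => ?_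
      simp only [hh]
      rw [Finset.mul_sum]
    simp only [h2] at h1
    simp only [hu]
    exact h1
  -- bounds
  have hball : ∃ M : ℝ, 0 ≤ M ∧ ∀ l ∈ L, ∀ x y, ‖h l x y‖ ≤ M := by
    have hb : ∀ l : ℕ, ∃ M : ℝ, 0 ≤ M ∧ ∀ x y, ‖h l x y‖ ≤ M := by
      intro l
      obtain ⟨M, h0, hM⟩ := bdd_of_continuous (hhcont l)
      exact ⟨M, h0, fun x y => hM (x, y)⟩
    choose Mf hMf0 hMf using hb
    exact ⟨∑ l ∈ L, Mf l, Finset.sum_nonneg fun l _ => hMf0 l, fun l hl x y =>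
      (hMf l x y).trans (Finset.single_le_sum (fun l _ => hMf0 l) hl)⟩
  obtain ⟨M, hM0, hM⟩ := hball
  set v : ℝ → SU2 → Y → ℂ := fun t x y => ∑ l ∈ L, e t l * h l x y with hv
  have hvcont : Continuous fun p : (ℝ × SU2) × Y => v p.1.1 p.1.2 p.2 := by
    refine continuous_finsetSum _ fun l _ => ?_
    refine ((hecont l).comp continuous_fst.fst).mul ?_
    exact (hhcont l).comp (continuous_fst.snd.prodMk continuous_snd)
  have hvbd : ∀ t x y, ‖v t x y‖ ≤ L.card * M := by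
    intro t x y
    refine (norm_sum_le _ _).trans ?_
    rw [← nsmul_eq_mul]
    refine Finset.sum_le_card_nsmul _ _ _ fun l hl => ?_
    rw [norm_mul, henorm, one_mul]; exact hM l hl x y
  set ν : Measure ℝ := volume.restrict (Set.Icc (0 : ℝ) T0) with hν
  have hνfin : IsFiniteMeasure ν := by rw [hν]; infer_instance
  set Iv : ℝ → SU2 → ℝ := fun t x => ∫ y, ‖v t x y‖ ^ 2 with hIv
  have hIv_meas : Measurable fun p : ℝ × SU2 => Iv p.1 p.2 := by
    have h1 : StronglyMeasurable fun p : (ℝ × SU2) × Y => ‖v p.1.1 p.1.2 p.2‖ ^ 2 :=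
      (hvcont.norm.pow 2).measurable.stronglyMeasurable
    exact (h1.integral_prod_right (ν := (volume : Measure Y))).measurable
  have hIv0 : ∀ t x, 0 ≤ Iv t x := fun t x => integral_nonneg fun y => sq_nonneg _
  have hIv_bd : ∀ t x, Iv t x ≤ (L.card * M) ^ 2 := by
    intro t x
    have h1 : ‖∫ y, ‖v t x y‖ ^ 2‖ ≤ (L.card * M) ^ 2 * (volume : Measure Y).real Set.univ :=
      norm_integral_le_of_norm_le_const (Filter.Eventually.of_forall fun y => by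
        rw [Real.norm_of_nonneg (sq_nonneg _)]
        exact pow_le_pow_left₀ (norm_nonneg _) (hvbd t x y) 2)
    have h2 : (volume : Measure Y).real Set.univ = 1 := by simp
    rw [h2, mul_one] at h1
    exact (le_abs_self _).trans h1
  have hucont : Continuous fun p : ℝ × (SU2 × Y) => evol om F f p.1 p.2 := by
    have : (fun p : ℝ × (SU2 × Y) => evol om F f p.1 p.2) = fun p : ℝ × (SU2 × Y) =>
        ∑ l' ∈ L', e' p.1 l' * ∑ l ∈ L, e p.1 l * f' (l, l') p.2 := by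
      ext p; exact hu p.1 p.2.1 p.2.2
    rw [this]
    refine continuous_finsetSum _ fun l' _ => ((he'cont l').comp continuous_fst).mul ?_
    exact continuous_finsetSum _ fun l _ => ((hecont l).comp continuous_fst).mul
      ((hcont (l, l')).comp continuous_snd)
  have hubd : ∃ B : ℝ, 0 ≤ B ∧ ∀ t z, ‖evol om F f t z‖ ≤ B := by
    have hb : ∀ p : ℕ × Λ', ∃ M : ℝ, 0 ≤ M ∧ ∀ z, ‖f' p z‖ ≤ M := fun p =>
      bdd_of_continuous (hcont p)
    choose Mf hMf0 hMf using hb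
    refine ⟨∑ l' ∈ L', ∑ l ∈ L, Mf (l, l'), Finset.sum_nonneg fun l' _ =>
      Finset.sum_nonneg fun l _ => hMf0 _, fun t z => ?_⟩
    have h1 := hu t z.1 z.2
    rw [show evol om F f t z = evol om F f t (z.1, z.2) from rfl, h1]
    refine (norm_sum_le _ _).trans (Finset.sum_le_sum fun l' _ => ?_)
    rw [norm_mul, he'norm, one_mul]
    refine (norm_sum_le _ _).trans (Finset.sum_le_sum fun l _ => ?_)
    rw [norm_mul, henorm, one_mul]
    exact hMf _ _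
  obtain ⟨B, hB0, hB⟩ := hubd
  -- the chain
  set K1 : ℝ := (C1 * (N : ℝ) ^ dY) ^ ((q - 2) / 2) with hK1
  set K2 : ℝ := C2 * (N : ℝ) ^ (q / 2 - 2) with hK2
  set K3 : ℝ := C3 * (2 * (N : ℝ)) ^ (q - 3) with hK3
  have hK10 : 0 ≤ K1 := by positivity
  have hK20 : 0 ≤ K2 := by positivity
  have hK30 : 0 ≤ K3 := by positivity
  have hA : ∑ l ∈ L, ∫ y, ∫ x, ‖h l x y‖ ^ 2 = ∑ l ∈ F, ∫ z, ‖f l z‖ ^ 2 := by
    have hswap : ∀ l, ∫ y, ∫ x, ‖h l x y‖ ^ 2 = ∫ x, ∫ y, ‖h l x y‖ ^ 2 := by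
      intro l
      obtain ⟨M', hM'0, hM'⟩ := bdd_of_continuous (hhcont l)
      refine integral_integral_swap (f := fun y x => ‖h l x y‖ ^ 2) ?_
      have hc : Continuous fun p : Y × SU2 => h l p.2 p.1 :=
        (hhcont l).comp (continuous_snd.prodMk continuous_fst)
      refine integrable_of_bdd' _ (hc.norm.pow 2).aestronglyMeasurable (M' ^ 2) (fun p => ?_)
      rw [show Function.uncurry (fun y x => ‖h l x y‖ ^ 2) p = ‖h l p.2 p.1‖ ^ 2 from rfl,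
        Real.norm_of_nonneg (sq_nonneg _)]
      exact pow_le_pow_left₀ (norm_nonneg _) (hM' (p.2, p.1)) 2
    have hpars : ∀ l, ∫ x, ∫ y, ‖h l x y‖ ^ 2 = ∑ l' ∈ L', ∫ z, ‖f' (l, l') z‖ ^ 2 := by
      intro l
      have h1 : ∀ x, ∫ y, ‖h l x y‖ ^ 2 = ∑ l' ∈ L', ∫ y, ‖f' (l, l') (x, y)‖ ^ 2 := fun x =>
        R'.parseval L' (fun l' y => f' (l, l') (x, y)) (fun l' _ => hsec l l' x)
      simp only [h1]
      have hint : ∀ l' ∈ L', Integrable (fun z : SU2 × Y => ‖f' (l, l') z‖ ^ 2)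
          ((volume : Measure SU2).prod (volume : Measure Y)) := by
        intro l' _
        obtain ⟨M', hM'0, hM'⟩ := bdd_of_continuous (hcont (l, l'))
        refine integrable_of_bdd' _ ((hcont (l, l')).norm.pow 2).aestronglyMeasurable (M' ^ 2)
          (fun p => ?_)
        rw [Real.norm_of_nonneg (sq_nonneg _)]
        exact pow_le_pow_left₀ (norm_nonneg _) (hM' p) 2
      rw [integral_finsetSum _ fun l' hl' => (hint l' hl').integral_prod_left]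
      refine Finset.sum_congr rfl fun l' hl' => ?_
      exact (integral_prod _ (hint l' hl')).symm
    simp only [hswap, hpars]
    rw [← Finset.sum_product (f := fun p => ∫ z, ‖f' p z‖ ^ 2)]
    rw [← Finset.sum_subset hFL (f := fun p => ∫ z, ‖f' p z‖ ^ 2)]
    · exact Finset.sum_congr rfl fun p hp => by rw [hf'F p hp]
    · intro p _ hp
      rw [hf'n p hp]; simp
  have hchain : ∫ p, ‖evol om F f p.1 p.2‖ ^ q ∂(stm (SU2 × Y) T0) ≤
      K1 * (K2 * (K3 * (∑ l ∈ F, ∫ z, ‖f l z‖ ^ 2) ^ (q / 2))) := by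
    have hJm : Measurable fun x : SU2 => ∑ l ∈ L, ∫ y, ‖h l x y‖ ^ 2 := by
      refine Finset.measurable_sum _ fun l _ => ?_
      have h1 : StronglyMeasurable fun p : SU2 × Y => ‖h l p.1 p.2‖ ^ 2 :=
        ((hhcont l).norm.pow 2).measurable.stronglyMeasurable
      exact (h1.integral_prod_right (ν := (volume : Measure Y))).measurable
    have hJ0 : ∀ x, 0 ≤ ∑ l ∈ L, ∫ y, ‖h l x y‖ ^ 2 := fun x =>
      Finset.sum_nonneg fun l _ => integral_nonneg fun y => sq_nonneg _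
    have hJB : ∀ x, ∑ l ∈ L, ∫ y, ‖h l x y‖ ^ 2 ≤ ∑ l ∈ L, M ^ 2 := by
      intro x
      refine Finset.sum_le_sum fun l hl => ?_
      have h1 : ‖∫ y, ‖h l x y‖ ^ 2‖ ≤ M ^ 2 * (volume : Measure Y).real Set.univ :=
        norm_integral_le_of_norm_le_const (Filter.Eventually.of_forall fun y => by
          rw [Real.norm_of_nonneg (sq_nonneg _)]
          exact pow_le_pow_left₀ (norm_nonneg _) (hM l hl x y) 2)
      have h2 : (volume : Measure Y).real Set.univ = 1 := by simp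
      rw [h2, mul_one] at h1
      exact (le_abs_self _).trans h1
    have hst3 : ∀ x, ∫ t, Iv t x ^ (q / 2) ∂ν ≤ K2 * (∑ l ∈ L, ∫ y, ‖h l x y‖ ^ 2) ^ (q / 2) := by
      intro x
      have hhx : ∀ l ∈ L, Continuous (h l x) := fun l _ =>
        (hhcont l).comp (by fun_prop : Continuous fun y : Y => (x, y))
      exact partA_step3 ν q K2 hq hK20 L e hecont henorm
        (fun c => hlam N hN L hLN c) (fun l => h l x) hhx
    have hst4 : ∫ x, (∑ l ∈ L, ∫ y, ‖h l x y‖ ^ 2) ^ (q / 2) ≤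
        K3 * (∑ l ∈ L, ∫ y, ∫ x, ‖h l x y‖ ^ 2) ^ (q / 2) := by
      refine partA_step4 q K3 hq hK30 L h (fun l _ => hhcont l) (fun l hl y => ?_)
      refine (heig l (fun x => h l x y) (hhmem l y)).trans ?_
      have h1 : 0 ≤ (∫ x, ‖h l x y‖ ^ 2) ^ (q / 2) :=
        Real.rpow_nonneg (integral_nonneg fun x => sq_nonneg _) _
      refine mul_le_mul_of_nonneg_right ?_ h1
      refine mul_le_mul_of_nonneg_left ?_ hC3.le
      refine Real.rpow_le_rpow (by positivity) ?_ (by linarith)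
      have h2 : (l : ℝ) ≤ N := by exact_mod_cast hLN l hl
      have h3 : (1 : ℝ) ≤ N := by exact_mod_cast hN
      linarith
    have hUm : Measurable (Function.uncurry fun (t : ℝ) (z : SU2 × Y) => ‖evol om F f t z‖ ^ q) :=
      (hucont.norm.rpow_const fun _ => Or.inr (by linarith)).measurable
    have hmain := chain_aux ν (volume : Measure SU2) (volume : Measure Y)
      (fun t z => ‖evol om F f t z‖ ^ q) hUm
      (fun t z => Real.rpow_nonneg (norm_nonneg _) _) (B ^ q)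
      (fun t z => Real.rpow_le_rpow (norm_nonneg _) (hB _ _) (by linarith))
      (fun t x => Iv t x ^ (q / 2)) (hIv_meas.pow_const _)
      (fun t x => Real.rpow_nonneg (hIv0 _ _) _) (((L.card * M) ^ 2) ^ (q / 2))
      (fun t x => Real.rpow_le_rpow (hIv0 _ _) (hIv_bd _ _) (by linarith)) K1 hK10 hS12
      (fun x => K2 * (∑ l ∈ L, ∫ y, ‖h l x y‖ ^ 2) ^ (q / 2)) ((hJm.pow_const _).const_mul K2)
      (fun x => mul_nonneg hK20 (Real.rpow_nonneg (hJ0 x) _))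
      (K2 * (∑ l ∈ L, M ^ 2) ^ (q / 2))
      (fun x => mul_le_mul_of_nonneg_left (Real.rpow_le_rpow (hJ0 x) (hJB x) (by linarith)) hK20)
      hst3
    have hm2 : K1 * ∫ x, K2 * (∑ l ∈ L, ∫ y, ‖h l x y‖ ^ 2) ^ (q / 2) ≤
        K1 * (K2 * (K3 * (∑ l ∈ F, ∫ z, ‖f l z‖ ^ 2) ^ (q / 2))) := by
      rw [integral_const_mul, ← hA]
      exact mul_le_mul_of_nonneg_left (mul_le_mul_of_nonneg_left hst4 hK20) hK10
    exact hmain.trans hm2
  refine hchain.trans (le_of_eq ?_)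
  have hpow : K1 * (K2 * K3) = C1 ^ ((q - 2) / 2) * C2 * (C3 * 2 ^ (q - 3)) *
      (N : ℝ) ^ (((3 + dY : ℕ) : ℝ) * q / 2 - ((3 + dY : ℕ) : ℝ) - 2) := by
    have h1 : ((N : ℝ) ^ dY) ^ ((q - 2) / 2) = (N : ℝ) ^ ((dY : ℝ) * ((q - 2) / 2)) := by
      rw [← Real.rpow_natCast, ← Real.rpow_mul hN0.le]
    rw [hK1, hK2, hK3, Real.mul_rpow (by linarith) (by positivity), h1,
      Real.mul_rpow (by norm_num) hN0.le]
    have h2 : (N : ℝ) ^ (((3 + dY : ℕ) : ℝ) * q / 2 - ((3 + dY : ℕ) : ℝ) - 2) =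
        (N : ℝ) ^ ((dY : ℝ) * ((q - 2) / 2)) * ((N : ℝ) ^ (q / 2 - 2) * (N : ℝ) ^ (q - 3)) := by
      rw [← Real.rpow_add hN0, ← Real.rpow_add hN0]
      congr 1; push_cast; ring
    rw [h2]; ring
  rw [← hpow]; ring

end STZ
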