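import Pool.Agent.STZ.Inst

/-!
# STZ/Transfer: the localised estimate is invariant under isomorphism

PROOF of `BE_transfer`. Given `F`, `f` on `X` with `R.Mem l (f l)`, put `F' = F.map φ`,
`f' l' = f (φ.symm l') ∘ e.symm`. Then `R'.Mem l' (f' l')`:
`∫_z' k' l' (e x) z' f'(z') = ∫_z k l x z f z` by `he.integral_comp` (`e` is a measurable embedding,
`e.measurableEmbedding` for homeomorphisms between Borel spaces) and `hk`. Also
`∫‖f' l'‖² = ∫‖f l‖²`, `evol om' F' f' t (e x) = evol om F f t x` and
`∫ p, ‖evol om F f p.1 p.2‖^q ∂(stm X T0) = ∫ p, ‖evol om' F' f' p.1 p.2‖^q ∂(stm X' T0)`, the map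
`(t,x) ↦ (t, e x)` being measure preserving (`MeasurePreserving.prod`, with `MeasurePreserving.id`).
PROOF of `split_G`: the homeomorphism is
`(x, g) ↦ (g 0, (x, fun j => g j.succ))` with inverse `(a, (x, h)) ↦ (x, Fin.cons a h)`. It is
measure preserving by `measurePreserving_piFinSuccAbove` (with `i = 0`), associativity and
commutativity of products (`measurePreserving_prodAssoc`, `Measure.measurePreserving_swap`).
-/

open MeasureTheory Complex
open scoped ComplexConjugate

namespace STZ

theorem BE_transfer {X Λ X' Λ' : Type*} [TopologicalSpace X] [CompactSpace X] [T2Space X]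
    [SecondCountableTopology X] [MeasureSpace X] [BorelSpace X]
    [IsProbabilityMeasure (volume : Measure X)] [DecidableEq Λ]
    [TopologicalSpace X'] [CompactSpace X'] [T2Space X']
    [SecondCountableTopology X'] [MeasureSpace X'] [BorelSpace X']
    [IsProbabilityMeasure (volume : Measure X')] [DecidableEq Λ']
    (R : RK X Λ) (R' : RK X' Λ') (om : Λ → ℝ) (om' : Λ' → ℝ) (size : Λ → ℕ) (size' : Λ' → ℕ)
    (e : X ≃ₜ X') (he : MeasurePreserving e volume volume) (φ : Λ ≃ Λ')
    (hk : ∀ l x y, R.k l x y = R'.k (φ l) (e x) (e y)) (hom : ∀ l, om l = om' (φ l))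
    (hsize : ∀ l, size l = size' (φ l)) (d : ℕ) (q : ℝ) (h : BE R' om' size' d q) :
    BE R om size d q := by
  classical
  intro T0 hT0
  obtain ⟨C, hC, hC'⟩ := h T0 hT0
  refine ⟨C, hC, fun N hN F hF f hf => ?_⟩
  have he' : MeasurableEmbedding e := e.measurableEmbedding
  have key := hC' N hN (F.map φ.toEmbedding) (by
    intro l' hl'
    obtain ⟨l, hl, rfl⟩ := Finset.mem_map.1 hl'
    have := hF l hl
    rw [hsize] at this
    exact this) (fun l' x' => f (φ.symm l') (e.symm x')) (by
    intro l' hl'
    obtain ⟨l, hl, rfl⟩ := Finset.mem_map.1 hl'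
    have hm := hf l hl
    refine ⟨?_, fun x' => ?_⟩
    · simp only [Equiv.coe_toEmbedding, Equiv.symm_apply_apply]
      exact hm.1.comp e.symm.continuous
    · simp only [Equiv.coe_toEmbedding, Equiv.symm_apply_apply]
      rw [← he.integral_comp he']
      have h2 := hm.2 (e.symm x')
      rw [← h2]
      refine integral_congr_ae (Filter.Eventually.of_forall fun z => ?_)
      simp only
      rw [hk, Homeomorph.apply_symm_apply, Homeomorph.symm_apply_apply])
  have h3 : ∀ (t : ℝ) (x : X), evol om' (F.map φ.toEmbedding)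
      (fun l' x' => f (φ.symm l') (e.symm x')) t (e x) = evol om F f t x := by
    intro t x
    unfold evol
    rw [Finset.sum_map]
    refine Finset.sum_congr rfl fun l _ => ?_
    simp only [Equiv.coe_toEmbedding, Equiv.symm_apply_apply, Homeomorph.symm_apply_apply]
    rw [hom]
  have h4 : ∑ l' ∈ F.map φ.toEmbedding, ∫ x', ‖f (φ.symm l') (e.symm x')‖ ^ 2 =
      ∑ l ∈ F, ∫ x, ‖f l x‖ ^ 2 := by
    rw [Finset.sum_map]
    refine Finset.sum_congr rfl fun l _ => ?_
    simp only [Equiv.coe_toEmbedding, Equiv.symm_apply_apply]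
    rw [← he.integral_comp he']
    simp only [Homeomorph.symm_apply_apply]
  have h5 : MeasurePreserving (Prod.map id e) (stm X T0) (stm X' T0) := by
    unfold stm
    exact (MeasurePreserving.id _).prod he
  have h6 : MeasurableEmbedding (Prod.map id e : ℝ × X → ℝ × X') :=
    ((Homeomorph.refl ℝ).prodCongr e).measurableEmbedding
  rw [h4, ← h5.integral_comp h6] at key
  simp only [Prod.map_fst, Prod.map_snd, id_eq, h3] at key
  exact key

/-- The homeomorphism `T^n x SU(2)^(m+1) ≃ SU(2) x (T^n x SU(2)^m)`. -/
noncomputable def splitG (n m : ℕ) : G n (m + 1) ≃ₜ SU2 × G n m where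
  toFun p := (p.2 0, (p.1, fun j => p.2 j.succ))
  invFun p := (p.2.1, Fin.cons p.1 p.2.2)
  left_inv p := by
    refine Prod.ext rfl ?_
    exact Fin.cons_self_tail p.2
  right_inv p := by
    refine Prod.ext ?_ ?_
    · simp
    · refine Prod.ext rfl ?_
      funext j
      simp
  continuous_toFun := by fun_prop
  continuous_invFun := by
    refine continuous_snd.fst.prodMk ?_
    refine continuous_pi fun j => ?_
    refine Fin.cases ?_ (fun j => ?_) j
    · simpa using continuous_fst
    · have h1 : Continuous fun a : SU2 × G n m => a.2.2 j :=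
        (continuous_apply j).comp (continuous_snd.comp continuous_snd)
      simpa using h1

theorem splitG_preserving (n m : ℕ) : MeasurePreserving (splitG n m) volume volume := by
  have h1 : MeasurePreserving (MeasurableEquiv.piFinSuccAbove (fun _ : Fin (m + 1) => SU2) 0)
      volume volume := volume_preserving_piFinSuccAbove (fun _ : Fin (m + 1) => SU2) 0
  have h2 := (MeasurePreserving.id (volume : Measure (Fin n → UnitAddCircle))).prod h1
  have h3 : MeasurePreserving (MeasurableEquiv.prodAssoc (α := Fin n → UnitAddCircle)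
      (β := SU2) (γ := Fin m → SU2)).symm ((volume : Measure (Fin n → UnitAddCircle)).prod
        ((volume : Measure SU2).prod (volume : Measure (Fin m → SU2))))
        (((volume : Measure (Fin n → UnitAddCircle)).prod
        (volume : Measure SU2)).prod (volume : Measure (Fin m → SU2))) :=
    (measurePreserving_prodAssoc _ _ _).symm _
  have h4 : MeasurePreserving (Prod.map Prod.swap id)
      (((volume : Measure (Fin n → UnitAddCircle)).prod
        (volume : Measure SU2)).prod (volume : Measure (Fin m → SU2)))
      (((volume : Measure SU2).prod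
        (volume : Measure (Fin n → UnitAddCircle))).prod (volume : Measure (Fin m → SU2))) :=
    (Measure.measurePreserving_swap).prod (MeasurePreserving.id _)
  have h5 := measurePreserving_prodAssoc (volume : Measure SU2)
    (volume : Measure (Fin n → UnitAddCircle)) (volume : Measure (Fin m → SU2))
  have h6 := h5.comp (h4.comp (h3.comp h2))
  have h7 : ((MeasurableEquiv.prodAssoc (α := SU2)
      (β := Fin n → UnitAddCircle) (γ := Fin m → SU2)) ∘ (Prod.map Prod.swap id ∘
      ((MeasurableEquiv.prodAssoc (α := Fin n → UnitAddCircle)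
      (β := SU2) (γ := Fin m → SU2)).symm ∘ Prod.map id
        (MeasurableEquiv.piFinSuccAbove (fun _ : Fin (m + 1) => SU2) 0)))) =
      splitG n m := by
    funext p
    rfl
  rw [h7] at h6
  exact h6

/-- The corresponding bijection of the spectral parameters. -/
def splitIdx (n m : ℕ) : Idx n (m + 1) ≃ ℕ × Idx n m where
  toFun p := (p.2 0, (p.1, fun j => p.2 j.succ))
  invFun p := (p.2.1, Fin.cons p.1 p.2.2)
  left_inv p := by
    refine Prod.ext rfl ?_
    exact Fin.cons_self_tail p.2
  right_inv p := by
    refine Prod.ext ?_ ?_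
    · simp
    · refine Prod.ext rfl ?_
      funext j
      simp

theorem split_kernel (n m : ℕ) (l : Idx n (m + 1)) (x y : G n (m + 1)) :
    (gRK n (m + 1)).k l x y =
      (su2RK.prod (gRK n m)).k (splitIdx n m l) (splitG n m x) (splitG n m y) := by
  change (∏ i, kT (l.1 i) (x.1 i) (y.1 i)) * (∏ j, kS (l.2 j) (x.2 j) (y.2 j)) =
    kS (l.2 0) (x.2 0) (y.2 0) * ((∏ i, kT (l.1 i) (x.1 i) (y.1 i)) *
      ∏ j : Fin m, kS (l.2 j.succ) (x.2 j.succ) (y.2 j.succ))
  rw [Fin.prod_univ_succ]
  ring

end STZ
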