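import Pool.Agent.STZ.BEofKB
import Pool.Agent.STZ.KBProd
import Pool.Agent.STZ.KBPi
import Pool.Agent.STZ.KBCircle
import Pool.Agent.STZ.KBSU2
import Pool.Agent.STZ.EigMem
import Pool.Agent.STZ.PartA
import Pool.Agent.STZ.HsSum
import Pool.Agent.STZ.Transfer

/-!
# STZ/Main: Strichartz estimates on T^n x SU(2)^m for arbitrary metrics
-/

open MeasureTheory Complex
open scoped ComplexConjugate

namespace STZ

/-- The size of a spectral parameter of `G n m`. -/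
def sizeG {n m : ℕ} (l : Idx n m) : ℕ :=
  max (Finset.univ.sup fun i => (l.1 i).natAbs) (Finset.univ.sup fun j => l.2 j)

theorem circle_pi_D_nonneg (n : ℕ) (l : Fin n → ℤ) : 0 ≤ (circleRK.pi n).D l := by
  show 0 ≤ ∏ i : Fin n, (1 : ℝ)
  exact Finset.prod_nonneg fun i _ => zero_le_one

theorem su2_pi_D_nonneg (m : ℕ) (l : Fin m → ℕ) : 0 ≤ (su2RK.pi m).D l := by
  show 0 ≤ ∏ i : Fin m, ((l i : ℝ) + 1) ^ 2
  exact Finset.prod_nonneg fun i _ => sq_nonneg _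

theorem gRK_D_nonneg (n m : ℕ) (l : Idx n m) : 0 ≤ (gRK n m).D l :=
  mul_nonneg (circle_pi_D_nonneg n l.1) (su2_pi_D_nonneg m l.2)

theorem DS_G (n m : ℕ) : DS (gRK n m) sizeG (n + 3 * m) := by
  have h1 := DS_pi n circleRK (fun k => k.natAbs) 1 (fun _ => zero_le_one) DS_circle
  have h2 := DS_pi m su2RK (fun l => l) 3 (fun _ => sq_nonneg _) DS_su2
  have h3 := DS_prod (circleRK.pi n) (su2RK.pi m) _ _ _ _
    (circle_pi_D_nonneg n) (su2_pi_D_nonneg m) h1 h2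
  have h4 : n * 1 + m * 3 = n + 3 * m := by ring
  rw [h4] at h3
  exact h3

theorem KB_G {n m : ℕ} (α : Fin n → ℝ) (β : Fin m → ℝ) (hα : ∀ i, 0 < α i) (hβ : ∀ j, 0 < β j) :
    KB (gRK n m) (ev α β) sizeG (n + 3 * m) (n + m) := by
  have h1 := KB_pi n circleRK (fun i (k : ℤ) => (k : ℝ) ^ 2 / α i) (fun k => k.natAbs) 1
    (fun i => KB_circle (α i) (hα i))
  have h2 := KB_pi m su2RK (fun j (l : ℕ) => (l : ℝ) * ((l : ℝ) + 2) / (8 * β j)) (fun l => l) 3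
    (fun j => KB_su2 (β j) (hβ j))
  have h3 := KB_prod (circleRK.pi n) (su2RK.pi m) _ _ _ _ _ _ _ _ h1 h2
  have h4 : n * 1 + m * 3 = n + 3 * m := by ring
  rw [h4] at h3
  exact h3

theorem BE_G_rank {n m : ℕ} (hr : 1 ≤ n + m) (α : Fin n → ℝ) (β : Fin m → ℝ)
    (hα : ∀ i, 0 < α i) (hβ : ∀ j, 0 < β j) (q : ℝ) (hq : 2 + 8 / ((n : ℝ) + m) < q) :
    BE (gRK n m) (ev α β) sizeG (n + 3 * m) q := by
  refine BE_of_KB (gRK n m) (ev α β) sizeG (n + 3 * m) (n + m) hr (KB_G α β hα hβ) (DS_G n m) q ?_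
  push_cast
  exact hq

theorem BE_G_four {n m : ℕ} (α : Fin n → ℝ) (β : Fin (m + 1) → ℝ)
    (hβ : ∀ j, 0 < β j) (q : ℝ) (hq : 4 < q) :
    BE (gRK n (m + 1)) (ev α β) sizeG (n + 3 * (m + 1)) q := by
  have h1 := BE_su2_prod (β 0) (hβ 0) (gRK n m) (ev α (fun j => β j.succ)) sizeG (n + 3 * m)
    (DS_G n m) q hq
  have h4 : 3 + (n + 3 * m) = n + 3 * (m + 1) := by ring
  rw [h4] at h1
  refine BE_transfer (gRK n (m + 1)) (su2RK.prod (gRK n m)) (ev α β) _ sizeG _ (splitG n m)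
    (splitG_preserving n m) (splitIdx n m) (split_kernel n m) ?_ ?_ _ q h1
  · intro l
    simp only [ev, splitIdx, Equiv.coe_fn_mk]
    rw [Fin.sum_univ_succ]
    ring
  · intro l
    simp only [sizeG, splitIdx, Equiv.coe_fn_mk]
    apply le_antisymm
    · refine max_le ?_ ?_
      · exact (le_max_left _ _).trans (le_max_right _ _)
      · refine Finset.sup_le fun j _ => ?_
        refine Fin.cases ?_ (fun j => ?_) j
        · exact le_max_left _ _
        · refine le_trans ?_ (le_max_right _ _)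
          refine le_trans ?_ (le_max_right _ _)
          exact Finset.le_sup (f := fun j => l.2 (Fin.succ j)) (Finset.mem_univ j)
    · refine max_le ?_ (max_le ?_ ?_)
      · exact le_trans (Finset.le_sup (f := fun j => l.2 j) (Finset.mem_univ 0)) (le_max_right _ _)
      · exact le_max_left _ _
      · refine Finset.sup_le fun j _ => ?_
        exact le_trans (Finset.le_sup (f := fun j => l.2 j) (Finset.mem_univ j.succ))
          (le_max_right _ _)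

/-- `1 + ev ≥ c (1 + size)^2`. -/
theorem ev_lower {n m : ℕ} (α : Fin n → ℝ) (β : Fin m → ℝ) (hα : ∀ i, 0 < α i)
    (hβ : ∀ j, 0 < β j) : ∃ c : ℝ, 0 < c ∧ ∀ l : Idx n m,
      c * (1 + (sizeG l : ℝ)) ^ 2 ≤ 1 + ev α β l := by
  -- choose `c0 ≤ 1` with `c0 ≤ 1/α i` and `c0 ≤ 1/(8 β j)` for all `i`, `j`
  obtain ⟨c0, hc0, hc1, hcα, hcβ⟩ : ∃ c0 : ℝ, 0 < c0 ∧ c0 ≤ 1 ∧ (∀ i, c0 ≤ 1 / α i) ∧
      (∀ j, c0 ≤ 1 / (8 * β j)) := by
    have hA : 0 ≤ ∑ i, α i := Finset.sum_nonneg fun i _ => (hα i).le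
    have hB : 0 ≤ ∑ j, 8 * β j := Finset.sum_nonneg fun j _ => by have := hβ j; positivity
    refine ⟨1 / (1 + ∑ i, α i + ∑ j, 8 * β j), by positivity, ?_, ?_, ?_⟩
    · rw [div_le_one (by positivity)]; linarith
    · intro i
      have h1 : α i ≤ ∑ i, α i := Finset.single_le_sum (fun i _ => (hα i).le) (Finset.mem_univ i)
      exact one_div_le_one_div_of_le (hα i) (by linarith)
    · intro j
      have h1 : 8 * β j ≤ ∑ j, 8 * β j :=
        Finset.single_le_sum (f := fun j => 8 * β j) (fun j _ => by have := hβ j; positivity)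
          (Finset.mem_univ j)
      have := hβ j
      exact one_div_le_one_div_of_le (by positivity) (by linarith)
  have hev1 : ∀ (l : Idx n m) (i : Fin n), c0 * ((l.1 i).natAbs : ℝ) ^ 2 ≤ ev α β l := by
    intro l i
    have h1 : (l.1 i : ℝ) ^ 2 / α i ≤ ∑ i, (l.1 i : ℝ) ^ 2 / α i :=
      Finset.single_le_sum (f := fun i => (l.1 i : ℝ) ^ 2 / α i)
        (fun i _ => div_nonneg (sq_nonneg _) (hα i).le) (Finset.mem_univ i)
    have h2 : 0 ≤ ∑ j, (l.2 j : ℝ) * ((l.2 j : ℝ) + 2) / (8 * β j) :=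
      Finset.sum_nonneg fun j _ => by have := hβ j; positivity
    have h3 : c0 * ((l.1 i).natAbs : ℝ) ^ 2 ≤ (l.1 i : ℝ) ^ 2 / α i := by
      have h4 : (((l.1 i).natAbs : ℕ) : ℝ) ^ 2 = (l.1 i : ℝ) ^ 2 := by
        rw [Nat.cast_natAbs, Int.cast_abs, sq_abs]
      rw [h4]
      calc c0 * (l.1 i : ℝ) ^ 2 ≤ (1 / α i) * (l.1 i : ℝ) ^ 2 :=
            mul_le_mul_of_nonneg_right (hcα i) (sq_nonneg _)
        _ = _ := by ring
    unfold ev
    linarith
  have hev2 : ∀ (l : Idx n m) (j : Fin m), c0 * (l.2 j : ℝ) ^ 2 ≤ ev α β l := by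
    intro l j
    have h1 : (l.2 j : ℝ) * ((l.2 j : ℝ) + 2) / (8 * β j) ≤
        ∑ j, (l.2 j : ℝ) * ((l.2 j : ℝ) + 2) / (8 * β j) :=
      Finset.single_le_sum (f := fun j => (l.2 j : ℝ) * ((l.2 j : ℝ) + 2) / (8 * β j))
        (fun j _ => by have := hβ j; positivity) (Finset.mem_univ j)
    have h2 : 0 ≤ ∑ i, (l.1 i : ℝ) ^ 2 / α i :=
      Finset.sum_nonneg fun i _ => div_nonneg (sq_nonneg _) (hα i).le
    have h3 : c0 * (l.2 j : ℝ) ^ 2 ≤ (l.2 j : ℝ) * ((l.2 j : ℝ) + 2) / (8 * β j) := by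
      have h5 : (0 : ℝ) ≤ (l.2 j : ℝ) := Nat.cast_nonneg _
      have h6 := hβ j
      calc c0 * (l.2 j : ℝ) ^ 2 ≤ (1 / (8 * β j)) * (l.2 j : ℝ) ^ 2 :=
            mul_le_mul_of_nonneg_right (hcβ j) (sq_nonneg _)
        _ ≤ (1 / (8 * β j)) * ((l.2 j : ℝ) * ((l.2 j : ℝ) + 2)) :=
            mul_le_mul_of_nonneg_left (by nlinarith) (by positivity)
        _ = _ := by ring
    unfold ev
    linarith
  have hev0 : ∀ l : Idx n m, 0 ≤ ev α β l := by
    intro l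
    unfold ev
    have h1 : 0 ≤ ∑ i, (l.1 i : ℝ) ^ 2 / α i :=
      Finset.sum_nonneg fun i _ => div_nonneg (sq_nonneg _) (hα i).le
    have h2 : 0 ≤ ∑ j, (l.2 j : ℝ) * ((l.2 j : ℝ) + 2) / (8 * β j) :=
      Finset.sum_nonneg fun j _ => by have := hβ j; positivity
    linarith
  have hsz : ∀ l : Idx n m, c0 * (sizeG l : ℝ) ^ 2 ≤ ev α β l := by
    intro l
    unfold sizeG
    rcases le_total (Finset.univ.sup fun i => (l.1 i).natAbs) (Finset.univ.sup fun j => l.2 j) with h | h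
    · rw [max_eq_right h]
      rcases isEmpty_or_nonempty (Fin m) with he | he
      · simp [hev0 l]
      · obtain ⟨j, -, hj⟩ := Finset.exists_mem_eq_sup Finset.univ Finset.univ_nonempty
          (fun j => l.2 j)
        rw [hj]; exact hev2 l j
    · rw [max_eq_left h]
      rcases isEmpty_or_nonempty (Fin n) with he | he
      · simp [hev0 l]
      · obtain ⟨i, -, hi⟩ := Finset.exists_mem_eq_sup Finset.univ Finset.univ_nonempty
          (fun i => (l.1 i).natAbs)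
        rw [hi]; exact hev1 l i
  refine ⟨c0 / 2, by positivity, fun l => ?_⟩
  have h1 := hsz l
  have h2 : (0 : ℝ) ≤ (sizeG l : ℝ) := Nat.cast_nonneg _
  nlinarith [sq_nonneg (1 - (sizeG l : ℝ))]

/-- The Strichartz estimate on `[0,T0]`. -/
theorem strichartz_T0 {n m : ℕ} (hr : 1 ≤ n + m) (α : Fin n → ℝ) (β : Fin m → ℝ)
    (hα : ∀ i, 0 < α i) (hβ : ∀ j, 0 < β j) (p : ℝ)
    (hp : 2 + 8 / ((n : ℝ) + m) < p ∨ (1 ≤ m ∧ 4 < p)) (T0 : ℝ) (hT0 : 0 < T0) :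
    ∃ C : ℝ, 0 < C ∧ ∀ (F : Finset (Idx n m)) (f : Idx n m → G n m → ℂ),
      (∀ l ∈ F, f l ∈ Eig l) →
      ∫ z, ‖evol (ev α β) F f z.1 z.2‖ ^ p ∂(stm (G n m) T0) ≤
        C * (∑ l ∈ F, (1 + ev α β l) ^ (((n + 3 * m : ℕ) : ℝ) / 2 - (((n + 3 * m : ℕ) : ℝ) + 2) / p) *
          ∫ x, ‖f l x‖ ^ 2) ^ (p / 2) := by
  have hnm : (1 : ℝ) ≤ (n : ℝ) + m := by exact_mod_cast hr
  obtain ⟨c, hc, hc'⟩ := ev_lower α β hα hβ
  -- the exponent is nonnegative
  have key : ∃ q : ℝ, 2 ≤ q ∧ q < p ∧ BE (gRK n m) (ev α β) sizeG (n + 3 * m) q := by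
    rcases hp with hp | ⟨hm, hp⟩
    · refine ⟨(2 + 8 / ((n : ℝ) + m) + p) / 2, ?_, by linarith, ?_⟩
      · have : 0 < 8 / ((n : ℝ) + m) := by positivity
        linarith
      · exact BE_G_rank hr α β hα hβ _ (by linarith)
    · obtain ⟨m, rfl⟩ : ∃ k, m = k + 1 := ⟨m - 1, by omega⟩
      exact ⟨(4 + p) / 2, by linarith, by linarith, BE_G_four α β hβ _ (by linarith)⟩
  obtain ⟨q, hq2, hqp, hBE⟩ := key
  have hp0 : 0 < p := by linarith
  have hs : 0 ≤ ((n + 3 * m : ℕ) : ℝ) / 2 - (((n + 3 * m : ℕ) : ℝ) + 2) / p := by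
    rw [sub_nonneg, div_le_div_iff₀ hp0 two_pos]
    have hd : ((n : ℝ) + m) ≤ ((n + 3 * m : ℕ) : ℝ) := by
      push_cast
      have : (0 : ℝ) ≤ m := Nat.cast_nonneg _
      linarith
    rcases hp with hp | ⟨hm, hp⟩
    · have h1 : 8 ≤ (p - 2) * ((n : ℝ) + m) := by
        have h2 : 8 / ((n : ℝ) + m) < p - 2 := by linarith
        have h3 := (div_lt_iff₀ (by positivity : (0 : ℝ) < (n : ℝ) + m)).1 h2
        linarith
      have hp2 : 0 < p - 2 := by
        have : 0 < 8 / ((n : ℝ) + m) := by positivity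
        linarith
      nlinarith
    · have h1 : (3 : ℝ) ≤ ((n + 3 * m : ℕ) : ℝ) := by
        have : 3 ≤ n + 3 * m := by omega
        exact_mod_cast this
      nlinarith
  obtain ⟨C, hC, hmain⟩ := Hs_of_BE (gRK n m) (ev α β) sizeG (n + 3 * m) q p hq2 hqp hs hBE
    (DS_G n m) c hc hc' T0 hT0
  exact ⟨C, hC, fun F f hf => hmain F f fun l hl => eig_mem l (f l) (hf l hl)⟩

end STZ
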