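import Pool.Agent.STZ.Fejer
import Pool.Agent.STZ.Theta2

/-!
# STZ/Major: majorant of the theta function near the rationals

PROOF. `C0` from `theta_bound`; for real `u`, `τ = 2u + i/N²` (`Im τ = 1/N² ≤ 1/4`) it gives
`c ≥ 1`, `d` with `‖θ(0,τ)‖ ≤ C0 ‖cτ+d‖^(-1/2)`, `‖cτ+d‖ ≥ max(c/N², |2cu+d|)`. In particular
`‖θ‖ ≤ C0 N`. Put `r_i = C0²/(2^i κ)²`. If `‖θ‖ > κ` let `i` be the natural number with
`2^i κ < ‖θ‖ ≤ 2^(i+1) κ`; then `‖cτ+d‖ < r_i`, so `c < r_i N²` and `|2cu+d| < r_i`.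
For `c ≥ 1` and `i` let `L(i,c) = max 1 ⌊c/r_i⌋`. Then `|u + d/(2c)| ≤ 1/(2L)` if `c ≥ r_i` and
`fej_lower` gives `fej L (u + d/(2c)) ≥ L/3`; if `c < r_i` then `L = 1` and `fej 1 = 1`. Since
`fej` has period `1`, `d` may be reduced modulo `2c`, hence, all `fej` being `≥ 0`,
`∑_{j<2c} (3/L) fej L (u + j/(2c)) ≥ 1`. Therefore for all `u`
`‖θ‖ ≤ κ + ∑_i ∑_{1≤c≤r_i N²} 2^(i+1) κ ∑_{j<2c} (3/L(i,c)) fej L(i,c) (u + j/(2c))`,
the sum over the finitely many `i ≤ I` with `2^I κ ≥ C0 N` (if `κ ≥ C0 N` the claim is trivial).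
Integrate over `S x S` (`u = t - s`) with `fej_form` (`q = 2c`), and
`(3/L) 2c ≤ 12 r_i` because `L ≥ c/(2 r_i)`, `L ≤ max 1 (c/r_i) ≤ N²`:
total `≤ κ|S|² + ∑_i 2^(i+1) κ 12 r_i ∑_{1≤c≤r_0 N²} ∑_{|k|≤N², c ∣ k} ‖Ŝ(k)‖²`,
`∑_i 2^(i+1) κ 12 r_i = (24 C0²/κ) ∑ 2^-i ≤ 48 C0²/κ`, `r_0 N² = C0² N²/κ²`. So `C = 48 C0²`.
(The restriction `2c ∣ k` is relaxed to `c ∣ k`.)
-/

open MeasureTheory Complex
open scoped Real

namespace STZ

/-- inner integrability -/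
private lemma phi_int1 {S : Set ℝ} (hS1 : S ⊆ Set.Icc 0 1) {h : ℝ → ℝ} (hc : Continuous h) (t : ℝ) :
    IntegrableOn (fun s => h (t - s)) S := by
  have h1 : IntegrableOn (fun s => h (t - s)) (Set.Icc 0 1) :=
    (hc.comp (continuous_const.sub continuous_id)).continuousOn.integrableOn_compact isCompact_Icc
  exact h1.mono_set hS1

private lemma phi_cont {S : Set ℝ} (hS1 : S ⊆ Set.Icc 0 1)
    {h : ℝ → ℝ} (hc : Continuous h) :
    Continuous (fun t => ∫ s in S, h (t - s)) := by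
  have h1 : Continuous (fun t => ∫ s in Set.Icc (0:ℝ) 1, h (t - s) ∂(volume.restrict S)) := by
    refine continuous_parametric_integral_of_continuous ?_ isCompact_Icc
    exact hc.comp (continuous_fst.sub continuous_snd)
  have h2 : (fun t => ∫ s in Set.Icc (0:ℝ) 1, h (t - s) ∂(volume.restrict S)) =
      (fun t => ∫ s in S, h (t - s)) := by
    funext t
    rw [Measure.restrict_restrict measurableSet_Icc, Set.inter_eq_right.2 hS1]
  rw [← h2]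
  exact h1

private lemma phi_int2 {S : Set ℝ} (hS1 : S ⊆ Set.Icc 0 1)
    {h : ℝ → ℝ} (hc : Continuous h) :
    IntegrableOn (fun t => ∫ s in S, h (t - s)) S :=
  ((phi_cont hS1 hc).continuousOn.integrableOn_compact isCompact_Icc).mono_set hS1

private lemma phi_mono {S : Set ℝ} (hS1 : S ⊆ Set.Icc 0 1)
    {f : ℝ → ℝ → ℝ} {h : ℝ → ℝ} (hc : Continuous h) (hf0 : ∀ t s, 0 ≤ f t s)
    (hfh : ∀ t s, f t s ≤ h (t - s)) :
    ∫ t in S, ∫ s in S, f t s ≤ ∫ t in S, ∫ s in S, h (t - s) := by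
  refine integral_mono_of_nonneg ?_ (phi_int2 hS1 hc) ?_
  · exact Filter.Eventually.of_forall fun t => integral_nonneg fun s => hf0 t s
  · refine Filter.Eventually.of_forall fun t => ?_
    refine integral_mono_of_nonneg ?_ (phi_int1 hS1 hc t) ?_
    · exact Filter.Eventually.of_forall fun s => hf0 t s
    · exact Filter.Eventually.of_forall fun s => hfh t s

private lemma phi_const {S : Set ℝ} (a : ℝ) :
    ∫ _t in S, ∫ _s in S, a = a * (volume.real S) ^ 2 := by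
  simp [integral_const]
  ring

private lemma phi_add {S : Set ℝ} (hS1 : S ⊆ Set.Icc 0 1)
    {h k : ℝ → ℝ} (hc : Continuous h) (kc : Continuous k) :
    ∫ t in S, ∫ s in S, (h (t - s) + k (t - s)) =
      (∫ t in S, ∫ s in S, h (t - s)) + ∫ t in S, ∫ s in S, k (t - s) := by
  rw [← integral_add (phi_int2 hS1 hc) (phi_int2 hS1 kc)]
  refine integral_congr_ae (Filter.Eventually.of_forall fun t => ?_)
  exact integral_add (phi_int1 hS1 hc t) (phi_int1 hS1 kc t)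

private lemma phi_mul {S : Set ℝ} (a : ℝ) (h : ℝ → ℝ) :
    ∫ t in S, ∫ s in S, a * h (t - s) = a * ∫ t in S, ∫ s in S, h (t - s) := by
  rw [← integral_const_mul]
  refine integral_congr_ae (Filter.Eventually.of_forall fun t => ?_)
  exact integral_const_mul _ _

private lemma phi_sum {S : Set ℝ} (hS1 : S ⊆ Set.Icc 0 1)
    {ι : Type*} (F : Finset ι) (h : ι → ℝ → ℝ) (hc : ∀ i, Continuous (h i)) :
    ∫ t in S, ∫ s in S, ∑ i ∈ F, h i (t - s) = ∑ i ∈ F, ∫ t in S, ∫ s in S, h i (t - s) := by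
  rw [← integral_finsetSum F (fun i _ => phi_int2 hS1 (hc i))]
  refine integral_congr_ae (Filter.Eventually.of_forall fun t => ?_)
  exact integral_finsetSum F (fun i _ => phi_int1 hS1 (hc i) t)

/-- the length of the Fejer kernel -/
private noncomputable def LL (r : ℝ) (c : ℕ) : ℕ := max 1 ⌊(c : ℝ) / r⌋₊

private lemma LL_pos (r : ℝ) (c : ℕ) : 1 ≤ LL r c := le_max_left _ _

private lemma LL_bd {r : ℝ} (hr : 0 < r) (c : ℕ) : (c : ℝ) ≤ 2 * r * LL r c := by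
  have hLdef : LL r c = max 1 ⌊(c : ℝ) / r⌋₊ := rfl
  have h1 : (1 : ℝ) ≤ LL r c := by exact_mod_cast LL_pos r c
  have h2 : (⌊(c : ℝ) / r⌋₊ : ℝ) ≤ LL r c := by
    exact_mod_cast (le_max_right 1 ⌊(c : ℝ) / r⌋₊)
  have h3 : (c : ℝ) / r < ⌊(c : ℝ) / r⌋₊ + 1 := Nat.lt_floor_add_one _
  have h4 : (c : ℝ) / r ≤ 2 * LL r c := by linarith
  rw [div_le_iff₀ hr] at h4
  linarith

private lemma LL_le {r : ℝ} (hr : 0 < r) {c : ℕ} {M : ℕ} (hM : 1 ≤ M) (hc : (c : ℝ) ≤ r * M) :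
    LL r c ≤ M := by
  refine max_le hM ?_
  have h1 : (c : ℝ) / r ≤ M := by
    rw [div_le_iff₀ hr]; linarith
  calc ⌊(c : ℝ) / r⌋₊ ≤ ⌊(M : ℝ)⌋₊ := Nat.floor_le_floor h1
    _ = M := Nat.floor_natCast M

private lemma fej_LL {r : ℝ} (hr : 0 < r) {c : ℕ} (hc : 1 ≤ c) (d : ℤ) (u : ℝ)
    (h : |2 * (c : ℝ) * u + d| < r) :
    ∃ j < 2 * c, 1 ≤ 3 / (LL r c : ℝ) * fej (LL r c) (u + (j : ℝ) / ((2 * c : ℕ) : ℝ)) := by
  have hcpos : (0 : ℝ) < c := by exact_mod_cast hc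
  have hq : (0 : ℤ) < 2 * (c : ℤ) := by positivity
  set j : ℤ := d % (2 * (c : ℤ)) with hj
  have hj0 : 0 ≤ j := Int.emod_nonneg _ (ne_of_gt hq)
  have hj1 : j < 2 * c := Int.emod_lt_of_pos _ hq
  have hdj : d = j + 2 * (c : ℤ) * (d / (2 * (c : ℤ))) := (Int.emod_add_mul_ediv d _).symm
  obtain ⟨j', hj'⟩ := Int.eq_ofNat_of_zero_le hj0
  by_cases hcr : c < r
  · refine ⟨0, by omega, ?_⟩
    have h1 : LL r c = 1 := by
      have h2 : (c : ℝ) / r < 1 := by rw [div_lt_one hr]; exact hcr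
      have h3 : ⌊(c : ℝ) / r⌋₊ = 0 := Nat.floor_eq_zero.2 h2
      simp [LL, h3]
    rw [h1]
    have h4 : ∀ t : ℝ, fej 1 t = 1 := by
      intro t
      simp [fej]
    rw [h4]
    norm_num
  push Not at hcr
  refine ⟨j', by omega, ?_⟩
  have hLpos : (0 : ℝ) < LL r c := by exact_mod_cast LL_pos r c
  have key : (LL r c : ℝ) / 3 ≤ fej (LL r c) (u + (j' : ℝ) / ((2 * c : ℕ) : ℝ)) := by
    refine fej_lower _ (LL_pos r c) _ (-(d / (2 * (c : ℤ)))) ?_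
    have e1 : u + (j' : ℝ) / ((2 * c : ℕ) : ℝ) - ((-(d / (2 * (c : ℤ))) : ℤ) : ℝ) =
        (2 * (c : ℝ) * u + d) / (2 * c) := by
      have h1 : (d : ℝ) = j' + 2 * (c : ℝ) * ((d / (2 * (c : ℤ)) : ℤ) : ℝ) := by
        have h2 := hdj
        rw [hj'] at h2
        exact_mod_cast h2
      rw [h1]
      push_cast
      field_simp
      ring
    rw [e1, abs_div, abs_of_pos (by positivity : (0 : ℝ) < 2 * c)]
    have h3 : (LL r c : ℝ) ≤ c / r := by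
      have h4 : (1 : ℝ) ≤ c / r := by rw [le_div_iff₀ hr]; linarith
      have h5 : (⌊(c : ℝ) / r⌋₊ : ℝ) ≤ c / r := Nat.floor_le (by positivity)
      have h6 : ((LL r c : ℕ) : ℝ) = max 1 (⌊(c : ℝ) / r⌋₊ : ℝ) := by
        simp [LL]
      rw [h6]
      exact max_le h4 h5
    rw [div_le_div_iff₀ (by positivity) (by positivity)]
    have h7 : (LL r c : ℝ) * r ≤ c := by
      rw [le_div_iff₀ hr] at h3; exact h3
    have h8 : |2 * (c : ℝ) * u + d| * LL r c ≤ r * LL r c :=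
      mul_le_mul_of_nonneg_right h.le hLpos.le
    nlinarith
  calc (1 : ℝ) = 3 / (LL r c : ℝ) * ((LL r c : ℝ) / 3) := by field_simp
    _ ≤ _ := mul_le_mul_of_nonneg_left key (by positivity)


/-- one dyadic piece of the majorant -/
private noncomputable def piece (κ : ℝ) (r : ℝ) (a : ℝ) (N : ℕ) (u : ℝ) : ℝ :=
  ∑ c ∈ Finset.Icc 1 ⌊r * (N : ℝ) ^ 2⌋₊, (a * κ * (3 / (LL r c : ℝ))) *
    ∑ j ∈ Finset.range (2 * c), fej (LL r c) (u + (j : ℝ) / ((2 * c : ℕ) : ℝ))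

private lemma inner_cont (L q : ℕ) :
    Continuous (fun u : ℝ => ∑ j ∈ Finset.range q, fej L (u + (j : ℝ) / (q : ℝ))) :=
  continuous_finsetSum _ fun _ _ => (fej_continuous L).comp (continuous_id.add continuous_const)

private lemma piece_cont (κ r a : ℝ) (N : ℕ) : Continuous (piece κ r a N) := by
  refine continuous_finsetSum _ fun c _ => ?_
  exact continuous_const.mul (inner_cont _ _)

private lemma piece_nonneg {κ r a : ℝ} (hκ : 0 ≤ κ) (ha : 0 ≤ a) (N : ℕ) (u : ℝ) :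
    0 ≤ piece κ r a N u := by
  refine Finset.sum_nonneg fun c _ => ?_
  refine mul_nonneg (by positivity) (Finset.sum_nonneg fun j _ => fej_nonneg _ _)

private lemma piece_int {S : Set ℝ} (hS1 : S ⊆ Set.Icc 0 1) (hS : MeasurableSet S)
    {κ r a : ℝ} (hκ : 0 ≤ κ) (ha : 0 ≤ a) (hr : 0 < r) {N : ℕ} (hN : 1 ≤ N) :
    ∫ t in S, ∫ s in S, piece κ r a N (t - s) ≤ (a * κ * (12 * r)) *
      ∑ c ∈ Finset.Icc 1 ⌊r * (N : ℝ) ^ 2⌋₊,
        ∑ k ∈ (Finset.Icc (-((N ^ 2 : ℕ) : ℤ)) ((N ^ 2 : ℕ) : ℤ)).filter (fun k => (c : ℤ) ∣ k),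
          ‖Shat S k‖ ^ 2 := by
  unfold piece
  rw [phi_sum hS1 _ (fun c u => (a * κ * (3 / (LL r c : ℝ))) *
    ∑ j ∈ Finset.range (2 * c), fej (LL r c) (u + (j : ℝ) / ((2 * c : ℕ) : ℝ)))
    (fun c => continuous_const.mul (inner_cont _ _)), Finset.mul_sum]
  refine Finset.sum_le_sum fun c hc => ?_
  have hc1 : 1 ≤ c := (Finset.mem_Icc.1 hc).1
  have hc2 : (c : ℝ) ≤ r * (N : ℝ) ^ 2 := by
    have := (Finset.mem_Icc.1 hc).2
    exact (Nat.le_floor_iff (by positivity)).1 this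
  refine (le_of_eq (phi_mul (S := S) (a * κ * (3 / (LL r c : ℝ))) (fun u =>
    ∑ j ∈ Finset.range (2 * c), fej (LL r c) (u + (j : ℝ) / ((2 * c : ℕ) : ℝ))))).trans ?_
  have h1 := fej_form (LL r c) (2 * c) (LL_pos r c) (by omega) S hS hS1
  have hLpos : (0 : ℝ) < LL r c := by exact_mod_cast LL_pos r c
  have hbd := LL_bd hr c
  have hN2 : LL r c ≤ N ^ 2 := by
    refine LL_le hr (Nat.one_le_pow _ _ hN) ?_
    push_cast
    exact hc2
  have h2 : ∑ k ∈ (Finset.Icc (-((LL r c : ℕ) : ℤ)) (LL r c)).filter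
        (fun k => (((2 * c : ℕ)) : ℤ) ∣ k), ‖Shat S k‖ ^ 2 ≤
      ∑ k ∈ (Finset.Icc (-((N ^ 2 : ℕ) : ℤ)) ((N ^ 2 : ℕ) : ℤ)).filter (fun k => (c : ℤ) ∣ k),
          ‖Shat S k‖ ^ 2 := by
    refine Finset.sum_le_sum_of_subset_of_nonneg ?_ (fun _ _ _ => by positivity)
    intro k hk
    rw [Finset.mem_filter, Finset.mem_Icc] at hk ⊢
    obtain ⟨⟨hk1, hk2⟩, hk3⟩ := hk
    have hN3 : ((LL r c : ℕ) : ℤ) ≤ ((N ^ 2 : ℕ) : ℤ) := by exact_mod_cast hN2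
    refine ⟨⟨by omega, by omega⟩, ?_⟩
    refine dvd_trans ?_ hk3
    exact ⟨2, by push_cast; ring⟩
  have h3 : (0 : ℝ) ≤ ∑ k ∈ (Finset.Icc (-((N ^ 2 : ℕ) : ℤ)) ((N ^ 2 : ℕ) : ℤ)).filter
      (fun k => (c : ℤ) ∣ k), ‖Shat S k‖ ^ 2 := Finset.sum_nonneg fun _ _ => by positivity
  calc (a * κ * (3 / (LL r c : ℝ))) * ∫ t in S, ∫ s in S, ∑ j ∈ Finset.range (2 * c),
        fej (LL r c) (t - s + (j : ℝ) / ((2 * c : ℕ) : ℝ))
      ≤ (a * κ * (3 / (LL r c : ℝ))) * (((2 * c : ℕ) : ℝ) *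
        ∑ k ∈ (Finset.Icc (-((N ^ 2 : ℕ) : ℤ)) ((N ^ 2 : ℕ) : ℤ)).filter (fun k => (c : ℤ) ∣ k),
          ‖Shat S k‖ ^ 2) := by
        refine mul_le_mul_of_nonneg_left (h1.trans ?_) (by positivity)
        exact mul_le_mul_of_nonneg_left h2 (by positivity)
    _ = (a * κ * (3 * (2 * c) / (LL r c : ℝ))) *
        ∑ k ∈ (Finset.Icc (-((N ^ 2 : ℕ) : ℤ)) ((N ^ 2 : ℕ) : ℤ)).filter (fun k => (c : ℤ) ∣ k),
          ‖Shat S k‖ ^ 2 := by push_cast; ring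
    _ ≤ _ := by
        refine mul_le_mul_of_nonneg_right ?_ h3
        refine mul_le_mul_of_nonneg_left ?_ (by positivity)
        rw [div_le_iff₀ hLpos]
        nlinarith

/-- pointwise bound of the theta function -/
private lemma theta_le {C0 κ : ℝ} (hC0 : 1 ≤ C0) (hκ : 0 < κ) {N : ℕ} (hN : 2 ≤ N) {I0 : ℕ}
    (hI : C0 * N ≤ 2 ^ I0 * κ) {τ : ℂ} {u : ℝ} (hτ : τ = 2 * (u : ℂ) + I / (N : ℂ) ^ 2)
    {c d : ℤ} (hc : 0 < c)
    (hth : ‖jacobiTheta₂ 0 τ‖ ≤ C0 * ‖(c : ℂ) * τ + d‖ ^ (-(1 / 2) : ℝ)) :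
    ‖jacobiTheta₂ 0 τ‖ ≤ κ + ∑ i ∈ Finset.range I0,
      piece κ (C0 ^ 2 / (2 ^ i * κ) ^ 2) (2 ^ (i + 1)) N u := by
  obtain ⟨c', rfl⟩ := Int.eq_ofNat_of_zero_le hc.le
  have hc1 : 1 ≤ c' := by exact_mod_cast hc
  have hc1' : (1 : ℝ) ≤ c' := by exact_mod_cast hc1
  have hNpos : (0 : ℝ) < N := by positivity
  set θ := ‖jacobiTheta₂ 0 τ‖ with hθ
  set x := ‖((c' : ℤ) : ℂ) * τ + d‖ with hx
  have him : (c' : ℝ) / (N : ℝ) ^ 2 ≤ x := by
    have h1 : (((c' : ℤ) : ℂ) * τ + d).im = (c' : ℝ) / (N : ℝ) ^ 2 := by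
      obtain ⟨y, hy⟩ : ∃ y : ℝ, y = 1 / (N : ℝ) ^ 2 := ⟨_, rfl⟩
      have h2 : I / (N : ℂ) ^ 2 = (y : ℂ) * I := by
        rw [hy]; push_cast; ring
      rw [hτ, h2]
      have h3 : (c' : ℝ) / (N : ℝ) ^ 2 = c' * y := by rw [hy]; ring
      rw [h3]
      simp [Complex.mul_im, Complex.mul_re]
    rw [← h1]
    exact (le_abs_self _).trans (Complex.abs_im_le_norm _)
  have hre : |2 * (c' : ℝ) * u + d| ≤ x := by
    have h1 : (((c' : ℤ) : ℂ) * τ + d).re = 2 * (c' : ℝ) * u + d := by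
      obtain ⟨y, hy⟩ : ∃ y : ℝ, y = 1 / (N : ℝ) ^ 2 := ⟨_, rfl⟩
      have h2 : I / (N : ℂ) ^ 2 = (y : ℂ) * I := by
        rw [hy]; push_cast; ring
      rw [hτ, h2]
      simp [Complex.mul_im, Complex.mul_re]
      ring
    rw [← h1]
    exact Complex.abs_re_le_norm _
  have hxpos : 0 < x := lt_of_lt_of_le (by positivity) him
  have hpow : x ^ (-(1 / 2) : ℝ) * x ^ (-(1 / 2) : ℝ) = 1 / x := by
    rw [← Real.rpow_add hxpos]
    norm_num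
    rw [Real.rpow_neg_one]
  have hθ2 : θ ^ 2 ≤ C0 ^ 2 / x := by
    have h0 : 0 ≤ θ := norm_nonneg _
    calc θ ^ 2 ≤ (C0 * x ^ (-(1 / 2) : ℝ)) ^ 2 := pow_le_pow_left₀ h0 hth 2
      _ = C0 ^ 2 * (x ^ (-(1 / 2) : ℝ) * x ^ (-(1 / 2) : ℝ)) := by ring
      _ = C0 ^ 2 / x := by rw [hpow]; ring
  have hnn : ∀ i ∈ Finset.range I0, 0 ≤ piece κ (C0 ^ 2 / (2 ^ i * κ) ^ 2) (2 ^ (i + 1)) N u :=
    fun i _ => piece_nonneg hκ.le (by positivity) N u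
  by_cases hle : θ ≤ κ
  · have := Finset.sum_nonneg hnn
    linarith
  push Not at hle
  -- upper bound by C0 N
  have hθN : θ ≤ C0 * N := by
    have h1 : C0 ^ 2 / x ≤ (C0 * N) ^ 2 := by
      rw [div_le_iff₀ hxpos]
      have h2 : 1 / (N : ℝ) ^ 2 ≤ x := le_trans (by gcongr) him
      have h3 : 1 ≤ x * (N : ℝ) ^ 2 := by
        rw [div_le_iff₀ (by positivity)] at h2; exact h2
      nlinarith [sq_nonneg C0]
    exact le_of_sq_le_sq (by linarith) (by positivity)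
  -- choose i
  have hex : ∃ i, θ ≤ 2 ^ (i + 1) * κ := by
    refine ⟨I0, ?_⟩
    have : (2 : ℝ) ^ I0 * κ ≤ 2 ^ (I0 + 1) * κ := by
      refine mul_le_mul_of_nonneg_right ?_ hκ.le
      exact pow_le_pow_right₀ (by norm_num) (by omega)
    linarith
  set i := Nat.find hex with hi
  have hi1 : θ ≤ 2 ^ (i + 1) * κ := Nat.find_spec hex
  have hi2 : 2 ^ i * κ < θ := by
    rcases Nat.eq_zero_or_pos i with h0 | h0
    · rw [h0]; simpa using hle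
    · have := Nat.find_min hex (m := i - 1) (by omega)
      push Not at this
      have h1 : i - 1 + 1 = i := by omega
      rwa [h1] at this
  have hiI : i < I0 := by
    by_contra hcon
    push Not at hcon
    have : (2 : ℝ) ^ I0 * κ ≤ 2 ^ i * κ := by
      refine mul_le_mul_of_nonneg_right ?_ hκ.le
      exact pow_le_pow_right₀ (by norm_num) hcon
    linarith
  set r := C0 ^ 2 / (2 ^ i * κ) ^ 2 with hr
  have hrpos : 0 < r := by positivity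
  have hxr : x < r := by
    have h1 : (2 ^ i * κ) ^ 2 < θ ^ 2 := by
      have : 0 < 2 ^ i * κ := by positivity
      exact pow_lt_pow_left₀ hi2 this.le (by norm_num)
    rw [hr, lt_div_iff₀ (by positivity)]
    rw [le_div_iff₀ hxpos] at hθ2
    nlinarith
  have hcN : c' ∈ Finset.Icc 1 ⌊r * (N : ℝ) ^ 2⌋₊ := by
    rw [Finset.mem_Icc]
    refine ⟨hc1, Nat.le_floor ?_⟩
    have h1 : (c' : ℝ) / (N : ℝ) ^ 2 ≤ r := him.trans hxr.le
    rw [div_le_iff₀ (by positivity)] at h1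
    exact h1
  obtain ⟨j, hj, hj1⟩ := fej_LL hrpos hc1 d u (lt_of_le_of_lt hre hxr)
  have hp : (2 ^ (i + 1)) * κ ≤ piece κ r (2 ^ (i + 1)) N u := by
    have h1 : (2 ^ (i + 1) * κ * (3 / (LL r c' : ℝ))) *
        fej (LL r c') (u + (j : ℝ) / ((2 * c' : ℕ) : ℝ)) ≤
        (2 ^ (i + 1) * κ * (3 / (LL r c' : ℝ))) *
        ∑ j ∈ Finset.range (2 * c'), fej (LL r c') (u + (j : ℝ) / ((2 * c' : ℕ) : ℝ)) := by
      refine mul_le_mul_of_nonneg_left ?_ (by positivity)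
      exact Finset.single_le_sum
        (f := fun j : ℕ => fej (LL r c') (u + (j : ℝ) / ((2 * c' : ℕ) : ℝ)))
        (fun j _ => fej_nonneg _ _) (Finset.mem_range.2 hj)
    have h2 : (2 ^ (i + 1) * κ * (3 / (LL r c' : ℝ))) *
        ∑ j ∈ Finset.range (2 * c'), fej (LL r c') (u + (j : ℝ) / ((2 * c' : ℕ) : ℝ)) ≤
        piece κ r (2 ^ (i + 1)) N u := by
      unfold piece
      exact Finset.single_le_sum (f := fun c : ℕ => (2 ^ (i + 1) * κ * (3 / (LL r c : ℝ))) *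
        ∑ j ∈ Finset.range (2 * c), fej (LL r c) (u + (j : ℝ) / ((2 * c : ℕ) : ℝ)))
        (fun c _ => mul_nonneg (by positivity) (Finset.sum_nonneg fun j _ => fej_nonneg _ _)) hcN
    calc (2 : ℝ) ^ (i + 1) * κ = (2 ^ (i + 1) * κ) * 1 := by ring
      _ ≤ (2 ^ (i + 1) * κ) * (3 / (LL r c' : ℝ) *
          fej (LL r c') (u + (j : ℝ) / ((2 * c' : ℕ) : ℝ))) :=
        mul_le_mul_of_nonneg_left hj1 (by positivity)
      _ = (2 ^ (i + 1) * κ * (3 / (LL r c' : ℝ))) *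
          fej (LL r c') (u + (j : ℝ) / ((2 * c' : ℕ) : ℝ)) := by ring
      _ ≤ _ := h1.trans h2
  have hs : piece κ r (2 ^ (i + 1)) N u ≤ ∑ i ∈ Finset.range I0,
      piece κ (C0 ^ 2 / (2 ^ i * κ) ^ 2) (2 ^ (i + 1)) N u :=
    Finset.single_le_sum (f := fun i => piece κ (C0 ^ 2 / (2 ^ i * κ) ^ 2) (2 ^ (i + 1)) N u)
      hnn (Finset.mem_range.2 hiI)
  linarith

theorem major : ∃ C : ℝ, 1 ≤ C ∧ ∀ N : ℕ, 2 ≤ N → ∀ κ : ℝ, 0 < κ → ∀ S : Set ℝ,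
    MeasurableSet S → S ⊆ Set.Icc 0 1 →
    ∫ t in S, ∫ s in S, ‖jacobiTheta₂ 0 (2 * ((t - s : ℝ) : ℂ) + I / (N : ℂ) ^ 2)‖ ≤
      κ * (volume.real S) ^ 2 + C / κ * ∑ c ∈ Finset.Icc 1 ⌊C * (N : ℝ) ^ 2 / κ ^ 2⌋₊,
        ∑ k ∈ (Finset.Icc (-((N ^ 2 : ℕ) : ℤ)) ((N ^ 2 : ℕ) : ℤ)).filter (fun k => (c : ℤ) ∣ k),
          ‖Shat S k‖ ^ 2 := by
  obtain ⟨C0, hC0, hth⟩ := theta_bound
  refine ⟨48 * C0 ^ 2, by nlinarith, ?_⟩
  intro N hN κ hκ S hS hS1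
  obtain ⟨I0, hI0⟩ : ∃ I0 : ℕ, C0 * N ≤ 2 ^ I0 * κ := by
    obtain ⟨I0, h⟩ := pow_unbounded_of_one_lt (C0 * N / κ) (by norm_num : (1 : ℝ) < 2)
    refine ⟨I0, ?_⟩
    rw [div_lt_iff₀ hκ] at h
    exact h.le
  have hNpos : (0 : ℝ) < N := by positivity
  have hN2 : (4 : ℝ) ≤ (N : ℝ) ^ 2 := by
    have : (2 : ℝ) ≤ N := by exact_mod_cast hN
    nlinarith
  set r : ℕ → ℝ := fun i => C0 ^ 2 / (2 ^ i * κ) ^ 2 with hr
  have hrpos : ∀ i, 0 < r i := fun i => by simp only [hr]; positivity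
  set T : ℕ → ℝ := fun c => ∑ k ∈ (Finset.Icc (-((N ^ 2 : ℕ) : ℤ)) ((N ^ 2 : ℕ) : ℤ)).filter
    (fun k => (c : ℤ) ∣ k), ‖Shat S k‖ ^ 2 with hT
  have hT0 : ∀ c, 0 ≤ T c := fun c => Finset.sum_nonneg fun _ _ => by positivity
  have hpt : ∀ t s : ℝ, ‖jacobiTheta₂ 0 (2 * ((t - s : ℝ) : ℂ) + I / (N : ℂ) ^ 2)‖ ≤
      κ + ∑ i ∈ Finset.range I0, piece κ (r i) (2 ^ (i + 1)) N (t - s) := by
    intro t s
    have him : (2 * ((t - s : ℝ) : ℂ) + I / (N : ℂ) ^ 2).im = 1 / (N : ℝ) ^ 2 := by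
      obtain ⟨y, hy⟩ : ∃ y : ℝ, y = 1 / (N : ℝ) ^ 2 := ⟨_, rfl⟩
      have h2 : I / (N : ℂ) ^ 2 = (y : ℂ) * I := by
        rw [hy]; push_cast; ring
      rw [h2, ← hy]
      simp [Complex.mul_im, -Complex.ofReal_sub]
    obtain ⟨c, d, hc, -, hcd⟩ := hth (2 * ((t - s : ℝ) : ℂ) + I / (N : ℂ) ^ 2)
      (by rw [him]; positivity)
      (by rw [him, div_lt_iff₀ (by positivity)]; linarith)
    have h3 := hcd 0
    simp only [Complex.zero_im, ne_eq, OfNat.ofNat_ne_zero, not_false_eq_true, zero_pow, mul_zero,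
      zero_div, Real.exp_zero, mul_one] at h3
    exact theta_le hC0 hκ hN hI0 rfl hc h3
  have hcont : Continuous (fun u : ℝ => ∑ i ∈ Finset.range I0, piece κ (r i) (2 ^ (i + 1)) N u) :=
    continuous_finsetSum _ fun i _ => piece_cont _ _ _ _
  have h1 := phi_mono hS1 (f := fun t s => ‖jacobiTheta₂ 0 (2 * ((t - s : ℝ) : ℂ) +
    I / (N : ℂ) ^ 2)‖) (h := fun u => κ + ∑ i ∈ Finset.range I0, piece κ (r i) (2 ^ (i + 1)) N u)
    (continuous_const.add hcont) (fun t s => norm_nonneg _) hpt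
  refine h1.trans ?_
  have h2 := phi_add hS1 (h := fun _ => κ)
    (k := fun u => ∑ i ∈ Finset.range I0, piece κ (r i) (2 ^ (i + 1)) N u)
    continuous_const hcont
  have h2' : ∫ t in S, ∫ s in S, (κ + ∑ i ∈ Finset.range I0,
      piece κ (r i) (2 ^ (i + 1)) N (t - s)) = κ * (volume.real S) ^ 2 +
      ∑ i ∈ Finset.range I0, ∫ t in S, ∫ s in S, piece κ (r i) (2 ^ (i + 1)) N (t - s) := by
    rw [← phi_const κ, ← phi_sum hS1 (Finset.range I0)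
      (fun i u => piece κ (r i) (2 ^ (i + 1)) N u) (fun i => piece_cont _ _ _ _)]
    exact h2
  rw [h2']
  refine add_le_add le_rfl ?_
  set Q := ⌊48 * C0 ^ 2 * (N : ℝ) ^ 2 / κ ^ 2⌋₊ with hQ
  have h3 : ∀ i ∈ Finset.range I0, ∫ t in S, ∫ s in S, piece κ (r i) (2 ^ (i + 1)) N (t - s) ≤
      (24 * C0 ^ 2 / κ * ((1 / 2) ^ i)) * ∑ c ∈ Finset.Icc 1 Q, T c := by
    intro i _
    have h4 := piece_int hS1 hS hκ.le (by positivity : (0 : ℝ) ≤ 2 ^ (i + 1)) (hrpos i)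
      (N := N) (by omega)
    have h5 : (2 : ℝ) ^ (i + 1) * κ * (12 * r i) = 24 * C0 ^ 2 / κ * ((1 / 2) ^ i) := by
      simp only [hr]
      rw [one_div_pow]
      field_simp
      ring
    rw [h5] at h4
    refine h4.trans ?_
    refine mul_le_mul_of_nonneg_left ?_ (by positivity)
    refine Finset.sum_le_sum_of_subset_of_nonneg ?_ (fun c _ _ => hT0 c)
    refine Finset.Icc_subset_Icc le_rfl ?_
    refine Nat.floor_le_floor ?_
    have h6 : r i ≤ 48 * C0 ^ 2 / κ ^ 2 := by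
      simp only [hr]
      rw [div_le_div_iff₀ (by positivity) (by positivity)]
      have h7 : (1 : ℝ) ≤ (2 ^ i) ^ 2 := one_le_pow₀ (one_le_pow₀ (by norm_num))
      have h8 : κ ^ 2 ≤ (2 ^ i * κ) ^ 2 := by
        rw [mul_pow]
        nlinarith [sq_nonneg κ]
      nlinarith [sq_nonneg C0, mul_nonneg (sq_nonneg C0) (sq_nonneg (2 ^ i * κ))]
    calc r i * (N : ℝ) ^ 2 ≤ (48 * C0 ^ 2 / κ ^ 2) * (N : ℝ) ^ 2 :=
          mul_le_mul_of_nonneg_right h6 (by positivity)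
      _ = _ := by ring
  refine (Finset.sum_le_sum h3).trans ?_
  rw [← Finset.sum_mul]
  refine mul_le_mul_of_nonneg_right ?_ (Finset.sum_nonneg fun c _ => hT0 c)
  rw [← Finset.mul_sum]
  have h9 : ∑ i ∈ Finset.range I0, ((1 : ℝ) / 2) ^ i ≤ 2 := by
    have := sum_geometric_two_le I0
    simpa using this
  calc 24 * C0 ^ 2 / κ * ∑ i ∈ Finset.range I0, ((1 : ℝ) / 2) ^ i
      ≤ 24 * C0 ^ 2 / κ * 2 := mul_le_mul_of_nonneg_left h9 (by positivity)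
    _ = 48 * C0 ^ 2 / κ := by ring

end STZ
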