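import Pool.Agent.STZ.Kernels

/-!
# STZ/SU2Mom: moments of the Haar measure of SU(2)

PROOF. `volume` on SU2 is left and right invariant (`integral_mul_left_eq_self`,
`integral_mul_right_eq_self`).
(0) `su2_mom_ne`: substitute `g -> tor φ * g`; `(tor φ g)_{00} = e^{iφ} g_{00}`,
`(tor φ g)_{10} = e^{-iφ} g_{10}`, so the integral `I` satisfies
`I = e^{iφ (j - l - j' + l')} I` for all `φ`; choose `φ` with `e^{iφ n} ≠ 1`, `n = j - l - j' + l' ≠ 0`
(for instance `φ = π/n`, `e^{iπ} = -1`).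
(1) Put `J m = ∫ ‖g_{00}‖^(2m)`. For complex `c0, c1` not both zero, `r = √(|c0|^2+|c1|^2)`, let
`k = mkSU2 (c0/r) (- conj (c1/r))`, so that `(k g)_{00} = (c0 g_{00} + c1 g_{10})/r`; left invariance
gives `∫ ‖c0 g_{00} + c1 g_{10}‖^(2m) = (|c0|^2+|c1|^2)^m J m`.
(2) Take `c0 = √s`, `c1 = 1`, `s ≥ 0`. Expanding both factors of
`‖w‖^(2m) = w^m conj(w^m)` by the binomial theorem and using (0) with `j + l = j' + l' = m`
(so `j - l - j' + l' = 2(j - j')`), only `j = j'` survives: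
`(1+s)^m J m = ∑_j C(m,j)^2 s^j I(j, m-j)`, `I(j,l) = ∫ ‖g_{00}‖^(2j) ‖g_{10}‖^(2l)`.
Two polynomials in `s` which agree for all `s ≥ 0` have equal coefficients:
`J m = C(m,j) I(j,m-j)`.
(3) `1 = (‖g_{00}‖^2 + ‖g_{10}‖^2)^m` (`su2_normSq`) gives `1 = ∑_j C(m,j) I(j,m-j) = (m+1) J m`.
Hence `I(j,m-j) = 1/((m+1) C(m,j))`. All integrands are continuous on the compact group.
-/

open MeasureTheory Complex Matrix
open scoped ComplexConjugate

namespace STZ

lemma su2m_tor_00 (φ : ℝ) (g : SU2) : (tor φ * g).1 0 0 = cexp (φ * I) * g.1 0 0 := by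
  change ((tor φ).1 * g.1) 0 0 = _
  rw [Matrix.mul_apply, Fin.sum_univ_two]
  simp [tor]

lemma su2m_tor_10 (φ : ℝ) (g : SU2) : (tor φ * g).1 1 0 = conj (cexp (φ * I)) * g.1 1 0 := by
  change ((tor φ).1 * g.1) 1 0 = _
  rw [Matrix.mul_apply, Fin.sum_univ_two]
  simp [tor]

lemma su2m_integrable {E : Type*} [NormedAddCommGroup E] {f : SU2 → E} (hf : Continuous f) :
    Integrable f (volume : Measure SU2) :=
  hf.integrable_of_hasCompactSupport (HasCompactSupport.of_compactSpace f)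

theorem su2_mom_ne (j l j' l' : ℕ) (h : (j : ℤ) - l ≠ j' - l') :
    ∫ g : SU2, (g.1 0 0 ^ j * g.1 1 0 ^ l) * conj (g.1 0 0 ^ j' * g.1 1 0 ^ l') = 0 := by
  set n : ℤ := (j : ℤ) + l' - (l + j') with hn
  have hn0 : n ≠ 0 := by
    intro h0
    apply h
    omega
  have hnR : (n : ℝ) ≠ 0 := by exact_mod_cast hn0
  set φ : ℝ := Real.pi / n with hφ
  set e : ℂ := cexp (φ * I) with he
  have hne : e ≠ 0 := Complex.exp_ne_zero _
  have hce : conj e = e⁻¹ := by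
    rw [he, ← Complex.exp_neg, ← Complex.exp_conj]
    congr 1
    simp
  have hfac : e ^ (j + l') * (e⁻¹) ^ (l + j') = -1 := by
    have h1 : e ^ (j + l') * (e⁻¹) ^ (l + j') = e ^ n := by
      rw [hn, zpow_sub₀ hne]
      rw [inv_pow]
      rw [div_eq_mul_inv]
      norm_cast
    rw [h1, he, ← Complex.exp_int_mul]
    have h2 : (n : ℂ) * ((φ : ℂ) * I) = (Real.pi : ℂ) * I := by
      rw [hφ]
      push_cast
      field_simp
    rw [h2, Complex.exp_pi_mul_I]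
  set F : SU2 → ℂ := fun g => (g.1 0 0 ^ j * g.1 1 0 ^ l) * conj (g.1 0 0 ^ j' * g.1 1 0 ^ l') with hF
  have h1 : ∀ g, F (tor φ * g) = -F g := by
    intro g
    rw [hF]
    simp only [su2m_tor_00, su2m_tor_10, map_mul, map_pow, Complex.conj_conj]
    rw [← he, hce]
    have h3 : (e * g.1 0 0) ^ j * (e⁻¹ * g.1 1 0) ^ l *
        ((e⁻¹ * conj (g.1 0 0)) ^ j' * (e * conj (g.1 1 0)) ^ l') =
        (e ^ (j + l') * (e⁻¹) ^ (l + j')) * (g.1 0 0 ^ j * g.1 1 0 ^ l *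
          (conj (g.1 0 0) ^ j' * conj (g.1 1 0) ^ l')) := by
      simp only [mul_pow, pow_add]
      ring
    rw [h3, hfac]
    ring
  have h2 : ∫ g, F (tor φ * g) = ∫ g, F g := integral_mul_left_eq_self F (tor φ)
  simp only [h1] at h2
  rw [integral_neg] at h2
  have h4 : (2 : ℂ) * ∫ g, F g = 0 := by linear_combination -h2
  simpa using h4

/-- the integral of `‖g00‖^(2 m)` scaled. -/
lemma su2m_scale (m : ℕ) (s : ℝ) (hs : 0 ≤ s) :
    ∫ g : SU2, ‖((√s : ℝ) : ℂ) * g.1 0 0 + g.1 1 0‖ ^ (2 * m) =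
      (1 + s) ^ m * ∫ g : SU2, ‖g.1 0 0‖ ^ (2 * m) := by
  set r : ℝ := √(1 + s) with hr
  have hr0 : 0 < r := Real.sqrt_pos.2 (by linarith)
  have hr2 : r ^ 2 = 1 + s := Real.sq_sqrt (by linarith)
  have hrC : (r : ℂ) ≠ 0 := by exact_mod_cast hr0.ne'
  have hk : ‖((√s / r : ℝ) : ℂ)‖ ^ 2 + ‖((-(1 / r) : ℝ) : ℂ)‖ ^ 2 = 1 := by
    rw [Complex.norm_real, Complex.norm_real, Real.norm_eq_abs, Real.norm_eq_abs, sq_abs, sq_abs,
      div_pow, Real.sq_sqrt hs]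
    field_simp
    linarith
  set k : SU2 := mkSU2 ((√s / r : ℝ) : ℂ) ((-(1 / r) : ℝ) : ℂ) hk with hkdef
  have h1 : ∀ g : SU2, ((√s : ℝ) : ℂ) * g.1 0 0 + g.1 1 0 = (r : ℂ) * (k * g).1 0 0 := by
    intro g
    change _ = (r : ℂ) * (k.1 * g.1) 0 0
    rw [Matrix.mul_apply, Fin.sum_univ_two, hkdef]
    rw [mkSU2_00, mkSU2_01, Complex.conj_ofReal]
    push_cast
    field_simp
  have h2 : ∀ g : SU2, ‖((√s : ℝ) : ℂ) * g.1 0 0 + g.1 1 0‖ ^ (2 * m) =
      (1 + s) ^ m * ‖(k * g).1 0 0‖ ^ (2 * m) := by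
    intro g
    rw [h1 g, norm_mul, Complex.norm_real, Real.norm_eq_abs, abs_of_pos hr0, mul_pow, pow_mul, hr2]
  simp only [h2]
  rw [integral_const_mul]
  congr 1
  exact integral_mul_left_eq_self (fun g : SU2 => ‖g.1 0 0‖ ^ (2 * m)) k

lemma su2m_expand (m : ℕ) (s : ℝ) (hs : 0 ≤ s) :
    ∫ g : SU2, ‖((√s : ℝ) : ℂ) * g.1 0 0 + g.1 1 0‖ ^ (2 * m) =
      ∑ j ∈ Finset.range (m + 1), ((m.choose j : ℝ) ^ 2 * s ^ j) *
        ∫ g : SU2, (‖g.1 0 0‖ ^ (2 * j) * ‖g.1 1 0‖ ^ (2 * (m - j))) := by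
  have hC : ∀ i : Fin 2, Continuous fun g : SU2 => g.1 i 0 := fun i => su2_continuous_entry i 0
  have h1 : ∀ g : SU2, ((‖((√s : ℝ) : ℂ) * g.1 0 0 + g.1 1 0‖ ^ (2 * m) : ℝ) : ℂ) =
      ∑ j ∈ Finset.range (m + 1), ∑ j' ∈ Finset.range (m + 1),
        (((m.choose j : ℂ) * (m.choose j' : ℂ)) * ((√s : ℝ) : ℂ) ^ (j + j')) *
        ((g.1 0 0 ^ j * g.1 1 0 ^ (m - j)) * conj (g.1 0 0 ^ j' * g.1 1 0 ^ (m - j'))) := by
    intro g
    set w : ℂ := ((√s : ℝ) : ℂ) * g.1 0 0 + g.1 1 0 with hw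
    have h2 : ((‖w‖ ^ (2 * m) : ℝ) : ℂ) = w ^ m * conj (w ^ m) := by
      rw [Complex.mul_conj', norm_pow]
      push_cast
      rw [← pow_mul, mul_comm 2 m]
    rw [h2]
    have h3 : w ^ m = ∑ j ∈ Finset.range (m + 1),
        (m.choose j : ℂ) * ((√s : ℝ) : ℂ) ^ j * (g.1 0 0 ^ j * g.1 1 0 ^ (m - j)) := by
      rw [hw, add_pow]
      refine Finset.sum_congr rfl fun j _ => ?_
      rw [mul_pow]
      ring
    rw [h3, map_sum, Finset.sum_mul_sum]
    refine Finset.sum_congr rfl fun j _ => Finset.sum_congr rfl fun j' _ => ?_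
    rw [map_mul, map_mul, map_pow, Complex.conj_ofReal, Complex.conj_natCast, pow_add]
    ring
  have hcont : ∀ j j' : ℕ, Continuous fun g : SU2 =>
      (((m.choose j : ℂ) * (m.choose j' : ℂ)) * ((√s : ℝ) : ℂ) ^ (j + j')) *
        ((g.1 0 0 ^ j * g.1 1 0 ^ (m - j)) * conj (g.1 0 0 ^ j' * g.1 1 0 ^ (m - j'))) :=
    fun j j' => continuous_const.mul ((((hC 0).pow _).mul ((hC 1).pow _)).mul
      (Complex.continuous_conj.comp (((hC 0).pow _).mul ((hC 1).pow _))))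
  have h2 : ((∫ g : SU2, ‖((√s : ℝ) : ℂ) * g.1 0 0 + g.1 1 0‖ ^ (2 * m) : ℝ) : ℂ) =
      ∑ j ∈ Finset.range (m + 1), ((m.choose j : ℂ) ^ 2 * (s : ℂ) ^ j) *
        ((∫ g : SU2, (‖g.1 0 0‖ ^ (2 * j) * ‖g.1 1 0‖ ^ (2 * (m - j))) : ℝ) : ℂ) := by
    refine (integral_complex_ofReal (μ := (volume : Measure SU2))
      (f := fun g : SU2 => ‖((√s : ℝ) : ℂ) * g.1 0 0 + g.1 1 0‖ ^ (2 * m))).symm.trans ?_
    have h3 : (∫ g : SU2, ((‖((√s : ℝ) : ℂ) * g.1 0 0 + g.1 1 0‖ ^ (2 * m) : ℝ) : ℂ)) =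
      ∑ j ∈ Finset.range (m + 1), ∑ j' ∈ Finset.range (m + 1),
        (((m.choose j : ℂ) * (m.choose j' : ℂ)) * ((√s : ℝ) : ℂ) ^ (j + j')) *
        ∫ g : SU2, ((g.1 0 0 ^ j * g.1 1 0 ^ (m - j)) * conj (g.1 0 0 ^ j' * g.1 1 0 ^ (m - j'))) := by
      simp only [h1]
      rw [integral_finsetSum]
      · refine Finset.sum_congr rfl fun j _ => ?_
        rw [integral_finsetSum]
        · refine Finset.sum_congr rfl fun j' _ => ?_
          rw [integral_const_mul]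
        · intro j' _
          exact su2m_integrable (hcont j j')
      · intro j _
        exact su2m_integrable (continuous_finsetSum _ fun j' _ => hcont j j')
    rw [h3]
    refine Finset.sum_congr rfl fun j hj => ?_
    rw [Finset.sum_eq_single j]
    · rw [← pow_two, ← two_mul, pow_mul]
      have h4 : ((√s : ℝ) : ℂ) ^ 2 = (s : ℂ) := by
        rw [← Complex.ofReal_pow, Real.sq_sqrt hs]
      rw [h4]
      congr 1
      refine Eq.trans ?_ (integral_complex_ofReal (μ := (volume : Measure SU2))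
        (f := fun g : SU2 => (‖g.1 0 0‖ ^ (2 * j) * ‖g.1 1 0‖ ^ (2 * (m - j)))))
      refine integral_congr_ae (Filter.Eventually.of_forall fun g => ?_)
      beta_reduce
      rw [Complex.mul_conj', norm_mul, norm_pow, norm_pow]
      push_cast
      rw [mul_pow, ← pow_mul, ← pow_mul, mul_comm 2 j, mul_comm 2 (m - j)]
    · intro j' hj' hne
      rw [su2_mom_ne, mul_zero]
      have := Finset.mem_range.1 hj
      have := Finset.mem_range.1 hj'
      omega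
    · intro hj'
      exact absurd hj hj'
  have h5 : ((∫ g : SU2, ‖((√s : ℝ) : ℂ) * g.1 0 0 + g.1 1 0‖ ^ (2 * m) : ℝ) : ℂ) =
      ((∑ j ∈ Finset.range (m + 1), ((m.choose j : ℝ) ^ 2 * s ^ j) *
        ∫ g : SU2, (‖g.1 0 0‖ ^ (2 * j) * ‖g.1 1 0‖ ^ (2 * (m - j))) : ℝ) : ℂ) := by
    rw [h2]
    push_cast
    rfl
  exact_mod_cast h5

theorem su2_moment (j l : ℕ) :
    ∫ g : SU2, (‖g.1 0 0‖ ^ (2 * j) * ‖g.1 1 0‖ ^ (2 * l)) =
      1 / (((j : ℝ) + l + 1) * ((j + l).choose j : ℝ)) := by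
  have hC : ∀ i : Fin 2, Continuous fun g : SU2 => g.1 i 0 := fun i => su2_continuous_entry i 0
  obtain ⟨m, hm⟩ : ∃ m, m = j + l := ⟨_, rfl⟩
  set J : ℝ := ∫ g : SU2, ‖g.1 0 0‖ ^ (2 * m) with hJ
  set K : ℕ → ℝ := fun i => ∫ g : SU2, (‖g.1 0 0‖ ^ (2 * i) * ‖g.1 1 0‖ ^ (2 * (m - i))) with hK
  have hpoly : ((1 + Polynomial.X) ^ m * Polynomial.C J : Polynomial ℝ) =
      ∑ i ∈ Finset.range (m + 1), Polynomial.C ((m.choose i : ℝ) ^ 2 * K i) * Polynomial.X ^ i := by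
    refine Polynomial.eq_of_infinite_eval_eq _ _ ?_
    refine Set.Infinite.mono ?_ (Set.Ici_infinite (0 : ℝ))
    intro s hs
    rw [Set.mem_Ici] at hs
    rw [Set.mem_ofPred_eq, Polynomial.eval_finsetSum]
    simp only [Polynomial.eval_mul, Polynomial.eval_pow, Polynomial.eval_add, Polynomial.eval_one,
      Polynomial.eval_X, Polynomial.eval_C]
    rw [hJ, ← su2m_scale m s hs, su2m_expand m s hs]
    refine Finset.sum_congr rfl fun i _ => ?_
    rw [hK]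
    ring
  have hcoef : ∀ i, i ≤ m → (m.choose i : ℝ) * K i = J := by
    intro i hi
    have h1 := congrArg (fun p => Polynomial.coeff p i) hpoly
    simp only [Polynomial.coeff_mul_C, Polynomial.coeff_one_add_X_pow, Polynomial.finsetSum_coeff,
      Polynomial.coeff_C_mul_X_pow] at h1
    rw [Finset.sum_ite_eq (Finset.range (m + 1)) i, if_pos (Finset.mem_range.2 (by omega))] at h1
    have h2 : (m.choose i : ℝ) ≠ 0 := by
      exact_mod_cast (Nat.choose_pos hi).ne'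
    have h3 : (m.choose i : ℝ) * ((m.choose i : ℝ) * K i) = (m.choose i : ℝ) * J := by
      rw [h1]; ring
    exact mul_left_cancel₀ h2 h3
  have hone : (1 : ℝ) = ((m : ℝ) + 1) * J := by
    have h1 : ∀ g : SU2, (1 : ℝ) = ∑ i ∈ Finset.range (m + 1),
        (m.choose i : ℝ) * (‖g.1 0 0‖ ^ (2 * i) * ‖g.1 1 0‖ ^ (2 * (m - i))) := by
      intro g
      have h2 := su2_normSq g
      calc (1 : ℝ) = (‖g.1 0 0‖ ^ 2 + ‖g.1 1 0‖ ^ 2) ^ m := by rw [h2, one_pow]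
        _ = _ := by
          rw [add_pow]
          refine Finset.sum_congr rfl fun i _ => ?_
          rw [← pow_mul, ← pow_mul]
          ring
    have h3 : ∫ _g : SU2, (1 : ℝ) = ∫ g : SU2, ∑ i ∈ Finset.range (m + 1),
        (m.choose i : ℝ) * (‖g.1 0 0‖ ^ (2 * i) * ‖g.1 1 0‖ ^ (2 * (m - i))) :=
      integral_congr_ae (Filter.Eventually.of_forall fun g => h1 g)
    rw [integral_finsetSum] at h3
    · have h4 : ∫ _g : SU2, (1 : ℝ) = 1 := by simp
      rw [h4] at h3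
      refine h3.trans ?_
      have h5 : ∀ i ∈ Finset.range (m + 1), ∫ g : SU2,
          (m.choose i : ℝ) * (‖g.1 0 0‖ ^ (2 * i) * ‖g.1 1 0‖ ^ (2 * (m - i))) = J := by
        intro i hi
        rw [integral_const_mul]
        exact hcoef i (by have := Finset.mem_range.1 hi; omega)
      rw [Finset.sum_congr rfl h5, Finset.sum_const, Finset.card_range, nsmul_eq_mul]
      push_cast
      ring
    · intro i _
      exact su2m_integrable (continuous_const.mul (((hC 0).norm.pow _).mul ((hC 1).norm.pow _)))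
  have hKj : ∫ g : SU2, (‖g.1 0 0‖ ^ (2 * j) * ‖g.1 1 0‖ ^ (2 * l)) = K j := by
    rw [hK]
    have : m - j = l := by omega
    simp only [this]
  rw [hKj, ← hm]
  have h6 := hcoef j (by omega)
  have h7 : (m.choose j : ℝ) ≠ 0 := by
    exact_mod_cast (Nat.choose_pos (show j ≤ m by omega)).ne'
  have h8 : ((j : ℝ) + l + 1) = (m : ℝ) + 1 := by rw [hm]; push_cast; ring
  rw [h8]
  have h9 : (m : ℝ) + 1 ≠ 0 := by positivity
  field_simp
  rw [← h6] at hone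
  linarith

end STZ
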