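import Pool.Agent.STZ.SU2Elt
import Pool.Agent.STZ.SU2Mom

/-!
# STZ/SU2Char: coherent state formula for the characters

PROOF. By `su2_diag`, `z = k0 * tor θ * k0⁻¹`, and right invariance (`k -> k k0⁻¹`) reduces the
integral to `∫ ((k * tor θ * k⁻¹)_{00})^l`. Here
`(k * tor θ * k⁻¹)_{00} = |k_{00}|^2 e^{iθ} + |k_{01}|^2 e^{-iθ}` and `|k_{01}| = |k_{10}|`
(`su2_01`). Expand by the binomial theorem and use `su2_moment`: the result is
`(1/(l+1)) ∑_{j=0}^l e^{iθ j} e^{-iθ (l-j)}`. On the other side `chi l z = chi l (tor θ) = U_l(cos θ)`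
(`chi_conj`, `chi_tor`), and for `x = e^{iθ}`, `y = e^{-iθ}`, `s_l = ∑_{j ≤ l} x^j y^(l-j)` one has
`s_{l+1} = x^(l+1) + y s_l = y^(l+1) + x s_l`, so `(x+y) s_{l+1} = s_{l+2} + x y s_l`, i.e. the
recursion `U_{l+2} = 2 X U_{l+1} - U_l` (`Polynomial.Chebyshev.U_add_two`), `x + y = 2 cos θ`,
`x y = 1`, `s_0 = 1`, `s_1 = x + y`. Hence `s_l = U_l(cos θ)`.
-/

open MeasureTheory Complex Matrix
open scoped ComplexConjugate

namespace STZ

lemma char_sum_succ (x y : ℂ) (l : ℕ) :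
    ∑ j ∈ Finset.range (l + 2), x ^ j * y ^ (l + 1 - j) =
      x ^ (l + 1) + y * ∑ j ∈ Finset.range (l + 1), x ^ j * y ^ (l - j) := by
  rw [Finset.sum_range_succ, Finset.mul_sum]
  have h : ∀ j ∈ Finset.range (l + 1), x ^ j * y ^ (l + 1 - j) = y * (x ^ j * y ^ (l - j)) := by
    intro j hj
    have hj' : j ≤ l := Nat.lt_succ_iff.1 (Finset.mem_range.1 hj)
    rw [Nat.succ_sub hj', pow_succ]; ring
  rw [Finset.sum_congr rfl h]
  simp
  ring

lemma char_sum_succ' (x y : ℂ) (l : ℕ) :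
    ∑ j ∈ Finset.range (l + 2), x ^ j * y ^ (l + 1 - j) =
      y ^ (l + 1) + x * ∑ j ∈ Finset.range (l + 1), x ^ j * y ^ (l - j) := by
  rw [Finset.sum_range_succ', Finset.mul_sum]
  have h : ∀ j ∈ Finset.range (l + 1), x ^ (j + 1) * y ^ (l + 1 - (j + 1)) =
      x * (x ^ j * y ^ (l - j)) := by
    intro j hj
    rw [Nat.add_sub_add_right, pow_succ]; ring
  rw [Finset.sum_congr rfl h]
  simp
  ring

lemma char_sum_add_two (x y : ℂ) (l : ℕ) :
    ∑ j ∈ Finset.range (l + 3), x ^ j * y ^ (l + 2 - j) =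
      (x + y) * ∑ j ∈ Finset.range (l + 2), x ^ j * y ^ (l + 1 - j) -
        x * y * ∑ j ∈ Finset.range (l + 1), x ^ j * y ^ (l - j) := by
  have h1 := char_sum_succ x y (l + 1)
  have h3 : l + 1 + 2 = l + 3 := by ring
  have h4 : l + 1 + 1 = l + 2 := by ring
  rw [h3, h4] at h1
  rw [h1]
  have h5 := char_sum_succ x y l
  linear_combination (-x) * h5

lemma char_sum_eq (θ : ℝ) (l : ℕ) :
    ∑ j ∈ Finset.range (l + 1), cexp (θ * I) ^ j * conj (cexp (θ * I)) ^ (l - j) =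
      (((Polynomial.Chebyshev.U ℝ (l : ℤ)).eval (Real.cos θ) : ℝ) : ℂ) := by
  have hl1 : cexp (θ * I) * conj (cexp (θ * I)) = 1 := by
    rw [Complex.mul_conj', Complex.norm_exp_ofReal_mul_I]; simp
  have hl2 : cexp (θ * I) + conj (cexp (θ * I)) = ((2 * Real.cos θ : ℝ) : ℂ) := by
    rw [Complex.add_conj, Complex.exp_ofReal_mul_I_re]
  set x := cexp (θ * I)
  set y := conj x
  have key : ∀ n : ℕ, (∑ j ∈ Finset.range (n + 1), x ^ j * y ^ (n - j) =
      (((Polynomial.Chebyshev.U ℝ (n : ℤ)).eval (Real.cos θ) : ℝ) : ℂ)) ∧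
      (∑ j ∈ Finset.range (n + 2), x ^ j * y ^ (n + 1 - j) =
      (((Polynomial.Chebyshev.U ℝ ((n : ℤ) + 1)).eval (Real.cos θ) : ℝ) : ℂ)) := by
    intro n
    induction n with
    | zero =>
      constructor
      · simp [Polynomial.Chebyshev.U_zero]
      · rw [Finset.sum_range_succ, Finset.sum_range_succ]
        simp [Polynomial.Chebyshev.U_one]
        rw [add_comm, hl2]; push_cast; ring
    | succ n ih =>
      refine ⟨?_, ?_⟩
      · rw [show ((n + 1 : ℕ) : ℤ) = (n : ℤ) + 1 by push_cast; ring]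
        exact ih.2
      · have h1 := char_sum_add_two x y n
        have h2 : ((n + 1 : ℕ) : ℤ) + 1 = (n : ℤ) + 2 := by push_cast; ring
        rw [h2, Polynomial.Chebyshev.U_add_two]
        have h3 : n + 1 + 2 = n + 3 := by ring
        have h4 : n + 1 + 1 = n + 2 := by ring
        rw [h3, h4, h1, ih.1, ih.2, hl2, hl1]
        simp
  exact (key l).1

lemma su2_conj_tor_00 (k : SU2) (θ : ℝ) : (k * tor θ * k⁻¹).1 0 0 =
    (((‖k.1 0 0‖ ^ 2 : ℝ)) : ℂ) * cexp (θ * I) + (((‖k.1 1 0‖ ^ 2 : ℝ)) : ℂ) * conj (cexp (θ * I)) := by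
  have h01 : (k * tor θ).1 0 1 = k.1 0 1 * conj (cexp (θ * I)) := by
    show ((k.1 * (tor θ).1 : Matrix (Fin 2) (Fin 2) ℂ)) 0 1 = _
    rw [Matrix.mul_apply, Fin.sum_univ_two]
    simp [tor]
  have h10 : (k⁻¹).1 1 0 = conj (k.1 0 1) := by
    rw [su2_coe_inv]; simp [Matrix.star_apply]
  rw [su2_mul_00, su2_mul_00, h01, h10, su2_inv_00, tor_00, tor_10, su2_01]
  push_cast
  rw [← Complex.mul_conj', ← Complex.mul_conj']
  simp
  ring

theorem su2_char (l : ℕ) (z : SU2) :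
    ∫ k : SU2, ((k * z * k⁻¹).1 0 0) ^ l = ((chi l z / ((l : ℝ) + 1) : ℝ) : ℂ) := by
  obtain ⟨k0, θ, hz⟩ := su2_diag z
  have hchi : chi l z = (Polynomial.Chebyshev.U ℝ (l : ℤ)).eval (Real.cos θ) := by
    rw [hz, chi_conj, chi_tor]
  have h1 : ∫ k : SU2, ((k * z * k⁻¹).1 0 0) ^ l = ∫ k : SU2, ((k * tor θ * k⁻¹).1 0 0) ^ l := by
    rw [← integral_mul_right_eq_self (μ := (volume : Measure SU2))
      (fun k : SU2 => ((k * tor θ * k⁻¹).1 0 0) ^ l) k0]
    congr 1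
    ext k
    have : k * z * k⁻¹ = k * k0 * tor θ * (k * k0)⁻¹ := by
      rw [hz]; group
    rw [this]
  rw [h1]
  have h2 : ∀ k : SU2, ((k * tor θ * k⁻¹).1 0 0) ^ l =
      ∑ j ∈ Finset.range (l + 1), (cexp (θ * I) ^ j * conj (cexp (θ * I)) ^ (l - j) *
        (l.choose j : ℂ)) * ((‖k.1 0 0‖ ^ (2 * j) * ‖k.1 1 0‖ ^ (2 * (l - j)) : ℝ) : ℂ) := by
    intro k
    rw [su2_conj_tor_00, add_pow]
    refine Finset.sum_congr rfl fun j hj => ?_
    push_cast
    rw [mul_pow, mul_pow, ← pow_mul, ← pow_mul]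
    ring
  simp_rw [h2]
  have hc0 : Continuous fun k : SU2 => k.1 0 0 := su2_continuous_entry 0 0
  have hc1 : Continuous fun k : SU2 => k.1 1 0 := su2_continuous_entry 1 0
  rw [integral_finsetSum]
  · have h3 : ∀ j ∈ Finset.range (l + 1), ∫ k : SU2, (cexp (θ * I) ^ j * conj (cexp (θ * I)) ^ (l - j) *
        (l.choose j : ℂ)) * ((‖k.1 0 0‖ ^ (2 * j) * ‖k.1 1 0‖ ^ (2 * (l - j)) : ℝ) : ℂ) =
        (cexp (θ * I) ^ j * conj (cexp (θ * I)) ^ (l - j)) * (((1 / ((l : ℝ) + 1) : ℝ)) : ℂ) := by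
      intro j hj
      have hj' : j ≤ l := Nat.lt_succ_iff.1 (Finset.mem_range.1 hj)
      have hI : ∫ k : SU2, ((‖k.1 0 0‖ ^ (2 * j) * ‖k.1 1 0‖ ^ (2 * (l - j)) : ℝ) : ℂ) =
          ((∫ k : SU2, ‖k.1 0 0‖ ^ (2 * j) * ‖k.1 1 0‖ ^ (2 * (l - j)) : ℝ) : ℂ) :=
        integral_ofReal
      rw [integral_const_mul, hI, su2_moment]
      have h4 : j + (l - j) = l := by omega
      have h5 : (j : ℝ) + ((l - j : ℕ) : ℝ) = l := by exact_mod_cast h4
      rw [h4, h5]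
      have h6 : (l.choose j : ℂ) ≠ 0 := by
        exact_mod_cast (Nat.choose_pos hj').ne'
      have h7 : ((l : ℂ) + 1) ≠ 0 := by exact_mod_cast Nat.succ_ne_zero l
      push_cast
      field_simp
    rw [Finset.sum_congr rfl h3, ← Finset.sum_mul, char_sum_eq, hchi]
    push_cast
    ring
  · intro j hj
    apply Continuous.integrable_of_hasCompactSupport
    · exact continuous_const.mul (Complex.continuous_ofReal.comp
        ((hc0.norm.pow _).mul (hc1.norm.pow _)))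
    · exact HasCompactSupport.of_compactSpace _

end STZ
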