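import Pool.Agent.STZ.Kernels

/-!
# STZ/SU2Elt: elements of SU(2)

PROOF of `su2_diag`. Write `z = [[α, -conj β],[β, conj α]]`, `|α|^2 + |β|^2 = 1`
(`su2_01`, `su2_11`, `su2_normSq`). Let `θ = arccos (Re α) ∈ [0, π]`, `lam = e^{iθ}`; then
`lam^2 - 2 Re α lam + 1 = 0`, i.e. `(α - lam)(conj α - lam) + |β|^2 = 0`. The vector
`v = (conj β, α - lam)` satisfies `(α - lam) v_0 - conj β v_1 = 0` and
`β v_0 + (conj α - lam) v_1 = 0`, so `z v = lam v`. If `v ≠ 0` put `k = mkSU2 (v_0/|v|) (v_1/|v|)`;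
then `z k` and `k (tor θ)` have the same first column, hence they are equal (an element of SU(2)
is determined by its first column by `su2_01`, `su2_11`). If `v = 0` then `β = 0`, `α = lam`,
`z = tor θ`, `k = 1`.

`chi_conj`: `2 Re (g 0 0) = Re (trace g)` by `su2_11` and the trace is invariant.
`chi_tor`: `Re (tor θ) 0 0 = cos θ` and Mathlib has `Polynomial.Chebyshev.U_real_cos` (or a similar
name): `U_n(cos θ) sin θ = sin ((n+1) θ)`.
-/

open MeasureTheory Complex Matrix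
open scoped ComplexConjugate

namespace STZ

/-- An element of `SU(2)` is determined by its first column. -/
theorem su2_ext (g h : SU2) (h0 : g.1 0 0 = h.1 0 0) (h1 : g.1 1 0 = h.1 1 0) : g = h := by
  apply Subtype.ext
  ext i j
  fin_cases i <;> fin_cases j
  · exact h0
  · show g.1 0 1 = h.1 0 1
    rw [su2_01, su2_01, h1]
  · exact h1
  · show g.1 1 1 = h.1 1 1
    rw [su2_11, su2_11, h0]

lemma su2_mul_00 (g h : SU2) : (g * h).1 0 0 = g.1 0 0 * h.1 0 0 + g.1 0 1 * h.1 1 0 := by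
  show ((g.1 * h.1 : Matrix (Fin 2) (Fin 2) ℂ)) 0 0 = _
  rw [Matrix.mul_apply, Fin.sum_univ_two]

lemma su2_mul_10 (g h : SU2) : (g * h).1 1 0 = g.1 1 0 * h.1 0 0 + g.1 1 1 * h.1 1 0 := by
  show ((g.1 * h.1 : Matrix (Fin 2) (Fin 2) ℂ)) 1 0 = _
  rw [Matrix.mul_apply, Fin.sum_univ_two]

lemma tor_00 (θ : ℝ) : (tor θ).1 0 0 = cexp (θ * I) := by simp [tor]
lemma tor_10 (θ : ℝ) : (tor θ).1 1 0 = 0 := by simp [tor]

theorem su2_diag (z : SU2) : ∃ (k : SU2) (θ : ℝ), z = k * tor θ * k⁻¹ := by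
  have hre := su2_re_le z
  have hN := su2_normSq z
  set α : ℂ := z.1 0 0 with hα
  set β : ℂ := z.1 1 0 with hβ
  have hre' := abs_le.1 hre
  obtain ⟨θ, hθ⟩ : ∃ θ : ℝ, Real.cos θ = α.re :=
    ⟨Real.arccos α.re, Real.cos_arccos hre'.1 hre'.2⟩
  set lam : ℂ := cexp (θ * I) with hlam
  have hl1 : lam * conj lam = 1 := by
    rw [Complex.mul_conj', hlam, Complex.norm_exp_ofReal_mul_I]; simp
  have hl2 : lam + conj lam = α + conj α := by
    rw [Complex.add_conj, Complex.add_conj, ← hθ, hlam, Complex.exp_ofReal_mul_I_re]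
  have hN' : α * conj α + β * conj β = 1 := by
    rw [Complex.mul_conj', Complex.mul_conj']
    exact_mod_cast hN
  have hquad : (α - lam) * (conj α - lam) + β * conj β = 0 := by
    linear_combination hN' + lam * hl2 - hl1
  by_cases hv : β = 0 ∧ α = lam
  · refine ⟨1, θ, ?_⟩
    apply su2_ext
    · rw [inv_one, mul_one, one_mul, tor_00]
      exact hv.2
    · rw [inv_one, mul_one, one_mul, tor_10]
      exact hv.1
  · have hpos : 0 < ‖β‖ ^ 2 + ‖α - lam‖ ^ 2 := by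
      by_contra hcon
      apply hv
      have h1 := sq_nonneg ‖β‖
      have h2 := sq_nonneg ‖α - lam‖
      have h3 : ‖β‖ ^ 2 = 0 := by linarith
      have h4 : ‖α - lam‖ ^ 2 = 0 := by linarith
      constructor
      · exact norm_eq_zero.1 (pow_eq_zero_iff (two_ne_zero) |>.1 h3)
      · exact sub_eq_zero.1 (norm_eq_zero.1 (pow_eq_zero_iff (two_ne_zero) |>.1 h4))
    set r : ℝ := Real.sqrt (‖β‖ ^ 2 + ‖α - lam‖ ^ 2) with hr
    have hrpos : 0 < r := Real.sqrt_pos.2 hpos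
    have hr2 : r ^ 2 = ‖β‖ ^ 2 + ‖α - lam‖ ^ 2 := Real.sq_sqrt hpos.le
    have hk : ‖conj β / (r : ℂ)‖ ^ 2 + ‖(α - lam) / (r : ℂ)‖ ^ 2 = 1 := by
      rw [norm_div, norm_div, RCLike.norm_conj, Complex.norm_real, Real.norm_of_nonneg hrpos.le,
        div_pow, div_pow, ← add_div, ← hr2, div_self (pow_ne_zero _ hrpos.ne')]
    have hrc : (r : ℂ) ≠ 0 := by exact_mod_cast hrpos.ne'
    refine ⟨mkSU2 (conj β / (r : ℂ)) ((α - lam) / (r : ℂ)) hk, θ, ?_⟩
    rw [eq_mul_inv_iff_mul_eq]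
    apply su2_ext
    · rw [su2_mul_00, su2_mul_00, tor_00, tor_10, mkSU2_00, mkSU2_10, su2_01]
      rw [← hα, ← hβ, ← hlam]
      field_simp
      ring
    · rw [su2_mul_10, su2_mul_10, tor_00, tor_10, mkSU2_00, mkSU2_10, su2_11]
      rw [← hα, ← hβ, ← hlam]
      field_simp
      linear_combination hquad

lemma su2_trace (g : SU2) : Matrix.trace (g.1) = ((2 * (g.1 0 0).re : ℝ) : ℂ) := by
  rw [Matrix.trace_fin_two, su2_11, Complex.add_conj]

theorem chi_conj (l : ℕ) (k z : SU2) : chi l (k * z * k⁻¹) = chi l z := by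
  have h1 : Matrix.trace ((k * z * k⁻¹ : SU2).1) = Matrix.trace z.1 := by
    show Matrix.trace ((k.1 * z.1 : Matrix (Fin 2) (Fin 2) ℂ) * (k⁻¹ : SU2).1) = _
    rw [Matrix.trace_mul_comm, ← mul_assoc, su2_coe_inv]
    rw [su2_star_mul, one_mul]
  rw [su2_trace, su2_trace] at h1
  have h2 : (2 * ((k * z * k⁻¹ : SU2).1 0 0).re : ℝ) = 2 * (z.1 0 0).re := by exact_mod_cast h1
  unfold chi
  rw [show ((k * z * k⁻¹ : SU2).1 0 0).re = (z.1 0 0).re by linarith]

theorem chi_tor (l : ℕ) (θ : ℝ) : chi l (tor θ) = (Polynomial.Chebyshev.U ℝ (l : ℤ)).eval (Real.cos θ) := by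
  unfold chi
  rw [tor_00, Complex.exp_ofReal_mul_I_re]

end STZ
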