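import Pool.Agent.STZ.SU2Schur
import Pool.Agent.STZ.SU2Char

/-!
# STZ/SU2Rep: the reproducing property of the kernels of SU(2)

PROOF. `⟨a,g,b⟩ = a ⬝ᵥ (g *ᵥ b)`, `J = !![0,-1;1,0]`. For `z ∈ SU(2)`: `conj z = J z J⁻¹`
(entrywise conjugate), hence `⟨a,z,b⟩ = conj ⟨Jᵀ conj a, z, J⁻¹ conj b⟩`, that is
`⟨(a0,a1), z, (b0,b1)⟩ = conj ⟨(conj a1, - conj a0), z, (conj b1, - conj b0)⟩` (check directly with
`su2_01`, `su2_11`).
(*) `(l+1) ∫_z χ_l(z) ⟨a,z,b⟩^m = δ_{lm} (a ⬝ᵥ b)^m`. By `su2_char`,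
`χ_l(z) = (l+1) ∫_k ((k z k⁻¹)_{00})^l` and `(k z k⁻¹)_{00} = ⟨kᵀ e0, z, k⁻¹ e0⟩`. Fubini and
`su2_schur` (with `c = (conj a1, -conj a0)`, `d = (conj b1, - conj b0)`):
inner integral over `z` is `δ_{lm} (1/(l+1)) ((kᵀ e0) ⬝ᵥ (a1, -a0))^l ((k⁻¹ e0) ⬝ᵥ (b1,-b0))^l`,
`(kᵀ e0) ⬝ᵥ (a1,-a0) = ⟨e0, k, (a1,-a0)⟩` and
`(k⁻¹ e0) ⬝ᵥ (b1,-b0) = conj(k_{00}) b1 - conj(k_{01}) b0 = k_{11} b1 + k_{10} b0 = ⟨e1, k, b⟩`
`= conj ⟨e0, k, (conj b1, -conj b0)⟩`. A second use of `su2_schur` gives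
`∫_k ⟨e0,k,(a1,-a0)⟩^l conj(⟨e0,k,(conj b1,-conj b0)⟩^l) = (1/(l+1)) ((a1,-a0) ⬝ᵥ (b1,-b0))^l`
`= (a ⬝ᵥ b)^l/(l+1)`. Total factor `(l+1)^2 (1/(l+1))^2 = 1`.
(1) `su2_repr`: substitute `y = z x` (right invariance): `χ_l(x (z x)⁻¹) = χ_l(z⁻¹) = χ_l(z)`
(`chi_inv`) and `⟨a, z x, b⟩ = ⟨a, z, x b⟩`; apply (*) with `b` replaced by `x b`.
(2) `su2_comp`: `kS m z y = (m+1) χ_m(z y⁻¹) = (m+1)^2 ∫_k ((k z y⁻¹ k⁻¹)_{00})^m`
`= (m+1)^2 ∫_k ⟨kᵀ e0, z, (y⁻¹ k⁻¹) e0⟩^m`; Fubini, `su2_repr` in the variable `z`, and `su2_char`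
backwards with `z` replaced by `x y⁻¹`.
All integrands are continuous functions on compact spaces (`SU2 x SU2`), hence integrable.
-/

open MeasureTheory Complex Matrix
open scoped ComplexConjugate

namespace STZ

/-- The first row of `k`. -/
private noncomputable def rowV (k : SU2) : Fin 2 → ℂ := fun j => k.1 0 j

/-- The first column of `k⁻¹`. -/
private noncomputable def colV (k : SU2) : Fin 2 → ℂ := fun i => (k⁻¹).1 i 0

private lemma continuous_rowV : Continuous rowV :=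
  continuous_pi fun j => su2_continuous_entry 0 j

private lemma continuous_colV : Continuous colV :=
  continuous_pi fun i => (su2_continuous_entry i 0).comp continuous_inv

private lemma conj_00 (k z : SU2) : (k * z * k⁻¹).1 0 0 = rowV k ⬝ᵥ (z.1 *ᵥ colV k) := by
  have : (k * z * k⁻¹).1 = k.1 * z.1 * (k⁻¹).1 := rfl
  rw [this]
  simp only [rowV, colV, dotProduct, mulVec, Matrix.mul_apply, Fin.sum_univ_two]
  ring

private lemma pr_mul (a b : Fin 2 → ℂ) (z x : SU2) :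
    a ⬝ᵥ ((z * x).1 *ᵥ b) = a ⬝ᵥ (z.1 *ᵥ (x.1 *ᵥ b)) := by
  have : (z * x).1 = z.1 * x.1 := rfl
  rw [this, Matrix.mulVec_mulVec]

private lemma pr_conj (a b : Fin 2 → ℂ) (z : SU2) :
    a ⬝ᵥ (z.1 *ᵥ b) =
      conj ((![conj (a 1), -conj (a 0)] : Fin 2 → ℂ) ⬝ᵥ
        (z.1 *ᵥ (![conj (b 1), -conj (b 0)] : Fin 2 → ℂ))) := by
  simp only [dotProduct, mulVec, Fin.sum_univ_two, Matrix.cons_val_zero, Matrix.cons_val_one,
    map_add, map_mul, map_neg, Complex.conj_conj]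
  rw [su2_01, su2_11]
  simp only [map_neg, Complex.conj_conj]
  ring

private lemma integrable_SU2 {f : SU2 → ℂ} (hf : Continuous f) : Integrable f volume :=
  hf.integrable_of_hasCompactSupport (HasCompactSupport.of_compactSpace f)

private lemma integrable_SU2' {f : SU2 × SU2 → ℂ} (hf : Continuous f) :
    Integrable f (volume.prod volume) :=
  hf.integrable_of_hasCompactSupport (HasCompactSupport.of_compactSpace f)

private lemma continuous_pr {X : Type*} [TopologicalSpace X] {u v : X → Fin 2 → ℂ} {g : X → SU2}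
    (hu : Continuous u) (hg : Continuous g) (hv : Continuous v) :
    Continuous fun x => u x ⬝ᵥ ((g x).1 *ᵥ v x) :=
  hu.dotProduct ((continuous_subtype_val.comp hg).matrix_mulVec hv)

/-- Formula (*). -/
private lemma repr_one (l m : ℕ) (a b : Fin 2 → ℂ) :
    ∫ z : SU2, ((((l : ℝ) + 1) * chi l z : ℝ) : ℂ) * (a ⬝ᵥ (z.1 *ᵥ b)) ^ m =
      if l = m then (a ⬝ᵥ b) ^ m else 0 := by
  have hl : ((l : ℂ) + 1) ≠ 0 := by exact_mod_cast Nat.succ_ne_zero l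
  have h1 : ∀ z : SU2, ((((l : ℝ) + 1) * chi l z : ℝ) : ℂ) * (a ⬝ᵥ (z.1 *ᵥ b)) ^ m =
      ((l : ℂ) + 1) ^ 2 * ∫ k : SU2, (rowV k ⬝ᵥ (z.1 *ᵥ colV k)) ^ l * (a ⬝ᵥ (z.1 *ᵥ b)) ^ m := by
    intro z
    have h2 := su2_char l z
    simp_rw [conj_00] at h2
    rw [integral_mul_const, h2]
    push_cast
    field_simp
  simp_rw [h1]
  rw [integral_const_mul]
  have hcont : Continuous (Function.uncurry fun (z k : SU2) =>
      (rowV k ⬝ᵥ (z.1 *ᵥ colV k)) ^ l * (a ⬝ᵥ (z.1 *ᵥ b)) ^ m) := by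
    have hA : Continuous fun p : SU2 × SU2 => rowV p.2 ⬝ᵥ (p.1.1 *ᵥ colV p.2) :=
      continuous_pr (continuous_rowV.comp continuous_snd) continuous_fst
        (continuous_colV.comp continuous_snd)
    have hB : Continuous fun p : SU2 × SU2 => a ⬝ᵥ (p.1.1 *ᵥ b) :=
      continuous_pr continuous_const continuous_fst continuous_const
    exact (hA.pow l).mul (hB.pow m)
  rw [integral_integral_swap (integrable_SU2' hcont)]
  have h3 : ∀ k : SU2, ∫ z : SU2, (rowV k ⬝ᵥ (z.1 *ᵥ colV k)) ^ l * (a ⬝ᵥ (z.1 *ᵥ b)) ^ m =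
      if l = m then (1 / ((l : ℂ) + 1)) *
        (((![1, 0] : Fin 2 → ℂ) ⬝ᵥ (k.1 *ᵥ (![a 1, -(a 0)] : Fin 2 → ℂ))) ^ l *
        conj (((![1, 0] : Fin 2 → ℂ) ⬝ᵥ
          (k.1 *ᵥ (![conj (b 1), -conj (b 0)] : Fin 2 → ℂ))) ^ l)) else 0 := by
    intro k
    have h4 : ∀ z : SU2, (rowV k ⬝ᵥ (z.1 *ᵥ colV k)) ^ l * (a ⬝ᵥ (z.1 *ᵥ b)) ^ m =
        (rowV k ⬝ᵥ (z.1 *ᵥ colV k)) ^ l * conj (((![conj (a 1), -conj (a 0)] : Fin 2 → ℂ) ⬝ᵥ
        (z.1 *ᵥ (![conj (b 1), -conj (b 0)] : Fin 2 → ℂ))) ^ m) := by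
      intro z
      rw [map_pow, ← pr_conj a b z]
    simp_rw [h4]
    rw [su2_schur]
    by_cases hlm : l = m
    · rw [if_pos hlm, if_pos hlm, mul_assoc, map_pow]
      congr 3
      · simp only [dotProduct, mulVec, Fin.sum_univ_two, rowV, Matrix.cons_val_zero,
          Matrix.cons_val_one, Complex.conj_conj, map_neg]
        ring
      · simp only [dotProduct, mulVec, Fin.sum_univ_two, colV, Matrix.cons_val_zero,
          Matrix.cons_val_one, Complex.conj_conj, map_neg, map_add, map_mul, map_one, map_zero]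
        rw [su2_coe_inv]
        simp only [Matrix.star_apply, RCLike.star_def]
        ring
    · rw [if_neg hlm, if_neg hlm]
  simp_rw [h3]
  by_cases hlm : l = m
  · subst hlm
    simp only [if_true]
    rw [integral_const_mul, su2_schur, if_pos rfl]
    have h5 : (![1, 0] : Fin 2 → ℂ) ⬝ᵥ (fun i => conj ((![1, 0] : Fin 2 → ℂ) i)) = 1 := by
      simp [dotProduct, Fin.sum_univ_two]
    have h6 : (![a 1, -(a 0)] : Fin 2 → ℂ) ⬝ᵥ
        (fun i => conj ((![conj (b 1), -conj (b 0)] : Fin 2 → ℂ) i)) = a ⬝ᵥ b := by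
      simp [dotProduct, Fin.sum_univ_two]
      ring
    rw [h5, h6]
    field_simp
    ring
  · simp [hlm]

theorem su2_repr (l m : ℕ) (a b : Fin 2 → ℂ) (x : SU2) :
    ∫ y : SU2, kS l x y * (a ⬝ᵥ (y.1 *ᵥ b)) ^ m = if l = m then (a ⬝ᵥ (x.1 *ᵥ b)) ^ m else 0 := by
  rw [← integral_mul_right_eq_self (fun y : SU2 => kS l x y * (a ⬝ᵥ (y.1 *ᵥ b)) ^ m) x]
  rw [← repr_one l m a (x.1 *ᵥ b)]
  apply integral_congr_ae
  refine Filter.Eventually.of_forall fun z => ?_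
  simp only
  rw [pr_mul]
  congr 1
  unfold kS
  have : x * (z * x)⁻¹ = z⁻¹ := by group
  rw [this, chi_inv]

theorem su2_comp (l m : ℕ) (x y : SU2) :
    ∫ z : SU2, kS l x z * kS m z y = if l = m then kS l x y else 0 := by
  have hm : ((m : ℂ) + 1) ≠ 0 := by exact_mod_cast Nat.succ_ne_zero m
  have hk : ∀ z : SU2, kS m z y =
      ((m : ℂ) + 1) ^ 2 * ∫ k : SU2, (rowV k ⬝ᵥ (z.1 *ᵥ ((y⁻¹).1 *ᵥ colV k))) ^ m := by
    intro z
    have h2 := su2_char m (z * y⁻¹)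
    simp_rw [conj_00, pr_mul] at h2
    rw [h2]
    unfold kS
    push_cast
    field_simp
  have h1 : ∀ z : SU2, kS l x z * kS m z y =
      ((m : ℂ) + 1) ^ 2 * ∫ k : SU2, kS l x z *
        (rowV k ⬝ᵥ (z.1 *ᵥ ((y⁻¹).1 *ᵥ colV k))) ^ m := by
    intro z
    rw [hk, integral_const_mul]
    ring
  simp_rw [h1]
  rw [integral_const_mul]
  have hcont : Continuous (Function.uncurry fun (z k : SU2) =>
      kS l x z * (rowV k ⬝ᵥ (z.1 *ᵥ ((y⁻¹).1 *ᵥ colV k))) ^ m) := by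
    have hC : Continuous fun p : SU2 × SU2 => ((y⁻¹).1 *ᵥ colV p.2) :=
      continuous_const.matrix_mulVec (continuous_colV.comp continuous_snd)
    have hA : Continuous fun p : SU2 × SU2 =>
        rowV p.2 ⬝ᵥ (p.1.1 *ᵥ ((y⁻¹).1 *ᵥ colV p.2)) :=
      continuous_pr (continuous_rowV.comp continuous_snd) continuous_fst hC
    have hB : Continuous fun p : SU2 × SU2 => kS l x p.1 :=
      (continuous_kS l).comp (continuous_const.prodMk continuous_fst)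
    exact hB.mul (hA.pow m)
  rw [integral_integral_swap (integrable_SU2' hcont)]
  simp_rw [su2_repr]
  by_cases hlm : l = m
  · subst hlm
    simp only [if_true]
    rw [← hk x]
  · simp [hlm]

end STZ
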