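import Pool.Agent.STZ.SU2Mom

/-!
# STZ/SU2Schur: Schur orthogonality in coherent form

PROOF. Write `⟨a,g,b⟩ = a ⬝ᵥ (g *ᵥ b)`, `e0 = ![1,0]`, `e1 = ![0,1]`.
(1) `Ψ(a,c) := ∫ ⟨a,g,e0⟩^m conj(⟨c,g,e0⟩^m) = (1/(m+1)) (a ⬝ᵥ conj c)^m`: here
`⟨a,g,e0⟩ = a0 g_{00} + a1 g_{10}`; expand both factors, only the diagonal terms survive
(`su2_mom_ne`), and `su2_moment` gives `∑_j C(m,j)^2 (a0 conj c0)^j (a1 conj c1)^(m-j) /((m+1) C(m,j))`
`= (a0 conj c0 + a1 conj c1)^m/(m+1)`.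
(2) Case `m ≥ k`, `b ≠ 0`. Let `r = √(|b0|^2+|b1|^2)`, `κ = mkSU2 (b0/r) (b1/r)`, so `κ e0 = b/r` and
`⟨a,g,b⟩ = r ⟨a, g κ, e0⟩`. Right invariance (`g -> g κ⁻¹`):
`∫ ⟨a,g,b⟩^m conj(⟨c,g,d⟩^k) = r^m ∫ ⟨a,g,e0⟩^m conj(⟨c,g,d'⟩^k)`, `d' = κ⁻¹ d`. Expand
`⟨c,g,d'⟩^k = ∑_j C(k,j) d'_0^j d'_1^(k-j) ⟨c,g,e0⟩^j ⟨c,g,e1⟩^(k-j)`. Substituting `g -> g tor φ`
multiplies `⟨.,g,e0⟩` by `e^{iφ}` and `⟨.,g,e1⟩` by `e^{-iφ}`, so the term `j` is multiplied by
`e^{iφ(m + k - 2j)}`; it vanishes unless `2 j = m + k`, which for `j ≤ k ≤ m` forces `j = k = m`.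
So the integral is `0` if `k < m` and for `k = m` it is
`r^m conj(d'_0)^m Ψ(a,c)` with `r conj(d'_0) = b ⬝ᵥ conj d` because
`d'_0 = (conj b0 d0 + conj b1 d1)/r`.
(3) `m < k`: the integral is the complex conjugate of `∫ ⟨c,g,d⟩^k conj(⟨a,g,b⟩^m) = 0` by (2) (if
`d = 0` then `k > 0` and everything is `0`).
(4) `b = 0`: both sides vanish if `m > 0`; if `m = 0` replace `b` by `e0` (the integrand does not
depend on `b`).
-/

open MeasureTheory Complex Matrix
open scoped ComplexConjugate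

namespace STZ

/-- `⟨a, g, e_j⟩`. -/
noncomputable def schCol (a : Fin 2 → ℂ) (j : Fin 2) (g : SU2) : ℂ := a 0 * g.1 0 j + a 1 * g.1 1 j

lemma schCol_cont (a : Fin 2 → ℂ) (j : Fin 2) : Continuous (schCol a j) :=
  (continuous_const.mul (su2_continuous_entry 0 j)).add
    (continuous_const.mul (su2_continuous_entry 1 j))

lemma sch_br (a b : Fin 2 → ℂ) (g : SU2) :
    a ⬝ᵥ (g.1 *ᵥ b) = b 0 * schCol a 0 g + b 1 * schCol a 1 g := by
  simp only [schCol, dotProduct, mulVec, Fin.sum_univ_two]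
  ring

lemma schCol_mul (a : Fin 2 → ℂ) (j : Fin 2) (g k : SU2) :
    schCol a j (g * k) = k.1 0 j * schCol a 0 g + k.1 1 j * schCol a 1 g := by
  have h : ∀ i, (g * k).1 i j = g.1 i 0 * k.1 0 j + g.1 i 1 * k.1 1 j := by
    intro i
    change (g.1 * k.1) i j = _
    rw [Matrix.mul_apply, Fin.sum_univ_two]
  unfold schCol
  rw [h 0, h 1]
  ring

lemma schCol_tor_0 (a : Fin 2 → ℂ) (g : SU2) (φ : ℝ) :
    schCol a 0 (g * tor φ) = cexp (φ * I) * schCol a 0 g := by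
  rw [schCol_mul]
  simp [tor]

lemma schCol_tor_1 (a : Fin 2 → ℂ) (g : SU2) (φ : ℝ) :
    schCol a 1 (g * tor φ) = conj (cexp (φ * I)) * schCol a 1 g := by
  rw [schCol_mul]
  simp [tor]

lemma sch_term (a c : Fin 2 → ℂ) (m j l : ℕ) (h : (m : ℤ) + l ≠ j) :
    ∫ g : SU2, schCol a 0 g ^ m * conj (schCol c 0 g ^ j * schCol c 1 g ^ l) = 0 := by
  set n : ℤ := ((m + l : ℕ) : ℤ) - j with hn
  have hn0 : n ≠ 0 := by
    intro h0
    apply h
    push_cast at hn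
    omega
  have hnR : (n : ℝ) ≠ 0 := by exact_mod_cast hn0
  set φ : ℝ := Real.pi / n with hφ
  set e : ℂ := cexp (φ * I) with he
  have hne : e ≠ 0 := Complex.exp_ne_zero _
  have hce : conj e = e⁻¹ := by
    rw [he, ← Complex.exp_neg, ← Complex.exp_conj]
    congr 1
    simp
  have hfac : e ^ (m + l) * (e⁻¹) ^ j = -1 := by
    have h1 : e ^ (m + l) * (e⁻¹) ^ j = e ^ n := by
      rw [hn, zpow_sub₀ hne, inv_pow, div_eq_mul_inv]
      norm_cast
    rw [h1, he, ← Complex.exp_int_mul]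
    have h2 : (n : ℂ) * ((φ : ℂ) * I) = (Real.pi : ℂ) * I := by
      rw [hφ]
      push_cast
      field_simp
    rw [h2, Complex.exp_pi_mul_I]
  set F : SU2 → ℂ := fun g => schCol a 0 g ^ m * conj (schCol c 0 g ^ j * schCol c 1 g ^ l) with hF
  have h1 : ∀ g, F (g * tor φ) = -F g := by
    intro g
    rw [hF]
    simp only [schCol_tor_0, schCol_tor_1, map_mul, map_pow, Complex.conj_conj]
    rw [← he, hce]
    have h3 : (e * schCol a 0 g) ^ m * ((e⁻¹ * conj (schCol c 0 g)) ^ j *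
        (e * conj (schCol c 1 g)) ^ l) =
        (e ^ (m + l) * (e⁻¹) ^ j) * (schCol a 0 g ^ m *
          (conj (schCol c 0 g) ^ j * conj (schCol c 1 g) ^ l)) := by
      simp only [mul_pow, pow_add]
      ring
    rw [h3, hfac]
    ring
  have h2 : ∫ g, F (g * tor φ) = ∫ g, F g := integral_mul_right_eq_self F (tor φ)
  simp only [h1] at h2
  rw [integral_neg] at h2
  have h4 : (2 : ℂ) * ∫ g, F g = 0 := by linear_combination -h2
  simpa using h4

lemma sch_psi (a c : Fin 2 → ℂ) (m : ℕ) :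
    ∫ g : SU2, schCol a 0 g ^ m * conj (schCol c 0 g ^ m) =
      (1 / ((m : ℂ) + 1)) * (a 0 * conj (c 0) + a 1 * conj (c 1)) ^ m := by
  have hC : ∀ i : Fin 2, Continuous fun g : SU2 => g.1 i 0 := fun i => su2_continuous_entry i 0
  have h1 : ∀ g : SU2, schCol a 0 g ^ m * conj (schCol c 0 g ^ m) =
      ∑ j ∈ Finset.range (m + 1), ∑ j' ∈ Finset.range (m + 1),
        (((m.choose j : ℂ) * a 0 ^ j * a 1 ^ (m - j)) *
          conj ((m.choose j' : ℂ) * c 0 ^ j' * c 1 ^ (m - j'))) *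
        ((g.1 0 0 ^ j * g.1 1 0 ^ (m - j)) * conj (g.1 0 0 ^ j' * g.1 1 0 ^ (m - j'))) := by
    intro g
    have h3 : ∀ x : Fin 2 → ℂ, schCol x 0 g ^ m = ∑ j ∈ Finset.range (m + 1),
        ((m.choose j : ℂ) * x 0 ^ j * x 1 ^ (m - j)) * (g.1 0 0 ^ j * g.1 1 0 ^ (m - j)) := by
      intro x
      unfold schCol
      rw [add_pow]
      refine Finset.sum_congr rfl fun j _ => ?_
      rw [mul_pow, mul_pow]
      ring
    rw [h3 a, h3 c, map_sum, Finset.sum_mul_sum]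
    refine Finset.sum_congr rfl fun j _ => Finset.sum_congr rfl fun j' _ => ?_
    rw [map_mul]
    ring
  have hcont : ∀ j j' : ℕ, Continuous fun g : SU2 =>
      (((m.choose j : ℂ) * a 0 ^ j * a 1 ^ (m - j)) *
          conj ((m.choose j' : ℂ) * c 0 ^ j' * c 1 ^ (m - j'))) *
        ((g.1 0 0 ^ j * g.1 1 0 ^ (m - j)) * conj (g.1 0 0 ^ j' * g.1 1 0 ^ (m - j'))) :=
    fun j j' => continuous_const.mul ((((hC 0).pow _).mul ((hC 1).pow _)).mul
      (Complex.continuous_conj.comp (((hC 0).pow _).mul ((hC 1).pow _))))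
  simp only [h1]
  rw [integral_finsetSum]
  swap
  · intro j _
    exact su2m_integrable (continuous_finsetSum _ fun j' _ => hcont j j')
  rw [add_pow, Finset.mul_sum]
  refine Finset.sum_congr rfl fun j hj => ?_
  have hjm : j ≤ m := by have := Finset.mem_range.1 hj; omega
  rw [integral_finsetSum]
  swap
  · intro j' _
    exact su2m_integrable (hcont j j')
  rw [Finset.sum_eq_single j]
  · rw [integral_const_mul]
    have h5 : ∫ g : SU2, ((g.1 0 0 ^ j * g.1 1 0 ^ (m - j)) *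
        conj (g.1 0 0 ^ j * g.1 1 0 ^ (m - j))) =
        1 / (((m : ℂ) + 1) * (m.choose j : ℂ)) := by
      have h6 : ∫ g : SU2, ((g.1 0 0 ^ j * g.1 1 0 ^ (m - j)) *
          conj (g.1 0 0 ^ j * g.1 1 0 ^ (m - j))) =
          ((∫ g : SU2, (‖g.1 0 0‖ ^ (2 * j) * ‖g.1 1 0‖ ^ (2 * (m - j))) : ℝ) : ℂ) := by
        refine Eq.trans ?_ (integral_complex_ofReal (μ := (volume : Measure SU2))
          (f := fun g : SU2 => (‖g.1 0 0‖ ^ (2 * j) * ‖g.1 1 0‖ ^ (2 * (m - j)))))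
        refine integral_congr_ae (Filter.Eventually.of_forall fun g => ?_)
        beta_reduce
        rw [Complex.mul_conj', norm_mul, norm_pow, norm_pow]
        push_cast
        rw [mul_pow, ← pow_mul, ← pow_mul, mul_comm 2 j, mul_comm 2 (m - j)]
      rw [h6, su2_moment]
      have h7 : j + (m - j) = m := by omega
      rw [h7]
      have h8 : (j : ℝ) + ((m - j : ℕ) : ℝ) = (m : ℝ) := by exact_mod_cast h7
      rw [h8]
      push_cast
      rfl
    rw [h5]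
    have h9 : (m.choose j : ℂ) ≠ 0 := by
      exact_mod_cast (Nat.choose_pos hjm).ne'
    have h10 : ((m : ℂ) + 1) ≠ 0 := by exact_mod_cast Nat.succ_ne_zero m
    simp only [map_mul, map_pow, Complex.conj_natCast, mul_pow]
    field_simp
  · intro j' hj' hne
    rw [integral_const_mul, su2_mom_ne, mul_zero]
    have := Finset.mem_range.1 hj'
    omega
  · intro h
    exact absurd hj h

lemma sch_main0 (a b c d : Fin 2 → ℂ) (m k : ℕ) (hkm : k ≤ m) (hb : b ≠ 0) :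
    ∫ g : SU2, (a ⬝ᵥ (g.1 *ᵥ b)) ^ m * conj ((c ⬝ᵥ (g.1 *ᵥ d)) ^ k) =
      if m = k then (1 / ((m : ℂ) + 1)) * (a 0 * conj (c 0) + a 1 * conj (c 1)) ^ m *
        (b 0 * conj (d 0) + b 1 * conj (d 1)) ^ m else 0 := by
  have hbpos : 0 < ‖b 0‖ ^ 2 + ‖b 1‖ ^ 2 := by
    by_contra hcon
    apply hb
    have h0 : ‖b 0‖ ^ 2 = 0 := by nlinarith [sq_nonneg ‖b 0‖, sq_nonneg ‖b 1‖]
    have h1 : ‖b 1‖ ^ 2 = 0 := by nlinarith [sq_nonneg ‖b 0‖, sq_nonneg ‖b 1‖]
    ext i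
    fin_cases i
    · simpa using h0
    · simpa using h1
  set r : ℝ := √(‖b 0‖ ^ 2 + ‖b 1‖ ^ 2) with hr
  have hr0 : 0 < r := Real.sqrt_pos.2 hbpos
  have hr2 : r ^ 2 = ‖b 0‖ ^ 2 + ‖b 1‖ ^ 2 := Real.sq_sqrt hbpos.le
  have hrC : (r : ℂ) ≠ 0 := by exact_mod_cast hr0.ne'
  have hk : ‖b 0 / (r : ℂ)‖ ^ 2 + ‖b 1 / (r : ℂ)‖ ^ 2 = 1 := by
    rw [norm_div, norm_div, Complex.norm_real, Real.norm_eq_abs, div_pow, div_pow, sq_abs]
    field_simp
    linarith
  set p : ℂ := b 0 / (r : ℂ) with hp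
  set q : ℂ := b 1 / (r : ℂ) with hq
  have hpq : p * conj p + q * conj q = 1 := by
    rw [Complex.mul_conj', Complex.mul_conj']
    exact_mod_cast hk
  set κ : SU2 := mkSU2 p q hk with hκ
  set d0 : ℂ := conj p * d 0 + conj q * d 1 with hd0
  set d1 : ℂ := -q * d 0 + p * d 1 with hd1
  have hX : ∀ g : SU2, a ⬝ᵥ (g.1 *ᵥ b) = (r : ℂ) * schCol a 0 (g * κ) := by
    intro g
    rw [sch_br, schCol_mul, hκ, mkSU2_00, mkSU2_10, hp, hq]
    field_simp
  have hY : ∀ g : SU2, c ⬝ᵥ (g.1 *ᵥ d) = d0 * schCol c 0 (g * κ) + d1 * schCol c 1 (g * κ) := by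
    intro g
    rw [sch_br, schCol_mul, schCol_mul, hκ, mkSU2_00, mkSU2_10, mkSU2_01, mkSU2_11, hd0, hd1]
    linear_combination (-(d 0 * schCol c 0 g) - d 1 * schCol c 1 g) * hpq
  set F : SU2 → ℂ := fun g => (r : ℂ) ^ m * (schCol a 0 g ^ m *
    conj ((d0 * schCol c 0 g + d1 * schCol c 1 g) ^ k)) with hF
  have hI : ∫ g : SU2, (a ⬝ᵥ (g.1 *ᵥ b)) ^ m * conj ((c ⬝ᵥ (g.1 *ᵥ d)) ^ k) = ∫ g : SU2, F g := by
    have h1 : ∀ g : SU2, (a ⬝ᵥ (g.1 *ᵥ b)) ^ m * conj ((c ⬝ᵥ (g.1 *ᵥ d)) ^ k) = F (g * κ) := by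
      intro g
      rw [hX g, hY g, hF, mul_pow]
      ring
    simp only [h1]
    exact integral_mul_right_eq_self F κ
  rw [hI, hF, integral_const_mul]
  have h2 : ∀ g : SU2, schCol a 0 g ^ m * conj ((d0 * schCol c 0 g + d1 * schCol c 1 g) ^ k) =
      ∑ j ∈ Finset.range (k + 1), conj ((k.choose j : ℂ) * d0 ^ j * d1 ^ (k - j)) *
        (schCol a 0 g ^ m * conj (schCol c 0 g ^ j * schCol c 1 g ^ (k - j))) := by
    intro g
    rw [add_pow, map_sum, Finset.mul_sum]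
    refine Finset.sum_congr rfl fun j _ => ?_
    simp only [map_mul, map_pow, mul_pow]
    ring
  simp only [h2]
  rw [integral_finsetSum]
  swap
  · intro j _
    exact su2m_integrable (continuous_const.mul (((schCol_cont a 0).pow _).mul
      (Complex.continuous_conj.comp (((schCol_cont c 0).pow _).mul ((schCol_cont c 1).pow _)))))
  by_cases hmk : m = k
  · rw [if_pos hmk]
    rw [Finset.sum_eq_single m]
    · subst hmk
      rw [integral_const_mul]
      simp only [Nat.sub_self, pow_zero, mul_one, Nat.choose_self, Nat.cast_one, one_mul]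
      rw [sch_psi]
      have h3 : (r : ℂ) * conj d0 = b 0 * conj (d 0) + b 1 * conj (d 1) := by
        rw [hd0]
        simp only [map_add, map_mul, Complex.conj_conj]
        rw [hp, hq]
        field_simp
      rw [← h3, map_pow]
      ring
    · intro j hj hne
      rw [integral_const_mul, sch_term, mul_zero]
      have := Finset.mem_range.1 hj
      omega
    · intro h
      exfalso
      apply h
      rw [Finset.mem_range]
      omega
  · rw [if_neg hmk]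
    rw [Finset.sum_eq_zero, mul_zero]
    intro j hj
    rw [integral_const_mul, sch_term, mul_zero]
    have := Finset.mem_range.1 hj
    omega

theorem su2_schur (a b c d : Fin 2 → ℂ) (m k : ℕ) :
    ∫ g : SU2, (a ⬝ᵥ (g.1 *ᵥ b)) ^ m * conj ((c ⬝ᵥ (g.1 *ᵥ d)) ^ k) =
      if m = k then (1 / ((m : ℂ) + 1)) * (a ⬝ᵥ (fun i => conj (c i))) ^ m *
        (b ⬝ᵥ (fun i => conj (d i))) ^ m else 0 := by
  have e1 : a ⬝ᵥ (fun i => conj (c i)) = a 0 * conj (c 0) + a 1 * conj (c 1) := by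
    simp [dotProduct, Fin.sum_univ_two]
  have e2 : b ⬝ᵥ (fun i => conj (d i)) = b 0 * conj (d 0) + b 1 * conj (d 1) := by
    simp [dotProduct, Fin.sum_univ_two]
  rw [e1, e2]
  rcases Nat.lt_or_ge m k with hlt | hge
  · rw [if_neg (by omega)]
    by_cases hd : d = 0
    · have h1 : ∀ g : SU2, (a ⬝ᵥ (g.1 *ᵥ b)) ^ m * conj ((c ⬝ᵥ (g.1 *ᵥ d)) ^ k) = 0 := by
        intro g
        rw [hd, Matrix.mulVec_zero, dotProduct_zero, zero_pow (by omega), map_zero, mul_zero]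
      simp only [h1]
      simp
    · have h1 := sch_main0 c d a b k m hlt.le hd
      rw [if_neg (by omega)] at h1
      have h2 : ∀ g : SU2, (a ⬝ᵥ (g.1 *ᵥ b)) ^ m * conj ((c ⬝ᵥ (g.1 *ᵥ d)) ^ k) =
          conj ((c ⬝ᵥ (g.1 *ᵥ d)) ^ k * conj ((a ⬝ᵥ (g.1 *ᵥ b)) ^ m)) := by
        intro g
        rw [map_mul, Complex.conj_conj]
        ring
      simp only [h2]
      rw [integral_conj, h1, map_zero]
  · by_cases hb : b = 0
    · rcases Nat.eq_zero_or_pos m with hm | hm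
      · have hk : k = 0 := by omega
        subst hm
        subst hk
        simp
      · have h1 : ∀ g : SU2, (a ⬝ᵥ (g.1 *ᵥ b)) ^ m * conj ((c ⬝ᵥ (g.1 *ᵥ d)) ^ k) = 0 := by
          intro g
          rw [hb, Matrix.mulVec_zero, dotProduct_zero, zero_pow (by omega), zero_mul]
        simp only [h1]
        have h3 : b 0 * conj (d 0) + b 1 * conj (d 1) = 0 := by rw [hb]; simp
        rw [h3, zero_pow (by omega)]
        simp
    · exact sch_main0 a b c d m k hge hb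

end STZ
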