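import Pool.Agent.STZ.Inst
import Pool.Agent.STZ.Proj

/-!
# STZ/Sect: sections of the functions of a product family

PROOF. Let `f` satisfy `f(x,y) = ∫_z ∫_w k l x z * k' l' y w * f(z,w)` (`Measure.volume_eq_prod`,
`integral_prod`). Then `∫_{x'} k l x x' f(x',y) = ∫_{x'} k l x x' ∫_z∫_w k l x' z * k' l' y w * f(z,w)`
`= ∫_z ∫_w (∫_{x'} k l x x' k l x' z) k' l' y w f(z,w) = f(x,y)` by `comp`. Symmetrically in `y`.
The sections are continuous.
-/

open MeasureTheory Complex
open scoped ComplexConjugate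

namespace STZ

variable {X Λ Y Λ' : Type*} [TopologicalSpace X] [CompactSpace X] [T2Space X]
  [SecondCountableTopology X] [MeasureSpace X] [BorelSpace X]
  [IsProbabilityMeasure (volume : Measure X)] [DecidableEq Λ]
  [TopologicalSpace Y] [CompactSpace Y] [T2Space Y]
  [SecondCountableTopology Y] [MeasureSpace Y] [BorelSpace Y]
  [IsProbabilityMeasure (volume : Measure Y)] [DecidableEq Λ']

theorem sect_fst (R : RK X Λ) (R' : RK Y Λ') (l : Λ × Λ') (f : X × Y → ℂ)
    (hf : (R.prod R').Mem l f) (y : Y) : R.Mem l.1 (fun x => f (x, y)) := by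
  have hfc : Continuous f := hf.1
  have hrep : ∀ x' : X, ∫ z : X × Y, R.k l.1 x' z.1 * R'.k l.2 y z.2 * f z = f (x', y) :=
    fun x' => hf.2 (x', y)
  refine ⟨hfc.comp (continuous_id.prodMk continuous_const), fun x => ?_⟩
  have h1 : ∀ x' : X, R.k l.1 x x' * f (x', y) =
      ∫ z : X × Y, R.k l.1 x x' * (R.k l.1 x' z.1 * R'.k l.2 y z.2 * f z) := by
    intro x'
    rw [integral_const_mul, hrep]
  have hcont : Continuous fun p : X × (X × Y) =>
      R.k l.1 x p.1 * (R.k l.1 p.1 p.2.1 * R'.k l.2 y p.2.2 * f p.2) := by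
    refine Continuous.mul ?_ (Continuous.mul (Continuous.mul ?_ ?_) ?_)
    · exact (R.cont l.1).comp (continuous_const.prodMk continuous_fst)
    · exact (R.cont l.1).comp (continuous_fst.prodMk continuous_snd.fst)
    · exact (R'.cont l.2).comp (continuous_const.prodMk continuous_snd.snd)
    · exact hfc.comp continuous_snd
  have hint : Integrable (Function.uncurry fun (x' : X) (z : X × Y) =>
      R.k l.1 x x' * (R.k l.1 x' z.1 * R'.k l.2 y z.2 * f z))
      ((volume : Measure X).prod (volume : Measure (X × Y))) :=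
    hcont.integrable_of_hasCompactSupport (HasCompactSupport.of_compactSpace _)
  calc ∫ x', R.k l.1 x x' * f (x', y)
      = ∫ x', ∫ z : X × Y, R.k l.1 x x' * (R.k l.1 x' z.1 * R'.k l.2 y z.2 * f z) := by
        exact integral_congr_ae (Filter.Eventually.of_forall fun x' => h1 x')
    _ = ∫ z : X × Y, ∫ x', R.k l.1 x x' * (R.k l.1 x' z.1 * R'.k l.2 y z.2 * f z) :=
        integral_integral_swap hint
    _ = ∫ z : X × Y, R.k l.1 x z.1 * R'.k l.2 y z.2 * f z := by
        refine integral_congr_ae (Filter.Eventually.of_forall fun z => ?_)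
        have h2 : ∀ x' : X, R.k l.1 x x' * (R.k l.1 x' z.1 * R'.k l.2 y z.2 * f z) =
            (R.k l.1 x x' * R.k l.1 x' z.1) * (R'.k l.2 y z.2 * f z) := by
          intro x'; ring
        simp only [h2]
        rw [integral_mul_const, R.comp, if_pos rfl]
        ring
    _ = f (x, y) := hrep x

theorem sect_snd (R : RK X Λ) (R' : RK Y Λ') (l : Λ × Λ') (f : X × Y → ℂ)
    (hf : (R.prod R').Mem l f) (x : X) : R'.Mem l.2 (fun y => f (x, y)) := by
  have hfc : Continuous f := hf.1
  have hrep : ∀ y' : Y, ∫ z : X × Y, R.k l.1 x z.1 * R'.k l.2 y' z.2 * f z = f (x, y') :=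
    fun y' => hf.2 (x, y')
  refine ⟨hfc.comp (continuous_const.prodMk continuous_id), fun y => ?_⟩
  have h1 : ∀ y' : Y, R'.k l.2 y y' * f (x, y') =
      ∫ z : X × Y, R'.k l.2 y y' * (R.k l.1 x z.1 * R'.k l.2 y' z.2 * f z) := by
    intro y'
    rw [integral_const_mul, hrep]
  have hcont : Continuous fun p : Y × (X × Y) =>
      R'.k l.2 y p.1 * (R.k l.1 x p.2.1 * R'.k l.2 p.1 p.2.2 * f p.2) := by
    refine Continuous.mul ?_ (Continuous.mul (Continuous.mul ?_ ?_) ?_)
    · exact (R'.cont l.2).comp (continuous_const.prodMk continuous_fst)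
    · exact (R.cont l.1).comp (continuous_const.prodMk continuous_snd.fst)
    · exact (R'.cont l.2).comp (continuous_fst.prodMk continuous_snd.snd)
    · exact hfc.comp continuous_snd
  have hint : Integrable (Function.uncurry fun (y' : Y) (z : X × Y) =>
      R'.k l.2 y y' * (R.k l.1 x z.1 * R'.k l.2 y' z.2 * f z))
      ((volume : Measure Y).prod (volume : Measure (X × Y))) :=
    hcont.integrable_of_hasCompactSupport (HasCompactSupport.of_compactSpace _)
  calc ∫ y', R'.k l.2 y y' * f (x, y')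
      = ∫ y', ∫ z : X × Y, R'.k l.2 y y' * (R.k l.1 x z.1 * R'.k l.2 y' z.2 * f z) := by
        exact integral_congr_ae (Filter.Eventually.of_forall fun y' => h1 y')
    _ = ∫ z : X × Y, ∫ y', R'.k l.2 y y' * (R.k l.1 x z.1 * R'.k l.2 y' z.2 * f z) :=
        integral_integral_swap hint
    _ = ∫ z : X × Y, R.k l.1 x z.1 * R'.k l.2 y z.2 * f z := by
        refine integral_congr_ae (Filter.Eventually.of_forall fun z => ?_)
        have h2 : ∀ y' : Y, R'.k l.2 y y' * (R.k l.1 x z.1 * R'.k l.2 y' z.2 * f z) =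
            (R'.k l.2 y y' * R'.k l.2 y' z.2) * (R.k l.1 x z.1 * f z) := by
          intro y'; ring
        simp only [h2]
        rw [integral_mul_const, R'.comp, if_pos rfl]
        ring
    _ = f (x, y) := hrep y

end STZ
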