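import Mathlib

/-!
# STZ/SqDual: duality for exponential sums with square frequencies

PROOF. `u(t) = ∑_{n=1}^N c_n e(n² t)`. Let `H = u/‖u‖` on `S`, `0` outside, `Ĥ(k) = ∫_S H(t) e(-kt) dt`.
`lam |S| ≤ ∫_S ‖u‖ = ∫_S u conj H = ∑ c_n conj(Ĥ(n²)) ≤ (∑|c_n|²)^(1/2) (∑_{n=1}^N |Ĥ(n²)|²)^(1/2)`.
For every finite `s ⊇ {1..N}` in `ℤ`, with `v_n = e^{-π n²/N²}` (`e^π v_n ≥ 1` for `|n| ≤ N`):
`∑_{n=1}^N |Ĥ(n²)|² ≤ e^π ∑_{n ∈ s} v_n |Ĥ(n²)|² = e^π ∫_S∫_S H(t) conj(H(s)) K_s(s-t)`,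
`K_s(u) = ∑_{n∈s} v_n e(n² u)`, and `K_s(u) → jacobiTheta₂ 0 (2u + i/N²)` uniformly in `u` as `s → ℤ`
(`jacobiTheta₂_term n 0 (2u + i/N²) = v_n e(n² u)`, `∑ v_n < ∞`). Hence the claim, up to replacing
`u = s - t` by `t - s` (swap the two integrals).
-/

open MeasureTheory Complex
open scoped Real

namespace STZ

/-- The exponential sum `∑_{n=1}^N c_n e^{2 pi i n² t}`. -/
noncomputable def sqs (N : ℕ) (c : ℕ → ℂ) (t : ℝ) : ℂ :=
  ∑ n ∈ Finset.Icc 1 N, c n * cexp (2 * π * I * (((n : ℝ) ^ 2 * t : ℝ) : ℂ))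

namespace SqDualAux

/-- the exponential `e(n^2 t)` -/
noncomputable def en (n : ℤ) (t : ℝ) : ℂ := cexp (2 * π * I * (((n : ℝ) ^ 2 * t : ℝ) : ℂ))

/-- the gaussian weight -/
noncomputable def vn (N : ℕ) (n : ℤ) : ℝ := Real.exp (-π * (n : ℝ) ^ 2 / (N : ℝ) ^ 2)

/-- the parameter of the theta function -/
noncomputable def tau (N : ℕ) (u : ℝ) : ℂ := 2 * ((u : ℝ) : ℂ) + I / (N : ℂ) ^ 2

lemma norm_en (n : ℤ) (t : ℝ) : ‖en n t‖ = 1 := by
  unfold en
  have h : 2 * π * I * (((n : ℝ) ^ 2 * t : ℝ) : ℂ) = ((2 * π * ((n : ℝ) ^ 2 * t) : ℝ) : ℂ) * I := by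
    push_cast; ring
  rw [h, Complex.norm_exp_ofReal_mul_I]

lemma continuous_en (n : ℤ) : Continuous (en n) := by
  unfold en
  fun_prop

lemma conj_en (n : ℤ) (t : ℝ) :
    (starRingEnd ℂ) (en n t) = cexp (-(2 * π * I * (((n : ℝ) ^ 2 * t : ℝ) : ℂ))) := by
  unfold en
  rw [← Complex.exp_conj]
  congr 1
  simp only [map_mul, Complex.conj_ofReal, Complex.conj_I, map_ofNat]
  ring

lemma tau_im (N : ℕ) (u : ℝ) : (tau N u).im = 1 / (N : ℝ) ^ 2 := by
  unfold tau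
  have h : I / (N : ℂ) ^ 2 = ((1 / (N : ℝ) ^ 2 : ℝ) : ℂ) * I := by
    push_cast; ring
  rw [h]
  simp only [Complex.add_im, Complex.mul_im, Complex.ofReal_re, Complex.ofReal_im, Complex.I_re,
    Complex.I_im]
  simp

lemma tau_pos (N : ℕ) (hN : 1 ≤ N) (u : ℝ) : 0 < (tau N u).im := by
  rw [tau_im]
  have : (0 : ℝ) < N := by exact_mod_cast hN
  positivity

lemma term_eq (N : ℕ) (n : ℤ) (t s : ℝ) :
    jacobiTheta₂_term n 0 (tau N (t - s)) =
      ((vn N n : ℝ) : ℂ) * (en n t * (starRingEnd ℂ) (en n s)) := by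
  rw [conj_en]
  unfold jacobiTheta₂_term tau vn en
  push_cast
  rw [← Complex.exp_add, ← Complex.exp_add]
  congr 1
  have hI : I * I = -1 := Complex.I_mul_I
  rw [mul_zero, zero_add]
  linear_combination ((π : ℂ) * n ^ 2 / N ^ 2) * hI

lemma vn_pos (N : ℕ) (n : ℤ) : 0 < vn N n := Real.exp_pos _

lemma norm_term (N : ℕ) (n : ℤ) (u : ℝ) : ‖jacobiTheta₂_term n 0 (tau N u)‖ = vn N n := by
  have h := term_eq N n u 0
  rw [sub_zero] at h
  rw [h, norm_mul, norm_mul, RCLike.norm_conj, norm_en, norm_en, Complex.norm_real,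
    Real.norm_of_nonneg (vn_pos N n).le]
  ring

lemma summable_vn (N : ℕ) (hN : 1 ≤ N) : Summable (vn N) := by
  have h := (hasSum_jacobiTheta₂_term 0 (tau_pos N hN 0)).summable.norm
  simpa only [norm_term] using h

lemma continuous_theta (N : ℕ) (hN : 1 ≤ N) :
    Continuous fun p : ℝ × ℝ => jacobiTheta₂ 0 (tau N (p.1 - p.2)) := by
  rw [continuous_iff_continuousAt]
  intro p
  have h1 : ContinuousAt (fun z : ℂ × ℂ => jacobiTheta₂ z.1 z.2) (0, tau N (p.1 - p.2)) :=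
    continuousAt_jacobiTheta₂ 0 (tau_pos N hN _)
  have h2 : ContinuousAt (fun p : ℝ × ℝ => ((0 : ℂ), tau N (p.1 - p.2))) p := by
    unfold tau
    fun_prop
  exact ContinuousAt.comp (f := fun p : ℝ × ℝ => ((0 : ℂ), tau N (p.1 - p.2)))
    (g := fun z : ℂ × ℂ => jacobiTheta₂ z.1 z.2) h1 h2

lemma norm_theta_le (N : ℕ) (hN : 1 ≤ N) (u : ℝ) :
    ‖jacobiTheta₂ 0 (tau N u)‖ ≤ ∑' n, vn N n := by
  have h := (hasSum_jacobiTheta₂_term 0 (tau_pos N hN u))
  rw [← h.tsum_eq]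
  refine (norm_tsum_le_tsum_norm ?_).trans (le_of_eq ?_)
  · simpa only [norm_term] using summable_vn N hN
  · simp only [norm_term]

/-- the key inequality: for every measurable `H` bounded by one -/
lemma key (N : ℕ) (hN : 1 ≤ N) (S : Set ℝ) (hSf : IsFiniteMeasure (volume.restrict S))
    (H : ℝ → ℂ) (hH : Measurable H) (hH1 : ∀ t, ‖H t‖ ≤ 1) :
    ∑' n : ℤ, vn N n * ‖∫ t in S, H t * en n t‖ ^ 2 ≤
      ∫ t in S, ∫ s in S, ‖jacobiTheta₂ 0 (tau N (t - s))‖ := by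
  set μ : Measure ℝ := volume.restrict S with hμ
  set F : ℤ → ℝ × ℝ → ℂ := fun n p =>
    ((vn N n : ℝ) : ℂ) * ((H p.1 * en n p.1) * (starRingEnd ℂ) (H p.2 * en n p.2)) with hF
  have hFm : ∀ n, Measurable (F n) := by
    intro n
    rw [hF]
    have h1 : Measurable fun t => H t * en n t := hH.mul (continuous_en n).measurable
    have h2 : Measurable fun t => (starRingEnd ℂ) (H t * en n t) :=
      Complex.continuous_conj.measurable.comp h1
    exact ((h1.comp measurable_fst).mul (h2.comp measurable_snd)).const_mul _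
  have hFn : ∀ n p, ‖F n p‖ ≤ vn N n := by
    intro n p
    rw [hF]
    simp only
    rw [norm_mul, norm_mul, RCLike.norm_conj, norm_mul, norm_mul, norm_en, norm_en,
      Complex.norm_real, Real.norm_of_nonneg (vn_pos N n).le, mul_one, mul_one]
    have h1 := hH1 p.1
    have h2 := hH1 p.2
    have h3 := (vn_pos N n).le
    calc vn N n * (‖H p.1‖ * ‖H p.2‖) ≤ vn N n * (1 * 1) := by
          refine mul_le_mul_of_nonneg_left ?_ h3
          exact mul_le_mul h1 h2 (norm_nonneg _) (by norm_num)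
      _ = vn N n := by ring
  have hFi : ∀ n, Integrable (F n) (μ.prod μ) := fun n =>
    Integrable.of_bound (hFm n).aestronglyMeasurable (vn N n)
      (Filter.Eventually.of_forall fun p => hFn n p)
  have hsumF : Summable fun n => ∫ p, ‖F n p‖ ∂(μ.prod μ) := by
    refine Summable.of_nonneg_of_le (fun n => integral_nonneg fun p => norm_nonneg _) (fun n => ?_)
      ((summable_vn N hN).mul_right ((μ.prod μ).real Set.univ))
    have h1 := norm_integral_le_of_norm_le_const (μ := μ.prod μ) (f := fun p => ‖F n p‖)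
      (C := vn N n) (Filter.Eventually.of_forall fun p => by
        simpa using hFn n p)
    rw [Real.norm_of_nonneg (integral_nonneg fun p => norm_nonneg _)] at h1
    exact h1
  have hmain := hasSum_integral_of_summable_integral_norm hFi hsumF
  have hint : ∀ n, ∫ p, F n p ∂(μ.prod μ) =
      ((vn N n * ‖∫ t in S, H t * en n t‖ ^ 2 : ℝ) : ℂ) := by
    intro n
    rw [hF]
    simp only
    rw [integral_const_mul, integral_prod_mul (μ := μ) (ν := μ) (fun t => H t * en n t)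
      (fun t => (starRingEnd ℂ) (H t * en n t)), integral_conj, Complex.mul_conj']
    push_cast
    rfl
  have htsum : ∀ p : ℝ × ℝ, ∑' n, F n p =
      H p.1 * (starRingEnd ℂ) (H p.2) * jacobiTheta₂ 0 (tau N (p.1 - p.2)) := by
    intro p
    have h := (hasSum_jacobiTheta₂_term 0 (tau_pos N hN (p.1 - p.2))).mul_left
      (H p.1 * (starRingEnd ℂ) (H p.2))
    rw [← h.tsum_eq]
    refine tsum_congr fun n => ?_
    rw [term_eq, hF]
    simp only [map_mul]
    ring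
  simp only [hint, htsum] at hmain
  have h1 := hmain.tsum_eq
  rw [← Complex.ofReal_tsum] at h1
  have hnn : 0 ≤ ∑' n : ℤ, vn N n * ‖∫ t in S, H t * en n t‖ ^ 2 :=
    tsum_nonneg fun n => mul_nonneg (vn_pos N n).le (by positivity)
  have h2 : ∑' n : ℤ, vn N n * ‖∫ t in S, H t * en n t‖ ^ 2 =
      ‖∫ a : ℝ × ℝ, H a.1 * (starRingEnd ℂ) (H a.2) * jacobiTheta₂ 0 (tau N (a.1 - a.2))
        ∂(μ.prod μ)‖ := by
    rw [← h1, Complex.norm_real, Real.norm_of_nonneg hnn]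
  have hθi : Integrable (fun a : ℝ × ℝ => ‖jacobiTheta₂ 0 (tau N (a.1 - a.2))‖) (μ.prod μ) := by
    refine (Integrable.of_bound (C := ∑' n, vn N n)
      (continuous_theta N hN).aestronglyMeasurable ?_).norm
    exact Filter.Eventually.of_forall fun a => norm_theta_le N hN _
  rw [h2]
  refine (norm_integral_le_integral_norm _).trans ?_
  have h3 : ∫ a : ℝ × ℝ, ‖H a.1 * (starRingEnd ℂ) (H a.2) * jacobiTheta₂ 0 (tau N (a.1 - a.2))‖
      ∂(μ.prod μ) ≤ ∫ a : ℝ × ℝ, ‖jacobiTheta₂ 0 (tau N (a.1 - a.2))‖ ∂(μ.prod μ) := by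
    refine integral_mono_of_nonneg (Filter.Eventually.of_forall fun a => norm_nonneg _) hθi
      (Filter.Eventually.of_forall fun a => ?_)
    simp only
    rw [norm_mul, norm_mul, RCLike.norm_conj]
    have h4 : ‖H a.1‖ * ‖H a.2‖ ≤ 1 := by
      have := mul_le_mul (hH1 a.1) (hH1 a.2) (norm_nonneg _) (by norm_num)
      linarith
    calc ‖H a.1‖ * ‖H a.2‖ * ‖jacobiTheta₂ 0 (tau N (a.1 - a.2))‖
        ≤ 1 * ‖jacobiTheta₂ 0 (tau N (a.1 - a.2))‖ :=
          mul_le_mul_of_nonneg_right h4 (norm_nonneg _)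
      _ = _ := one_mul _
  refine h3.trans (le_of_eq ?_)
  rw [integral_prod _ hθi]

end SqDualAux

open SqDualAux

theorem sq_dual (N : ℕ) (hN : 1 ≤ N) (c : ℕ → ℂ) (lam : ℝ) (hlam : 0 < lam) (S : Set ℝ)
    (hS : MeasurableSet S) (hS1 : S ⊆ Set.Icc 0 1) (hS2 : ∀ t ∈ S, lam ≤ ‖sqs N c t‖) :
    lam ^ 2 * (volume.real S) ^ 2 ≤ Real.exp π * (∑ n ∈ Finset.Icc 1 N, ‖c n‖ ^ 2) *
      ∫ t in S, ∫ s in S, ‖jacobiTheta₂ 0 (2 * ((t - s : ℝ) : ℂ) + I / (N : ℂ) ^ 2)‖ := by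
  have hfin : volume S ≠ ⊤ := by
    refine ne_top_of_le_ne_top ?_ (measure_mono hS1)
    simp
  have hSf : IsFiniteMeasure (volume.restrict S) := ⟨by
    rw [Measure.restrict_apply_univ]; exact lt_top_iff_ne_top.2 hfin⟩
  have hcu : Continuous (sqs N c) := by
    unfold sqs
    fun_prop
  set H : ℝ → ℂ := fun t => (starRingEnd ℂ) (sqs N c t) / ((‖sqs N c t‖ : ℝ) : ℂ) with hH
  have hHm : Measurable H := by
    rw [hH]
    refine Measurable.div ?_ ?_
    · exact Complex.continuous_conj.measurable.comp hcu.measurable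
    · exact Complex.measurable_ofReal.comp hcu.measurable.norm
  have hH1 : ∀ t, ‖H t‖ ≤ 1 := by
    intro t
    rw [hH]
    simp only
    rw [norm_div, RCLike.norm_conj, Complex.norm_real, norm_norm]
    exact div_self_le_one _
  have hHu : ∀ t, sqs N c t * H t = ((‖sqs N c t‖ : ℝ) : ℂ) := by
    intro t
    rw [hH]
    simp only
    rw [← mul_div_assoc, Complex.mul_conj']
    by_cases h : ‖sqs N c t‖ = 0
    · rw [h]; simp
    · have h' : ((‖sqs N c t‖ : ℝ) : ℂ) ≠ 0 := by exact_mod_cast h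
      field_simp
  set h : ℤ → ℂ := fun n => ∫ t in S, H t * en n t with hh
  have hen : ∀ n : ℕ, ∀ t, cexp (2 * π * I * (((n : ℝ) ^ 2 * t : ℝ) : ℂ)) = en (n : ℤ) t := by
    intro n t
    unfold en
    simp
  have hHi : ∀ n : ℤ, Integrable (fun t => H t * en n t) (volume.restrict S) := by
    intro n
    refine Integrable.of_bound (hHm.mul (continuous_en n).measurable).aestronglyMeasurable 1
      (Filter.Eventually.of_forall fun t => ?_)
    rw [norm_mul, norm_en, mul_one]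
    exact hH1 t
  have hsum : ((∫ t in S, ‖sqs N c t‖ : ℝ) : ℂ) = ∑ n ∈ Finset.Icc 1 N, c n * h n := by
    rw [← integral_complex_ofReal]
    have h1 : ∀ t, ((‖sqs N c t‖ : ℝ) : ℂ) =
        ∑ n ∈ Finset.Icc 1 N, c n * (H t * en (n : ℤ) t) := by
      intro t
      rw [← hHu t]
      unfold sqs
      rw [Finset.sum_mul]
      refine Finset.sum_congr rfl fun n _ => ?_
      rw [hen]
      ring
    have h1' : (fun t => ((‖sqs N c t‖ : ℝ) : ℂ)) = fun t =>
        ∑ n ∈ Finset.Icc 1 N, c n * (H t * en (n : ℤ) t) := funext h1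
    calc ∫ t in S, ((‖sqs N c t‖ : ℝ) : ℂ)
        = ∫ t in S, ∑ n ∈ Finset.Icc 1 N, c n * (H t * en (n : ℤ) t) := by rw [h1']
      _ = ∑ n ∈ Finset.Icc 1 N, ∫ t in S, c n * (H t * en (n : ℤ) t) :=
          integral_finsetSum _ fun n _ => (hHi n).const_mul _
      _ = ∑ n ∈ Finset.Icc 1 N, c n * h n := by
          refine Finset.sum_congr rfl fun n _ => ?_
          rw [integral_const_mul]
  have hlow : lam * volume.real S ≤ ∫ t in S, ‖sqs N c t‖ := by
    have h1 : ∫ t in S, lam = lam * volume.real S := by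
      rw [setIntegral_const, smul_eq_mul, mul_comm]
    rw [← h1]
    refine setIntegral_mono_on (integrableOn_const hfin) ?_ hS hS2
    have hb : IntegrableOn (fun t => ‖sqs N c t‖) (Set.Icc 0 1) :=
      hcu.norm.continuousOn.integrableOn_compact isCompact_Icc
    exact hb.mono_set hS1
  have hup : (∫ t in S, ‖sqs N c t‖) ^ 2 ≤
      (∑ n ∈ Finset.Icc 1 N, ‖c n‖ ^ 2) * ∑ n ∈ Finset.Icc 1 N, ‖h n‖ ^ 2 := by
    have h1 : (∫ t in S, ‖sqs N c t‖) ≤ ∑ n ∈ Finset.Icc 1 N, ‖c n‖ * ‖h n‖ := by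
      have h2 : (∫ t in S, ‖sqs N c t‖) = ‖∑ n ∈ Finset.Icc 1 N, c n * h n‖ := by
        rw [← hsum, Complex.norm_real,
          Real.norm_of_nonneg (integral_nonneg fun t => norm_nonneg _)]
      rw [h2]
      refine (norm_sum_le _ _).trans (le_of_eq ?_)
      simp only [norm_mul]
    have h0 : 0 ≤ ∫ t in S, ‖sqs N c t‖ := integral_nonneg fun t => norm_nonneg _
    refine (pow_le_pow_left₀ h0 h1 2).trans ?_
    exact Finset.sum_mul_sq_le_sq_mul_sq _ _ _
  have hkey := key N hN S hSf H hHm hH1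
  have hsm : Summable fun n : ℤ => vn N n * ‖∫ t in S, H t * en n t‖ ^ 2 := by
    refine Summable.of_nonneg_of_le (fun n => mul_nonneg (vn_pos N n).le (by positivity))
      (fun n => ?_) ((summable_vn N hN).mul_right (((volume.restrict S).real Set.univ) ^ 2))
    refine mul_le_mul_of_nonneg_left ?_ (vn_pos N n).le
    refine pow_le_pow_left₀ (norm_nonneg _) ?_ 2
    have h1 := norm_integral_le_of_norm_le_const (μ := volume.restrict S)
      (f := fun t => H t * en n t) (C := 1) (Filter.Eventually.of_forall fun t => by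
        rw [norm_mul, norm_en, mul_one]; exact hH1 t)
    rwa [one_mul] at h1
  have hfinsum : ∑ n ∈ Finset.Icc 1 N, ‖h n‖ ^ 2 ≤ Real.exp π *
      ∑' n : ℤ, vn N n * ‖∫ t in S, H t * en n t‖ ^ 2 := by
    have h1 : ∑ n ∈ Finset.Icc 1 N, ‖h n‖ ^ 2 ≤
        Real.exp π * ∑ n ∈ Finset.Icc 1 N, vn N n * ‖h n‖ ^ 2 := by
      rw [Finset.mul_sum]
      refine Finset.sum_le_sum fun n hn => ?_
      rw [← mul_assoc]
      have h2 : 1 ≤ Real.exp π * vn N (n : ℤ) := by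
        unfold vn
        rw [← Real.exp_add, Real.one_le_exp_iff]
        have hn1 := (Finset.mem_Icc.1 hn).2
        have hN0 : (0 : ℝ) < N := by exact_mod_cast hN
        have hn2 : ((n : ℝ)) ≤ N := by exact_mod_cast hn1
        have h3 : (n : ℝ) ^ 2 / (N : ℝ) ^ 2 ≤ 1 := by
          rw [div_le_one (by positivity)]
          exact pow_le_pow_left₀ (by positivity) hn2 2
        have h4 : -π * (((n : ℕ) : ℤ) : ℝ) ^ 2 / (N : ℝ) ^ 2 = - (π * ((n : ℝ) ^ 2 / (N : ℝ) ^ 2)) := by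
          push_cast; ring
        rw [h4]
        nlinarith [Real.pi_pos]
      have h5 : 0 ≤ ‖h n‖ ^ 2 := by positivity
      nlinarith
    refine h1.trans (mul_le_mul_of_nonneg_left ?_ (Real.exp_pos _).le)
    have h2 : ∑ n ∈ Finset.Icc 1 N, vn N n * ‖h n‖ ^ 2 =
        ∑ m ∈ (Finset.Icc 1 N).map Nat.castEmbedding, vn N m * ‖∫ t in S, H t * en m t‖ ^ 2 := by
      rw [Finset.sum_map]
      rfl
    rw [h2]
    exact hsm.sum_le_tsum _ fun m _ => mul_nonneg (vn_pos N m).le (by positivity)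
  have hsc : 0 ≤ ∑ n ∈ Finset.Icc 1 N, ‖c n‖ ^ 2 := Finset.sum_nonneg fun n _ => by positivity
  have hgoal : (∫ t in S, ∫ s in S, ‖jacobiTheta₂ 0 (2 * ((t - s : ℝ) : ℂ) + I / (N : ℂ) ^ 2)‖) =
      ∫ t in S, ∫ s in S, ‖jacobiTheta₂ 0 (tau N (t - s))‖ := rfl
  rw [hgoal]
  have hVS : 0 ≤ volume.real S := measureReal_nonneg
  calc lam ^ 2 * (volume.real S) ^ 2 = (lam * volume.real S) ^ 2 := by ring
    _ ≤ (∫ t in S, ‖sqs N c t‖) ^ 2 := pow_le_pow_left₀ (by positivity) hlow 2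
    _ ≤ (∑ n ∈ Finset.Icc 1 N, ‖c n‖ ^ 2) * ∑ n ∈ Finset.Icc 1 N, ‖h n‖ ^ 2 := hup
    _ ≤ (∑ n ∈ Finset.Icc 1 N, ‖c n‖ ^ 2) * (Real.exp π *
          ∫ t in S, ∫ s in S, ‖jacobiTheta₂ 0 (tau N (t - s))‖) := by
        refine mul_le_mul_of_nonneg_left ?_ hsc
        exact hfinsum.trans (mul_le_mul_of_nonneg_left hkey (Real.exp_pos _).le)
    _ = _ := by ring

end STZ
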