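import Pool.Agent.STZ.SqDual
import Pool.Agent.STZ.Major
import Pool.Agent.STZ.DivMom

/-!
# STZ/SqLarge: large values of exponential sums with square frequencies

PROOF. `A² = ∑|c_n|²` (if `A = 0` the set is empty), `s = volume.real S`, `S = {t ∈ [0,1] : lam ≤ ‖u‖}`,
`δ = lam/(N^(1/2) A)`; `‖u‖ ≤ N^(1/2) A`, so `S = ∅` if `δ > 1`; assume `K N^(-1/4) ≤ δ ≤ 1`
(`K` large, to be chosen). `C` from `major` (we write `C'`, `C''` for further absolute constants).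
`sq_dual` and `major` with `κ = lam²/(2 e^π A²) = N δ²/(2 e^π)` give
`lam² s²/2 ≤ e^π A² (C/κ) Σ`, i.e. `N² δ⁴ s² ≤ C' Σ`,
`Σ = ∑_{c ≤ Q} ∑_{|k| ≤ N², c ∣ k} ‖Ŝ(k)‖²`, `Q = ⌊C N²/κ²⌋ ≤ C' δ^-4`.
The terms with `k = 0` contribute `Q s² ≤ C' δ^-4 s²`, and `C'² δ^-4 ≤ N² δ⁴/2` if
`δ^8 ≥ 2 C'² N^-2`, which is ensured by `K^8 ≥ 2 C'²`. So
`N² δ⁴ s²/2 ≤ 2 C' ∑_{1≤k≤N²} dQ(k) ‖Ŝ(k)‖²` (as `‖Ŝ(-k)‖ = ‖Ŝ(k)‖`).
Hoelder with an integer `B ≥ 2`, `B' = B/(B-1)`: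
`∑ dQ(k) ‖Ŝ‖² ≤ (∑ dQ(k)^B)^(1/B) (∑ ‖Ŝ(k)‖^(2B'))^(1/B')`,
`‖Ŝ(k)‖ ≤ s`, Bessel `∑ ‖Ŝ(k)‖² ≤ s` (orthonormality of `e(kt)` on `[0,1]`), so the last factor is
`≤ (s^(2B'-2) s)^(1/B') = s^(1+1/B)`. `div_moment` with `σ = 1`: first factor
`≤ (C_B Q N²)^(1/B)`. Therefore `N^(2-2/B) δ⁴ s^(1-1/B) ≤ C'' Q^(1/B)`, i.e.
`(N² s)^(1-1/B) ≤ C'' δ^(-4-4/B)`, `N² s ≤ C''' δ^(-(4B+4)/(B-1))`. Choose `B` with
`(4B+4)/(B-1) ≤ p0`; since `δ ≤ 1`, `N² s ≤ C δ^(-p0)`, and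
`N^-2 δ^(-p0) = N^(p0/2-2) A^p0 lam^(-p0)` with `A^p0 = (A²)^(p0/2)`.
-/

open MeasureTheory Complex
open scoped Real

namespace STZ

private lemma shat_eq {S : Set ℝ} (hS : MeasurableSet S) (hS1 : S ⊆ Set.Icc 0 1) (k : ℤ) :
    fourierCoeffOn (zero_lt_one : (0 : ℝ) < 1) (S.indicator (fun _ => (1 : ℂ))) (-k) = Shat S k := by
  rw [fourierCoeffOn_eq_integral]
  have h1 : ∫ x in (0 : ℝ)..1, (fourier (-(-k))) (x : AddCircle ((1 : ℝ) - 0)) •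
      S.indicator (fun _ => (1 : ℂ)) x = Shat S k := by
    rw [intervalIntegral.integral_of_le zero_le_one, ← integral_Icc_eq_integral_Ioc]
    have h2 : (fun x : ℝ => (fourier (-(-k))) (x : AddCircle ((1 : ℝ) - 0)) •
        S.indicator (fun _ => (1 : ℂ)) x) =
        S.indicator (fun t : ℝ => cexp (2 * π * I * ((k : ℝ) * t : ℝ))) := by
      funext x
      by_cases hx : x ∈ S
      · rw [Set.indicator_of_mem hx, Set.indicator_of_mem hx, fourier_coe_apply]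
        simp
        ring_nf
      · rw [Set.indicator_of_notMem hx, Set.indicator_of_notMem hx]
        simp
    rw [h2, setIntegral_indicator hS, Set.inter_eq_right.2 hS1]
    rfl
  rw [h1]
  simp

private lemma bessel {S : Set ℝ} (hS : MeasurableSet S) (hS1 : S ⊆ Set.Icc 0 1) (F : Finset ℤ) :
    ∑ k ∈ F, ‖Shat S k‖ ^ 2 ≤ volume.real S := by
  have hL2 : MemLp (S.indicator (fun _ => (1 : ℂ))) 2 (volume.restrict (Set.Ioc (0:ℝ) 1)) := by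
    refine MemLp.indicator hS ?_
    exact memLp_const 1
  have h1 := hasSum_sq_fourierCoeffOn (zero_lt_one : (0 : ℝ) < 1) hL2
  have h2 : ∑ i ∈ F.image (fun k => -k), ‖fourierCoeffOn (zero_lt_one : (0 : ℝ) < 1)
      (S.indicator (fun _ => (1 : ℂ))) i‖ ^ 2 ≤ _ :=
    sum_le_hasSum _ (fun _ _ => by positivity) h1
  rw [Finset.sum_image (fun a _ b _ h => by simpa using h)] at h2
  simp only [shat_eq hS hS1] at h2
  refine h2.trans (le_of_eq ?_)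
  rw [intervalIntegral.integral_of_le zero_le_one, ← integral_Icc_eq_integral_Ioc]
  have h3 : (fun x : ℝ => ‖S.indicator (fun _ => (1 : ℂ)) x‖ ^ 2) = S.indicator (fun _ => (1:ℝ)) := by
    funext x
    by_cases hx : x ∈ S
    · rw [Set.indicator_of_mem hx, Set.indicator_of_mem hx]; simp
    · rw [Set.indicator_of_notMem hx, Set.indicator_of_notMem hx]; simp
  rw [h3, setIntegral_indicator hS, Set.inter_eq_right.2 hS1]
  simp [integral_const]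

private lemma shat_le {S : Set ℝ} (hS1 : S ⊆ Set.Icc 0 1) (k : ℤ) :
    ‖Shat S k‖ ≤ volume.real S := by
  unfold Shat
  have hfin : volume S < ⊤ := lt_of_le_of_lt (measure_mono hS1) (by simp)
  have h1 := norm_setIntegral_le_of_norm_le_const (μ := volume) (s := S) (C := 1)
    (f := fun t : ℝ => cexp (2 * π * I * ((k : ℝ) * t : ℝ))) hfin (fun t _ => by
      have h2 : (2 * π * I * ((k : ℝ) * t : ℝ) : ℂ) = ((2 * π * (k * t) : ℝ) : ℂ) * I := by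
        push_cast; ring
      rw [h2, Complex.norm_exp_ofReal_mul_I])
  simpa using h1

private lemma shat_neg {S : Set ℝ} (k : ℤ) : ‖Shat S (-k)‖ = ‖Shat S k‖ := by
  have h1 : Shat S (-k) = (starRingEnd ℂ) (Shat S k) := by
    unfold Shat
    rw [← integral_conj]
    refine integral_congr_ae (Filter.Eventually.of_forall fun t => ?_)
    simp only
    rw [← Complex.exp_conj]
    congr 1
    simp
    left
    exact (map_ofNat (starRingEnd ℂ) 2).symm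
  rw [h1, Complex.norm_conj]

private lemma shat_zero {S : Set ℝ} : ‖Shat S 0‖ = volume.real S := by
  unfold Shat
  simp [integral_const]

/-- the sum over all multiples -/
private lemma sum_split {S : Set ℝ} (Q M : ℕ) :
    ∑ c ∈ Finset.Icc 1 Q, ∑ k ∈ (Finset.Icc (-(M : ℤ)) (M : ℤ)).filter (fun k => (c : ℤ) ∣ k),
      ‖Shat S k‖ ^ 2 = Q * (volume.real S) ^ 2 +
        2 * ∑ k ∈ Finset.Icc 1 M, (dQ Q k : ℝ) * ‖Shat S (k : ℤ)‖ ^ 2 := by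
  have h1 : ∀ c ∈ Finset.Icc 1 Q, ∑ k ∈ (Finset.Icc (-(M : ℤ)) (M : ℤ)).filter
      (fun k => (c : ℤ) ∣ k), ‖Shat S k‖ ^ 2 = (volume.real S) ^ 2 +
        2 * ∑ k ∈ (Finset.Icc 1 M).filter (fun k => c ∣ k), ‖Shat S (k : ℤ)‖ ^ 2 := by
    intro c _
    have h2 : (Finset.Icc (-(M : ℤ)) (M : ℤ)).filter (fun k => (c : ℤ) ∣ k) =
        ({0} : Finset ℤ) ∪ (((Finset.Icc 1 M).filter (fun k => c ∣ k)).image (fun k : ℕ => (k : ℤ)) ∪
          ((Finset.Icc 1 M).filter (fun k => c ∣ k)).image (fun k : ℕ => -(k : ℤ))) := by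
      ext k
      simp only [Finset.mem_filter, Finset.mem_Icc, Finset.mem_union, Finset.mem_singleton,
        Finset.mem_image]
      constructor
      · rintro ⟨⟨h1, h2⟩, h3⟩
        rcases lt_trichotomy k 0 with h | h | h
        · right; right
          refine ⟨(-k).toNat, ⟨⟨by omega, by omega⟩, ?_⟩, by omega⟩
          have h4 : ((c : ℤ)) ∣ (((-k).toNat : ℕ) : ℤ) := by
            rw [Int.toNat_of_nonneg (by omega)]; exact (dvd_neg).2 h3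
          exact_mod_cast h4
        · left; exact h
        · right; left
          refine ⟨k.toNat, ⟨⟨by omega, by omega⟩, ?_⟩, by omega⟩
          have h4 : ((c : ℤ)) ∣ ((k.toNat : ℕ) : ℤ) := by
            rw [Int.toNat_of_nonneg (by omega)]; exact h3
          exact_mod_cast h4
      · rintro (h | ⟨j, ⟨⟨h1, h2⟩, h3⟩, rfl⟩ | ⟨j, ⟨⟨h1, h2⟩, h3⟩, rfl⟩)
        · subst h
          exact ⟨⟨by omega, by omega⟩, dvd_zero _⟩
        · exact ⟨⟨by omega, by omega⟩, by exact_mod_cast h3⟩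
        · exact ⟨⟨by omega, by omega⟩, (dvd_neg).2 (by exact_mod_cast h3)⟩
    rw [h2, Finset.sum_union, Finset.sum_union, Finset.sum_singleton, shat_zero,
      Finset.sum_image, Finset.sum_image]
    · simp only [shat_neg]
      ring
    · intro a _ b _ h; simpa using h
    · intro a _ b _ h; simpa using h
    · rw [Finset.disjoint_left]
      intro k hk hk2
      simp only [Finset.mem_image, Finset.mem_filter, Finset.mem_Icc] at hk hk2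
      obtain ⟨a, ⟨⟨ha, -⟩, -⟩, rfl⟩ := hk
      obtain ⟨b, ⟨⟨hb, -⟩, -⟩, hb2⟩ := hk2
      omega
    · rw [Finset.disjoint_left]
      intro k hk hk2
      simp only [Finset.mem_singleton] at hk
      subst hk
      simp only [Finset.mem_union, Finset.mem_image, Finset.mem_filter, Finset.mem_Icc] at hk2
      rcases hk2 with ⟨a, ⟨⟨ha, -⟩, -⟩, h⟩ | ⟨a, ⟨⟨ha, -⟩, -⟩, h⟩
      · omega
      · omega
  rw [Finset.sum_congr rfl h1, Finset.sum_add_distrib, Finset.sum_const, Nat.card_Icc,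
    ← Finset.mul_sum]
  simp only [Nat.add_sub_cancel, nsmul_eq_mul]
  congr 2
  have h3 : ∀ c ∈ Finset.Icc 1 Q, ∑ k ∈ (Finset.Icc 1 M).filter (fun k => c ∣ k),
      ‖Shat S (k : ℤ)‖ ^ 2 = ∑ k ∈ Finset.Icc 1 M, if c ∣ k then ‖Shat S (k : ℤ)‖ ^ 2 else 0 :=
    fun c _ => Finset.sum_filter _ _
  rw [Finset.sum_congr rfl h3, Finset.sum_comm]
  refine Finset.sum_congr rfl fun k _ => ?_
  rw [← Finset.sum_filter, Finset.sum_const, nsmul_eq_mul]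
  rfl

/-- power mean -/
private lemma power_mean {ι : Type*} (F : Finset ι) (w x : ι → ℝ) (hw : ∀ i ∈ F, 0 ≤ w i)
    (hx : ∀ i ∈ F, 0 ≤ x i) (B : ℕ) :
    (∑ i ∈ F, w i * x i) ^ (B + 1) ≤ (∑ i ∈ F, w i) ^ B * ∑ i ∈ F, w i * x i ^ (B + 1) := by
  set W := ∑ i ∈ F, w i with hW
  have hW0 : 0 ≤ W := Finset.sum_nonneg hw
  rcases hW0.eq_or_lt with h0 | h0
  · have h1 : ∀ i ∈ F, w i = 0 := (Finset.sum_eq_zero_iff_of_nonneg hw).1 h0.symm
    have h2 : ∑ i ∈ F, w i * x i = 0 := Finset.sum_eq_zero fun i hi => by rw [h1 i hi, zero_mul]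
    rw [h2, zero_pow (by omega)]
    exact mul_nonneg (pow_nonneg hW0 _) (Finset.sum_nonneg fun i hi =>
      mul_nonneg (hw i hi) (pow_nonneg (hx i hi) _))
  · have h1 := Real.pow_arith_mean_le_arith_mean_pow F (fun i => w i / W) x
      (fun i hi => div_nonneg (hw i hi) hW0)
      (by rw [← Finset.sum_div, ← hW, div_self h0.ne']) hx (B + 1)
    have h2 : ∑ i ∈ F, w i / W * x i = (∑ i ∈ F, w i * x i) / W := by
      rw [Finset.sum_div]; exact Finset.sum_congr rfl fun i _ => by ring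
    have h3 : ∑ i ∈ F, w i / W * x i ^ (B + 1) = (∑ i ∈ F, w i * x i ^ (B + 1)) / W := by
      rw [Finset.sum_div]; exact Finset.sum_congr rfl fun i _ => by ring
    rw [h2, h3, div_pow, div_le_div_iff₀ (by positivity) h0] at h1
    have h4 : (∑ i ∈ F, w i * x i ^ (B + 1)) * W ^ (B + 1) =
        (W ^ B * ∑ i ∈ F, w i * x i ^ (B + 1)) * W := by ring
    rw [h4] at h1
    exact le_of_mul_le_mul_right h1 h0


/-- the core inequality for a set -/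
private lemma core (C CB : ℝ) (hC : 1 ≤ C) (B : ℕ) (N Q : ℕ) (hN : 2 ≤ N)
    (D s Sg : ℝ) (hD0 : 0 < D) (hs : 0 < s) (hQ : (Q : ℝ) ≤ C / D ^ 2)
    (hbig : 2 * C ^ 2 ≤ (N : ℝ) ^ 2 * D ^ 4)
    (h1 : (N : ℝ) ^ 2 * D ^ 2 * s ^ 2 ≤ C * (Q * s ^ 2 + 2 * Sg))
    (h2 : Sg ^ (B + 1) ≤ s ^ B * (s ^ 2 * (CB * Q * (N : ℝ) ^ 2))) (hCB : 1 ≤ CB) :
    ((N : ℝ) ^ 2 * s) ^ B ≤ (4 * C) ^ (B + 1) * CB * C / D ^ (2 * (B + 1) + 2) := by
  have hNpos : (0 : ℝ) < N := by positivity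
  have hCpos : 0 < C := by linarith
  -- absorb
  have h3 : C * Q * s ^ 2 ≤ (N : ℝ) ^ 2 * D ^ 2 * s ^ 2 / 2 := by
    have h4 : C * Q ≤ (N : ℝ) ^ 2 * D ^ 2 / 2 := by
      have h5 : C * Q ≤ C * (C / D ^ 2) := mul_le_mul_of_nonneg_left hQ hCpos.le
      refine h5.trans ?_
      rw [mul_div_assoc', div_le_iff₀ (by positivity)]
      nlinarith
    nlinarith [sq_nonneg s]
  have h5 : (N : ℝ) ^ 2 * D ^ 2 * s ^ 2 ≤ 4 * C * Sg := by nlinarith
  have h6 : ((N : ℝ) ^ 2 * D ^ 2 * s ^ 2) ^ (B + 1) ≤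
      (4 * C) ^ (B + 1) * (s ^ B * (s ^ 2 * (CB * Q * (N : ℝ) ^ 2))) := by
    calc ((N : ℝ) ^ 2 * D ^ 2 * s ^ 2) ^ (B + 1) ≤ (4 * C * Sg) ^ (B + 1) :=
          pow_le_pow_left₀ (by positivity) h5 _
      _ = (4 * C) ^ (B + 1) * Sg ^ (B + 1) := by ring
      _ ≤ _ := mul_le_mul_of_nonneg_left h2 (by positivity)
  have h7 : ((N : ℝ) ^ 2 * s) ^ B * D ^ (2 * (B + 1)) * ((N : ℝ) ^ 2 * s ^ (B + 2)) ≤
      ((4 * C) ^ (B + 1) * CB * Q) * ((N : ℝ) ^ 2 * s ^ (B + 2)) := by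
    calc ((N : ℝ) ^ 2 * s) ^ B * D ^ (2 * (B + 1)) * ((N : ℝ) ^ 2 * s ^ (B + 2))
        = ((N : ℝ) ^ 2 * D ^ 2 * s ^ 2) ^ (B + 1) := by ring
      _ ≤ _ := h6
      _ = _ := by ring
  have h8 : ((N : ℝ) ^ 2 * s) ^ B * D ^ (2 * (B + 1)) ≤ (4 * C) ^ (B + 1) * CB * Q :=
    le_of_mul_le_mul_right h7 (by positivity)
  have h9 : ((N : ℝ) ^ 2 * s) ^ B * D ^ (2 * (B + 1)) ≤ (4 * C) ^ (B + 1) * CB * (C / D ^ 2) :=
    h8.trans (mul_le_mul_of_nonneg_left hQ (by positivity))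
  rw [le_div_iff₀ (by positivity)]
  have h10 : ((N : ℝ) ^ 2 * s) ^ B * D ^ (2 * (B + 1)) * D ^ 2 ≤
      (4 * C) ^ (B + 1) * CB * (C / D ^ 2) * D ^ 2 :=
    mul_le_mul_of_nonneg_right h9 (by positivity)
  calc ((N : ℝ) ^ 2 * s) ^ B * D ^ (2 * (B + 1) + 2)
      = ((N : ℝ) ^ 2 * s) ^ B * D ^ (2 * (B + 1)) * D ^ 2 := by ring
    _ ≤ _ := h10
    _ = _ := by field_simp

private lemma big_aux {C lam A2 D : ℝ} {N : ℕ} (hC1 : 1 ≤ C) (hN : 1 ≤ N) 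
    (hA2 : 0 < A2) (hlamD : lam ^ 2 = D * (N * A2))
    (hK : 2 * C * (N : ℝ) ^ (1 / 4 : ℝ) * A2 ^ (1 / 2 : ℝ) ≤ lam) :
    2 * C ^ 2 ≤ (N : ℝ) ^ 2 * D ^ 4 := by
  have hNpos : (0 : ℝ) < N := by positivity
  have h4 : (2 * C * (N : ℝ) ^ (1 / 4 : ℝ) * A2 ^ (1 / 2 : ℝ)) ^ 4 ≤ lam ^ 4 :=
    pow_le_pow_left₀ (by positivity) hK 4
  have h5 : ((N : ℝ) ^ (1 / 4 : ℝ)) ^ 4 = N := by
    rw [← Real.rpow_natCast, ← Real.rpow_mul hNpos.le]
    norm_num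
  have h6 : (A2 ^ (1 / 2 : ℝ)) ^ 4 = A2 ^ 2 := by
    rw [← Real.rpow_natCast, ← Real.rpow_mul hA2.le, ← Real.rpow_natCast A2 2]
    norm_num
  have h3 : (2 * C) ^ 4 * N * A2 ^ 2 ≤ lam ^ 4 := by
    calc (2 * C) ^ 4 * N * A2 ^ 2 = (2 * C * (N : ℝ) ^ (1 / 4 : ℝ) * A2 ^ (1 / 2 : ℝ)) ^ 4 := by
          rw [mul_pow (2 * C * (N : ℝ) ^ (1 / 4 : ℝ)), mul_pow (2 * C), h5, h6]
      _ ≤ _ := h4
  have h7 : lam ^ 4 = D ^ 2 * N ^ 2 * A2 ^ 2 := by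
    calc lam ^ 4 = (lam ^ 2) ^ 2 := by ring
      _ = _ := by rw [hlamD]; ring
  rw [h7] at h3
  have h8 : (2 * C) ^ 4 ≤ N * D ^ 2 := by
    have h9 : ((2 * C) ^ 4) * (N * A2 ^ 2) ≤ (N * D ^ 2) * (N * A2 ^ 2) := by
      calc _ = (2 * C) ^ 4 * N * A2 ^ 2 := by ring
        _ ≤ _ := h3
        _ = _ := by ring
    exact le_of_mul_le_mul_right h9 (by positivity)
  have h10 : ((2 * C) ^ 4) ^ 2 ≤ (N * D ^ 2) ^ 2 := pow_le_pow_left₀ (by positivity) h8 2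
  have h11 : 2 * C ^ 2 ≤ ((2 * C) ^ 4) ^ 2 := by
    have h12 : 1 ≤ C ^ 6 := one_le_pow₀ hC1
    have h13 : ((2 * C) ^ 4) ^ 2 = 256 * C ^ 6 * C ^ 2 := by ring
    rw [h13]
    have h14 : 0 ≤ C ^ 2 := by positivity
    nlinarith
  calc 2 * C ^ 2 ≤ (N * D ^ 2) ^ 2 := h11.trans h10
    _ = _ := by ring

theorem sq_large (p0 : ℝ) (hp0 : 4 < p0) : ∃ C K : ℝ, 1 ≤ C ∧ 1 ≤ K ∧
    ∀ (N : ℕ) (c : ℕ → ℂ) (lam : ℝ), 2 ≤ N → 0 < lam →
      K * (N : ℝ) ^ (1 / 4 : ℝ) * (∑ n ∈ Finset.Icc 1 N, ‖c n‖ ^ 2) ^ (1 / 2 : ℝ) ≤ lam →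
      volume.real {t : ℝ | t ∈ Set.Icc 0 1 ∧ lam ≤ ‖sqs N c t‖} ≤
        C * (N : ℝ) ^ (p0 / 2 - 2) * (∑ n ∈ Finset.Icc 1 N, ‖c n‖ ^ 2) ^ (p0 / 2) *
          lam ^ (-p0) := by
  obtain ⟨C0, hC0, hmaj⟩ := major
  -- choose B
  obtain ⟨B, hB1, hB⟩ : ∃ B : ℕ, 1 ≤ B ∧ 2 * (2 * (B + 1 : ℝ) + 2) ≤ p0 * B := by
    obtain ⟨B, hB⟩ := exists_nat_gt (8 / (p0 - 4))
    have h1 : 0 < p0 - 4 := by linarith
    rw [div_lt_iff₀ h1] at hB
    refine ⟨B + 1, by omega, ?_⟩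
    push_cast
    nlinarith
  obtain ⟨CB, hCB, hdiv⟩ := div_moment (B + 1) 1 one_pos
  set E := Real.exp π with hE
  have hE1 : 1 ≤ E := Real.one_le_exp Real.pi_pos.le
  set C := 4 * C0 * E ^ 2 with hC
  have hC1 : 1 ≤ C := by
    have : 1 ≤ E ^ 2 := one_le_pow₀ hE1
    nlinarith
  have hC0C : C0 ≤ C := by
    have : 1 ≤ E ^ 2 := one_le_pow₀ hE1
    nlinarith
  set M := (4 * C) ^ (B + 1) * CB * C with hM
  have hM1 : 1 ≤ M := by
    have h1 : 1 ≤ (4 * C) ^ (B + 1) := one_le_pow₀ (by linarith)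
    have h2 : 1 ≤ (4 * C) ^ (B + 1) * CB := by nlinarith
    nlinarith
  refine ⟨M, 2 * C, hM1, by linarith, ?_⟩
  intro N c lam hN hlam hK
  set A2 := ∑ n ∈ Finset.Icc 1 N, ‖c n‖ ^ 2 with hA2
  have hA20 : 0 ≤ A2 := Finset.sum_nonneg fun _ _ => by positivity
  have hNpos : (0 : ℝ) < N := by positivity
  have hN1 : (1 : ℝ) ≤ N := by exact_mod_cast (by omega : 1 ≤ N)
  set S : Set ℝ := {t : ℝ | t ∈ Set.Icc 0 1 ∧ lam ≤ ‖sqs N c t‖} with hSdef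
  have hcont : Continuous (sqs N c) := by
    unfold sqs
    refine continuous_finsetSum _ fun n _ => ?_
    refine continuous_const.mul ?_
    refine Complex.continuous_exp.comp ?_
    refine continuous_const.mul ?_
    exact Complex.continuous_ofReal.comp (continuous_const.mul continuous_id)
  have hSm : MeasurableSet S :=
    measurableSet_Icc.inter (measurableSet_le measurable_const hcont.norm.measurable)
  have hS1 : S ⊆ Set.Icc 0 1 := fun t ht => ht.1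
  have hS2 : ∀ t ∈ S, lam ≤ ‖sqs N c t‖ := fun t ht => ht.2
  set s := volume.real S with hs
  have hs0 : 0 ≤ s := measureReal_nonneg
  have hRHS : 0 ≤ M * (N : ℝ) ^ (p0 / 2 - 2) * A2 ^ (p0 / 2) * lam ^ (-p0) := by positivity
  rcases hs0.eq_or_lt with hsz | hspos
  · rw [← hsz]; exact hRHS
  -- S nonempty
  have hne : S.Nonempty := by
    by_contra hcon
    rw [Set.not_nonempty_iff_eq_empty] at hcon
    rw [hs, hcon] at hspos
    simp at hspos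
  obtain ⟨t0, ht0⟩ := hne
  have hlamA : lam ^ 2 ≤ N * A2 := by
    have h1 : ‖sqs N c t0‖ ≤ ∑ n ∈ Finset.Icc 1 N, ‖c n‖ := by
      unfold sqs
      refine (norm_sum_le _ _).trans (Finset.sum_le_sum fun n _ => ?_)
      rw [norm_mul]
      have h2 : (2 * π * I * (((n : ℝ) ^ 2 * t0 : ℝ) : ℂ)) =
          ((2 * π * ((n : ℝ) ^ 2 * t0) : ℝ) : ℂ) * I := by push_cast; ring
      rw [h2, Complex.norm_exp_ofReal_mul_I, mul_one]
    have h2 : (∑ n ∈ Finset.Icc 1 N, ‖c n‖) ^ 2 ≤ N * A2 := by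
      have := sq_sum_le_card_mul_sum_sq (s := Finset.Icc 1 N) (f := fun n => ‖c n‖)
      rw [Nat.card_Icc] at this
      simpa using this
    have h3 : lam ≤ ∑ n ∈ Finset.Icc 1 N, ‖c n‖ := (hS2 t0 ht0).trans h1
    exact (pow_le_pow_left₀ hlam.le h3 2).trans h2
  have hA2pos : 0 < A2 := by
    by_contra hcon
    push Not at hcon
    have : A2 = 0 := le_antisymm hcon hA20
    rw [this, mul_zero] at hlamA
    have : 0 < lam ^ 2 := by positivity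
    linarith
  set D := lam ^ 2 / (N * A2) with hD
  have hDpos : 0 < D := by positivity
  have hD1 : D ≤ 1 := by rw [hD, div_le_one (by positivity)]; exact hlamA
  have hlamD : lam ^ 2 = D * (N * A2) := by rw [hD]; field_simp
  set κ := lam ^ 2 / (2 * E * A2) with hκ
  have hEpos : 0 < E := by linarith
  have hκpos : 0 < κ := by positivity
  have hκN : κ = N * D / (2 * E) := by rw [hκ, hlamD]; field_simp
  set Q := ⌊C0 * (N : ℝ) ^ 2 / κ ^ 2⌋₊ with hQ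
  have hQval : C0 * (N : ℝ) ^ 2 / κ ^ 2 = C / D ^ 2 := by
    rw [hκN, hC]; field_simp; ring
  have hD2 : D ^ 2 ≤ 1 := pow_le_one₀ hDpos.le hD1
  have hCD : 1 ≤ C / D ^ 2 := by rw [le_div_iff₀ (by positivity)]; linarith
  have hQ1 : 1 ≤ Q := by
    rw [hQ, hQval]
    exact Nat.le_floor (by simpa using hCD)
  have hQle : (Q : ℝ) ≤ C / D ^ 2 := by
    rw [hQ, hQval]
    exact Nat.floor_le (by positivity)
  set Sg := ∑ k ∈ Finset.Icc 1 (N ^ 2), (dQ Q k : ℝ) * ‖Shat S (k : ℤ)‖ ^ 2 with hSg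
  have hSg0 : 0 ≤ Sg := Finset.sum_nonneg fun _ _ => by positivity
  -- first inequality
  have hdual := sq_dual N (by omega) c lam hlam S hSm hS1 hS2
  have hm := hmaj N hN κ hκpos S hSm hS1
  rw [sum_split Q (N ^ 2)] at hm
  rw [← hs, ← hSg] at hm
  rw [← hs, ← hA2, ← hE] at hdual
  have h1 : (N : ℝ) ^ 2 * D ^ 2 * s ^ 2 ≤ C * (Q * s ^ 2 + 2 * Sg) := by
    have h2 : lam ^ 2 * s ^ 2 ≤ E * A2 * (κ * s ^ 2 + C0 / κ * (Q * s ^ 2 + 2 * Sg)) :=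
      hdual.trans (mul_le_mul_of_nonneg_left hm (by positivity))
    have h3 : E * A2 * (κ * s ^ 2 + C0 / κ * (Q * s ^ 2 + 2 * Sg)) =
        lam ^ 2 * s ^ 2 / 2 + E * A2 * C0 / κ * (Q * s ^ 2 + 2 * Sg) := by
      have h4 : E * A2 * κ = lam ^ 2 / 2 := by rw [hκ]; field_simp
      calc _ = (E * A2 * κ) * s ^ 2 + E * A2 * C0 / κ * (Q * s ^ 2 + 2 * Sg) := by ring
        _ = _ := by rw [h4]; ring
    rw [h3] at h2
    have h5 : lam ^ 2 * s ^ 2 ≤ 2 * (E * A2 * C0 / κ * (Q * s ^ 2 + 2 * Sg)) := by linarith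
    have h6 : E * A2 * C0 / κ = 2 * E ^ 2 * A2 * C0 / (N * D) := by
      rw [hκN]; field_simp
    rw [hlamD, h6] at h5
    have h7 : D * (N * A2) * s ^ 2 * (N * D / A2) ≤
        2 * (2 * E ^ 2 * A2 * C0 / (N * D) * (Q * s ^ 2 + 2 * Sg)) * (N * D / A2) :=
      mul_le_mul_of_nonneg_right h5 (by positivity)
    calc (N : ℝ) ^ 2 * D ^ 2 * s ^ 2 = D * (N * A2) * s ^ 2 * (N * D / A2) := by field_simp
      _ ≤ _ := h7
      _ = C * (Q * s ^ 2 + 2 * Sg) := by rw [hC]; field_simp; ring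
  -- second inequality
  have h2 : Sg ^ (B + 1) ≤ s ^ B * (s ^ 2 * (CB * Q * (N : ℝ) ^ 2)) := by
    have h3 := power_mean (Finset.Icc 1 (N ^ 2)) (fun k => ‖Shat S (k : ℤ)‖ ^ 2)
      (fun k => (dQ Q k : ℝ)) (fun _ _ => by positivity) (fun _ _ => by positivity) B
    have h4 : ∑ k ∈ Finset.Icc 1 (N ^ 2), ‖Shat S (k : ℤ)‖ ^ 2 ≤ s := by
      have := bessel hSm hS1 ((Finset.Icc 1 (N ^ 2)).image (fun k : ℕ => (k : ℤ)))
      rwa [Finset.sum_image (fun a _ b _ h => by simpa using h)] at this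
    have h5 : ∑ k ∈ Finset.Icc 1 (N ^ 2), ‖Shat S (k : ℤ)‖ ^ 2 * (dQ Q k : ℝ) ^ (B + 1) ≤
        s ^ 2 * (CB * Q * (N : ℝ) ^ 2) := by
      calc _ ≤ ∑ k ∈ Finset.Icc 1 (N ^ 2), s ^ 2 * (dQ Q k : ℝ) ^ (B + 1) := by
            refine Finset.sum_le_sum fun k _ => ?_
            refine mul_le_mul_of_nonneg_right ?_ (by positivity)
            exact pow_le_pow_left₀ (norm_nonneg _) (shat_le hS1 _) 2
        _ = s ^ 2 * ∑ k ∈ Finset.Icc 1 (N ^ 2), (dQ Q k : ℝ) ^ (B + 1) := by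
            rw [Finset.mul_sum]
        _ ≤ _ := by
            refine mul_le_mul_of_nonneg_left ?_ (by positivity)
            have h6 := hdiv Q (N ^ 2) hQ1
            rw [Real.rpow_one] at h6
            push_cast at h6
            exact h6
    have h7 : Sg = ∑ k ∈ Finset.Icc 1 (N ^ 2), ‖Shat S (k : ℤ)‖ ^ 2 * (dQ Q k : ℝ) := by
      rw [hSg]; exact Finset.sum_congr rfl fun k _ => mul_comm _ _
    rw [h7]
    refine h3.trans ?_
    refine mul_le_mul (pow_le_pow_left₀ (Finset.sum_nonneg fun _ _ => by positivity) h4 B) h5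
      (Finset.sum_nonneg fun _ _ => by positivity) (by positivity)
  -- largeness
  have hbig : 2 * C ^ 2 ≤ (N : ℝ) ^ 2 * D ^ 4 :=
    big_aux hC1 (by omega) hA2pos hlamD hK
  have hcore := core C CB hC1 B N Q hN D s Sg hDpos hspos hQle hbig h1 h2 hCB
  rw [← hM] at hcore
  -- take roots
  have hBpos : (0 : ℝ) < B := by exact_mod_cast hB1
  have hNs : 0 ≤ (N : ℝ) ^ 2 * s := by positivity
  have h3 : (N : ℝ) ^ 2 * s ≤ M * D ^ (-(p0 / 2)) := by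
    have h4 : (N : ℝ) ^ 2 * s = (((N : ℝ) ^ 2 * s) ^ B) ^ ((B : ℝ)⁻¹) :=
      (Real.pow_rpow_inv_natCast hNs (by omega)).symm
    rw [h4]
    have h5 : (((N : ℝ) ^ 2 * s) ^ B) ^ ((B : ℝ)⁻¹) ≤
        (M / D ^ (2 * (B + 1) + 2)) ^ ((B : ℝ)⁻¹) :=
      Real.rpow_le_rpow (by positivity) hcore (by positivity)
    refine h5.trans ?_
    have h6 : (M / D ^ (2 * (B + 1) + 2)) ^ ((B : ℝ)⁻¹) =
        M ^ ((B : ℝ)⁻¹) * D ^ (-((2 * (B + 1) + 2 : ℝ) / B)) := by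
      rw [Real.div_rpow (by positivity) (by positivity), ← Real.rpow_natCast D,
        ← Real.rpow_mul hDpos.le, div_eq_mul_inv, ← Real.rpow_neg hDpos.le]
      congr 2
      push_cast
      ring
    rw [h6]
    refine mul_le_mul ?_ ?_ (by positivity) (by positivity)
    · calc M ^ ((B : ℝ)⁻¹) ≤ M ^ (1 : ℝ) :=
            Real.rpow_le_rpow_of_exponent_le hM1 (inv_le_one_of_one_le₀ (by exact_mod_cast hB1))
        _ = M := Real.rpow_one M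
    · refine Real.rpow_le_rpow_of_exponent_ge hDpos hD1 ?_
      rw [neg_le_neg_iff, div_le_iff₀ hBpos]
      linarith
  have h4 : s ≤ M * D ^ (-(p0 / 2)) * ((N : ℝ) ^ 2)⁻¹ := by
    rw [← div_eq_mul_inv, le_div_iff₀ (by positivity)]
    linarith
  refine h4.trans (le_of_eq ?_)
  have h5 : D ^ (-(p0 / 2)) = (N : ℝ) ^ (p0 / 2) * A2 ^ (p0 / 2) * lam ^ (-p0) := by
    rw [hD, Real.rpow_neg (by positivity), Real.div_rpow (by positivity) (by positivity),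
      Real.mul_rpow hNpos.le hA20, ← Real.rpow_natCast lam, ← Real.rpow_mul hlam.le,
      Real.rpow_neg hlam.le, inv_div]
    have h6 : ((2 : ℕ) : ℝ) * (p0 / 2) = p0 := by push_cast; ring
    rw [h6, div_eq_mul_inv]
  rw [h5]
  have h6 : (N : ℝ) ^ (p0 / 2 - 2) = (N : ℝ) ^ (p0 / 2) * ((N : ℝ) ^ 2)⁻¹ := by
    rw [Real.rpow_sub hNpos, div_eq_mul_inv]
    congr 2
    norm_num
  rw [h6]
  ring

end STZ
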