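import Pool.Agent.STZ.FullDefs

/-!
# STZ: the definitions used in the statement of the hand-in
-/

open MeasureTheory Matrix Complex
open scoped ENNReal NNReal

namespace STZ

/-- The compact group `T^n x SU(2)^m`; each circle is `ℝ/ℤ`. -/
def Gr (n m : ℕ) : Type := (Fin n → UnitAddCircle) × (Fin m → SU2)

/-- The Haar probability measure of `T^n x SU(2)^m` (product of the factors). -/
noncomputable instance instMeasureSpaceGr (n m : ℕ) : MeasureSpace (Gr n m) :=
  Measure.prod.measureSpace (α := Fin n → UnitAddCircle) (β := Fin m → SU2)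

/-- The Hilbert space `L²(T^n x SU(2)^m)`. -/
def L2G (n m : ℕ) : Type := Lp ℂ 2 (volume : Measure (Gr n m))

noncomputable instance instNormedL2G (n m : ℕ) : NormedAddCommGroup (L2G n m) :=
  Lp.instNormedAddCommGroup (α := Gr n m) (E := ℂ) (p := 2) (μ := volume)

noncomputable instance instInnerL2G (n m : ℕ) : InnerProductSpace ℂ (L2G n m) :=
  L2.innerProductSpace (α := Gr n m) (E := ℂ) (𝕜 := ℂ) (μ := volume)

instance instCompleteL2G (n m : ℕ) : CompleteSpace (L2G n m) :=
  Lp.instCompleteSpace (α := Gr n m) (E := ℂ) (p := 2) (μ := volume)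

/-- An element of `L²(T^n x SU(2)^m)` as a function. -/
noncomputable def L2G.fn {n m : ℕ} (f : L2G n m) : Gr n m → ℂ := f.1

theorem mono_memLp {n m : ℕ} (l : Idx n m) (a b : Fin m → Fin 2 → ℂ) :
    MemLp (fun x : Gr n m => mono l a b x) 2 volume := by
  have h := Lp.memLp (monoL2 l a b)
  refine (memLp_congr_ae ?_).1 h
  exact ContinuousMap.coeFn_toLp (E := ℂ) (p := 2) (𝕜 := ℂ) (volume : Measure (G n m))
    (⟨mono l a b, mono_continuous l a b⟩ : C(G n m, ℂ))

/-- The product eigenfunction `mono l a b` as an element of `L²(T^n x SU(2)^m)`. -/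
noncomputable def eigFn {n m : ℕ} (l : Idx n m) (a b : Fin m → Fin 2 → ℂ) : L2G n m :=
  (mono_memLp l a b).toLp _

/-- The joint eigenspace with parameter `l`: the closed span in `L²(T^n x SU(2)^m)` of the product
eigenfunctions `mono l a b`. -/
noncomputable def eigSp {n m : ℕ} (l : Idx n m) : Submodule ℂ (L2G n m) :=
  (Submodule.span ℂ {F | ∃ a b : Fin m → Fin 2 → ℂ, F = eigFn l a b}).topologicalClosure

instance instProjEigSp {n m : ℕ} (l : Idx n m) : (eigSp l).HasOrthogonalProjection := by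
  unfold eigSp
  infer_instance

/-- The orthogonal projection of `L²(T^n x SU(2)^m)` onto the joint eigenspace. -/
noncomputable def eigProj {n m : ℕ} (l : Idx n m) (f : L2G n m) : L2G n m :=
  (eigSp l).starProjection f

/-- The Schrodinger group `e^{itΔ} f = ∑ e^{- i t ev(l)} proj_l f` on `L²(T^n x SU(2)^m)`. -/
noncomputable def eitD {n m : ℕ} (α : Fin n → ℝ) (β : Fin m → ℝ) (t : ℝ) (f : L2G n m) :
    L2G n m :=
  ∑' l : Idx n m, cexp (-((t * ev α β l : ℝ) : ℂ) * I) • eigProj l f

/-- The square of the Sobolev norm `‖f‖_{H^s}`: `∑ (1 + ev(l))^s ‖proj_l f‖²`, possibly `∞`. -/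
noncomputable def sobSq {n m : ℕ} (α : Fin n → ℝ) (β : Fin m → ℝ) (s : ℝ) (f : L2G n m) : ℝ≥0∞ :=
  ∑' l : Idx n m, ENNReal.ofReal ((1 + ev α β l) ^ s * ‖eigProj l f‖ ^ 2)

end STZ
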