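import Pool.Agent.STZ.StmtDefs
import Pool.Agent.STZ.FullMain

/-!
# STZ: the main theorem in the form of the hand-in
-/

open MeasureTheory Matrix Complex
open scoped ENNReal NNReal

namespace STZ

variable {n m : ℕ}

theorem eigFn_eq (l : Idx n m) (a b : Fin m → Fin 2 → ℂ) : eigFn l a b = monoL2 l a b := by
  have h2 := ContinuousMap.coeFn_toLp (E := ℂ) (p := 2) (𝕜 := ℂ) (volume : Measure (G n m))
    (⟨mono l a b, mono_continuous l a b⟩ : C(G n m, ℂ))
  have h1 := (mono_memLp l a b).coeFn_toLp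
  exact Lp.ext (μ := (volume : Measure (G n m))) (h1.trans h2.symm)

theorem eigSp_eq (l : Idx n m) : eigSp l =
    (Submodule.span ℂ {F | ∃ a b : Fin m → Fin 2 → ℂ, F = monoL2 l a b}).topologicalClosure := by
  unfold eigSp
  have h : {F : L2G n m | ∃ a b : Fin m → Fin 2 → ℂ, F = eigFn l a b} =
      {F : Lp ℂ 2 (volume : Measure (G n m)) | ∃ a b : Fin m → Fin 2 → ℂ, F = monoL2 l a b} := by
    ext F
    constructor
    · rintro ⟨a, b, rfl⟩
      exact ⟨a, b, eigFn_eq l a b⟩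
    · rintro ⟨a, b, rfl⟩
      exact ⟨a, b, (eigFn_eq l a b).symm⟩
  rw [h]
  rfl

theorem eigProj_eq (l : Idx n m) (f : L2G n m) : eigProj l f = proj l f := by
  unfold eigProj proj
  have h := eigSp_eq (n := n) (m := m) l
  have key : ∀ (S T : Submodule ℂ (L2G n m)) (hS : S.HasOrthogonalProjection)
      (hT : T.HasOrthogonalProjection), S = T →
      @Submodule.starProjection ℂ (L2G n m) _ _ _ S hS f =
        @Submodule.starProjection ℂ (L2G n m) _ _ _ T hT f := by
    intro S T _ _ hST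
    subst hST
    rfl
  exact key (eigSp l) _ (instProjEigSp l) (h ▸ instProjEigSp l) h

theorem eitD_eq (α : Fin n → ℝ) (β : Fin m → ℝ) (t : ℝ) (f : L2G n m) :
    eitD α β t f = schrodinger α β t f := by
  unfold eitD schrodinger
  have h : (fun l : Idx n m => cexp (-((t * ev α β l : ℝ) : ℂ) * I) • eigProj l f) =
      fun l : Idx n m => cexp (-((t * ev α β l : ℝ) : ℂ) * I) • (proj l f : L2G n m) := by
    funext l
    rw [eigProj_eq]
    rfl
  rw [h]
  rfl

theorem sobSq_eq (α : Fin n → ℝ) (β : Fin m → ℝ) (s : ℝ) (f : L2G n m) :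
    sobSq α β s f = sobolevSq α β s f := by
  unfold sobSq sobolevSq
  refine tsum_congr fun l => ?_
  rw [eigProj_eq]
  rfl

theorem strichartz_stmt (hr : 1 ≤ n + m) (α : Fin n → ℝ) (β : Fin m → ℝ)
    (hα : ∀ i, 0 < α i) (hβ : ∀ j, 0 < β j) (a b : ℝ) (hab : a < b) (p : ℝ)
    (hp : 2 + 8 / ((n : ℝ) + m) < p ∨ (1 ≤ m ∧ 4 < p)) :
    ∃ C : ℝ≥0, ∀ f : L2G n m,
      ∫⁻ t in Set.Icc a b, (eLpNorm (eitD α β t f).fn (ENNReal.ofReal p) volume) ^ p ≤
        C * (sobSq α β (((n : ℝ) + 3 * m) / 2 - ((n : ℝ) + 3 * m + 2) / p) f) ^ (p / 2) := by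
  obtain ⟨C, hC⟩ := strichartz_full hr α β hα hβ p hp a b hab
  refine ⟨C, fun f => ?_⟩
  have h := hC f
  push_cast at h
  rw [sobSq_eq]
  have h2 : ∀ t, eLpNorm (eitD α β t f).fn (ENNReal.ofReal p) volume =
      eLpNorm (schrodinger α β t f) (ENNReal.ofReal p) volume := by
    intro t
    rw [eitD_eq]
    rfl
  simp only [h2]
  exact h

end STZ
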