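import Mathlib

/-!
# STZ/Theta1: SL2(Z)-invariance of the sup bound of the Jacobi theta function

For `τ` in the upper half plane and `B : ℝ`, `NB τ B` says
`(Im τ)^(1/4) ‖θ(z,τ)‖ ≤ B exp(π (Im z)²/Im τ)` for all `z`.
PROOF of the invariance.
* `T`: `θ(z, τ+1) = θ(z + 1/2, τ)` term by term (`e^{π i n²} = e^{π i n}` because `n² - n` is even),
  and `Im (z + 1/2) = Im z`, `Im (τ+1) = Im τ`.
* `S`: `jacobiTheta₂_functional_equation`:
  `‖θ(z,τ)‖ = ‖τ‖^(-1/2) exp(Re(-π i z²/τ)) ‖θ(z/τ, -1/τ)‖`. Here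
  `Re(-π i z²/τ) = π Im(z²/τ)`, `Im(-1/τ) = Im τ/‖τ‖²` and
  `Im(z²/τ) + (Im(z/τ))²/Im(-1/τ) = (Im z)²/Im τ` (write `z = w τ` and compute, or clear
  denominators with `z = x + i y`, `τ = a + i b`). The factor `‖τ‖^(-1/2)` is compensated by
  `(Im(-1/τ))^(1/4) = (Im τ)^(1/4) ‖τ‖^(-1/2)`. So `NB (S•τ) B → NB τ B` and conversely (apply it
  twice; `S•(S•τ) = τ`).
* all of `SL(2,ℤ)`: `Matrix.SpecialLinearGroup.SL2Z_generators : closure {S, T} = ⊤` (file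
  Mathlib/LinearAlgebra/Matrix/FixedDetMatrices.lean) and `Subgroup.closure_induction` for the
  property `∀ τ B, NB (γ • τ) B ↔ NB τ B`.
-/

open Complex UpperHalfPlane
open scoped Real MatrixGroups

namespace STZ

/-- The normalised sup bound. -/
def NB (τ : ℍ) (B : ℝ) : Prop :=
  ∀ z : ℂ, (τ.im) ^ (1 / 4 : ℝ) * ‖jacobiTheta₂ z (τ : ℂ)‖ ≤ B * Real.exp (π * z.im ^ 2 / τ.im)

lemma theta_add_one (z τ : ℂ) : jacobiTheta₂ z (τ + 1) = jacobiTheta₂ (z + 1 / 2) τ := by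
  refine tsum_congr (fun n ↦ ?_)
  simp_rw [jacobiTheta₂_term]
  obtain ⟨k, hk⟩ : ∃ k : ℤ, n ^ 2 - n = 2 * k := by
    have h : Even (n * (n - 1)) := by
      rcases Int.even_or_odd n with h | h
      · exact h.mul_right _
      · exact (h.sub_odd odd_one).mul_left _
    obtain ⟨k, hk⟩ := h
    exact ⟨k, by linarith [hk, (by ring : n ^ 2 - n = n * (n - 1))]⟩
  have hk' : (n : ℂ) ^ 2 = n + 2 * k := by
    have : ((n ^ 2 - n : ℤ) : ℂ) = ((2 * k : ℤ) : ℂ) := by rw [hk]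
    push_cast at this
    linear_combination this
  have e : 2 * (π : ℂ) * Complex.I * n * z + π * Complex.I * n ^ 2 * (τ + 1)
      = (2 * (π : ℂ) * Complex.I * n * (z + 1 / 2) + π * Complex.I * n ^ 2 * τ) + k * (2 * π * Complex.I) := by
    linear_combination (π : ℂ) * Complex.I * hk'
  rw [e, Complex.exp_add, Complex.exp_int_mul_two_pi_mul_I, mul_one]

lemma NB_T (τ : ℍ) (B : ℝ) : NB (ModularGroup.T • τ) B ↔ NB τ B := by
  have him : (ModularGroup.T • τ).im = τ.im := by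
    rw [modular_T_smul, vadd_im]
  have hco : ((ModularGroup.T • τ : ℍ) : ℂ) = (τ : ℂ) + 1 := by
    rw [modular_T_smul, coe_vadd]
    push_cast
    ring
  have hh : ((1 / 2 : ℂ)).im = 0 := by norm_num
  unfold NB
  rw [him, hco]
  constructor
  · intro h z
    have h1 := h (z - 1 / 2)
    rw [theta_add_one, sub_add_cancel, Complex.sub_im, hh, sub_zero] at h1
    exact h1
  · intro h z
    have h1 := h (z + 1 / 2)
    rw [← theta_add_one, Complex.add_im, hh, add_zero] at h1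
    exact h1

lemma NB_S_imp (τ : ℍ) (B : ℝ) (h : NB (ModularGroup.S • τ) B) : NB τ B := by
  intro z
  have hτ : 0 < (τ : ℂ).im := τ.im_pos
  have hτ0 : (τ : ℂ) ≠ 0 := τ.ne_zero
  have hn : 0 < ‖(τ : ℂ)‖ := norm_pos_iff.2 hτ0
  have hns : ‖(τ : ℂ)‖ ^ 2 = (τ : ℂ).re ^ 2 + (τ : ℂ).im ^ 2 := by
    rw [← Complex.normSq_eq_norm_sq, Complex.normSq_apply]; ring
  have hco : ((ModularGroup.S • τ : ℍ) : ℂ) = -1 / (τ : ℂ) := by
    rw [modular_S_smul]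
    show (-(τ : ℂ))⁻¹ = _
    rw [neg_div, one_div, inv_neg]
  have him : (ModularGroup.S • τ).im = (τ : ℂ).im / ‖(τ : ℂ)‖ ^ 2 := by
    show ((ModularGroup.S • τ : ℍ) : ℂ).im = _
    rw [hco, neg_div, one_div, Complex.neg_im, Complex.inv_im, Complex.normSq_eq_norm_sq]
    ring
  have h1 := h (z / τ)
  rw [him, hco] at h1
  have hfe := jacobiTheta₂_functional_equation z (τ : ℂ)
  have hnorm : ‖jacobiTheta₂ z (τ : ℂ)‖ = ‖(τ : ℂ)‖ ^ (-(1 / 2) : ℝ) *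
      Real.exp (π * (z ^ 2 / (τ : ℂ)).im) * ‖jacobiTheta₂ (z / τ) (-1 / τ)‖ := by
    rw [hfe, norm_mul, norm_mul, norm_div, norm_one, Complex.norm_exp]
    congr 2
    · rw [show ((1 / 2 : ℂ)) = ((1 / 2 : ℝ) : ℂ) by push_cast; ring, Complex.norm_cpow_real,
        norm_mul, norm_neg, Complex.norm_I, one_mul, Real.rpow_neg hn.le, one_div]
    · congr 1
      have : -(π : ℂ) * Complex.I * z ^ 2 / (τ : ℂ) = ((-π : ℝ) : ℂ) * (Complex.I * (z ^ 2 / (τ : ℂ))) := by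
        push_cast; ring
      rw [this, Complex.re_ofReal_mul, Complex.I_mul_re]
      ring
  have hpow : ((τ : ℂ).im / ‖(τ : ℂ)‖ ^ 2) ^ (1 / 4 : ℝ)
      = (τ : ℂ).im ^ (1 / 4 : ℝ) * ‖(τ : ℂ)‖ ^ (-(1 / 2) : ℝ) := by
    rw [Real.div_rpow hτ.le (by positivity), ← Real.rpow_natCast, ← Real.rpow_mul hn.le,
      Real.rpow_neg hn.le, div_eq_mul_inv]
    congr 3
    norm_num
  rw [hpow] at h1
  have hid : (z ^ 2 / (τ : ℂ)).im + (z / (τ : ℂ)).im ^ 2 / ((τ : ℂ).im / ‖(τ : ℂ)‖ ^ 2)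
      = z.im ^ 2 / (τ : ℂ).im := by
    have hs : (τ : ℂ).re ^ 2 + (τ : ℂ).im ^ 2 ≠ 0 := by positivity
    have e1 : (z ^ 2 / (τ : ℂ)).im = (2 * z.re * z.im * (τ : ℂ).re -
        (z.re ^ 2 - z.im ^ 2) * (τ : ℂ).im) / ((τ : ℂ).re ^ 2 + (τ : ℂ).im ^ 2) := by
      rw [Complex.div_im, Complex.normSq_apply, pow_two z, Complex.mul_im, Complex.mul_re]
      field_simp
      ring
    have e2 : (z / (τ : ℂ)).im = (z.im * (τ : ℂ).re - z.re * (τ : ℂ).im) /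
        ((τ : ℂ).re ^ 2 + (τ : ℂ).im ^ 2) := by
      rw [Complex.div_im, Complex.normSq_apply]
      field_simp
    rw [e1, e2, hns]
    field_simp
    ring
  show (τ : ℂ).im ^ (1 / 4 : ℝ) * ‖jacobiTheta₂ z (τ : ℂ)‖ ≤
    B * Real.exp (π * z.im ^ 2 / (τ : ℂ).im)
  rw [hnorm]
  calc (τ : ℂ).im ^ (1 / 4 : ℝ) * (‖(τ : ℂ)‖ ^ (-(1 / 2) : ℝ) *
      Real.exp (π * (z ^ 2 / (τ : ℂ)).im) * ‖jacobiTheta₂ (z / τ) (-1 / τ)‖)
      = Real.exp (π * (z ^ 2 / (τ : ℂ)).im) * ((τ : ℂ).im ^ (1 / 4 : ℝ) *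
        ‖(τ : ℂ)‖ ^ (-(1 / 2) : ℝ) * ‖jacobiTheta₂ (z / τ) (-1 / τ)‖) := by ring
    _ ≤ Real.exp (π * (z ^ 2 / (τ : ℂ)).im) * (B * Real.exp (π * (z / (τ : ℂ)).im ^ 2 /
        ((τ : ℂ).im / ‖(τ : ℂ)‖ ^ 2))) :=
        mul_le_mul_of_nonneg_left h1 (Real.exp_pos _).le
    _ = B * Real.exp (π * z.im ^ 2 / (τ : ℂ).im) := by
        rw [mul_left_comm, ← Real.exp_add]
        congr 2
        rw [mul_div_assoc, mul_div_assoc, ← mul_add, hid]

lemma NB_S (τ : ℍ) (B : ℝ) : NB (ModularGroup.S • τ) B ↔ NB τ B := by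
  refine ⟨NB_S_imp τ B, fun h => NB_S_imp _ B ?_⟩
  have : ModularGroup.S • ModularGroup.S • τ = τ := by
    ext
    rw [modular_S_smul, modular_S_smul]
    show (-(-(τ : ℂ))⁻¹)⁻¹ = (τ : ℂ)
    rw [inv_neg, inv_inv, neg_neg]
  rw [this]
  exact h

theorem NB_smul (γ : SL(2, ℤ)) (τ : ℍ) (B : ℝ) : NB (γ • τ) B ↔ NB τ B := by
  have hγ : γ ∈ Subgroup.closure {ModularGroup.S, ModularGroup.T} := by
    rw [SpecialLinearGroup.SL2Z_generators]; trivial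
  revert τ
  refine Subgroup.closure_induction (p := fun γ _ => ∀ τ : ℍ, NB (γ • τ) B ↔ NB τ B)
    ?_ ?_ ?_ ?_ hγ
  · rintro x (rfl | hx) τ
    · exact NB_S τ B
    · rw [Set.mem_singleton_iff.1 hx]
      exact NB_T τ B
  · intro τ
    rw [one_smul]
  · intro x y _ _ hx hy τ
    rw [mul_smul, hx, hy]
  · intro x _ hx τ
    rw [← hx (x⁻¹ • τ), smul_inv_smul]

end STZ
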